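import Mathlib
import Pool.Agent.UTM.Data

/-!
The checker for the certificate.  Everything is computed on natural numbers.
-/
set_option autoImplicit false

namespace Pool.Agent.UTM

/-- reduction of a code by a list of codes -/
def red : List ℕ → ℕ → ℕ
  | [], v => v
  | t :: G, v => bif Nat.ble v (Nat.xor v t) then red G v else red G (Nat.xor v t)

/-- bounded universal quantifier -/
def allTo : ℕ → (ℕ → Bool) → Bool
  | 0, _ => true
  | n + 1, f => (f n) && allTo n f

/-- bounded sum -/
def sumTo : ℕ → (ℕ → ℕ) → ℕ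
  | 0, _ => 0
  | n + 1, f => sumTo n f + f n

/-- field extraction -/
def fld (T s b : ℕ) : ℕ := Nat.mod (Nat.shiftRight T s) b

/-- record of the generators of state `k` -/
def recG (k : ℕ) : ℕ := fld tabG (56 * k) 72057594037927936

/-- decoding of a list of codes -/
def gl : ℕ → ℕ → List ℕ
  | 0, _ => []
  | f + 1, R => bif Nat.beq R 0 then [] else (Nat.mod R 256) :: gl f (Nat.shiftRight R 8)

/-- generators of state `k` -/
def gens (k : ℕ) : List ℕ := gl 7 (recG k)

/-- record of the potentials of state `k` -/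
def recV (k : ℕ) : ℕ := fld tabV (40 * k) 1099511627776

def pot0 (k : ℕ) : ℕ := fld (recV k) 0 1048576
def pot1 (k : ℕ) : ℕ := fld (recV k) 20 1048576

/-- record of the transitions of state `k` -/
def recT (k : ℕ) : ℕ := fld tabT (468 * k) (Nat.pow 2 468)

def trK (k cl j : ℕ) : ℕ := fld (recT k) (52 * cl + 26 * j) 2048
def trS (k cl j : ℕ) : ℕ := fld (recT k) (52 * cl + 26 * j + 11) 16
def trA (k cl j : ℕ) : ℕ := fld (recT k) (52 * cl + 26 * j + 15) 2
def trC (k cl j : ℕ) : ℕ := fld (recT k) (52 * cl + 26 * j + 16) 1024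

/-- the operation of the clock `x + k` on a code based at `x` -/
def opc (k g : ℕ) : ℕ :=
  bif Nat.beq (Nat.mod (Nat.shiftRight g k) 2) 1 then Nat.xor g (Nat.shiftLeft 1 (k + 1)) else g

/-- generators (based at `x - 1`) after the clock `x - 1 + cl` -/
def wl (cl : ℕ) (G : List ℕ) : List ℕ :=
  match cl with
  | 0 => 3 :: G.map (fun g => Nat.shiftLeft g 1)
  | k + 1 => 1 :: G.map (fun g => Nat.shiftLeft (opc k g) 1)

/-- one vector lies in the target -/
def okw (G : List ℕ) (s a c w : ℕ) : Bool :=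
  (Nat.beq (red G (Nat.shiftRight w s)) 0) ||
    ((Nat.beq a 1) && (Nat.beq (red G (Nat.shiftRight (Nat.xor w c) s)) 0))

def chkTr (k cl j : ℕ) : Bool :=
  (Nat.blt (trK k cl j) 1001) &&
    (wl cl (gens k)).all (okw (gens (trK k cl j)) (trS k cl j) (trA k cl j) (trC k cl j))

def chk0 (k : ℕ) : Bool :=
  Nat.ble (sumTo 9 fun cl => sumTo 2 fun j => pot0 (trK k cl j) + 100000 * trA k cl j)
    (18 * pot0 k + 28500)

def chk1 (k : ℕ) : Bool :=
  Nat.ble (sumTo 9 fun cl => sumTo 2 fun j =>
      pot1 (trK k cl j) + 100000 * trA k cl j + 100000 * trS k cl j)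
    (18 * pot1 k + 28500 + 1800000)

def chk (k : ℕ) : Bool :=
  (allTo 9 fun cl => allTo 2 fun j => chkTr k cl j) && (chk0 k && chk1 k)

end Pool.Agent.UTM
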