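import Mathlib
import Pool.Agent.UTM.Check

/-!
Linear algebra of the row spaces: codes, spans, the effect of a row operation.
-/
set_option autoImplicit false
set_option linter.unusedSectionVars false

namespace Pool.Agent.UTM

variable {V : Type*} [AddCommGroup V] [Module (ZMod 2) V]

/-- the vector coded by the bits of `c`, based at row `x` -/
def vec (r : ℕ → V) (x c : ℕ) : V :=
  ∑ k ∈ Finset.range c, if c.testBit k then r (x + k) else 0

lemma vec_eq_max (r : ℕ → V) (x : ℕ) {c m : ℕ} (h : c < 2 ^ m) (M : ℕ) (hM : m ≤ M) :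
    ∑ k ∈ Finset.range M, (if c.testBit k then r (x + k) else 0)
      = ∑ k ∈ Finset.range m, if c.testBit k then r (x + k) else 0 := by
  symm
  apply Finset.sum_subset
  · intro k hk
    rw [Finset.mem_range] at hk ⊢
    omega
  · intro k _ hk
    rw [Finset.mem_range, not_lt] at hk
    have hlt : c < 2 ^ k := lt_of_lt_of_le h (Nat.pow_le_pow_right (by norm_num) hk)
    rw [Nat.testBit_eq_false_of_lt hlt]
    simp

lemma vec_eq (r : ℕ → V) (x : ℕ) {c m : ℕ} (h : c < 2 ^ m) :
    vec r x c = ∑ k ∈ Finset.range m, if c.testBit k then r (x + k) else 0 := by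
  unfold vec
  rw [← vec_eq_max r x h (max c m) (le_max_right _ _),
    ← vec_eq_max r x (Nat.lt_two_pow_self (n := c)) (max c m) (le_max_left _ _)]

@[simp] lemma vec_zero (r : ℕ → V) (x : ℕ) : vec r x 0 = 0 := by
  simp [vec]

lemma vec_xor (r : ℕ → V) (x a b : ℕ) : vec r x (a ^^^ b) = vec r x a + vec r x b := by
  have ha : a < 2 ^ (max a b) :=
    lt_of_lt_of_le (Nat.lt_two_pow_self (n := a)) (Nat.pow_le_pow_right (by norm_num) (le_max_left _ _))
  have hb : b < 2 ^ (max a b) :=
    lt_of_lt_of_le (Nat.lt_two_pow_self (n := b)) (Nat.pow_le_pow_right (by norm_num) (le_max_right _ _))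
  rw [vec_eq r x ha, vec_eq r x hb, vec_eq r x (Nat.xor_lt_two_pow ha hb), ← Finset.sum_add_distrib]
  apply Finset.sum_congr rfl
  intro k _
  rw [Nat.testBit_xor]
  cases a.testBit k <;> cases b.testBit k <;> simp [ZModModule.add_self]

lemma vec_shift (r : ℕ → V) (x v s : ℕ) :
    vec r x v = (∑ k ∈ Finset.range s, if v.testBit k then r (x + k) else 0)
      + vec r (x + s) (v >>> s) := by
  have h1 : v < 2 ^ (s + v) :=
    lt_of_lt_of_le (Nat.lt_two_pow_self (n := v)) (Nat.pow_le_pow_right (by norm_num) (by omega))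
  have h2 : v >>> s < 2 ^ v := by
    rw [Nat.shiftRight_eq_div_pow]
    exact lt_of_le_of_lt (Nat.div_le_self _ _) (Nat.lt_two_pow_self (n := v))
  rw [vec_eq r x h1, vec_eq r (x + s) h2, Finset.sum_range_add]
  congr 1
  apply Finset.sum_congr rfl
  intro k _
  rw [Nat.testBit_shiftRight, add_assoc]

/-- the space spanned by the rows below `x` and the coded vectors -/
def sp (r : ℕ → V) (x : ℕ) (G : List ℕ) : Submodule (ZMod 2) V :=
  Submodule.span (ZMod 2) ({v | ∃ i < x, v = r i} ∪ {v | ∃ g ∈ G, v = vec r x g})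

lemma row_mem (r : ℕ → V) {x i : ℕ} (G : List ℕ) (h : i < x) : r i ∈ sp r x G :=
  Submodule.subset_span (Or.inl ⟨i, h, rfl⟩)

lemma code_mem (r : ℕ → V) (x : ℕ) {G : List ℕ} {g : ℕ} (h : g ∈ G) : vec r x g ∈ sp r x G :=
  Submodule.subset_span (Or.inr ⟨g, h, rfl⟩)

lemma sp_le (r : ℕ → V) (x : ℕ) (G : List ℕ) (S : Submodule (ZMod 2) V)
    (h1 : ∀ i < x, r i ∈ S) (h2 : ∀ g ∈ G, vec r x g ∈ S) : sp r x G ≤ S := by
  unfold sp
  rw [Submodule.span_le]
  rintro v (⟨i, hi, rfl⟩ | ⟨g, hg, rfl⟩)
  · exact h1 i hi
  · exact h2 g hg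

lemma red_mem (r : ℕ → V) (x : ℕ) (S : Submodule (ZMod 2) V) :
    ∀ (G : List ℕ) (v : ℕ), (∀ g ∈ G, vec r x g ∈ S) → red G v = 0 → vec r x v ∈ S := by
  intro G
  induction G with
  | nil =>
      intro v _ h
      have hv : v = 0 := h
      rw [hv, vec_zero]
      exact S.zero_mem
  | cons t G ih =>
      intro v hG h
      have hG' : ∀ g ∈ G, vec r x g ∈ S := fun g hg => hG g (List.mem_cons_of_mem _ hg)
      unfold red at h
      by_cases hb : Nat.ble v (Nat.xor v t) = true
      · rw [hb, cond_true] at h
        exact ih v hG' h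
      · rw [Bool.not_eq_true] at hb
        rw [hb, cond_false] at h
        have h2 : vec r x (v ^^^ t) ∈ S := ih _ hG' h
        rw [vec_xor] at h2
        have h3 := S.sub_mem h2 (hG t List.mem_cons_self)
        rwa [add_sub_cancel_right] at h3

lemma shifted_mem (r : ℕ → V) (y s : ℕ) (G : List ℕ) (w : ℕ)
    (h : red G (w >>> s) = 0) : vec r y w ∈ sp r (y + s) G := by
  rw [vec_shift r y w s]
  apply Submodule.add_mem
  · apply Submodule.sum_mem
    intro k hk
    rw [Finset.mem_range] at hk
    split_ifs
    · exact row_mem r G (by omega)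
    · exact Submodule.zero_mem _
  · exact red_mem r (y + s) _ G _ (fun g hg => code_mem r (y + s) hg) h

/-- the inclusion certified by `okw` -/
lemma okw_mem (r : ℕ → V) (y : ℕ) (G : List ℕ) (s a c w : ℕ) (h : okw G s a c w = true) :
    vec r y w ∈ sp r (y + s) G ∨ (a = 1 ∧ vec r y w ∈ sp r (y + s) G ⊔ Submodule.span (ZMod 2) {vec r y c}) := by
  unfold okw at h
  rw [Bool.or_eq_true, Bool.and_eq_true] at h
  rcases h with h | ⟨h1, h2⟩
  · left
    exact shifted_mem r y s G w (Nat.eq_of_beq_eq_true h)
  · right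
    refine ⟨Nat.eq_of_beq_eq_true h1, ?_⟩
    have h3 : vec r y (w ^^^ c) ∈ sp r (y + s) G := shifted_mem r y s G _ (Nat.eq_of_beq_eq_true h2)
    rw [vec_xor] at h3
    have h4 : vec r y c ∈ sp r (y + s) G ⊔ Submodule.span (ZMod 2) {vec r y c} :=
      Submodule.mem_sup_right (Submodule.mem_span_singleton_self _)
    have h5 := Submodule.sub_mem _ (Submodule.mem_sup_left (T := Submodule.span (ZMod 2) {vec r y c}) h3) h4
    rwa [add_sub_cancel_right] at h5

/-- dimension -/
noncomputable def rk (r : ℕ → V) (x : ℕ) (G : List ℕ) : ℕ := Module.finrank (ZMod 2) (sp r x G)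

variable [Module.Finite (ZMod 2) V]

lemma finrank_mono' {S T : Submodule (ZMod 2) V} (h : S ≤ T) :
    Module.finrank (ZMod 2) S ≤ Module.finrank (ZMod 2) T :=
  Submodule.finrank_mono h

lemma incl_rk (r : ℕ → V) (y : ℕ) (W G : List ℕ) (s a c : ℕ) (ha : a ≤ 1)
    (h : ∀ w ∈ W, okw G s a c w = true) : rk r y W ≤ rk r (y + s) G + a := by
  unfold rk
  by_cases ha1 : a = 1
  · subst ha1
    have h1 : sp r y W ≤ sp r (y + s) G ⊔ Submodule.span (ZMod 2) {vec r y c} := by
      apply sp_le
      · intro i hi
        exact Submodule.mem_sup_left (row_mem r G (by omega))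
      · intro w hw
        rcases okw_mem r y G s 1 c w (h w hw) with h2 | ⟨_, h2⟩
        · exact Submodule.mem_sup_left h2
        · exact h2
    refine le_trans (finrank_mono' h1) (le_trans (Submodule.finrank_add_le_finrank_add_finrank _ _) ?_)
    have h3 : Module.finrank (ZMod 2) (Submodule.span (ZMod 2) {vec r y c}) ≤ 1 := by
      refine le_trans (finrank_span_le_card _) ?_
      simp
    omega
  · have ha0 : a = 0 := by omega
    subst ha0
    apply finrank_mono'
    apply sp_le
    · intro i hi
      exact row_mem r G (by omega)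
    · intro w hw
      rcases okw_mem r y G s 0 c w (h w hw) with h2 | ⟨h2, _⟩
      · exact h2
      · exact absurd h2 (by norm_num)

/-- the row operation -/
def upd (r : ℕ → V) (i : ℕ) : ℕ → V := Function.update r i (r i + r (i + 1))

omit [Module.Finite (ZMod 2) V] in
lemma upd_self (r : ℕ → V) (i : ℕ) : upd r i i = r i + r (i + 1) := by
  simp [upd]

omit [Module.Finite (ZMod 2) V] in
lemma upd_ne (r : ℕ → V) {i j : ℕ} (h : j ≠ i) : upd r i j = r j := by
  simp [upd, Function.update_of_ne h]

omit [Module.Finite (ZMod 2) V] in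
lemma vec_upd_of_lt (r : ℕ → V) {i x : ℕ} (h : i < x) (g : ℕ) : vec (upd r i) x g = vec r x g := by
  unfold vec
  apply Finset.sum_congr rfl
  intro k _
  rw [upd_ne r (by omega)]

omit [Module.Finite (ZMod 2) V] in
lemma vec_upd_of_ge (r : ℕ → V) {i x m : ℕ} (h : x + m ≤ i) {g : ℕ} (hg : g < 2 ^ m) :
    vec (upd r i) x g = vec r x g := by
  rw [vec_eq _ x hg, vec_eq _ x hg]
  apply Finset.sum_congr rfl
  intro k hk
  rw [Finset.mem_range] at hk
  rw [upd_ne r (by omega)]

omit [Module.Finite (ZMod 2) V] in
lemma vec_two_pow (r : ℕ → V) (x k : ℕ) : vec r x (2 ^ k) = r (x + k) := by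
  rw [vec_eq r x (m := k + 1) (Nat.pow_lt_pow_right (by norm_num) (by omega))]
  rw [Finset.sum_eq_single k]
  · simp [Nat.testBit_two_pow_self]
  · intro j _ hj
    rw [Nat.testBit_two_pow_of_ne (by omega)]
    simp
  · intro h
    exact absurd (Finset.mem_range.mpr (by omega)) h

omit [Module.Finite (ZMod 2) V] in
lemma opc_eq (k g : ℕ) : opc k g = if g.testBit k then g ^^^ 2 ^ (k + 1) else g := by
  unfold opc
  have h1 : Nat.shiftLeft 1 (k + 1) = 2 ^ (k + 1) := Nat.one_shiftLeft (k + 1)
  rw [h1]
  by_cases hb : g.testBit k = true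
  · rw [if_pos hb]
    have h2 : Nat.beq (Nat.mod (Nat.shiftRight g k) 2) 1 = true := by
      rw [Nat.beq_eq]
      have := Nat.testBit_eq_decide_div_mod_eq (x := g) (i := k)
      rw [hb] at this
      have h3 : g / 2 ^ k % 2 = 1 := by
        simpa using this.symm
      rw [← Nat.shiftRight_eq_div_pow] at h3
      exact h3
    rw [h2, cond_true]
    rfl
  · rw [if_neg hb]
    have h2 : Nat.beq (Nat.mod (Nat.shiftRight g k) 2) 1 = false := by
      rw [Bool.eq_false_iff]
      intro h4
      rw [Nat.beq_eq] at h4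
      apply hb
      rw [Nat.testBit_eq_decide_div_mod_eq]
      rw [← Nat.shiftRight_eq_div_pow]
      exact decide_eq_true h4
    rw [h2, cond_false]

omit [Module.Finite (ZMod 2) V] in
/-- effect of the clock `x + k` on coded vectors based at `x` -/
lemma vec_upd (r : ℕ → V) (x k g : ℕ) : vec (upd r (x + k)) x g = vec r x (opc k g) := by
  rw [opc_eq]
  have hg : g < 2 ^ (max g (k + 1)) :=
    lt_of_lt_of_le (Nat.lt_two_pow_self (n := g)) (Nat.pow_le_pow_right (by norm_num) (le_max_left _ _))
  have key : vec (upd r (x + k)) x g = vec r x g + if g.testBit k then r (x + (k + 1)) else 0 := by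
    rw [vec_eq _ x hg, vec_eq _ x hg]
    have h1 : (if g.testBit k then r (x + (k + 1)) else 0)
        = ∑ j ∈ Finset.range (max g (k + 1)), if j = k then (if g.testBit k then r (x + (k + 1)) else 0) else 0 := by
      have hk : k ∈ Finset.range (max g (k + 1)) :=
        Finset.mem_range.mpr (lt_of_lt_of_le (Nat.lt_succ_self k) (le_max_right _ _))
      rw [Finset.sum_eq_single_of_mem k hk (fun j _ hj => if_neg hj), if_pos rfl]
    rw [h1, ← Finset.sum_add_distrib]
    apply Finset.sum_congr rfl
    intro j _
    by_cases hj : j = k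
    · subst hj
      rw [upd_self, if_pos rfl]
      split_ifs
      · rw [add_assoc x j 1]
      · simp
    · rw [upd_ne r (by omega), if_neg hj, add_zero]
  rw [key]
  split_ifs with hb
  · rw [vec_xor, vec_two_pow]
  · rw [add_zero]

omit [Module.Finite (ZMod 2) V] in
lemma vec_shl (r : ℕ → V) (y g : ℕ) : vec r y (g <<< 1) = vec r (y + 1) g := by
  rw [vec_shift r y (g <<< 1) 1]
  simp

omit [Module.Finite (ZMod 2) V] in
lemma sp_upd_le (r : ℕ → V) (y cl : ℕ) (G : List ℕ) :
    sp (upd r (y + cl)) (y + 1) G ≤ sp r y (wl cl G) := by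
  cases cl with
  | zero =>
      apply sp_le
      · intro j hj
        by_cases hjy : j = y
        · subst hjy
          rw [add_zero, upd_self]
          have h3 : (3 : ℕ) = 1 ^^^ 2 := by decide
          have h4 : vec r j 3 = r j + r (j + 1) := by
            rw [h3, vec_xor]
            have := vec_two_pow r j 0
            have h5 := vec_two_pow r j 1
            simp at this h5
            rw [this, h5]
          rw [← h4]
          apply code_mem
          simp [wl]
        · rw [upd_ne r (by omega)]
          exact row_mem r _ (by omega)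
      · intro g hg
        rw [add_zero, vec_upd_of_lt r (by omega), ← vec_shl]
        apply code_mem
        simp only [wl, List.mem_cons, List.mem_map]
        right
        exact ⟨g, hg, rfl⟩
  | succ k =>
      apply sp_le
      · intro j hj
        rw [upd_ne r (by omega)]
        by_cases hjy : j = y
        · subst hjy
          have h4 : vec r j 1 = r j := by
            have := vec_two_pow r j 0
            simpa using this
          rw [← h4]
          apply code_mem
          simp [wl]
        · exact row_mem r _ (by omega)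
      · intro g hg
        have h1 : y + (k + 1) = y + 1 + k := by ring
        rw [h1, vec_upd, ← vec_shl]
        apply code_mem
        simp only [wl, List.mem_cons, List.mem_map]
        right
        exact ⟨g, hg, rfl⟩

lemma rk_upd_far_left (r : ℕ → V) {i x : ℕ} (h : i + 1 < x) (G : List ℕ) :
    rk (upd r i) x G ≤ rk r x G := by
  apply finrank_mono'
  apply sp_le
  · intro j hj
    by_cases hij : j = i
    · subst hij
      rw [upd_self]
      exact Submodule.add_mem _ (row_mem r G (by omega)) (row_mem r G (by omega))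
    · rw [upd_ne r hij]
      exact row_mem r G hj
  · intro g hg
    rw [vec_upd_of_lt r (by omega)]
    exact code_mem r x hg

lemma rk_upd_far_right (r : ℕ → V) {i x m : ℕ} (h : x + m ≤ i) (G : List ℕ) (hG : ∀ g ∈ G, g < 2 ^ m) :
    rk (upd r i) x G ≤ rk r x G := by
  apply finrank_mono'
  apply sp_le
  · intro j hj
    rw [upd_ne r (by omega)]
    exact row_mem r G hj
  · intro g hg
    rw [vec_upd_of_ge r h (hG g hg)]
    exact code_mem r x hg

lemma rk_upd_near (r : ℕ → V) (y cl : ℕ) (G G' : List ℕ) (s a c : ℕ) (ha : a ≤ 1)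
    (h : ∀ w ∈ wl cl G, okw G' s a c w = true) :
    rk (upd r (y + cl)) (y + 1) G ≤ rk r (y + s) G' + a :=
  le_trans (finrank_mono' (sp_upd_le r y cl G)) (incl_rk r y _ G' s a c ha h)

/-- crude bound: number of nonzero rows plus number of generators -/
lemma rk_le_crude (r : ℕ → V) (x p : ℕ) (G : List ℕ) (h0 : ∀ i < p, r i = 0) :
    rk r x G ≤ (x - p) + G.length := by
  classical
  unfold rk
  have h1 : sp r x G ≤ Submodule.span (ZMod 2)
      (((Finset.Ico p x).image r ∪ (G.map (vec r x)).toFinset : Finset V) : Set V) := by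
    apply sp_le
    · intro i hi
      by_cases hip : i < p
      · rw [h0 i hip]
        exact Submodule.zero_mem _
      · apply Submodule.subset_span
        rw [Finset.mem_coe, Finset.mem_union]
        left
        exact Finset.mem_image.mpr ⟨i, Finset.mem_Ico.mpr ⟨by omega, hi⟩, rfl⟩
    · intro g hg
      apply Submodule.subset_span
      rw [Finset.mem_coe, Finset.mem_union]
      right
      rw [List.mem_toFinset]
      exact List.mem_map.mpr ⟨g, hg, rfl⟩
  refine le_trans (finrank_mono' h1) (le_trans (finrank_span_finset_le_card _) ?_)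
  refine le_trans (Finset.card_union_le _ _) ?_
  have h2 : ((Finset.Ico p x).image r).card ≤ x - p := by
    refine le_trans Finset.card_image_le ?_
    rw [Nat.card_Ico]
  have h3 : ((G.map (vec r x)).toFinset).card ≤ G.length := by
    refine le_trans (List.toFinset_card_le _) ?_
    rw [List.length_map]
  omega

end Pool.Agent.UTM
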