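import Mathlib
import Pool.Agent.UTM.Span

/-!
The walk: the kernel, its averages, and the rows of a matrix.
-/
set_option autoImplicit false
set_option linter.unusedSectionVars false

namespace Pool.Agent.UTM

open Finset

abbrev Mat (n : ℕ) := Matrix (Fin n) (Fin n) (ZMod 2)

/-- the row operation number `i` -/
def rop {n : ℕ} (i : ℕ) (A : Mat n) : Mat n :=
  if h : i + 1 < n then A.updateRow ⟨i, by omega⟩ (A ⟨i, by omega⟩ + A ⟨i + 1, h⟩) else A

/-- the rows of `A` restricted to the columns from `p` on -/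
def rowf {n : ℕ} (p : ℕ) (A : Mat n) (x : ℕ) : Fin (n - p) → ZMod 2 :=
  fun c => if h : x < n then A ⟨x, h⟩ ⟨p + c.val, by have := c.isLt; omega⟩ else 0

lemma rowf_rop {n : ℕ} (p : ℕ) (A : Mat n) (i : ℕ) (hi : i + 1 < n) :
    rowf p (rop i A) = upd (rowf p A) i := by
  funext x
  by_cases hx : x = i
  · subst hx
    rw [upd_self]
    funext c
    simp only [rowf, rop, dif_pos hi, Pi.add_apply]
    rw [dif_pos (by omega : x < n), dif_pos (by omega : x < n)]
    simp [Matrix.updateRow_self]
  · rw [upd_ne _ hx]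
    funext c
    simp only [rowf, rop, dif_pos hi]
    by_cases hxn : x < n
    · rw [dif_pos hxn, dif_pos hxn]
      rw [Matrix.updateRow_ne]
      intro h
      apply hx
      have := congrArg Fin.val h
      simpa using this
    · rw [dif_neg hxn, dif_neg hxn]

lemma rowf_one {n : ℕ} (p : ℕ) (x : ℕ) (h : x < p) : rowf p (1 : Mat n) x = 0 := by
  funext c
  simp only [rowf, Pi.zero_apply]
  split_ifs with hx
  · rw [Matrix.one_apply_ne]
    intro h2
    have := congrArg Fin.val h2
    simp at this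
    omega
  · rfl

/-- The kernel of the walk, as in the frozen statement. -/
def IsKernel (K : (n : ℕ) → Matrix (Mat n) (Mat n) ℝ) : Prop :=
  ∀ (n : ℕ) (A B : Mat n),
    K n A B = (1 / 2 : ℝ) * (if B = A then 1 else 0)
      + (1 / (2 * ((n : ℝ) - 1))) *
        ∑ i : Fin n, ∑ j : Fin n,
          (if j.val = i.val + 1 ∧ B = A.updateRow i (A i + A j) then (1 : ℝ) else 0)

variable {K : (n : ℕ) → Matrix (Mat n) (Mat n) ℝ}

lemma sum_pairs {n : ℕ} (A : Mat n) (f : Mat n → ℝ) :
    ∑ i : Fin n, ∑ j : Fin n, ∑ B : Mat n,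
        (if j.val = i.val + 1 ∧ B = A.updateRow i (A i + A j) then (1 : ℝ) else 0) * f B
      = ∑ i ∈ range (n - 1), f (rop i A) := by
  have h1 : ∀ i : Fin n, ∑ j : Fin n, ∑ B : Mat n,
        (if j.val = i.val + 1 ∧ B = A.updateRow i (A i + A j) then (1 : ℝ) else 0) * f B
        = if i.val + 1 < n then f (rop i.val A) else 0 := by
    intro i
    by_cases hi : i.val + 1 < n
    · rw [if_pos hi]
      rw [Finset.sum_eq_single (⟨i.val + 1, hi⟩ : Fin n)]
      · rw [Finset.sum_eq_single (rop i.val A)]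
        · rw [if_pos, one_mul]
          refine ⟨rfl, ?_⟩
          simp only [rop, dif_pos hi]
        · intro B _ hB
          rw [if_neg, zero_mul]
          rintro ⟨_, h⟩
          apply hB
          rw [h]
          simp only [rop, dif_pos hi]
        · intro h
          exact absurd (mem_univ _) h
      · intro j _ hj
        apply Finset.sum_eq_zero
        intro B _
        rw [if_neg, zero_mul]
        rintro ⟨h, _⟩
        apply hj
        exact Fin.ext h
      · intro h
        exact absurd (mem_univ _) h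
    · rw [if_neg hi]
      apply Finset.sum_eq_zero
      intro j _
      apply Finset.sum_eq_zero
      intro B _
      rw [if_neg, zero_mul]
      rintro ⟨h, _⟩
      have := j.isLt
      omega
  rw [Finset.sum_congr rfl (fun i _ => h1 i)]
  rw [← Fin.sum_univ_eq_sum_range]
  cases n with
  | zero => simp
  | succ m =>
      rw [Fin.sum_univ_castSucc]
      simp

/-- average of a function over one step -/
lemma kernel_mulVec (hK : IsKernel K) (n : ℕ) (f : Mat n → ℝ) (A : Mat n) :
    (Matrix.mulVec (K n) f) A = (1 / 2 : ℝ) * f A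
      + (1 / (2 * ((n : ℝ) - 1))) * ∑ i ∈ range (n - 1), f (rop i A) := by
  unfold Matrix.mulVec dotProduct
  rw [← sum_pairs A f]
  have h1 : ∀ B : Mat n, K n A B * f B = (1 / 2 : ℝ) * ((if B = A then 1 else 0) * f B)
      + (1 / (2 * ((n : ℝ) - 1))) * ((∑ i : Fin n, ∑ j : Fin n,
          (if j.val = i.val + 1 ∧ B = A.updateRow i (A i + A j) then (1 : ℝ) else 0)) * f B) := by
    intro B
    rw [hK n A B]
    ring
  rw [Finset.sum_congr rfl (fun B _ => h1 B), Finset.sum_add_distrib, ← Finset.mul_sum,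
    ← Finset.mul_sum]
  congr 1
  · congr 1
    simp
  · congr 1
    calc ∑ B : Mat n, (∑ i : Fin n, ∑ j : Fin n,
          (if j.val = i.val + 1 ∧ B = A.updateRow i (A i + A j) then (1 : ℝ) else 0)) * f B
        = ∑ B : Mat n, ∑ i : Fin n, ∑ j : Fin n,
          (if j.val = i.val + 1 ∧ B = A.updateRow i (A i + A j) then (1 : ℝ) else 0) * f B := by
          apply Finset.sum_congr rfl
          intro B _
          rw [Finset.sum_mul]
          apply Finset.sum_congr rfl
          intro i _
          rw [Finset.sum_mul]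
      _ = ∑ i : Fin n, ∑ B : Mat n, ∑ j : Fin n,
          (if j.val = i.val + 1 ∧ B = A.updateRow i (A i + A j) then (1 : ℝ) else 0) * f B :=
          Finset.sum_comm
      _ = _ := Finset.sum_congr rfl fun i _ => Finset.sum_comm

lemma kernel_nonneg (hK : IsKernel K) (n : ℕ) (hn : 1 ≤ n) (A B : Mat n) : 0 ≤ K n A B := by
  rw [hK n A B]
  have h1 : (0 : ℝ) ≤ (n : ℝ) - 1 := by
    have : (1 : ℝ) ≤ n := by exact_mod_cast hn
    linarith
  apply add_nonneg
  · apply mul_nonneg (by norm_num)
    split_ifs <;> norm_num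
  · apply mul_nonneg (by positivity)
    apply Finset.sum_nonneg
    intro i _
    apply Finset.sum_nonneg
    intro j _
    split_ifs <;> norm_num

/-- expectation after `T` steps started at the identity -/
noncomputable def ex (K : (n : ℕ) → Matrix (Mat n) (Mat n) ℝ) (n T : ℕ) (f : Mat n → ℝ) : ℝ :=
  (Matrix.mulVec ((K n) ^ T) f) 1

lemma ex_zero (n : ℕ) (f : Mat n → ℝ) : ex K n 0 f = f 1 := by
  simp [ex]

lemma ex_succ (n T : ℕ) (f : Mat n → ℝ) :
    ex K n (T + 1) f = ex K n T (Matrix.mulVec (K n) f) := by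
  unfold ex
  rw [pow_succ, Matrix.mulVec_mulVec]

lemma pow_nonneg' (hK : IsKernel K) (n : ℕ) (hn : 1 ≤ n) (T : ℕ) (A B : Mat n) :
    0 ≤ ((K n) ^ T) A B := by
  induction T generalizing B with
  | zero =>
      rw [pow_zero, Matrix.one_apply]
      split_ifs <;> norm_num
  | succ T ih =>
      rw [pow_succ, Matrix.mul_apply]
      exact Finset.sum_nonneg fun C _ => mul_nonneg (ih C) (kernel_nonneg hK n hn C B)

lemma ex_mono (hK : IsKernel K) (n : ℕ) (hn : 1 ≤ n) (T : ℕ) {f g : Mat n → ℝ}
    (h : ∀ A, f A ≤ g A) : ex K n T f ≤ ex K n T g := by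
  unfold ex Matrix.mulVec dotProduct
  apply Finset.sum_le_sum
  intro B _
  exact mul_le_mul_of_nonneg_left (h B) (pow_nonneg' hK n hn T 1 B)

lemma ex_add (n T : ℕ) (f g : Mat n → ℝ) :
    ex K n T (fun A => f A + g A) = ex K n T f + ex K n T g := by
  unfold ex Matrix.mulVec dotProduct
  rw [← Finset.sum_add_distrib]
  apply Finset.sum_congr rfl
  intro B _
  ring

lemma ex_smul (n T : ℕ) (a : ℝ) (f : Mat n → ℝ) :
    ex K n T (fun A => a * f A) = a * ex K n T f := by
  unfold ex Matrix.mulVec dotProduct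
  rw [Finset.mul_sum]
  apply Finset.sum_congr rfl
  intro B _
  ring

lemma ex_sum (n T : ℕ) {ι : Type*} (s : Finset ι) (f : ι → Mat n → ℝ) :
    ex K n T (fun A => ∑ i ∈ s, f i A) = ∑ i ∈ s, ex K n T (f i) := by
  unfold ex Matrix.mulVec dotProduct
  rw [Finset.sum_comm]
  apply Finset.sum_congr rfl
  intro B _
  rw [Finset.mul_sum]

lemma mulVec_one (hK : IsKernel K) (n : ℕ) (hn : 2 ≤ n) :
    Matrix.mulVec (K n) (fun _ => (1 : ℝ)) = fun _ => 1 := by
  funext A
  rw [kernel_mulVec hK]
  have h1 : (0 : ℝ) < (n : ℝ) - 1 := by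
    have : (2 : ℝ) ≤ n := by exact_mod_cast hn
    linarith
  have h2 : ((n - 1 : ℕ) : ℝ) = (n : ℝ) - 1 := by
    rw [Nat.cast_sub (by omega)]
    simp
  rw [Finset.sum_const, card_range, nsmul_eq_mul, h2]
  field_simp
  norm_num

lemma ex_one (hK : IsKernel K) (n : ℕ) (hn : 2 ≤ n) (T : ℕ) : ex K n T (fun _ => 1) = 1 := by
  induction T with
  | zero => rw [ex_zero]
  | succ T ih => rw [ex_succ, mulVec_one hK n hn, ih]

lemma ex_const (hK : IsKernel K) (n : ℕ) (hn : 2 ≤ n) (T : ℕ) (c : ℝ) :
    ex K n T (fun _ => c) = c := by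
  have h := ex_smul (K := K) n T c (fun _ => 1)
  rw [ex_one hK n hn, mul_one] at h
  simpa using h

end Pool.Agent.UTM
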