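import Mathlib
import Pool.Agent.UTM.Walk

/-!
The uniform measure: the upper right block has almost full rank.
-/
set_option autoImplicit false
set_option linter.unusedSectionVars false

namespace Pool.Agent.UTM

open Finset

/-- unitriangular matrices -/
def IsUni {n : ℕ} (B : Mat n) : Prop := (∀ a : Fin n, B a a = 1) ∧ (∀ a b : Fin n, b < a → B a b = 0)

noncomputable instance {n : ℕ} : DecidablePred (@IsUni n) := Classical.decPred _

/-- the set of unitriangular matrices -/
noncomputable def Uni (n : ℕ) : Finset (Mat n) := univ.filter IsUni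

lemma card_Uni (n : ℕ) : (Uni n).card = 2 ^ (n * (n - 1) / 2) := by
  have h1 : (Uni n).card = (Fintype.piFinset (fun a : Fin n => Fintype.piFinset (fun b : Fin n =>
      if b < a then ({0} : Finset (ZMod 2)) else if a = b then {1} else univ)) :
        Finset (Fin n → Fin n → ZMod 2)).card := by
    apply Finset.card_bij (fun B _ => fun a b => B a b)
    · intro B hB
      unfold Uni at hB
      rw [mem_filter] at hB
      rw [Fintype.mem_piFinset]
      intro a
      rw [Fintype.mem_piFinset]
      intro b
      split_ifs with h3 h4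
      · rw [mem_singleton]; exact hB.2.2 a b h3
      · rw [mem_singleton]; rw [← h4]; exact hB.2.1 a
      · exact mem_univ _
    · intro B _ B' _ h
      funext a b
      exact congrFun (congrFun h a) b
    · intro B hB
      rw [Fintype.mem_piFinset] at hB
      refine ⟨Matrix.of B, ?_, rfl⟩
      unfold Uni
      rw [mem_filter]
      refine ⟨mem_univ _, ?_, ?_⟩
      · intro a
        have h1 := hB a
        rw [Fintype.mem_piFinset] at h1
        have h2 := h1 a
        rw [if_neg (lt_irrefl a), if_pos rfl, mem_singleton] at h2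
        exact h2
      · intro a b hab
        have h1 := hB a
        rw [Fintype.mem_piFinset] at h1
        have h2 := h1 b
        rw [if_pos hab, mem_singleton] at h2
        exact h2
  have h2 : ∀ a : Fin n, (Fintype.piFinset (fun b : Fin n =>
      if b < a then ({0} : Finset (ZMod 2)) else if a = b then {1} else univ)).card = 2 ^ (n - 1 - a.val) := by
    intro a
    rw [Fintype.card_piFinset]
    have h3 : ∀ b : Fin n, (if b < a then ({0} : Finset (ZMod 2)) else if a = b then {1} else univ).card
        = if b ∈ Finset.Ioi a then 2 else 1 := by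
      intro b
      rcases lt_trichotomy b a with h | h | h
      · rw [if_pos h, if_neg (fun h' => absurd (Finset.mem_Ioi.mp h') (not_lt.mpr h.le))]
        rfl
      · subst h
        rw [if_neg (lt_irrefl _), if_pos rfl, if_neg (fun h' => absurd (Finset.mem_Ioi.mp h') (lt_irrefl _))]
        rfl
      · rw [if_neg (not_lt.mpr h.le), if_neg (ne_of_lt h), if_pos (Finset.mem_Ioi.mpr h)]
        rw [card_univ, ZMod.card]
    rw [Finset.prod_congr rfl (fun b _ => h3 b)]
    rw [Finset.prod_ite_mem, Finset.univ_inter, Finset.prod_const, Fin.card_Ioi]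
  rw [h1, Fintype.card_piFinset, Finset.prod_congr rfl (fun a _ => h2 a), Finset.prod_pow_eq_pow_sum]
  congr 1
  rw [Fin.sum_univ_eq_sum_range (fun i => n - 1 - i) n, Finset.sum_range_reflect (fun i => i) n,
    Finset.sum_range_id]

/-- linear combinations of the first `p` rows -/
def comb {n : ℕ} (p : ℕ) (B : Mat n) (a : Fin p → ZMod 2) : Fin (n - p) → ZMod 2 :=
  ∑ i : Fin p, a i • rowf p B i.val

/-- change of the row `i` -/
def shiftM {n : ℕ} (p i : ℕ) (w : Fin (n - p) → ZMod 2) (B : Mat n) : Mat n :=
  fun a b => B a b + if h : a.val = i ∧ p ≤ b.val then w ⟨b.val - p, by have := b.isLt; omega⟩ else 0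

lemma rowf_shiftM {n : ℕ} (p i : ℕ) (hi : i < n) (w : Fin (n - p) → ZMod 2) (B : Mat n) (x : ℕ) :
    rowf p (shiftM p i w B) x = rowf p B x + if x = i then w else 0 := by
  funext c
  simp only [rowf, shiftM, Pi.add_apply]
  by_cases hx : x < n
  · rw [dif_pos hx, dif_pos hx]
    congr 1
    by_cases hxi : x = i
    · rw [if_pos hxi, dif_pos ⟨hxi, Nat.le_add_right _ _⟩]
      congr 1
      apply Fin.ext
      simp
    · rw [if_neg hxi, dif_neg (fun h => hxi h.1)]
      rfl
  · rw [dif_neg hx, dif_neg hx, if_neg (by omega)]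
    simp

lemma comb_shiftM {n : ℕ} (p : ℕ) (hp : p ≤ n) (i : Fin p) (w : Fin (n - p) → ZMod 2) (B : Mat n)
    (a : Fin p → ZMod 2) (ha : a i = 1) :
    comb p (shiftM p i.val w B) a = comb p B a + w := by
  unfold comb
  have h1 : ∀ j : Fin p, a j • rowf p (shiftM p i.val w B) j.val
      = a j • rowf p B j.val + if j = i then w else 0 := by
    intro j
    rw [rowf_shiftM p i.val (lt_of_lt_of_le i.isLt hp) w B j.val, smul_add]
    congr 1
    by_cases hj : j = i
    · rw [if_pos hj, hj, if_pos rfl, ha, one_smul]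
    · rw [if_neg hj, if_neg (fun h => hj (Fin.ext h)), smul_zero]
  rw [Finset.sum_congr rfl (fun j _ => h1 j), Finset.sum_add_distrib]
  congr 1
  simp

lemma isUni_shiftM {n : ℕ} (p : ℕ) (i : Fin p) (w : Fin (n - p) → ZMod 2) (B : Mat n)
    (hB : IsUni B) : IsUni (shiftM p i.val w B) := by
  have hi := i.isLt
  refine ⟨fun a => ?_, fun a b hab => ?_⟩
  · unfold shiftM
    rw [dif_neg, add_zero]
    · exact hB.1 a
    · rintro ⟨h1, h2⟩
      omega
  · unfold shiftM
    rw [dif_neg, add_zero]
    · exact hB.2 a b hab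
    · rintro ⟨h1, h2⟩
      have : b.val < a.val := hab
      omega

lemma card_comb_zero {n : ℕ} (p : ℕ) (hp : p ≤ n) (a : Fin p → ZMod 2) (ha : a ≠ 0) :
    ((Uni n).filter (fun B => comb p B a = 0)).card * 2 ^ (n - p) ≤ (Uni n).card := by
  obtain ⟨i, hi⟩ : ∃ i, a i ≠ 0 := by
    by_contra h
    rw [not_exists] at h
    exact ha (funext fun i => not_not.mp (h i))
  have hi1 : a i = 1 := by
    generalize a i = z at hi
    revert hi
    revert z
    decide
  have h1 : ((Uni n).filter (fun B => comb p B a = 0)).card * 2 ^ (n - p)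
      = (((Uni n).filter (fun B => comb p B a = 0)) ×ˢ (univ : Finset (Fin (n - p) → ZMod 2))).card := by
    rw [card_product, card_univ, Fintype.card_fun, ZMod.card, Fintype.card_fin]
  rw [h1]
  apply Finset.card_le_card_of_injOn (fun q => shiftM p i.val q.2 q.1)
  · intro q hq
    rw [Finset.mem_coe, mem_product, mem_filter] at hq
    rw [Finset.mem_coe]
    unfold Uni at hq ⊢
    rw [mem_filter] at hq ⊢
    exact ⟨mem_univ _, isUni_shiftM p i q.2 q.1 hq.1.1.2⟩
  · intro q hq q' hq' h
    rw [Finset.mem_coe, mem_product, mem_filter] at hq hq'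
    have e1 : comb p (shiftM p i.val q.2 q.1) a = q.2 := by
      rw [comb_shiftM p hp i q.2 q.1 a hi1, hq.1.2, zero_add]
    have e2 : comb p (shiftM p i.val q'.2 q'.1) a = q'.2 := by
      rw [comb_shiftM p hp i q'.2 q'.1 a hi1, hq'.1.2, zero_add]
    have h3 : shiftM p i.val q.2 q.1 = shiftM p i.val q'.2 q'.1 := h
    have e3 : q.2 = q'.2 := by rw [← e1, ← e2, h3]
    have e4 : q.1 = q'.1 := by
      funext b c
      have h5 := congrFun (congrFun h3 b) c
      simp only [shiftM] at h5
      rw [e3] at h5
      exact add_right_cancel h5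
    exact Prod.ext e4 e3

lemma sum_card_comb {n : ℕ} (p : ℕ) (hp : 2 * p ≤ n) :
    ∑ B ∈ Uni n, (univ.filter (fun a : Fin p → ZMod 2 => comb p B a = 0)).card ≤ 2 * (Uni n).card := by
  have h1 : ∑ B ∈ Uni n, (univ.filter (fun a : Fin p → ZMod 2 => comb p B a = 0)).card
      = ∑ a : Fin p → ZMod 2, ((Uni n).filter (fun B => comb p B a = 0)).card := by
    simp only [Finset.card_filter]
    rw [Finset.sum_comm]
  rw [h1, ← Finset.add_sum_erase univ _ (mem_univ (0 : Fin p → ZMod 2))]
  have h2 : ((Uni n).filter (fun B => comb p B (0 : Fin p → ZMod 2) = 0)).card ≤ (Uni n).card :=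
    Finset.card_filter_le _ _
  have h3 : (∑ a ∈ univ.erase (0 : Fin p → ZMod 2), ((Uni n).filter (fun B => comb p B a = 0)).card)
      * 2 ^ (n - p) ≤ 2 ^ (n - p) * (Uni n).card := by
    rw [Finset.sum_mul]
    calc ∑ a ∈ univ.erase (0 : Fin p → ZMod 2),
          ((Uni n).filter (fun B => comb p B a = 0)).card * 2 ^ (n - p)
        ≤ ∑ a ∈ univ.erase (0 : Fin p → ZMod 2), (Uni n).card := by
          apply Finset.sum_le_sum
          intro a ha
          exact card_comb_zero p (by omega) a (Finset.ne_of_mem_erase ha)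
      _ = (univ.erase (0 : Fin p → ZMod 2)).card * (Uni n).card := by
          rw [Finset.sum_const, smul_eq_mul]
      _ ≤ 2 ^ (n - p) * (Uni n).card := by
          apply Nat.mul_le_mul_right
          calc (univ.erase (0 : Fin p → ZMod 2)).card ≤ (univ : Finset (Fin p → ZMod 2)).card :=
                Finset.card_erase_le
            _ = 2 ^ p := by rw [card_univ, Fintype.card_fun, ZMod.card, Fintype.card_fin]
            _ ≤ 2 ^ (n - p) := Nat.pow_le_pow_right (by norm_num) (by omega)
  have h4 : (∑ a ∈ univ.erase (0 : Fin p → ZMod 2), ((Uni n).filter (fun B => comb p B a = 0)).card)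
      ≤ (Uni n).card := by
    rw [mul_comm] at h3
    exact Nat.le_of_mul_le_mul_left h3 (by positivity)
  omega

lemma card_ker_ge {n : ℕ} (p : ℕ) (B : Mat n) (k : ℕ) (h : rk (rowf p B) p [] + k ≤ p) :
    2 ^ k ≤ (univ.filter (fun a : Fin p → ZMod 2 => comb p B a = 0)).card := by
  classical
  let φ : (Fin p → ZMod 2) →ₗ[ZMod 2] (Fin (n - p) → ZMod 2) :=
    Fintype.linearCombination (ZMod 2) (fun i : Fin p => rowf p B i.val)
  have hφ : ∀ a, φ a = comb p B a := by
    intro a
    rw [Fintype.linearCombination_apply]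
    rfl
  have h1 : LinearMap.range φ ≤ sp (rowf p B) p [] := by
    rintro _ ⟨a, rfl⟩
    rw [hφ]
    unfold comb
    apply Submodule.sum_mem
    intro i _
    apply Submodule.smul_mem
    exact row_mem _ _ i.isLt
  have h2 : Module.finrank (ZMod 2) (LinearMap.range φ) ≤ rk (rowf p B) p [] := finrank_mono' h1
  have h3 := LinearMap.finrank_range_add_finrank_ker φ
  rw [Module.finrank_fin_fun] at h3
  have h4 : k ≤ Module.finrank (ZMod 2) (LinearMap.ker φ) := by omega
  have h5 : Fintype.card (LinearMap.ker φ) = 2 ^ Module.finrank (ZMod 2) (LinearMap.ker φ) := by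
    have := Module.card_eq_pow_finrank (K := ZMod 2) (V := LinearMap.ker φ)
    rw [ZMod.card] at this
    exact this
  have h6 : (univ.filter (fun a : Fin p → ZMod 2 => comb p B a = 0)).card
      = Fintype.card (LinearMap.ker φ) := by
    rw [← Fintype.card_coe]
    apply Fintype.card_congr
    refine Equiv.subtypeEquivRight ?_
    intro a
    rw [mem_filter, LinearMap.mem_ker, hφ]
    simp
  rw [h6, h5]
  exact Nat.pow_le_pow_right (by norm_num) h4

/-- few unitriangular matrices have an upper right block of small rank -/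
lemma card_bad {n : ℕ} (p : ℕ) (hp : 2 * p ≤ n) (k : ℕ) :
    ((Uni n).filter (fun B => rk (rowf p B) p [] + k ≤ p)).card * 2 ^ k ≤ 2 * (Uni n).card := by
  refine le_trans ?_ (sum_card_comb p hp)
  calc ((Uni n).filter (fun B => rk (rowf p B) p [] + k ≤ p)).card * 2 ^ k
      = ∑ B ∈ (Uni n).filter (fun B => rk (rowf p B) p [] + k ≤ p), 2 ^ k := by
        rw [Finset.sum_const, smul_eq_mul]
    _ ≤ ∑ B ∈ (Uni n).filter (fun B => rk (rowf p B) p [] + k ≤ p),
          (univ.filter (fun a : Fin p → ZMod 2 => comb p B a = 0)).card := by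
        apply Finset.sum_le_sum
        intro B hB
        rw [mem_filter] at hB
        exact card_ker_ge p B k hB.2
    _ ≤ _ := by
        apply Finset.sum_le_sum_of_subset
        exact Finset.filter_subset _ _

end Pool.Agent.UTM
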