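import Mathlib
import Pool.Agent.UTM.Walk
import Pool.Agent.UTM.Uniform

/-!
Continuous time: Poisson mixtures, total variation.
-/
set_option autoImplicit false
set_option linter.unusedSectionVars false

namespace Pool.Agent.UTM

open Finset

variable {K : (n : ℕ) → Matrix (Mat n) (Mat n) ℝ}

/-- Poisson weight -/
noncomputable def pw (s : ℝ) (k : ℕ) : ℝ := Real.exp (-s) * s ^ k / (k.factorial : ℝ)

lemma pw_nonneg {s : ℝ} (hs : 0 ≤ s) (k : ℕ) : 0 ≤ pw s k := by
  unfold pw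
  have := Real.exp_pos (-s)
  positivity

lemma hasSum_exp_real (s : ℝ) : HasSum (fun k : ℕ => s ^ k / (k.factorial : ℝ)) (Real.exp s) := by
  rw [Real.exp_eq_exp_ℝ]
  exact NormedSpace.expSeries_div_hasSum_exp s

lemma hasSum_pw_pow (s q : ℝ) :
    HasSum (fun k : ℕ => pw s k * q ^ k) (Real.exp (-s + s * q)) := by
  have h := (hasSum_exp_real (s * q)).mul_left (Real.exp (-s))
  rw [← Real.exp_add] at h
  refine h.congr_fun ?_ |> fun h' => h'
  intro k
  unfold pw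
  rw [mul_pow]
  ring

lemma summable_pw (s : ℝ) : Summable (fun k : ℕ => pw s k) := by
  have h := (hasSum_pw_pow s 1).summable
  simpa using h

lemma tsum_pw (s : ℝ) : ∑' k : ℕ, pw s k = 1 := by
  have h := (hasSum_pw_pow s 1).tsum_eq
  simpa using h

/-- law at time `t` started at the identity -/
noncomputable def mu (K : (n : ℕ) → Matrix (Mat n) (Mat n) ℝ) (n : ℕ) (t : ℝ) (B : Mat n) : ℝ :=
  ∑' k : ℕ, pw (((n : ℝ) - 1) * t) k * ((K n) ^ k) 1 B

lemma pow_le_one' (hK : IsKernel K) (n : ℕ) (hn : 2 ≤ n) (T : ℕ) (B : Mat n) :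
    ((K n) ^ T) 1 B ≤ 1 := by
  have h := ex_one hK n hn T
  unfold ex Matrix.mulVec dotProduct at h
  simp only [mul_one] at h
  rw [← h]
  exact Finset.single_le_sum (fun C _ => pow_nonneg' hK n (by omega) T 1 C) (mem_univ B)

lemma summable_mu (hK : IsKernel K) (n : ℕ) (hn : 2 ≤ n) {s : ℝ} (hs : 0 ≤ s) (B : Mat n) :
    Summable (fun k : ℕ => pw s k * ((K n) ^ k) 1 B) := by
  refine Summable.of_nonneg_of_le (fun k => ?_) (fun k => ?_) (summable_pw s)
  · exact mul_nonneg (pw_nonneg hs k) (pow_nonneg' hK n (by omega) k 1 B)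
  · have h1 := pw_nonneg hs k
    have h2 := pow_le_one' hK n hn k B
    nlinarith

lemma nt_nonneg (n : ℕ) (hn : 2 ≤ n) {t : ℝ} (ht : 0 ≤ t) : 0 ≤ ((n : ℝ) - 1) * t := by
  have h1 : (2 : ℝ) ≤ n := by exact_mod_cast hn
  exact mul_nonneg (by linarith) ht

lemma hasSum_mu (hK : IsKernel K) (n : ℕ) (hn : 2 ≤ n) {t : ℝ} (ht : 0 ≤ t) (f : Mat n → ℝ) :
    HasSum (fun k : ℕ => pw (((n : ℝ) - 1) * t) k * ex K n k f) (∑ B, mu K n t B * f B) := by
  have h1 : ∀ B ∈ (univ : Finset (Mat n)),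
      HasSum (fun k : ℕ => pw (((n : ℝ) - 1) * t) k * ((K n) ^ k) 1 B * f B) (mu K n t B * f B) := by
    intro B _
    exact ((summable_mu hK n hn (nt_nonneg n hn ht) B).hasSum).mul_right (f B)
  have h2 := hasSum_sum h1
  convert h2 using 2 with k
  unfold ex Matrix.mulVec dotProduct
  rw [Finset.mul_sum]
  apply Finset.sum_congr rfl
  intro B _
  ring

lemma mu_nonneg (hK : IsKernel K) (n : ℕ) (hn : 2 ≤ n) {t : ℝ} (ht : 0 ≤ t) (B : Mat n) :
    0 ≤ mu K n t B := by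
  unfold mu
  apply tsum_nonneg
  intro k
  exact mul_nonneg (pw_nonneg (nt_nonneg n hn ht) k) (pow_nonneg' hK n (by omega) k 1 B)

lemma sum_mu (hK : IsKernel K) (n : ℕ) (hn : 2 ≤ n) {t : ℝ} (ht : 0 ≤ t) :
    ∑ B, mu K n t B = 1 := by
  have h := hasSum_mu hK n hn ht (fun _ => 1)
  simp only [mul_one, ex_one hK n hn] at h
  exact h.unique ((summable_pw _).hasSum.congr_fun (fun _ => rfl) |> fun h' => by
    rw [tsum_pw] at h'; exact h')

/-- exponential growth in discrete time gives exponential growth in continuous time -/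
lemma mu_growth (hK : IsKernel K) (n : ℕ) (hn : 2 ≤ n) {t : ℝ} (ht : 0 ≤ t) (f : Mat n → ℝ)
    (D c : ℝ) (h : ∀ T, ex K n T f ≤ D * (1 + c / ((n : ℝ) - 1)) ^ T) :
    ∑ B, mu K n t B * f B ≤ D * Real.exp (c * t) := by
  have h1 := hasSum_mu hK n hn ht f
  have h2 := (hasSum_pw_pow (((n : ℝ) - 1) * t) (1 + c / ((n : ℝ) - 1))).mul_left D
  have hn1 : (0 : ℝ) < (n : ℝ) - 1 := by
    have h2 : (2 : ℝ) ≤ n := by exact_mod_cast hn
    linarith
  have h3 : -(((n : ℝ) - 1) * t) + ((n : ℝ) - 1) * t * (1 + c / ((n : ℝ) - 1)) = c * t := by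
    field_simp
    ring
  rw [h3] at h2
  refine hasSum_le (fun k => ?_) h1 h2
  have h4 := pw_nonneg (nt_nonneg n hn ht) k
  have h5 := mul_le_mul_of_nonneg_left (h k) h4
  linarith

/-- distance to equilibrium -/
noncomputable def dist1 (K : (n : ℕ) → Matrix (Mat n) (Mat n) ℝ) (n : ℕ) (t : ℝ) : ℝ :=
  (1 / 2 : ℝ) * ∑ B : Mat n,
    |mu K n t B - (if IsUni B then (1 / 2 : ℝ) ^ (n * (n - 1) / 2) else 0)|

lemma sum_pi (n : ℕ) :
    ∑ B : Mat n, (if IsUni B then (1 / 2 : ℝ) ^ (n * (n - 1) / 2) else 0) = 1 := by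
  rw [← Finset.sum_filter, Finset.sum_const, nsmul_eq_mul]
  have h := card_Uni n
  unfold Uni at h
  rw [h]
  push_cast
  rw [← mul_pow]
  norm_num

/-- lower bound for the total variation distance by an event -/
lemma dist_ge (hK : IsKernel K) (n : ℕ) (hn : 2 ≤ n) {t : ℝ} (ht : 0 ≤ t) (S : Finset (Mat n)) :
    ∑ B ∈ S, (if IsUni B then (1 / 2 : ℝ) ^ (n * (n - 1) / 2) else 0) - ∑ B ∈ S, mu K n t B
      ≤ dist1 K n t := by
  classical
  unfold dist1
  set π : Mat n → ℝ := fun B => if IsUni B then (1 / 2 : ℝ) ^ (n * (n - 1) / 2) else 0 with hπ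
  have h1 : ∑ B ∈ S, (π B - mu K n t B) ≤ ∑ B ∈ S, |mu K n t B - π B| := by
    apply Finset.sum_le_sum
    intro B _
    rw [abs_sub_comm]
    exact le_abs_self _
  have h2 : ∑ B ∈ Sᶜ, (mu K n t B - π B) ≤ ∑ B ∈ Sᶜ, |mu K n t B - π B| := by
    apply Finset.sum_le_sum
    intro B _
    exact le_abs_self _
  have h3 := Finset.sum_add_sum_compl S (fun B => |mu K n t B - π B|)
  have h4 := Finset.sum_add_sum_compl S (fun B => mu K n t B - π B)
  have h5 : ∑ B, (mu K n t B - π B) = 0 := by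
    rw [Finset.sum_sub_distrib, sum_mu hK n hn ht, hπ, sum_pi, sub_self]
  rw [h5] at h4
  rw [Finset.sum_sub_distrib] at h1 h4
  linarith

end Pool.Agent.UTM
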