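import Pool.Agent.UTM.Check

/-! Evaluation of the checker, part 3. -/
set_option autoImplicit false
set_option maxRecDepth 100000

namespace Pool.Agent.UTM

theorem chkPart3 : (allTo 200 fun i => chk (600 + i)) = true := by
  decide +kernel

end Pool.Agent.UTM
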