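import Mathlib
import Pool.Agent.UTM.Span
import Pool.Agent.UTM.Chk0
import Pool.Agent.UTM.Chk1
import Pool.Agent.UTM.Chk2
import Pool.Agent.UTM.Chk3
import Pool.Agent.UTM.Chk4

/-! What the checker certifies. -/
set_option autoImplicit false

namespace Pool.Agent.UTM

lemma allTo_iff (n : ℕ) (f : ℕ → Bool) : allTo n f = true ↔ ∀ i < n, f i = true := by
  induction n with
  | zero => simp [allTo]
  | succ n ih =>
      rw [allTo, Bool.and_eq_true, ih]
      constructor
      · rintro ⟨h1, h2⟩ i hi
        rcases Nat.lt_succ_iff_lt_or_eq.mp hi with h | h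
        · exact h2 i h
        · rw [h]; exact h1
      · intro h
        exact ⟨h n (Nat.lt_succ_self n), fun i hi => h i (Nat.lt_succ_of_lt hi)⟩

lemma sumTo_eq (n : ℕ) (f : ℕ → ℕ) : sumTo n f = ∑ i ∈ Finset.range n, f i := by
  induction n with
  | zero => simp [sumTo]
  | succ n ih => rw [sumTo, ih, Finset.sum_range_succ]

theorem chk_all (k : ℕ) (hk : k < 1001) : chk k = true := by
  have h0 := (allTo_iff _ _).mp chkPart0
  have h1 := (allTo_iff _ _).mp chkPart1
  have h2 := (allTo_iff _ _).mp chkPart2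
  have h3 := (allTo_iff _ _).mp chkPart3
  have h4 := (allTo_iff _ _).mp chkPart4
  by_cases c0 : k < 200
  · have := h0 k c0
    rwa [Nat.zero_add] at this
  by_cases c1 : k < 400
  · have := h1 (k - 200) (by omega)
    rwa [show 200 + (k - 200) = k by omega] at this
  by_cases c2 : k < 600
  · have := h2 (k - 400) (by omega)
    rwa [show 400 + (k - 400) = k by omega] at this
  by_cases c3 : k < 800
  · have := h3 (k - 600) (by omega)
    rwa [show 600 + (k - 600) = k by omega] at this
  · have := h4 (k - 800) (by omega)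
    rwa [show 800 + (k - 800) = k by omega] at this

lemma trK_lt {k : ℕ} (hk : k < 1001) {cl j : ℕ} (hcl : cl < 9) (hj : j < 2) : trK k cl j < 1001 := by
  have h := chk_all k hk
  unfold chk at h
  rw [Bool.and_eq_true] at h
  have h1 := (allTo_iff _ _).mp ((allTo_iff _ _).mp h.1 cl hcl) j hj
  unfold chkTr at h1
  rw [Bool.and_eq_true] at h1
  exact Nat.le_of_ble_eq_true h1.1

lemma tr_ok {k : ℕ} (hk : k < 1001) {cl j : ℕ} (hcl : cl < 9) (hj : j < 2) :
    ∀ w ∈ wl cl (gens k), okw (gens (trK k cl j)) (trS k cl j) (trA k cl j) (trC k cl j) w = true := by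
  have h := chk_all k hk
  unfold chk at h
  rw [Bool.and_eq_true] at h
  have h1 := (allTo_iff _ _).mp ((allTo_iff _ _).mp h.1 cl hcl) j hj
  unfold chkTr at h1
  rw [Bool.and_eq_true] at h1
  exact List.all_eq_true.mp h1.2

lemma pot0_sum {k : ℕ} (hk : k < 1001) :
    ∑ cl ∈ Finset.range 9, ∑ j ∈ Finset.range 2, (pot0 (trK k cl j) + 100000 * trA k cl j)
      ≤ 18 * pot0 k + 28500 := by
  have h := chk_all k hk
  unfold chk at h
  rw [Bool.and_eq_true, Bool.and_eq_true] at h
  have h1 := Nat.le_of_ble_eq_true h.2.1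
  simp only [sumTo_eq] at h1
  exact h1

lemma pot1_sum {k : ℕ} (hk : k < 1001) :
    ∑ cl ∈ Finset.range 9, ∑ j ∈ Finset.range 2,
      (pot1 (trK k cl j) + 100000 * trA k cl j + 100000 * trS k cl j)
      ≤ 18 * pot1 k + 28500 + 1800000 := by
  have h := chk_all k hk
  unfold chk at h
  rw [Bool.and_eq_true, Bool.and_eq_true] at h
  have h1 := Nat.le_of_ble_eq_true h.2.2
  simp only [sumTo_eq] at h1
  exact h1

lemma fld_lt (T s : ℕ) {b : ℕ} (hb : 0 < b) : fld T s b < b := Nat.mod_lt _ hb

lemma pot0_lt (k : ℕ) : pot0 k < 1048576 := fld_lt _ _ (by norm_num)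
lemma pot1_lt (k : ℕ) : pot1 k < 1048576 := fld_lt _ _ (by norm_num)
lemma trS_lt (k cl j : ℕ) : trS k cl j < 16 := fld_lt _ _ (by norm_num)
lemma trA_lt (k cl j : ℕ) : trA k cl j < 2 := fld_lt _ _ (by norm_num)

lemma gl_lt (f : ℕ) : ∀ R : ℕ, ∀ g ∈ gl f R, g < 2 ^ 8 := by
  induction f with
  | zero => intro R g hg; simp [gl] at hg
  | succ f ih =>
      intro R g hg
      unfold gl at hg
      cases hb : Nat.beq R 0
      · rw [hb, cond_false, List.mem_cons] at hg
        rcases hg with h | h
        · rw [h]; exact Nat.mod_lt _ (by norm_num)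
        · exact ih _ g h
      · rw [hb, cond_true] at hg
        simp at hg

lemma gl_length (f : ℕ) : ∀ R : ℕ, (gl f R).length ≤ f := by
  induction f with
  | zero => intro R; simp [gl]
  | succ f ih =>
      intro R
      unfold gl
      cases hb : Nat.beq R 0
      · rw [cond_false, List.length_cons]
        exact Nat.succ_le_succ (ih _)
      · rw [cond_true]
        simp

lemma gens_lt (k : ℕ) : ∀ g ∈ gens k, g < 2 ^ 8 := gl_lt 7 _

lemma gens_length (k : ℕ) : (gens k).length ≤ 7 := gl_length 7 _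

lemma gens_zero : gens 0 = [] := by decide +kernel

end Pool.Agent.UTM
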