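import Mathlib
import Pool.Agent.UTM.Walk
import Pool.Agent.UTM.Sound

/-!
The recursion for the exponential moments of the dimensions.
-/
set_option autoImplicit false
set_option linter.unusedSectionVars false

namespace Pool.Agent.UTM

open Finset

/-- the exponent -/
noncomputable def th : ℝ := 1 / 100000000

noncomputable def v0 (k : ℕ) : ℝ := (pot0 k : ℝ) / 100000
noncomputable def v1 (k : ℕ) : ℝ := (pot1 k : ℝ) / 100000

noncomputable def kap : ℝ := th * (28500 / 400000) + 4050 * th ^ 2

lemma th_pos : 0 < th := by unfold th; norm_num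

lemma kap_pos : 0 < kap := by
  unfold kap
  have := th_pos
  positivity

/-- the functional -/
noncomputable def Fm (n p x k : ℕ) (A : Mat n) : ℝ :=
  Real.exp (th * (rk (rowf p A) x (gens k) : ℝ))

noncomputable def Ph (p x k : ℕ) : ℝ :=
  Real.exp (th * v0 k) + Real.exp (th * (v1 k + (x : ℝ) - (p : ℝ)))

lemma exp_le_quad {z : ℝ} (h : |z| ≤ 1) : Real.exp z ≤ 1 + z + z ^ 2 := by
  have h1 := Real.abs_exp_sub_one_sub_id_le h
  have h2 := (abs_le.mp h1).2
  linarith

lemma sum_exp_bound (y : ℕ → ℕ → ℝ) (hy : ∀ cl j, |y cl j| ≤ 30) (Λ : ℝ)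
    (hs : ∑ cl ∈ range 9, ∑ j ∈ range 2, y cl j ≤ Λ) :
    ∑ cl ∈ range 9, ∑ j ∈ range 2, Real.exp (th * y cl j)
      ≤ 18 + th * Λ + 16200 * th ^ 2 := by
  have h1 : ∀ cl ∈ range 9, ∀ j ∈ range 2, Real.exp (th * y cl j) ≤ 1 + th * y cl j + 900 * th ^ 2 := by
    intro cl _ j _
    have hb := hy cl j
    have hth := th_pos
    have h2 : |th * y cl j| ≤ 1 := by
      rw [abs_mul, abs_of_pos hth]
      have : th * |y cl j| ≤ th * 30 := mul_le_mul_of_nonneg_left hb hth.le
      have h3 : th * 30 ≤ 1 := by unfold th; norm_num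
      linarith
    have h3 := exp_le_quad h2
    have h4 : (th * y cl j) ^ 2 ≤ 900 * th ^ 2 := by
      rw [mul_pow]
      have h5 : (y cl j) ^ 2 ≤ 900 := by
        have := sq_abs (y cl j)
        have h6 : |y cl j| ^ 2 ≤ 30 ^ 2 := pow_le_pow_left₀ (abs_nonneg _) hb 2
        rw [← this]
        linarith
      have h7 : 0 ≤ th ^ 2 := by positivity
      nlinarith
    linarith
  calc ∑ cl ∈ range 9, ∑ j ∈ range 2, Real.exp (th * y cl j)
      ≤ ∑ cl ∈ range 9, ∑ j ∈ range 2, (1 + th * y cl j + 900 * th ^ 2) := by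
        apply Finset.sum_le_sum
        intro cl hcl
        apply Finset.sum_le_sum
        intro j hj
        exact h1 cl hcl j hj
    _ = 18 + th * (∑ cl ∈ range 9, ∑ j ∈ range 2, y cl j) + 16200 * th ^ 2 := by
        simp only [Finset.sum_add_distrib, Finset.mul_sum, Finset.sum_const, card_range, nsmul_eq_mul]
        push_cast
        ring
    _ ≤ _ := by
        have := mul_le_mul_of_nonneg_left hs th_pos.le
        linarith

lemma v0_nonneg (k : ℕ) : 0 ≤ v0 k := by unfold v0; positivity
lemma v1_nonneg (k : ℕ) : 0 ≤ v1 k := by unfold v1; positivity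

lemma v0_le (k : ℕ) : v0 k ≤ 11 := by
  unfold v0
  have h : (pot0 k : ℝ) ≤ 1048576 := by exact_mod_cast (pot0_lt k).le
  rw [div_le_iff₀ (by norm_num)]
  linarith

lemma v1_le (k : ℕ) : v1 k ≤ 11 := by
  unfold v1
  have h : (pot1 k : ℝ) ≤ 1048576 := by exact_mod_cast (pot1_lt k).le
  rw [div_le_iff₀ (by norm_num)]
  linarith

lemma trA_le (k cl j : ℕ) : (trA k cl j : ℝ) ≤ 1 := by
  have := trA_lt k cl j
  have h : trA k cl j ≤ 1 := by omega
  exact_mod_cast h

lemma trS_le (k cl j : ℕ) : (trS k cl j : ℝ) ≤ 15 := by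
  have := trS_lt k cl j
  have h : trS k cl j ≤ 15 := by omega
  exact_mod_cast h

lemma step0 {k : ℕ} (hk : k < 1001) :
    ∑ cl ∈ range 9, ∑ j ∈ range 2, Real.exp (th * ((trA k cl j : ℝ) + v0 (trK k cl j)))
      ≤ (18 + 4 * kap) * Real.exp (th * v0 k) := by
  have h1 : ∀ cl j, |(trA k cl j : ℝ) + v0 (trK k cl j) - v0 k| ≤ 30 := by
    intro cl j
    have a1 := trA_le k cl j
    have a2 : (0 : ℝ) ≤ trA k cl j := Nat.cast_nonneg _
    have a3 := v0_le (trK k cl j)
    have a4 := v0_nonneg (trK k cl j)
    have a5 := v0_le k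
    have a6 := v0_nonneg k
    rw [abs_le]
    constructor <;> linarith
  have h2 : ∑ cl ∈ range 9, ∑ j ∈ range 2, ((trA k cl j : ℝ) + v0 (trK k cl j) - v0 k) ≤ 28500 / 100000 := by
    have h3 := pot0_sum hk
    have h4 : ((∑ cl ∈ range 9, ∑ j ∈ range 2, (pot0 (trK k cl j) + 100000 * trA k cl j) : ℕ) : ℝ)
        ≤ ((18 * pot0 k + 28500 : ℕ) : ℝ) := by exact_mod_cast h3
    push_cast at h4
    have h5 : ∑ cl ∈ range 9, ∑ j ∈ range 2, ((trA k cl j : ℝ) + v0 (trK k cl j) - v0 k)
        = (∑ cl ∈ range 9, ∑ j ∈ range 2, ((pot0 (trK k cl j) : ℝ) + 100000 * (trA k cl j : ℝ))) / 100000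
          - 18 * v0 k := by
      have h6 : ∀ cl ∈ range 9, ∀ j ∈ range 2, ((trA k cl j : ℝ) + v0 (trK k cl j) - v0 k)
          = ((pot0 (trK k cl j) : ℝ) + 100000 * (trA k cl j : ℝ)) / 100000 - v0 k := by
        intro cl _ j _
        unfold v0
        ring
      rw [Finset.sum_congr rfl (fun cl hcl => Finset.sum_congr rfl (fun j hj => h6 cl hcl j hj))]
      simp only [Finset.sum_sub_distrib, Finset.sum_div, Finset.sum_const, card_range, nsmul_eq_mul]
      push_cast
      ring
    rw [h5]
    unfold v0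
    linarith
  have h3 := sum_exp_bound _ h1 _ h2
  have h4 : ∀ cl ∈ range 9, ∀ j ∈ range 2, Real.exp (th * ((trA k cl j : ℝ) + v0 (trK k cl j)))
      = Real.exp (th * v0 k) * Real.exp (th * ((trA k cl j : ℝ) + v0 (trK k cl j) - v0 k)) := by
    intro cl _ j _
    rw [← Real.exp_add]
    congr 1
    ring
  rw [Finset.sum_congr rfl (fun cl hcl => Finset.sum_congr rfl (fun j hj => h4 cl hcl j hj))]
  simp only [← Finset.mul_sum]
  rw [mul_comm]
  apply mul_le_mul_of_nonneg_right _ (Real.exp_pos _).le
  refine le_trans h3 (le_of_eq ?_)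
  unfold kap
  ring

lemma step1 {k : ℕ} (hk : k < 1001) (y p : ℕ) :
    ∑ cl ∈ range 9, ∑ j ∈ range 2, Real.exp (th * ((trA k cl j : ℝ)
        + (v1 (trK k cl j) + ((y + trS k cl j : ℕ) : ℝ) - (p : ℝ))))
      ≤ (18 + 4 * kap) * Real.exp (th * (v1 k + ((y + 1 : ℕ) : ℝ) - (p : ℝ))) := by
  have h1 : ∀ cl j, |(trA k cl j : ℝ) + v1 (trK k cl j) + (trS k cl j : ℝ) - 1 - v1 k| ≤ 30 := by
    intro cl j
    have a1 := trA_le k cl j
    have a2 : (0 : ℝ) ≤ trA k cl j := Nat.cast_nonneg _
    have a3 := v1_le (trK k cl j)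
    have a4 := v1_nonneg (trK k cl j)
    have a5 := v1_le k
    have a6 := v1_nonneg k
    have a7 := trS_le k cl j
    have a8 : (0 : ℝ) ≤ trS k cl j := Nat.cast_nonneg _
    rw [abs_le]
    constructor <;> linarith
  have h2 : ∑ cl ∈ range 9, ∑ j ∈ range 2, ((trA k cl j : ℝ) + v1 (trK k cl j) + (trS k cl j : ℝ) - 1 - v1 k)
      ≤ 28500 / 100000 := by
    have h3 := pot1_sum hk
    have h4 : ((∑ cl ∈ range 9, ∑ j ∈ range 2,
        (pot1 (trK k cl j) + 100000 * trA k cl j + 100000 * trS k cl j) : ℕ) : ℝ)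
        ≤ ((18 * pot1 k + 28500 + 1800000 : ℕ) : ℝ) := by exact_mod_cast h3
    push_cast at h4
    have h5 : ∑ cl ∈ range 9, ∑ j ∈ range 2,
          ((trA k cl j : ℝ) + v1 (trK k cl j) + (trS k cl j : ℝ) - 1 - v1 k)
        = (∑ cl ∈ range 9, ∑ j ∈ range 2, ((pot1 (trK k cl j) : ℝ) + 100000 * (trA k cl j : ℝ)
            + 100000 * (trS k cl j : ℝ))) / 100000 - 18 - 18 * v1 k := by
      have h6 : ∀ cl ∈ range 9, ∀ j ∈ range 2,
          ((trA k cl j : ℝ) + v1 (trK k cl j) + (trS k cl j : ℝ) - 1 - v1 k)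
          = ((pot1 (trK k cl j) : ℝ) + 100000 * (trA k cl j : ℝ) + 100000 * (trS k cl j : ℝ)) / 100000
            - (1 + v1 k) := by
        intro cl _ j _
        unfold v1
        ring
      rw [Finset.sum_congr rfl (fun cl hcl => Finset.sum_congr rfl (fun j hj => h6 cl hcl j hj))]
      simp only [Finset.sum_sub_distrib, Finset.sum_div, Finset.sum_const, card_range, nsmul_eq_mul]
      push_cast
      ring
    rw [h5]
    unfold v1
    linarith
  have h3 := sum_exp_bound _ h1 _ h2
  have h4 : ∀ cl ∈ range 9, ∀ j ∈ range 2, Real.exp (th * ((trA k cl j : ℝ)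
        + (v1 (trK k cl j) + ((y + trS k cl j : ℕ) : ℝ) - (p : ℝ))))
      = Real.exp (th * (v1 k + ((y + 1 : ℕ) : ℝ) - (p : ℝ)))
        * Real.exp (th * ((trA k cl j : ℝ) + v1 (trK k cl j) + (trS k cl j : ℝ) - 1 - v1 k)) := by
    intro cl _ j _
    rw [← Real.exp_add]
    congr 1
    push_cast
    ring
  rw [Finset.sum_congr rfl (fun cl hcl => Finset.sum_congr rfl (fun j hj => h4 cl hcl j hj))]
  simp only [← Finset.mul_sum]
  rw [mul_comm]
  apply mul_le_mul_of_nonneg_right _ (Real.exp_pos _).le
  refine le_trans h3 (le_of_eq ?_)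
  unfold kap
  ring

lemma stepPh {k : ℕ} (hk : k < 1001) (y p : ℕ) :
    ∑ cl ∈ range 9, ∑ j ∈ range 2, Real.exp (th * (trA k cl j : ℝ))
        * Ph p (y + trS k cl j) (trK k cl j)
      ≤ (18 + 4 * kap) * Ph p (y + 1) k := by
  have h0 := step0 hk
  have h1 := step1 hk y p
  have h2 : ∑ cl ∈ range 9, ∑ j ∈ range 2, Real.exp (th * (trA k cl j : ℝ))
        * Ph p (y + trS k cl j) (trK k cl j)
      = ∑ cl ∈ range 9, ∑ j ∈ range 2, Real.exp (th * ((trA k cl j : ℝ) + v0 (trK k cl j)))
        + ∑ cl ∈ range 9, ∑ j ∈ range 2, Real.exp (th * ((trA k cl j : ℝ)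
        + (v1 (trK k cl j) + ((y + trS k cl j : ℕ) : ℝ) - (p : ℝ)))) := by
    simp only [← Finset.sum_add_distrib]
    apply Finset.sum_congr rfl
    intro cl _
    apply Finset.sum_congr rfl
    intro j _
    unfold Ph
    rw [mul_add, ← Real.exp_add, ← Real.exp_add]
    congr 2 <;> ring
  rw [h2]
  unfold Ph
  rw [mul_add]
  linarith

lemma rk_le_cols {n : ℕ} (p : ℕ) (A : Mat n) (x : ℕ) (G : List ℕ) : rk (rowf p A) x G ≤ n - p := by
  unfold rk
  refine le_trans (Submodule.finrank_le _) ?_
  rw [Module.finrank_fin_fun]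

/-- pointwise bound for one step in the bulk -/
lemma step_bulk {K : (n : ℕ) → Matrix (Mat n) (Mat n) ℝ} (hK : IsKernel K) (n p y r k : ℕ)
    (hn : n - 1 = y + 9 + r) (hk : k < 1001) (A : Mat n) :
    (Matrix.mulVec (K n) (Fm n p (y + 1) k)) A ≤
      (1 / 2 : ℝ) * Fm n p (y + 1) k A + (1 / (2 * ((n : ℝ) - 1))) *
        (((y + r : ℕ) : ℝ) * Fm n p (y + 1) k A
          + ∑ cl ∈ range 9, ∑ j ∈ range 2, (1 / 2 * Real.exp (th * (trA k cl j : ℝ)))
            * Fm n p (y + trS k cl j) (trK k cl j) A) := by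
  have hth := th_pos
  rw [kernel_mulVec hK]
  have hn1 : (0 : ℝ) ≤ (n : ℝ) - 1 := by
    have : 1 ≤ n := by omega
    have h2 : (1 : ℝ) ≤ n := by exact_mod_cast this
    linarith
  have key : ∑ i ∈ range (n - 1), Fm n p (y + 1) k (rop i A) ≤
      ((y + r : ℕ) : ℝ) * Fm n p (y + 1) k A
          + ∑ cl ∈ range 9, ∑ j ∈ range 2, (1 / 2 * Real.exp (th * (trA k cl j : ℝ)))
            * Fm n p (y + trS k cl j) (trK k cl j) A := by
    rw [hn, Finset.sum_range_add, Finset.sum_range_add]
    have a1 : ∑ i ∈ range y, Fm n p (y + 1) k (rop i A) ≤ (y : ℝ) * Fm n p (y + 1) k A := by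
      calc ∑ i ∈ range y, Fm n p (y + 1) k (rop i A) ≤ ∑ i ∈ range y, Fm n p (y + 1) k A := by
            apply Finset.sum_le_sum
            intro i hi
            rw [mem_range] at hi
            unfold Fm
            rw [rowf_rop p A i (by omega)]
            apply Real.exp_le_exp.mpr
            apply mul_le_mul_of_nonneg_left _ hth.le
            exact_mod_cast rk_upd_far_left (rowf p A) (by omega) (gens k)
        _ = _ := by rw [Finset.sum_const, card_range, nsmul_eq_mul]
    have a2 : ∑ i ∈ range r, Fm n p (y + 1) k (rop (y + 9 + i) A) ≤ (r : ℝ) * Fm n p (y + 1) k A := by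
      calc ∑ i ∈ range r, Fm n p (y + 1) k (rop (y + 9 + i) A) ≤ ∑ i ∈ range r, Fm n p (y + 1) k A := by
            apply Finset.sum_le_sum
            intro i hi
            rw [mem_range] at hi
            unfold Fm
            rw [rowf_rop p A (y + 9 + i) (by omega)]
            apply Real.exp_le_exp.mpr
            apply mul_le_mul_of_nonneg_left _ hth.le
            exact_mod_cast rk_upd_far_right (rowf p A) (m := 8) (by omega) (gens k) (gens_lt k)
        _ = _ := by rw [Finset.sum_const, card_range, nsmul_eq_mul]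
    have a3 : ∑ cl ∈ range 9, Fm n p (y + 1) k (rop (y + cl) A) ≤
        ∑ cl ∈ range 9, ∑ j ∈ range 2, (1 / 2 * Real.exp (th * (trA k cl j : ℝ)))
            * Fm n p (y + trS k cl j) (trK k cl j) A := by
      apply Finset.sum_le_sum
      intro cl hcl
      rw [mem_range] at hcl
      have b1 : ∀ j < 2, Fm n p (y + 1) k (rop (y + cl) A) ≤
          Real.exp (th * (trA k cl j : ℝ)) * Fm n p (y + trS k cl j) (trK k cl j) A := by
        intro j hj
        unfold Fm
        rw [rowf_rop p A (y + cl) (by omega), ← Real.exp_add]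
        apply Real.exp_le_exp.mpr
        rw [← mul_add]
        apply mul_le_mul_of_nonneg_left _ hth.le
        have b2 := rk_upd_near (rowf p A) y cl (gens k) (gens (trK k cl j)) (trS k cl j) (trA k cl j)
          (trC k cl j) (by have := trA_lt k cl j; omega) (tr_ok hk hcl hj)
        have b3 : ((rk (upd (rowf p A) (y + cl)) (y + 1) (gens k) : ℕ) : ℝ)
            ≤ ((rk (rowf p A) (y + trS k cl j) (gens (trK k cl j)) + trA k cl j : ℕ) : ℝ) := by
          exact_mod_cast b2
        push_cast at b3
        linarith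
      rw [Finset.sum_range_succ, Finset.sum_range_succ, Finset.sum_range_zero]
      have c0 := b1 0 (by norm_num)
      have c1 := b1 1 (by norm_num)
      linarith
    push_cast
    linarith
  have hc : (0 : ℝ) ≤ 1 / (2 * ((n : ℝ) - 1)) := by positivity
  have := mul_le_mul_of_nonneg_left key hc
  linarith

/-- The exponential moment bound. -/
theorem moment {K : (n : ℕ) → Matrix (Mat n) (Mat n) ℝ} (hK : IsKernel K) (n p : ℕ) (hn : 2 ≤ n)
    (hp : p ≤ n) (T : ℕ) : ∀ (x k : ℕ), k < 1001 →
      ex K n T (Fm n p x k) ≤ Real.exp (th * 8) * (1 + kap / ((n : ℝ) - 1)) ^ T * Ph p x k := by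
  have hth := th_pos
  have hn1 : (0 : ℝ) < (n : ℝ) - 1 := by
    have h2 : (2 : ℝ) ≤ n := by exact_mod_cast hn
    linarith
  have hq : 1 ≤ 1 + kap / ((n : ℝ) - 1) := by
    have := div_pos kap_pos hn1
    linarith
  have hPh : ∀ x k, 0 < Ph p x k := by
    intro x k
    unfold Ph
    positivity
  induction T with
  | zero =>
      intro x k hk
      rw [ex_zero, pow_zero, mul_one]
      unfold Fm Ph
      have h1 := rk_le_crude (rowf p (1 : Mat n)) x p (gens k) (fun i hi => rowf_one p i hi)
      have h2 := gens_length k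
      rw [mul_add, ← Real.exp_add, ← Real.exp_add]
      by_cases hx : p ≤ x
      · have h3 : (rk (rowf p (1 : Mat n)) x (gens k) : ℝ) ≤ (x : ℝ) - (p : ℝ) + 7 := by
          have : rk (rowf p (1 : Mat n)) x (gens k) + p ≤ x + 7 := by omega
          have h4 : ((rk (rowf p (1 : Mat n)) x (gens k) + p : ℕ) : ℝ) ≤ ((x + 7 : ℕ) : ℝ) := by
            exact_mod_cast this
          push_cast at h4
          linarith
        have h5 : Real.exp (th * (rk (rowf p (1 : Mat n)) x (gens k) : ℝ))
            ≤ Real.exp (th * 8 + th * (v1 k + (x : ℝ) - (p : ℝ))) := by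
          apply Real.exp_le_exp.mpr
          have h6 := v1_nonneg k
          rw [← mul_add]
          apply mul_le_mul_of_nonneg_left _ hth.le
          linarith
        have h7 := Real.exp_pos (th * 8 + th * v0 k)
        linarith
      · have h3 : (rk (rowf p (1 : Mat n)) x (gens k) : ℝ) ≤ 7 := by
          have : rk (rowf p (1 : Mat n)) x (gens k) ≤ 7 := by omega
          exact_mod_cast this
        have h5 : Real.exp (th * (rk (rowf p (1 : Mat n)) x (gens k) : ℝ))
            ≤ Real.exp (th * 8 + th * v0 k) := by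
          apply Real.exp_le_exp.mpr
          have h6 := v0_nonneg k
          rw [← mul_add]
          apply mul_le_mul_of_nonneg_left _ hth.le
          linarith
        have h7 := Real.exp_pos (th * 8 + th * (v1 k + (x : ℝ) - (p : ℝ)))
        linarith
  | succ T ih =>
      intro x k hk
      by_cases hx0 : x = 0
      · -- deterministic bound at the left boundary
        subst hx0
        have h0 : ex K n (T + 1) (Fm n p 0 k) ≤ ex K n (T + 1) (fun _ => Real.exp (th * 8)) := by
          apply ex_mono hK n (by omega)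
          intro A
          unfold Fm
          apply Real.exp_le_exp.mpr
          apply mul_le_mul_of_nonneg_left _ hth.le
          have h1 := rk_le_crude (rowf p A) 0 0 (gens k) (fun i hi => absurd hi (by omega))
          have h2 := gens_length k
          have h3 : rk (rowf p A) 0 (gens k) ≤ 8 := by omega
          exact_mod_cast h3
        rw [ex_const hK n hn] at h0
        refine le_trans h0 ?_
        have h1 : 1 ≤ Ph p 0 k := by
          unfold Ph
          have h2 : 1 ≤ Real.exp (th * v0 k) :=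
            Real.one_le_exp (mul_nonneg hth.le (v0_nonneg k))
          have h3 := Real.exp_pos (th * (v1 k + ((0 : ℕ) : ℝ) - (p : ℝ)))
          linarith
        have h2 : 1 ≤ (1 + kap / ((n : ℝ) - 1)) ^ (T + 1) := one_le_pow₀ hq
        have h3 : 1 ≤ (1 + kap / ((n : ℝ) - 1)) ^ (T + 1) * Ph p 0 k := by nlinarith
        rw [mul_assoc]
        have h4 := Real.exp_pos (th * 8)
        nlinarith
      · by_cases hxn : n ≤ x + 8
        · -- deterministic bound at the right boundary
          have h0 : ex K n (T + 1) (Fm n p x k)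
              ≤ ex K n (T + 1) (fun _ => Real.exp (th * 8 + th * (v1 k + (x : ℝ) - (p : ℝ)))) := by
            apply ex_mono hK n (by omega)
            intro A
            unfold Fm
            apply Real.exp_le_exp.mpr
            rw [← mul_add]
            apply mul_le_mul_of_nonneg_left _ hth.le
            have h1 := rk_le_cols p A x (gens k)
            have h3 : rk (rowf p A) x (gens k) + p ≤ x + 8 := by omega
            have h4 : ((rk (rowf p A) x (gens k) + p : ℕ) : ℝ) ≤ ((x + 8 : ℕ) : ℝ) := by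
              exact_mod_cast h3
            push_cast at h4
            have h5 := v1_nonneg k
            linarith
          rw [ex_const hK n hn, Real.exp_add] at h0
          refine le_trans h0 ?_
          have h1 : Real.exp (th * (v1 k + (x : ℝ) - (p : ℝ))) ≤ Ph p x k := by
            unfold Ph
            have h3 := Real.exp_pos (th * v0 k)
            linarith
          have h2 : 1 ≤ (1 + kap / ((n : ℝ) - 1)) ^ (T + 1) := one_le_pow₀ hq
          have h3 : Ph p x k ≤ (1 + kap / ((n : ℝ) - 1)) ^ (T + 1) * Ph p x k := by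
            have := hPh x k
            nlinarith
          rw [mul_assoc]
          apply mul_le_mul_of_nonneg_left _ (Real.exp_pos _).le
          linarith
        · -- the bulk
          obtain ⟨y, hy⟩ : ∃ y, x = y + 1 := ⟨x - 1, by omega⟩
          obtain ⟨r, hr⟩ : ∃ r, n - 1 = y + 9 + r := ⟨n - 1 - (y + 9), by omega⟩
          subst hy
          rw [ex_succ]
          have h0 := ex_mono hK n (by omega) T (step_bulk hK n p y r k hr hk)
          refine le_trans h0 ?_
          rw [ex_add, ex_smul, ex_smul, ex_add, ex_smul, ex_sum]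
          have e1 : ∀ cl ∈ range 9, ex K n T (fun A => ∑ j ∈ range 2,
              (1 / 2 * Real.exp (th * (trA k cl j : ℝ))) * Fm n p (y + trS k cl j) (trK k cl j) A)
              ≤ ∑ j ∈ range 2, (1 / 2 * Real.exp (th * (trA k cl j : ℝ)))
                * (Real.exp (th * 8) * (1 + kap / ((n : ℝ) - 1)) ^ T
                    * Ph p (y + trS k cl j) (trK k cl j)) := by
            intro cl hcl
            rw [mem_range] at hcl
            rw [ex_sum]
            apply Finset.sum_le_sum
            intro j hj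
            rw [mem_range] at hj
            rw [ex_smul]
            apply mul_le_mul_of_nonneg_left
            · exact ih _ _ (trK_lt hk hcl hj)
            · have := Real.exp_pos (th * (trA k cl j : ℝ))
              positivity
          have e2 := Finset.sum_le_sum e1
          have e3 := ih (y + 1) k hk
          have e4 := stepPh hk y p
          set D : ℝ := Real.exp (th * 8) * (1 + kap / ((n : ℝ) - 1)) ^ T with hD
          have hDpos : 0 < D := by
            rw [hD]
            have := Real.exp_pos (th * 8)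
            positivity
          have e5 : ∑ cl ∈ range 9, ∑ j ∈ range 2, (1 / 2 * Real.exp (th * (trA k cl j : ℝ)))
                * (D * Ph p (y + trS k cl j) (trK k cl j))
              = D / 2 * ∑ cl ∈ range 9, ∑ j ∈ range 2, Real.exp (th * (trA k cl j : ℝ))
                * Ph p (y + trS k cl j) (trK k cl j) := by
            rw [Finset.mul_sum]
            apply Finset.sum_congr rfl
            intro cl _
            rw [Finset.mul_sum]
            apply Finset.sum_congr rfl
            intro j _
            ring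
          rw [e5] at e2
          have e6 : D / 2 * ∑ cl ∈ range 9, ∑ j ∈ range 2, Real.exp (th * (trA k cl j : ℝ))
                * Ph p (y + trS k cl j) (trK k cl j) ≤ D / 2 * ((18 + 4 * kap) * Ph p (y + 1) k) :=
            mul_le_mul_of_nonneg_left e4 (by positivity)
          have hyr : ((y + r : ℕ) : ℝ) = (n : ℝ) - 1 - 9 := by
            have h1 : n = y + r + 10 := by omega
            have h2 : (n : ℝ) = ((y + r : ℕ) : ℝ) + 10 := by
              rw [h1]
              push_cast
              ring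
            linarith
          have hyr0 : (0 : ℝ) ≤ ((y + r : ℕ) : ℝ) := Nat.cast_nonneg _
          have e7 : ((y + r : ℕ) : ℝ) * ex K n T (Fm n p (y + 1) k)
              ≤ ((y + r : ℕ) : ℝ) * (D * Ph p (y + 1) k) := mul_le_mul_of_nonneg_left e3 hyr0
          have hc : (0 : ℝ) ≤ 1 / (2 * ((n : ℝ) - 1)) := by positivity
          have e8 := mul_le_mul_of_nonneg_left (add_le_add e7 (le_trans e2 e6)) hc
          have e9 : 1 / 2 * ex K n T (Fm n p (y + 1) k) ≤ 1 / 2 * (D * Ph p (y + 1) k) := by linarith
          refine le_trans (add_le_add e9 e8) (le_of_eq ?_)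
          rw [hyr, pow_succ, hD]
          field_simp
          ring

end Pool.Agent.UTM
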