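import Mathlib
import Pool.Agent.UTM.Recur
import Pool.Agent.UTM.Cont

/-!
The lower bound for the mixing time.
-/
set_option autoImplicit false
set_option linter.unusedSectionVars false

namespace Pool.Agent.UTM

open Finset Filter Topology

variable {K : (n : ℕ) → Matrix (Mat n) (Mat n) ℝ}

/-- probability of a large rank at time `t` -/
lemma mu_large (hK : IsKernel K) (n p : ℕ) (hn : 2 ≤ n) (hp : p ≤ n) {t : ℝ} (ht : 0 ≤ t) (m : ℝ) :
    ∑ B ∈ univ.filter (fun B : Mat n => m ≤ (rk (rowf p B) p [] : ℝ)), mu K n t B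
      ≤ Real.exp (-(th * m)) * (Real.exp (th * 8) * Ph p p 0 * Real.exp (kap * t)) := by
  have hth := th_pos
  have h1 : ∑ B, mu K n t B * Fm n p p 0 B ≤ Real.exp (th * 8) * Ph p p 0 * Real.exp (kap * t) := by
    apply mu_growth hK n hn ht
    intro T
    have := moment hK n p hn hp T p 0 (by norm_num)
    linarith
  have h2 : ∑ B ∈ univ.filter (fun B : Mat n => m ≤ (rk (rowf p B) p [] : ℝ)), mu K n t B
      ≤ ∑ B, Real.exp (-(th * m)) * (mu K n t B * Fm n p p 0 B) := by
    rw [Finset.sum_filter]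
    apply Finset.sum_le_sum
    intro B _
    have h3 := mu_nonneg hK n hn ht B
    unfold Fm
    rw [gens_zero]
    split_ifs with h4
    · have h5 : 1 ≤ Real.exp (-(th * m)) * Real.exp (th * (rk (rowf p B) p [] : ℝ)) := by
        rw [← Real.exp_add]
        apply Real.one_le_exp
        have := mul_le_mul_of_nonneg_left h4 hth.le
        linarith
      nlinarith
    · positivity
  refine le_trans h2 ?_
  rw [← Finset.mul_sum]
  exact mul_le_mul_of_nonneg_left h1 (Real.exp_pos _).le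

/-- the uniform measure of a small rank -/
lemma pi_small (n p : ℕ) (hp : 2 * p ≤ n) (k : ℕ) :
    1 - 2 * (1 / 2 : ℝ) ^ k ≤
      ∑ B ∈ univ.filter (fun B : Mat n => (p : ℝ) - k < (rk (rowf p B) p [] : ℝ)),
        (if IsUni B then (1 / 2 : ℝ) ^ (n * (n - 1) / 2) else 0) := by
  classical
  have h0 := sum_pi n
  have h1 := Finset.sum_filter_add_sum_filter_not univ
    (fun B : Mat n => (p : ℝ) - k < (rk (rowf p B) p [] : ℝ))
    (fun B => if IsUni B then (1 / 2 : ℝ) ^ (n * (n - 1) / 2) else 0)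
  rw [h0] at h1
  have h2 : ∑ B ∈ univ.filter (fun B : Mat n => ¬ ((p : ℝ) - k < (rk (rowf p B) p [] : ℝ))),
      (if IsUni B then (1 / 2 : ℝ) ^ (n * (n - 1) / 2) else 0) ≤ 2 * (1 / 2 : ℝ) ^ k := by
    rw [← Finset.sum_filter, Finset.sum_const, nsmul_eq_mul]
    have h3 : ((univ.filter (fun B : Mat n => ¬ ((p : ℝ) - k < (rk (rowf p B) p [] : ℝ)))).filter IsUni)
        = (Uni n).filter (fun B => rk (rowf p B) p [] + k ≤ p) := by
      ext B
      unfold Uni
      rw [mem_filter, mem_filter, mem_filter, mem_filter]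
      constructor
      · rintro ⟨⟨_, a⟩, b⟩
        refine ⟨⟨mem_univ _, b⟩, ?_⟩
        have a' := not_lt.mp a
        have : ((rk (rowf p B) p [] + k : ℕ) : ℝ) ≤ ((p : ℕ) : ℝ) := by
          push_cast
          linarith
        exact_mod_cast this
      · rintro ⟨⟨_, b⟩, a⟩
        refine ⟨⟨mem_univ _, ?_⟩, b⟩
        rw [not_lt]
        have : ((rk (rowf p B) p [] + k : ℕ) : ℝ) ≤ ((p : ℕ) : ℝ) := by exact_mod_cast a
        push_cast at this
        linarith
    rw [h3]
    have h4 := card_bad (n := n) p hp k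
    have h5 := card_Uni n
    rw [h5] at h4
    have h6 : (((((Uni n).filter (fun B => rk (rowf p B) p [] + k ≤ p)).card * 2 ^ k : ℕ)) : ℝ)
        ≤ ((2 * 2 ^ (n * (n - 1) / 2) : ℕ) : ℝ) := by exact_mod_cast h4
    push_cast at h6
    have h7 : (0 : ℝ) < (1 / 2 : ℝ) ^ k := by positivity
    have h8 : (0 : ℝ) < (1 / 2 : ℝ) ^ (n * (n - 1) / 2) := by positivity
    have h9 := mul_le_mul_of_nonneg_right h6 (mul_pos h7 h8).le
    have e1 : (2 : ℝ) ^ k * (1 / 2 : ℝ) ^ k = 1 := by rw [← mul_pow]; norm_num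
    have e2 : (2 : ℝ) ^ (n * (n - 1) / 2) * (1 / 2 : ℝ) ^ (n * (n - 1) / 2) = 1 := by
      rw [← mul_pow]; norm_num
    calc (((Uni n).filter (fun B => rk (rowf p B) p [] + k ≤ p)).card : ℝ)
          * (1 / 2 : ℝ) ^ (n * (n - 1) / 2)
        = (((Uni n).filter (fun B => rk (rowf p B) p [] + k ≤ p)).card : ℝ)
          * ((2 : ℝ) ^ k * (1 / 2 : ℝ) ^ k) * (1 / 2 : ℝ) ^ (n * (n - 1) / 2) := by rw [e1, mul_one]
      _ = (((Uni n).filter (fun B => rk (rowf p B) p [] + k ≤ p)).card : ℝ) * 2 ^ k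
          * ((1 / 2 : ℝ) ^ k * (1 / 2 : ℝ) ^ (n * (n - 1) / 2)) := by ring
      _ ≤ 2 * 2 ^ (n * (n - 1) / 2) * ((1 / 2 : ℝ) ^ k * (1 / 2 : ℝ) ^ (n * (n - 1) / 2)) := h9
      _ = 2 * (1 / 2 : ℝ) ^ k * ((2 : ℝ) ^ (n * (n - 1) / 2) * (1 / 2 : ℝ) ^ (n * (n - 1) / 2)) := by ring
      _ = 2 * (1 / 2 : ℝ) ^ k := by rw [e2, mul_one]
  linarith

lemma kap_lt : 14 * kap < th := by
  unfold kap th
  norm_num

/-- For every `ε`, at all times up to `7 n` the distance is at least `1 - ε`, for large `n`. -/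
theorem lower_bound (hK : IsKernel K) (ε : ℝ) (hε : 0 < ε) :
    ∀ᶠ n : ℕ in atTop, ∀ t : ℝ, 0 ≤ t → t ≤ 7 * (n : ℝ) → 1 - ε < dist1 K n t := by
  obtain ⟨k, hk⟩ : ∃ k : ℕ, 2 * (1 / 2 : ℝ) ^ k < ε / 2 := by
    obtain ⟨k, hk⟩ := exists_pow_lt_of_lt_one (show 0 < ε / 4 by linarith) (show (1 / 2 : ℝ) < 1 by norm_num)
    exact ⟨k, by linarith⟩
  have hth := th_pos
  have hkap := kap_lt
  -- the main exponential
  set c : ℝ := th / 2 - 7 * kap with hc
  have hcpos : 0 < c := by rw [hc]; linarith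
  set D : ℝ := Real.exp (th * 8) * (Real.exp (th * 11) + Real.exp (th * 11)) * Real.exp (th * (1 / 2 + k))
    with hD
  have hlim : Tendsto (fun n : ℕ => D * Real.exp (-(c * (n : ℝ)))) atTop (𝓝 0) := by
    have h1 : Tendsto (fun n : ℕ => c * (n : ℝ)) atTop atTop :=
      (tendsto_natCast_atTop_atTop).const_mul_atTop hcpos
    have h2 := (Real.tendsto_exp_neg_atTop_nhds_zero.comp h1).const_mul D
    simpa using h2
  have hev := hlim.eventually (gt_mem_nhds (show (0 : ℝ) < ε / 2 by linarith))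
  filter_upwards [hev, eventually_ge_atTop (2 * k + 2)] with n hn1 hn2 t ht0 ht1
  set p : ℕ := n / 2 with hp
  have hpn : 2 * p ≤ n := by omega
  have hkp : k ≤ p := by omega
  have hn2' : 2 ≤ n := by omega
  have hp2 : ((n : ℝ) - 1) / 2 ≤ (p : ℝ) := by
    have : n ≤ 2 * p + 1 := by omega
    have h2 : (n : ℝ) ≤ ((2 * p + 1 : ℕ) : ℝ) := by exact_mod_cast this
    push_cast at h2
    linarith
  have a1 := dist_ge hK n hn2' ht0 (univ.filter (fun B : Mat n => (p : ℝ) - k < (rk (rowf p B) p [] : ℝ)))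
  have a2 := pi_small n p hpn k
  have a3 : ∑ B ∈ univ.filter (fun B : Mat n => (p : ℝ) - k < (rk (rowf p B) p [] : ℝ)), mu K n t B
      ≤ ∑ B ∈ univ.filter (fun B : Mat n => (p : ℝ) - k ≤ (rk (rowf p B) p [] : ℝ)), mu K n t B := by
    apply Finset.sum_le_sum_of_subset_of_nonneg
    · intro B hB
      rw [mem_filter] at hB ⊢
      exact ⟨hB.1, hB.2.le⟩
    · intro B _ _
      exact mu_nonneg hK n hn2' ht0 B
  have a4 := mu_large hK n p hn2' (by omega) ht0 ((p : ℝ) - k)
  have a5 : Real.exp (-(th * ((p : ℝ) - k))) * (Real.exp (th * 8) * Ph p p 0 * Real.exp (kap * t))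
      ≤ D * Real.exp (-(c * (n : ℝ))) := by
    have b1 : Ph p p 0 ≤ Real.exp (th * 11) + Real.exp (th * 11) := by
      unfold Ph
      apply add_le_add
      · apply Real.exp_le_exp.mpr
        exact mul_le_mul_of_nonneg_left (v0_le 0) hth.le
      · apply Real.exp_le_exp.mpr
        apply mul_le_mul_of_nonneg_left _ hth.le
        have := v1_le 0
        linarith
    have b2 : Real.exp (-(th * ((p : ℝ) - k))) * Real.exp (kap * t)
        ≤ Real.exp (th * (1 / 2 + k)) * Real.exp (-(c * (n : ℝ))) := by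
      rw [← Real.exp_add, ← Real.exp_add]
      apply Real.exp_le_exp.mpr
      have c1 : th * (((n : ℝ) - 1) / 2) ≤ th * p := mul_le_mul_of_nonneg_left hp2 hth.le
      have c2 : kap * t ≤ kap * (7 * (n : ℝ)) := mul_le_mul_of_nonneg_left ht1 kap_pos.le
      rw [hc]
      linarith
    calc Real.exp (-(th * ((p : ℝ) - k))) * (Real.exp (th * 8) * Ph p p 0 * Real.exp (kap * t))
        = (Real.exp (th * 8) * Ph p p 0) * (Real.exp (-(th * ((p : ℝ) - k))) * Real.exp (kap * t)) := by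
          ring
      _ ≤ (Real.exp (th * 8) * (Real.exp (th * 11) + Real.exp (th * 11)))
          * (Real.exp (th * (1 / 2 + k)) * Real.exp (-(c * (n : ℝ)))) := by
          apply mul_le_mul
          · exact mul_le_mul_of_nonneg_left b1 (Real.exp_pos _).le
          · exact b2
          · positivity
          · positivity
      _ = D * Real.exp (-(c * (n : ℝ))) := by rw [hD]; ring
  linarith

end Pool.Agent.UTM
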