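import Mathlib

/-!
Heat semigroups on finite state spaces: exponentials of operators on the space of functions.
-/
set_option autoImplicit false
set_option linter.unusedSectionVars false

namespace Pool.Agent.UTM.Es

open Finset Filter Topology

/-- operators on functions -/
abbrev Opr (Ω : Type) [Fintype Ω] := (Ω → ℝ) →L[ℝ] (Ω → ℝ)

section general

variable {Ω Ω' : Type} [Fintype Ω] [Fintype Ω']

/-- composition with a map -/
noncomputable def pull (g : Ω' → Ω) : (Ω → ℝ) →L[ℝ] (Ω' → ℝ) :=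
  ContinuousLinearMap.pi fun y => ContinuousLinearMap.proj (g y)

@[simp] lemma pull_apply (g : Ω' → Ω) (f : Ω → ℝ) (y : Ω') : pull g f y = f (g y) := rfl

/-- multiplication by a function -/
noncomputable def mulOp (w : Ω → ℝ) : Opr Ω :=
  ContinuousLinearMap.pi fun y => w y • ContinuousLinearMap.proj y

@[simp] lemma mulOp_apply (w : Ω → ℝ) (f : Ω → ℝ) (y : Ω) : mulOp w f y = w y * f y := rfl

/-- the heat semigroup -/
noncomputable def heat (L : Opr Ω) (t : ℝ) : Opr Ω := NormedSpace.exp (t • L)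

lemma heat_zero (L : Opr Ω) (f : Ω → ℝ) : heat L 0 f = f := by
  unfold heat
  rw [zero_smul, NormedSpace.exp_zero]
  rfl

lemma exp_add_opr {A B : Opr Ω} (h : Commute A B) :
    NormedSpace.exp (A + B) = NormedSpace.exp A * NormedSpace.exp B := by
  let _ : NormedAlgebra ℚ (Opr Ω) := NormedAlgebra.restrictScalars ℚ ℝ (Opr Ω)
  exact NormedSpace.exp_add_of_commute h

lemma heat_add (L : Opr Ω) (s t : ℝ) (f : Ω → ℝ) : heat L (s + t) f = heat L s (heat L t f) := by
  have h : heat L (s + t) = heat L s * heat L t := by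
    unfold heat
    rw [add_smul, exp_add_opr]
    exact ((Commute.refl L).smul_left s).smul_right t
  rw [h]
  rfl

/-- the exponential series applied to a function -/
lemma hasSum_heat (L : Opr Ω) (t : ℝ) (f : Ω → ℝ) :
    HasSum (fun n : ℕ => (t ^ n / (n.factorial : ℝ)) • (L ^ n) f) (heat L t f) := by
  have h := NormedSpace.exp_series_hasSum_exp' (𝕂 := ℝ) (t • L)
  have h2 := h.mapL (ContinuousLinearMap.apply ℝ (Ω → ℝ) f)
  refine h2.congr_fun ?_ |> fun h' => h'
  intro n
  simp only [ContinuousLinearMap.apply_apply, smul_pow]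
  change (t ^ n / (n.factorial : ℝ)) • (L ^ n) f = (n.factorial : ℝ)⁻¹ • (t ^ n • (L ^ n) f)
  rw [smul_smul]
  congr 1
  field_simp

/-- the series around `L + c` -/
lemma hasSum_heat_shift (L P : Opr Ω) (c : ℝ) (hP : P = L + c • (1 : Opr Ω)) (t : ℝ) (f : Ω → ℝ) :
    HasSum (fun n : ℕ => (Real.exp (-(c * t)) * t ^ n / (n.factorial : ℝ)) • (P ^ n) f)
      (heat L t f) := by
  have h1 : heat L t = Real.exp (-(c * t)) • heat P t := by
    have h2 : t • L = t • P + (-(c * t)) • (1 : Opr Ω) := by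
      rw [hP, smul_add, smul_smul, mul_comm t c, add_assoc, ← add_smul, add_neg_cancel, zero_smul,
        add_zero]
    unfold heat
    rw [h2, exp_add_opr ((Commute.one_right _).smul_right _)]
    have h3 : NormedSpace.exp ((-(c * t)) • (1 : Opr Ω)) = Real.exp (-(c * t)) • (1 : Opr Ω) := by
      have h4 := NormedSpace.algebraMap_exp_comm (𝕂 := ℝ) (𝔸 := Opr Ω) (-(c * t))
      rw [Algebra.algebraMap_eq_smul_one, Algebra.algebraMap_eq_smul_one] at h4
      rw [← h4, Real.exp_eq_exp_ℝ]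
    rw [h3, mul_smul_comm, mul_one]
  rw [h1]
  have h := (hasSum_heat P t f).const_smul (Real.exp (-(c * t)))
  refine h.congr_fun ?_ |> fun h' => h'
  intro n
  rw [smul_smul]
  congr 1
  ring

lemma heat_intertwine (L : Opr Ω) (L' : Opr Ω') (T : (Ω → ℝ) →L[ℝ] (Ω' → ℝ))
    (h : ∀ f, L' (T f) = T (L f)) (t : ℝ) (f : Ω → ℝ) : heat L' t (T f) = T (heat L t f) := by
  have h1 : ∀ n : ℕ, ∀ f, (L' ^ n) (T f) = T ((L ^ n) f) := by
    intro n
    induction n with
    | zero => intro f; rfl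
    | succ n ih =>
        intro f
        rw [pow_succ, pow_succ]
        change (L' ^ n) (L' (T f)) = T ((L ^ n) (L f))
        rw [h, ih]
  have h2 := hasSum_heat L' t (T f)
  have h3 := (hasSum_heat L t f).mapL T
  refine h2.unique (h3.congr_fun ?_ |> fun h' => h')
  intro n
  rw [h1, map_smul]

/-- closed convex cones -/
structure IsCone (C : Set (Ω → ℝ)) : Prop where
  zero : (0 : Ω → ℝ) ∈ C
  add : ∀ x ∈ C, ∀ y ∈ C, x + y ∈ C
  smul : ∀ (r : ℝ), 0 ≤ r → ∀ x ∈ C, r • x ∈ C
  closed : IsClosed C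

lemma IsCone.hasSum {C : Set (Ω → ℝ)} (hC : IsCone C) {u : ℕ → Ω → ℝ} {x : Ω → ℝ}
    (h : HasSum u x) (hu : ∀ n, u n ∈ C) : x ∈ C := by
  apply hC.closed.mem_of_tendsto h
  filter_upwards with s
  classical
  induction s using Finset.induction_on with
  | empty => rw [Finset.sum_empty]; exact hC.zero
  | insert a s ha ih => rw [Finset.sum_insert ha]; exact hC.add _ (hu a) _ ih

lemma IsCone.sum {C : Set (Ω → ℝ)} (hC : IsCone C) {ι : Type*} (s : Finset ι) (u : ι → Ω → ℝ)
    (hu : ∀ i ∈ s, u i ∈ C) : ∑ i ∈ s, u i ∈ C := by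
  classical
  induction s using Finset.induction_on with
  | empty => rw [Finset.sum_empty]; exact hC.zero
  | insert a s ha ih =>
      rw [Finset.sum_insert ha]
      exact hC.add _ (hu a (Finset.mem_insert_self _ _)) _
        (ih fun i hi => hu i (Finset.mem_insert_of_mem hi))

lemma heat_mem {C : Set (Ω → ℝ)} (hC : IsCone C) (L : Opr Ω) (c : ℝ)
    (hP : ∀ x ∈ C, L x + c • x ∈ C) {t : ℝ} (ht : 0 ≤ t) (x : Ω → ℝ) (hx : x ∈ C) :
    heat L t x ∈ C := by
  apply hC.hasSum (hasSum_heat_shift L _ c rfl t x)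
  intro n
  apply hC.smul _ (by positivity)
  have h1 : ∀ n : ℕ, ∀ x ∈ C, ((L + c • (1 : Opr Ω)) ^ n) x ∈ C := by
    intro n
    induction n with
    | zero => intro x hx; exact hx
    | succ n ih =>
        intro x hx
        rw [pow_succ]
        exact ih _ (hP x hx)
  exact h1 n x hx

lemma heat_cmp {C : Set (Ω → ℝ)} (hC : IsCone C) (L L' : Opr Ω) (c : ℝ)
    (hP : ∀ x ∈ C, L x + c • x ∈ C) (hP' : ∀ x ∈ C, L' x + c • x ∈ C)
    (hd : ∀ x ∈ C, L' x - L x ∈ C) {t : ℝ} (ht : 0 ≤ t) (x : Ω → ℝ) (hx : x ∈ C) :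
    heat L' t x - heat L t x ∈ C := by
  apply hC.hasSum ((hasSum_heat_shift L' _ c rfl t x).sub (hasSum_heat_shift L _ c rfl t x))
  intro n
  rw [← smul_sub]
  apply hC.smul _ (by positivity)
  have h1 : ∀ n : ℕ, ∀ x ∈ C, ((L + c • (1 : Opr Ω)) ^ n) x ∈ C := by
    intro n
    induction n with
    | zero => intro x hx; exact hx
    | succ n ih =>
        intro x hx
        rw [pow_succ]
        exact ih _ (hP x hx)
  have h2 : ∀ n : ℕ, ∀ x ∈ C,
      ((L' + c • (1 : Opr Ω)) ^ n) x - ((L + c • (1 : Opr Ω)) ^ n) x ∈ C := by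
    intro n
    induction n with
    | zero =>
        intro x hx
        rw [pow_zero, pow_zero, sub_self]
        exact hC.zero
    | succ n ih =>
        intro x hx
        have e : ((L' + c • (1 : Opr Ω)) ^ (n + 1)) x - ((L + c • (1 : Opr Ω)) ^ (n + 1)) x
            = (((L' + c • (1 : Opr Ω)) ^ n) (L' x + c • x)
                - ((L + c • (1 : Opr Ω)) ^ n) (L' x + c • x))
              + ((L + c • (1 : Opr Ω)) ^ n) (L' x - L x) := by
          rw [pow_succ, pow_succ, map_sub]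
          change ((L' + c • (1 : Opr Ω)) ^ n) (L' x + c • x)
            - ((L + c • (1 : Opr Ω)) ^ n) (L x + c • x) = _
          rw [map_add, map_add, map_add]
          abel
        rw [e]
        exact hC.add _ (ih _ (hP' x hx)) _ (h1 n _ (hd x hx))
  exact h2 n x hx

/-- the positive cone -/
lemma isCone_pos : IsCone {f : Ω → ℝ | ∀ y, 0 ≤ f y} where
  zero := fun _ => le_refl _
  add := fun x hx y hy z => add_nonneg (hx z) (hy z)
  smul := fun r hr x hx z => mul_nonneg hr (hx z)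
  closed := by
    have : {f : Ω → ℝ | ∀ y, 0 ≤ f y} = ⋂ y, {f : Ω → ℝ | 0 ≤ f y} := by
      ext f; simp
    rw [this]
    exact isClosed_iInter fun y => isClosed_le continuous_const (continuous_apply y)

/-- positivity of a generator -/
def PosGen (L : Opr Ω) (c : ℝ) : Prop := ∀ f : Ω → ℝ, (∀ y, 0 ≤ f y) → ∀ y, 0 ≤ L f y + c * f y

lemma heat_nonneg {L : Opr Ω} {c : ℝ} (hL : PosGen L c) {t : ℝ} (ht : 0 ≤ t) {f : Ω → ℝ}
    (hf : ∀ y, 0 ≤ f y) (y : Ω) : 0 ≤ heat L t f y :=
  heat_mem isCone_pos L c (fun x hx y => hL x hx y) ht f hf y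

lemma heat_mono {L : Opr Ω} {c : ℝ} (hL : PosGen L c) {t : ℝ} (ht : 0 ≤ t) {f g : Ω → ℝ}
    (hfg : ∀ y, f y ≤ g y) (y : Ω) : heat L t f y ≤ heat L t g y := by
  have h := heat_nonneg hL ht (f := g - f) (fun y => by
    rw [Pi.sub_apply]; linarith [hfg y]) y
  rw [map_sub, Pi.sub_apply] at h
  linarith

lemma heat_const {L : Opr Ω} (h1 : L (fun _ => 1) = 0) (t : ℝ) (a : ℝ) :
    heat L t (fun _ => a) = fun _ => a := by
  have h2 : L (fun _ => a) = 0 := by
    have : (fun _ : Ω => a) = a • (fun _ : Ω => (1 : ℝ)) := by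
      funext y
      simp
    rw [this, map_smul, h1, smul_zero]
  have h3 := hasSum_heat L t (fun _ : Ω => a)
  have h4 : ∀ n : ℕ, n ≠ 0 → (t ^ n / (n.factorial : ℝ)) • (L ^ n) (fun _ : Ω => a) = 0 := by
    intro n hn
    obtain ⟨m, rfl⟩ := Nat.exists_eq_succ_of_ne_zero hn
    rw [Nat.succ_eq_add_one, pow_succ]
    change _ • (L ^ m) (L (fun _ : Ω => a)) = 0
    rw [h2, map_zero, smul_zero]
  have h5 := hasSum_single (f := fun n : ℕ => (t ^ n / (n.factorial : ℝ)) • (L ^ n) (fun _ : Ω => a))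
    0 h4
  have h6 := h3.unique h5
  rw [h6]
  simp

lemma hasDerivAt_heat (L : Opr Ω) (t : ℝ) (f : Ω → ℝ) (y : Ω) :
    HasDerivAt (fun s => heat L s f y) (heat L t (L f) y) t := by
  have h := hasDerivAt_exp_smul_const (𝕂 := ℝ) L t
  have h2 : HasDerivAt (fun s : ℝ => ((ContinuousLinearMap.proj y : (Ω → ℝ) →L[ℝ] ℝ) ∘L
      (ContinuousLinearMap.id ℝ (Ω → ℝ))) (NormedSpace.exp (s • L) f))
      (((ContinuousLinearMap.proj y : (Ω → ℝ) →L[ℝ] ℝ) ∘L
      (ContinuousLinearMap.id ℝ (Ω → ℝ))) ((NormedSpace.exp (t • L) * L) f)) t := by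
    apply ContinuousLinearMap.hasFDerivAt _ |>.comp_hasDerivAt
    exact ((ContinuousLinearMap.apply ℝ (Ω → ℝ) f).hasFDerivAt).comp_hasDerivAt t h
  exact h2

/-- Grönwall -/
lemma heat_le_exp {L : Opr Ω} {c : ℝ} (hL : PosGen L c) {g : Ω → ℝ} {a : ℝ}
    (h : ∀ y, L g y ≤ a * g y) {t : ℝ} (ht : 0 ≤ t) (y : Ω) :
    heat L t g y ≤ Real.exp (a * t) * g y := by
  have hd : ∀ s : ℝ, HasDerivAt (fun s => Real.exp (-(a * s)) * heat L s g y)
      (Real.exp (-(a * s)) * (heat L s (L g) y - a * heat L s g y)) s := by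
    intro s
    have h1 : HasDerivAt (fun s : ℝ => Real.exp (-(a * s))) (Real.exp (-(a * s)) * (-(a * 1))) s := by
      apply HasDerivAt.exp
      exact ((hasDerivAt_id s).const_mul a).neg
    have h2 := h1.mul (hasDerivAt_heat L s g y)
    have e : Real.exp (-(a * s)) * (heat L s (L g) y - a * heat L s g y)
        = Real.exp (-(a * s)) * (-(a * 1)) * heat L s g y + Real.exp (-(a * s)) * heat L s (L g) y := by
      ring
    rw [e]
    exact h2
  have hanti : AntitoneOn (fun s => Real.exp (-(a * s)) * heat L s g y) (Set.Ici 0) := by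
    apply antitoneOn_of_deriv_nonpos (convex_Ici 0)
    · exact fun s _ => (hd s).continuousAt.continuousWithinAt
    · exact fun s _ => (hd s).differentiableAt.differentiableWithinAt
    · intro s hs
      rw [interior_Ici, Set.mem_Ioi] at hs
      rw [(hd s).deriv]
      apply mul_nonpos_of_nonneg_of_nonpos (Real.exp_pos _).le
      have h3 := heat_mono hL hs.le (f := L g) (g := a • g) (fun y => by
        simpa using h y) y
      rw [map_smul, Pi.smul_apply, smul_eq_mul] at h3
      linarith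
  have h4 := hanti (Set.mem_Ici.mpr le_rfl) (Set.mem_Ici.mpr ht) ht
  simp only [mul_zero, neg_zero, Real.exp_zero, one_mul, heat_zero] at h4
  have h5 := mul_le_mul_of_nonneg_left h4 (Real.exp_pos (a * t)).le
  rw [← mul_assoc, ← Real.exp_add] at h5
  simpa using h5

lemma heat_le_exp_add {L : Opr Ω} {c : ℝ} (hL : PosGen L c) (h1 : L (fun _ => 1) = 0) {g : Ω → ℝ}
    {κ R : ℝ} (hκ : 0 < κ) (hR : 0 ≤ R) (h : ∀ y, L g y ≤ -κ * g y + R) {t : ℝ} (ht : 0 ≤ t)
    (y : Ω) : heat L t g y ≤ Real.exp (-κ * t) * g y + R / κ := by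
  have h2 := heat_le_exp hL (g := g - fun _ => R / κ) (a := -κ) (fun y => by
    have h3 : L (fun _ => R / κ) = 0 := by
      have : (fun _ : Ω => R / κ) = (R / κ) • (fun _ : Ω => (1 : ℝ)) := by
        funext y
        simp
      rw [this, map_smul, h1, smul_zero]
    rw [map_sub, h3, sub_zero, Pi.sub_apply]
    have h4 : κ * (R / κ) = R := by field_simp
    have := h y
    nlinarith) ht y
  rw [map_sub, heat_const h1, Pi.sub_apply, Pi.sub_apply] at h2
  have h5 : 0 ≤ Real.exp (-κ * t) * (R / κ) := by positivity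
  nlinarith

lemma heat_le_lin {L : Opr Ω} {c : ℝ} (hL : PosGen L c) (h1 : L (fun _ => 1) = 0) {g : Ω → ℝ}
    {b : ℝ} (h : ∀ y, L g y ≤ b) {t : ℝ} (ht : 0 ≤ t) (y : Ω) :
    heat L t g y ≤ g y + b * t := by
  have hd : ∀ s : ℝ, HasDerivAt (fun s => heat L s g y - b * s) (heat L s (L g) y - b) s := by
    intro s
    have h2 := (hasDerivAt_heat L s g y).sub ((hasDerivAt_id s).const_mul b)
    rw [mul_one] at h2
    exact h2
  have hanti : AntitoneOn (fun s => heat L s g y - b * s) (Set.Ici 0) := by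
    apply antitoneOn_of_deriv_nonpos (convex_Ici 0)
    · exact fun s _ => (hd s).continuousAt.continuousWithinAt
    · exact fun s _ => (hd s).differentiableAt.differentiableWithinAt
    · intro s hs
      rw [interior_Ici, Set.mem_Ioi] at hs
      rw [(hd s).deriv]
      have h3 := heat_mono hL hs.le (f := L g) (g := fun _ => b) h y
      rw [heat_const h1] at h3
      linarith
  have h4 := hanti (Set.mem_Ici.mpr le_rfl) (Set.mem_Ici.mpr ht) ht
  simp only [mul_zero, heat_zero] at h4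
  linarith

end general

end Pool.Agent.UTM.Es
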