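import Mathlib
import Pool.Agent.UTM.Heat

/-!
The East process at density one half on `N` sites: configurations, operators, Fourier positivity.
-/
set_option autoImplicit false
set_option linter.unusedSectionVars false

namespace Pool.Agent.UTM.Es

open Finset Filter Topology

/-- configurations on the sites `0, …, N - 1` -/
abbrev Y (N : ℕ) := Fin N → ZMod 2

/-- value at a site -/
def cf {N : ℕ} (y : Y N) (k : ℕ) : ZMod 2 := if h : k < N then y ⟨k, h⟩ else 0

/-- truncation -/
def mk (N : ℕ) (f : ℕ → ZMod 2) : Y N := fun i => f i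

lemma cf_mk {N : ℕ} (f : ℕ → ZMod 2) (k : ℕ) : cf (mk N f) k = if k < N then f k else 0 := by
  unfold cf mk
  split_ifs <;> rfl

lemma cf_ge {N : ℕ} (y : Y N) {k : ℕ} (h : N ≤ k) : cf y k = 0 := by
  unfold cf
  rw [dif_neg (by omega)]

lemma Y_ext {N : ℕ} {y z : Y N} (h : ∀ k, k < N → cf y k = cf z k) : y = z := by
  funext i
  have h1 := h i.val i.isLt
  unfold cf at h1
  rw [dif_pos i.isLt, dif_pos i.isLt] at h1
  exact h1

/-- the move of the bond `k`: the value at `k` is added to the value at `k + 1` -/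
def op {N : ℕ} (k : ℕ) (y : Y N) : Y N := mk N fun i => cf y i + if i = k + 1 then cf y k else 0

lemma cf_op {N : ℕ} (k : ℕ) (y : Y N) (i : ℕ) :
    cf (op k y) i = cf y i + if i = k + 1 ∧ i < N then cf y k else 0 := by
  unfold op
  rw [cf_mk]
  by_cases hi : i < N
  · rw [if_pos hi]
    by_cases h2 : i = k + 1
    · rw [if_pos h2, if_pos ⟨h2, hi⟩]
    · rw [if_neg h2, if_neg (fun h => h2 h.1)]
  · rw [if_neg hi, cf_ge y (by omega)]
    simp [hi]

lemma cf_op_ne {N : ℕ} (k : ℕ) (y : Y N) {i : ℕ} (h : i ≠ k + 1) : cf (op k y) i = cf y i := by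
  rw [cf_op, if_neg (by tauto), add_zero]

lemma cf_op_self {N : ℕ} (k : ℕ) (y : Y N) (h : k + 1 < N) :
    cf (op k y) (k + 1) = cf y (k + 1) + cf y k := by
  rw [cf_op, if_pos ⟨rfl, h⟩]

lemma op_ge {N : ℕ} (k : ℕ) (y : Y N) (h : N ≤ k + 1) : op k y = y := by
  apply Y_ext
  intro i hi
  exact cf_op_ne k y (by omega)

lemma op_of_zero {N : ℕ} (k : ℕ) (y : Y N) (h : cf y k = 0) : op k y = y := by
  apply Y_ext
  intro i hi
  rw [cf_op, h]
  simp

lemma z2_add_self (a : ZMod 2) : a + a = 0 := by revert a; decide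

lemma op_op {N : ℕ} (k : ℕ) (y : Y N) : op k (op k y) = y := by
  apply Y_ext
  intro i hi
  rw [cf_op, cf_op_ne k y (show k ≠ k + 1 by omega), cf_op]
  split_ifs
  · rw [add_assoc, z2_add_self, add_zero]
  · simp

/-- averaging over the coin of the bond `k` -/
noncomputable def EE {N : ℕ} (k : ℕ) : Opr (Y N) := (1 / 2 : ℝ) • (1 + pull (op k))

lemma EE_apply {N : ℕ} (k : ℕ) (f : Y N → ℝ) (y : Y N) :
    EE k f y = 1 / 2 * (f y + f (op k y)) := rfl

/-- multiplication by the indicator that the site `j` is zero -/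
noncomputable def ZZ {N : ℕ} (j : ℕ) : Opr (Y N) := mulOp fun y => if cf y j = 0 then 1 else 0

lemma ZZ_apply {N : ℕ} (j : ℕ) (f : Y N → ℝ) (y : Y N) :
    ZZ j f y = (if cf y j = 0 then 1 else 0) * f y := rfl

/-- the generator, with killing at rate `κ` when the site `j` is one -/
noncomputable def Lk (N : ℕ) (κ : ℝ) (j : ℕ) : Opr (Y N) :=
  ∑ k ∈ range N, (EE k - 1) + κ • (ZZ j - 1)

lemma opr_sum_apply {Ω : Type} [Fintype Ω] {ι : Type*} (s : Finset ι) (A : ι → Opr Ω) (f : Ω → ℝ)
    (y : Ω) : (∑ i ∈ s, A i) f y = ∑ i ∈ s, A i f y := by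
  rw [_root_.sum_apply, Finset.sum_apply]

lemma Lk_apply (N : ℕ) (κ : ℝ) (j : ℕ) (f : Y N → ℝ) (y : Y N) :
    Lk N κ j f y = ∑ k ∈ range N, 1 / 2 * (f (op k y) - f y)
      - κ * (if cf y j = 0 then 0 else f y) := by
  unfold Lk
  change (∑ k ∈ range N, (EE k - 1)) f y + κ * (ZZ j f y - f y) = _
  rw [opr_sum_apply, ZZ_apply]
  have h1 : ∀ k ∈ range N, (EE k - 1 : Opr (Y N)) f y = 1 / 2 * (f (op k y) - f y) := by
    intro k _
    change EE k f y - f y = _
    rw [EE_apply]
    ring
  rw [Finset.sum_congr rfl h1]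
  split_ifs <;> ring

/-! ### combining configurations -/

/-- lower part of `y`, upper part of `z`, cut at `m` -/
def comb {N : ℕ} (m : ℕ) (y z : Y N) : Y N := mk N fun i => if i < m then cf y i else cf z i

lemma cf_comb {N : ℕ} (m : ℕ) (y z : Y N) (i : ℕ) :
    cf (comb m y z) i = if i < m then cf y i else cf z i := by
  unfold comb
  rw [cf_mk]
  by_cases hi : i < N
  · rw [if_pos hi]
  · rw [if_neg hi, cf_ge y (by omega), cf_ge z (by omega)]
    simp

/-- unit vector -/
def un {N : ℕ} (m : ℕ) : Y N := mk N fun i => if i = m then 1 else 0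

lemma cf_un {N : ℕ} (m : ℕ) (i : ℕ) : cf (un m : Y N) i = if i = m ∧ i < N then 1 else 0 := by
  unfold un
  rw [cf_mk]
  by_cases hi : i < N <;> by_cases h2 : i = m <;> simp [hi, h2]

lemma cf_add {N : ℕ} (y z : Y N) (i : ℕ) : cf (y + z) i = cf y i + cf z i := by
  unfold cf
  split_ifs
  · rfl
  · simp

lemma cf_zero {N : ℕ} (i : ℕ) : cf (0 : Y N) i = 0 := by
  unfold cf
  split_ifs <;> rfl

/-! ### characters -/

/-- sign -/
def sg (a : ZMod 2) : ℝ := if a = 0 then 1 else -1

lemma sg_zero : sg 0 = 1 := if_pos rfl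

lemma z2_cases (a : ZMod 2) : a = 0 ∨ a = 1 := by revert a; decide

lemma sg_one : sg 1 = -1 := if_neg (by decide)

lemma sg_add (a b : ZMod 2) : sg (a + b) = sg a * sg b := by
  rcases z2_cases a with rfl | rfl <;> rcases z2_cases b with rfl | rfl
  · simp [sg_zero]
  · simp [sg_zero]
  · simp [sg_zero]
  · rw [show (1 : ZMod 2) + 1 = 0 by decide, sg_zero, sg_one]
    norm_num

lemma sg_le_one (a : ZMod 2) : sg a ≤ 1 := by
  unfold sg
  split_ifs <;> norm_num

lemma neg_one_le_sg (a : ZMod 2) : -1 ≤ sg a := by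
  unfold sg
  split_ifs <;> norm_num

lemma sg_sq (a : ZMod 2) : sg a * sg a = 1 := by
  unfold sg
  split_ifs <;> norm_num

/-- pairing above `m` -/
def pr {N : ℕ} (m : ℕ) (φ z : Y N) : ZMod 2 := ∑ i ∈ range N, if m ≤ i then cf φ i * cf z i else 0

lemma pr_add_right {N : ℕ} (m : ℕ) (φ z w : Y N) : pr m φ (z + w) = pr m φ z + pr m φ w := by
  unfold pr
  rw [← Finset.sum_add_distrib]
  apply Finset.sum_congr rfl
  intro i _
  rw [cf_add]
  split_ifs <;> ring

lemma pr_add_left {N : ℕ} (m : ℕ) (φ ψ z : Y N) : pr m (φ + ψ) z = pr m φ z + pr m ψ z := by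
  unfold pr
  rw [← Finset.sum_add_distrib]
  apply Finset.sum_congr rfl
  intro i _
  rw [cf_add]
  split_ifs <;> ring

lemma pr_comm {N : ℕ} (m : ℕ) (φ z : Y N) : pr m φ z = pr m z φ := by
  unfold pr
  apply Finset.sum_congr rfl
  intro i _
  rw [mul_comm]

lemma pr_un {N : ℕ} (m j : ℕ) (φ : Y N) (hj : m ≤ j) : pr m φ (un j) = cf φ j := by
  unfold pr
  have h1 : ∀ i ∈ range N, (if m ≤ i then cf φ i * cf (un j : Y N) i else 0)
      = if i = j then cf φ j else 0 := by
    intro i hi
    rw [mem_range] at hi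
    rw [cf_un]
    by_cases h : i = j
    · subst h
      simp [hi, hj]
    · simp [h]
  rw [Finset.sum_congr rfl h1, Finset.sum_ite_eq']
  split_ifs with h
  · rfl
  · rw [mem_range] at h
    rw [cf_ge φ (by omega)]

lemma op_eq_add {N : ℕ} (k : ℕ) (y : Y N) : op k y = y + mk N (fun i => if i = k + 1 then cf y k else 0) := by
  apply Y_ext
  intro i hi
  rw [cf_add, cf_mk, cf_op, if_pos hi]
  simp [hi]

lemma mk_smul_un {N : ℕ} (k : ℕ) (a : ZMod 2) :
    (mk N (fun i => if i = k then a else 0) : Y N) = if a = 0 then 0 else un k := by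
  apply Y_ext
  intro i hi
  rw [cf_mk, if_pos hi]
  rcases z2_cases a with rfl | rfl
  · simp [cf_zero]
  · rw [if_neg (show ¬ ((1 : ZMod 2) = 0) by decide), cf_un]
    simp [hi]

lemma op_of_one {N : ℕ} (k : ℕ) (y : Y N) (h : cf y k = 1) : op k y = y + un (k + 1) := by
  rw [op_eq_add, h, mk_smul_un, if_neg (by decide)]

/-- the move of the bond `k` on characters -/
lemma pr_op {N : ℕ} (m k : ℕ) (hk : m ≤ k) (φ z : Y N) :
    pr m φ (op k z) = pr m (φ + (if cf φ (k + 1) = 0 then 0 else un k)) z := by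
  have h1 : pr m φ (op k z) = pr m φ z + cf φ (k + 1) * cf z k := by
    rcases z2_cases (cf z k) with h | h
    · rw [op_of_zero k z h, h, mul_zero, add_zero]
    · rw [op_of_one k z h, pr_add_right, pr_un m (k + 1) φ (by omega), h, mul_one]
  rw [h1, pr_add_left]
  congr 1
  rcases z2_cases (cf φ (k + 1)) with h | h
  · rw [h, if_pos rfl]
    simp [pr, cf_zero]
  · rw [h, if_neg (by decide), pr_comm, pr_un m k z hk, one_mul]

/-! ### coefficients and the cone -/

/-- Fourier coefficients above `m` -/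
noncomputable def co {N : ℕ} (m : ℕ) (F : Y N → ℝ) (y φ : Y N) : ℝ :=
  ∑ z : Y N, F (comb m y z) * sg (pr m φ z)

/-- functions with nonnegative coefficients above `m` -/
def CC (N m : ℕ) : Set (Y N → ℝ) := {F | ∀ y φ, 0 ≤ co m F y φ}

lemma isCone_CC (N m : ℕ) : IsCone (CC N m) where
  zero := fun y φ => by simp [co]
  add := fun F hF G hG y φ => by
    have : co m (F + G) y φ = co m F y φ + co m G y φ := by
      unfold co
      rw [← Finset.sum_add_distrib]
      apply Finset.sum_congr rfl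
      intro z _
      rw [Pi.add_apply]
      ring
    rw [this]
    exact add_nonneg (hF y φ) (hG y φ)
  smul := fun r hr F hF y φ => by
    have : co m (r • F) y φ = r * co m F y φ := by
      unfold co
      rw [Finset.mul_sum]
      apply Finset.sum_congr rfl
      intro z _
      rw [Pi.smul_apply, smul_eq_mul]
      ring
    rw [this]
    exact mul_nonneg hr (hF y φ)
  closed := by
    have : CC N m = ⋂ y, ⋂ φ, {F : Y N → ℝ | 0 ≤ co m F y φ} := by
      ext F
      simp [CC]
    rw [this]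
    refine isClosed_iInter fun y => isClosed_iInter fun φ => isClosed_le continuous_const ?_
    unfold co
    exact continuous_finsetSum _ fun z _ => (continuous_apply _).mul continuous_const

/-- characters sum to something nonnegative -/
lemma sum_sg_nonneg {N : ℕ} (m : ℕ) (φ : Y N) : 0 ≤ ∑ z : Y N, sg (pr m φ z) := by
  by_cases h : ∃ i, m ≤ i ∧ cf φ i ≠ 0
  · obtain ⟨i, hi, h1⟩ := h
    have h2 : ∑ z : Y N, sg (pr m φ z) = ∑ z : Y N, sg (pr m φ (z + un i)) :=
      (Equiv.sum_comp (Equiv.addRight (un i : Y N)) (fun z => sg (pr m φ z))).symm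
    have h3 : ∑ z : Y N, sg (pr m φ (z + un i)) = - ∑ z : Y N, sg (pr m φ z) := by
      rw [← Finset.sum_neg_distrib]
      apply Finset.sum_congr rfl
      intro z _
      rw [pr_add_right, sg_add, pr_un m i φ hi, z2_eq_one' h1, sg_one]
      ring
    linarith
  · have h2 : ∀ z : Y N, pr m φ z = 0 := by
      intro z
      unfold pr
      apply Finset.sum_eq_zero
      intro i _
      split_ifs with h3
      · have : cf φ i = 0 := by
          by_contra h4
          exact h ⟨i, h3, h4⟩
        rw [this, zero_mul]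
      · rfl
    apply Finset.sum_nonneg
    intro z _
    rw [h2, sg_zero]
    norm_num
where
  z2_eq_one' {z : ZMod 2} (h : z ≠ 0) : z = 1 := by
    rcases z2_cases z with h1 | h1
    · exact absurd h1 h
    · exact h1

lemma one_mem_CC (N m : ℕ) : (fun _ => 1 : Y N → ℝ) ∈ CC N m := by
  intro y φ
  unfold co
  simp only [one_mul]
  exact sum_sg_nonneg m φ

/-- moves below the cut -/
lemma pull_mem_low {N : ℕ} (m k : ℕ) (hk : k + 1 < m) (F : Y N → ℝ) (hF : F ∈ CC N m) :
    pull (op k) F ∈ CC N m := by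
  intro y φ
  have h1 : co m (pull (op k) F) y φ = co m F (op k y) φ := by
    unfold co
    apply Finset.sum_congr rfl
    intro z _
    rw [pull_apply]
    congr 2
    apply Y_ext
    intro i hi
    rw [cf_comb, cf_op, cf_comb, cf_op, cf_comb]
    by_cases h1 : i < m
    · rw [if_pos h1, if_pos h1, if_pos (show k < m by omega)]
    · rw [if_neg h1, if_neg h1, if_neg (by omega), add_zero]
  rw [h1]
  exact hF _ _

/-- moves above the cut -/
lemma pull_mem_high {N : ℕ} (m k : ℕ) (hk : m ≤ k) (F : Y N → ℝ) (hF : F ∈ CC N m) :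
    pull (op k) F ∈ CC N m := by
  intro y φ
  have h1 : co m (pull (op k) F) y φ = co m F y (φ + (if cf φ (k + 1) = 0 then 0 else un k)) := by
    unfold co
    have h2 : Function.Involutive (op k : Y N → Y N) := op_op k
    have h3 := Equiv.sum_comp h2.toPerm (fun z : Y N => pull (op k) F (comb m y z) * sg (pr m φ z))
    rw [← h3]
    apply Finset.sum_congr rfl
    intro z _
    change F (op k (comb m y (op k z))) * sg (pr m φ (op k z)) = _
    rw [pr_op m k hk]
    congr 2
    apply Y_ext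
    intro i hi
    rw [cf_op, cf_comb, cf_comb, cf_comb, cf_op, cf_op]
    by_cases h1 : i < m
    · rw [if_pos h1, if_pos h1, if_neg (show ¬ (i = k + 1 ∧ i < N) by omega), add_zero]
    · rw [if_neg h1, if_neg h1, if_neg (show ¬ (k < m) by omega),
        if_neg (show ¬ (k = k + 1 ∧ k < N) by omega), add_zero]
      split_ifs
      · rw [add_assoc, z2_add_self, add_zero]
      · simp
  rw [h1]
  exact hF _ _

/-- adding a constant at the first site above the cut -/
lemma co_shift {N : ℕ} (m j : ℕ) (hj : m ≤ j) (F : Y N → ℝ) (y φ : Y N) :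
    co m (fun x => F (x + un j)) y φ = sg (cf φ j) * co m F y φ := by
  unfold co
  rw [Finset.mul_sum]
  rw [← Equiv.sum_comp (Equiv.addRight (un j : Y N))]
  apply Finset.sum_congr rfl
  intro z _
  simp only [Equiv.coe_addRight]
  rw [pr_add_right, sg_add, pr_un m j φ hj]
  have h1 : comb m y (z + un j) + un j = comb m y z := by
    apply Y_ext
    intro i hi
    rw [cf_add, cf_comb, cf_comb, cf_add, cf_un]
    by_cases h1 : i < m
    · rw [if_pos h1, if_pos h1, if_neg (by omega), add_zero]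
    · rw [if_neg h1, if_neg h1, add_assoc, z2_add_self, add_zero]
  rw [h1]
  ring

/-- the injection bond -/
lemma co_inj {N : ℕ} (m : ℕ) (F : Y N → ℝ) (y φ : Y N) :
    co (m + 1) (pull (op m) F) y φ = sg (cf φ (m + 1) * cf y m) * co (m + 1) F y φ := by
  have hc : ∀ z : Y N, cf (comb (m + 1) y z) m = cf y m := by
    intro z
    rw [cf_comb, if_pos (by omega)]
  rcases z2_cases (cf y m) with h | h
  · rw [h, mul_zero, sg_zero, one_mul]
    unfold co
    apply Finset.sum_congr rfl
    intro z _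
    rw [pull_apply, op_of_zero m _ (by rw [hc, h])]
  · rw [h, mul_one, ← co_shift (m + 1) (m + 1) le_rfl]
    unfold co
    apply Finset.sum_congr rfl
    intro z _
    rw [pull_apply, op_of_one m _ (by rw [hc, h])]

/-- frozen source -/
noncomputable def On {N : ℕ} (m : ℕ) : Opr (Y N) := (1 / 2 : ℝ) • (1 + pull fun y => y + un m)

lemma On_apply {N : ℕ} (m : ℕ) (f : Y N → ℝ) (y : Y N) :
    On m f y = 1 / 2 * (f y + f (y + un m)) := rfl

lemma co_add {N : ℕ} (m : ℕ) (F G : Y N → ℝ) (y φ : Y N) :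
    co m (F + G) y φ = co m F y φ + co m G y φ := by
  unfold co
  rw [← Finset.sum_add_distrib]
  apply Finset.sum_congr rfl
  intro z _
  rw [Pi.add_apply]
  ring

lemma co_smul {N : ℕ} (m : ℕ) (r : ℝ) (F : Y N → ℝ) (y φ : Y N) :
    co m (r • F) y φ = r * co m F y φ := by
  unfold co
  rw [Finset.mul_sum]
  apply Finset.sum_congr rfl
  intro z _
  rw [Pi.smul_apply, smul_eq_mul]
  ring

lemma co_sub {N : ℕ} (m : ℕ) (F G : Y N → ℝ) (y φ : Y N) :
    co m (F - G) y φ = co m F y φ - co m G y φ := by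
  have h : F - G = F + (-1 : ℝ) • G := by
    rw [neg_one_smul, sub_eq_add_neg]
  rw [h, co_add, co_smul]
  ring

lemma co_EE_inj {N : ℕ} (m : ℕ) (F : Y N → ℝ) (y φ : Y N) :
    co (m + 1) (EE m F) y φ = 1 / 2 * (1 + sg (cf φ (m + 1) * cf y m)) * co (m + 1) F y φ := by
  have h : EE m F = (1 / 2 : ℝ) • (F + pull (op m) F) := rfl
  rw [h, co_smul, co_add, co_inj]
  ring

lemma co_On {N : ℕ} (m : ℕ) (F : Y N → ℝ) (y φ : Y N) :
    co m (On m F) y φ = 1 / 2 * (1 + sg (cf φ m)) * co m F y φ := by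
  have h : On m F = (1 / 2 : ℝ) • (F + fun x => F (x + un m)) := rfl
  rw [h, co_smul, co_add, co_shift m m le_rfl]
  ring

lemma On_mem {N : ℕ} (m : ℕ) (F : Y N → ℝ) (hF : F ∈ CC N m) : On m F ∈ CC N m := by
  intro y φ
  rw [co_On]
  have h1 := hF y φ
  have h2 := neg_one_le_sg (cf φ m)
  exact mul_nonneg (by linarith) h1

lemma EE_mem {N : ℕ} (m k : ℕ) (F : Y N → ℝ) (hF : F ∈ CC N m) : EE k F ∈ CC N m := by
  have h : EE k F = (1 / 2 : ℝ) • (F + pull (op k) F) := rfl
  rcases lt_trichotomy (k + 1) m with h1 | h1 | h1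
  · rw [h]
    exact (isCone_CC N m).smul _ (by norm_num) _ ((isCone_CC N m).add _ hF _
      (pull_mem_low m k h1 F hF))
  · subst h1
    intro y φ
    rw [co_EE_inj]
    have h2 := neg_one_le_sg (cf φ (k + 1) * cf y k)
    exact mul_nonneg (by linarith) (hF y φ)
  · rw [h]
    exact (isCone_CC N m).smul _ (by norm_num) _ ((isCone_CC N m).add _ hF _
      (pull_mem_high m k (by omega) F hF))

lemma EE_sub_On {N : ℕ} (m : ℕ) (F : Y N → ℝ) (hF : F ∈ CC N (m + 1)) :
    EE m F - On (m + 1) F ∈ CC N (m + 1) := by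
  intro y φ
  rw [co_sub, co_EE_inj, co_On, ← sub_mul]
  apply mul_nonneg _ (hF y φ)
  rcases z2_cases (cf φ (m + 1)) with h | h
  · rw [h, zero_mul, sub_self]
  · rw [h, sg_one]
    have h2 := neg_one_le_sg (1 * cf y m)
    linarith

lemma sub_EE {N : ℕ} (m : ℕ) (F : Y N → ℝ) (hF : F ∈ CC N (m + 1)) :
    F - EE m F ∈ CC N (m + 1) := by
  intro y φ
  rw [co_sub, co_EE_inj]
  have h1 := sg_le_one (cf φ (m + 1) * cf y m)
  have h2 := hF y φ
  nlinarith

/-- multiplication by the indicator of a zero -/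
lemma ZZ_mem {N : ℕ} (m j : ℕ) (hj : m ≤ j) (F : Y N → ℝ) (hF : F ∈ CC N m) : ZZ j F ∈ CC N m := by
  intro y φ
  have h1 : co m (ZZ j F) y φ = 1 / 2 * (co m F y φ + co m F y (φ + un j)) := by
    unfold co
    rw [← Finset.sum_add_distrib, Finset.mul_sum]
    apply Finset.sum_congr rfl
    intro z _
    rw [ZZ_apply, pr_add_left, sg_add, pr_comm m (un j) z, pr_un m j z hj, cf_comb,
      if_neg (show ¬ (j < m) by omega)]
    rcases z2_cases (cf z j) with h | h
    · rw [h, sg_zero, if_pos rfl]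
      ring
    · rw [h, sg_one, if_neg (by decide)]
      ring
  rw [h1]
  have h2 := hF y φ
  have h3 := hF y (φ + un j)
  linarith

/-- inversion -/
lemma sum_co {N : ℕ} (m : ℕ) (F : Y N → ℝ) (y z₀ : Y N) :
    ∑ φ : Y N, co m F y φ * sg (pr m φ z₀)
      = (∑ z : Y N, ∑ φ : Y N, (if comb m 0 z = 0 then sg (pr m φ z) else 0)) * F (comb m y z₀) := by
  have key : ∀ z : Y N, comb m 0 z ≠ 0 → ∑ φ : Y N, sg (pr m φ z) = 0 := by
    intro z hz
    obtain ⟨i, hi, h1⟩ : ∃ i, m ≤ i ∧ cf z i ≠ 0 := by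
      by_contra hcon
      apply hz
      apply Y_ext
      intro i hi
      rw [cf_comb, cf_zero]
      by_cases h2 : i < m
      · rw [if_pos h2]
      · rw [if_neg h2]
        by_contra h3
        exact hcon ⟨i, by omega, h3⟩
    have hz1 : cf z i = 1 := by
      rcases z2_cases (cf z i) with h | h
      · exact absurd h h1
      · exact h
    have h2 : ∑ φ : Y N, sg (pr m φ z) = ∑ φ : Y N, sg (pr m (φ + un i) z) :=
      (Equiv.sum_comp (Equiv.addRight (un i : Y N)) (fun φ => sg (pr m φ z))).symm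
    have h3 : ∑ φ : Y N, sg (pr m (φ + un i) z) = - ∑ φ : Y N, sg (pr m φ z) := by
      rw [← Finset.sum_neg_distrib]
      apply Finset.sum_congr rfl
      intro φ _
      rw [pr_add_left, sg_add, pr_comm m (un i) z, pr_un m i z hi, hz1, sg_one]
      ring
    linarith
  have h1 : ∑ φ : Y N, co m F y φ * sg (pr m φ z₀)
      = ∑ z : Y N, F (comb m y z) * ∑ φ : Y N, sg (pr m φ (z + z₀)) := by
    unfold co
    simp only [Finset.sum_mul, Finset.mul_sum]
    rw [Finset.sum_comm]
    apply Finset.sum_congr rfl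
    intro z _
    apply Finset.sum_congr rfl
    intro φ _
    rw [pr_add_right, sg_add]
    ring
  rw [h1, ← Equiv.sum_comp (Equiv.addRight (z₀ : Y N)), Finset.sum_mul]
  apply Finset.sum_congr rfl
  intro z _
  simp only [Equiv.coe_addRight]
  have e1 : z + z₀ + z₀ = z := by
    apply Y_ext
    intro i hi
    rw [cf_add, cf_add, add_assoc, z2_add_self, add_zero]
  rw [e1]
  by_cases hz : comb m 0 z = 0
  · simp only [if_pos hz]
    rw [mul_comm]
    congr 2
    apply Y_ext
    intro i hi
    rw [cf_comb, cf_comb]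
    by_cases h2 : i < m
    · rw [if_pos h2, if_pos h2]
    · rw [if_neg h2, if_neg h2, cf_add]
      have h3 : cf (comb m 0 z) i = 0 := by rw [hz, cf_zero]
      rw [cf_comb, if_neg h2] at h3
      rw [h3, zero_add]
  · simp only [if_neg hz]
    rw [key z hz]
    simp

lemma inv_const_pos (N m : ℕ) :
    0 < ∑ z : Y N, ∑ φ : Y N, (if comb m 0 z = 0 then sg (pr m φ z) else 0) := by
  have hpr : ∀ z φ : Y N, comb m 0 z = 0 → sg (pr m φ z) = 1 := by
    intro z φ hz
    have : pr m φ z = 0 := by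
      unfold pr
      apply Finset.sum_eq_zero
      intro i _
      split_ifs with h3
      · have h4 : cf (comb m 0 z) i = 0 := by rw [hz, cf_zero]
        rw [cf_comb, if_neg (by omega)] at h4
        rw [h4, mul_zero]
      · rfl
    rw [this, sg_zero]
  apply Finset.sum_pos'
  · intro z _
    apply Finset.sum_nonneg
    intro φ _
    split_ifs with h
    · rw [hpr z φ h]
      norm_num
    · exact le_rfl
  · refine ⟨0, mem_univ _, ?_⟩
    have h0 : comb m 0 (0 : Y N) = 0 := by
      apply Y_ext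
      intro i hi
      rw [cf_comb, cf_zero]
      simp
    apply Finset.sum_pos
    · intro φ _
      rw [if_pos h0, hpr 0 φ h0]
      norm_num
    · exact Finset.univ_nonempty

/-- values at a configuration without upper part are nonnegative and maximal -/
lemma CC_zero {N m : ℕ} {F : Y N → ℝ} (hF : F ∈ CC N m) (y : Y N) (hy : comb m y 0 = y) :
    0 ≤ F y := by
  have h := sum_co m F y 0
  rw [hy] at h
  have h1 : 0 ≤ ∑ φ : Y N, co m F y φ * sg (pr m φ (0 : Y N)) := by
    apply Finset.sum_nonneg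
    intro φ _
    have : pr m φ (0 : Y N) = 0 := by
      unfold pr
      apply Finset.sum_eq_zero
      intro i _
      rw [cf_zero, mul_zero]
      simp
    rw [this, sg_zero, mul_one]
    exact hF y φ
  rw [h] at h1
  exact nonneg_of_mul_nonneg_right h1 (inv_const_pos N m)

lemma CC_max {N m : ℕ} {F : Y N → ℝ} (hF : F ∈ CC N m) (y : Y N) : F y ≤ F (comb m y 0) := by
  have h := sum_co m F y y
  have h' := sum_co m F y 0
  have hy : comb m y y = y := by
    apply Y_ext
    intro i hi
    rw [cf_comb]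
    simp
  rw [hy] at h
  have h1 : ∑ φ : Y N, co m F y φ * sg (pr m φ y) ≤ ∑ φ : Y N, co m F y φ * sg (pr m φ (0 : Y N)) := by
    apply Finset.sum_le_sum
    intro φ _
    have : pr m φ (0 : Y N) = 0 := by
      unfold pr
      apply Finset.sum_eq_zero
      intro i _
      rw [cf_zero, mul_zero]
      simp
    rw [this, sg_zero, mul_one]
    have h3 := hF y φ
    have h4 := sg_le_one (pr m φ y)
    nlinarith
  rw [h, h'] at h1
  exact le_of_mul_le_mul_left h1 (inv_const_pos N m)

end Pool.Agent.UTM.Es
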