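import Mathlib
import Pool.Agent.UTM.East

/-!
The East process at density one half: comparison of sources, shifts, prefixes.
-/
set_option autoImplicit false
set_option linter.unusedSectionVars false

namespace Pool.Agent.UTM.Es

open Finset Filter Topology

lemma sum_EE_sub (N : ℕ) (f : Y N → ℝ) :
    (∑ k ∈ range N, (EE k - 1 : Opr (Y N))) f = ∑ k ∈ range N, EE k f - (N : ℝ) • f := by
  funext y
  rw [opr_sum_apply, Pi.sub_apply, Finset.sum_apply, Pi.smul_apply, smul_eq_mul]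
  have h1 : ∀ k ∈ range N, (EE k - 1 : Opr (Y N)) f y = EE k f y - f y := fun k _ => rfl
  rw [Finset.sum_congr rfl h1, Finset.sum_sub_distrib, Finset.sum_const, card_range, nsmul_eq_mul]

/-- the generator with the bond `m` replaced by `A` -/
noncomputable def Lm (N : ℕ) (κ : ℝ) (j m : ℕ) (A : Opr (Y N)) : Opr (Y N) := Lk N κ j - EE m + A

lemma Lm_EE (N : ℕ) (κ : ℝ) (j m : ℕ) : Lm N κ j m (EE m) = Lk N κ j := by
  unfold Lm
  abel

lemma gen_split (N : ℕ) (κ : ℝ) (j m : ℕ) (hm : m < N) (A : Opr (Y N)) (x : Y N → ℝ) :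
    Lm N κ j m A x + ((N : ℝ) + κ) • x
      = ∑ k ∈ (range N).erase m, EE k x + A x + κ • ZZ j x := by
  have h1 : Lm N κ j m A x = (∑ k ∈ range N, (EE k - 1 : Opr (Y N))) x + κ • (ZZ j x - x)
      - EE m x + A x := rfl
  rw [h1, sum_EE_sub]
  have h2 : ∑ k ∈ range N, EE k x = ∑ k ∈ (range N).erase m, EE k x + EE m x :=
    (Finset.sum_erase_add _ _ (mem_range.mpr hm)).symm
  rw [h2, add_smul, smul_sub]
  abel

lemma Lm_mem (N : ℕ) {κ : ℝ} (hκ : 0 ≤ κ) (j m c : ℕ) (hj : c ≤ j) (hm : m < N) (A : Opr (Y N))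
    (hA : ∀ x ∈ CC N c, A x ∈ CC N c) (x : Y N → ℝ) (hx : x ∈ CC N c) :
    Lm N κ j m A x + ((N : ℝ) + κ) • x ∈ CC N c := by
  rw [gen_split N κ j m hm]
  have hC := isCone_CC N c
  apply hC.add _ (hC.add _ _ _ (hA x hx)) _ (hC.smul _ hκ _ (ZZ_mem c j hj x hx))
  exact hC.sum _ _ fun k _ => EE_mem c k x hx

lemma Lk_mem (N : ℕ) {κ : ℝ} (hκ : 0 ≤ κ) (j c : ℕ) (hj : c ≤ j)
    (x : Y N → ℝ) (hx : x ∈ CC N c) :
    Lk N κ j x + ((N : ℝ) + κ) • x ∈ CC N c := by
  have h1 : Lk N κ j x + ((N : ℝ) + κ) • x = ∑ k ∈ range N, EE k x + κ • ZZ j x := by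
    have h1 : Lk N κ j x = (∑ k ∈ range N, (EE k - 1 : Opr (Y N))) x + κ • (ZZ j x - x) := rfl
    rw [h1, sum_EE_sub, add_smul, smul_sub]
    abel
  rw [h1]
  have hC := isCone_CC N c
  apply hC.add _ _ _ (hC.smul _ hκ _ (ZZ_mem c j hj x hx))
  exact hC.sum _ _ fun k _ => EE_mem c k x hx

lemma Lk_pos (N : ℕ) {κ : ℝ} (hκ : 0 ≤ κ) (j : ℕ) : PosGen (Lk N κ j) ((N : ℝ) + κ) := by
  intro f hf y
  rw [Lk_apply]
  have h1 : ∑ k ∈ range N, 1 / 2 * (f (op k y) - f y) + (N : ℝ) * f y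
      = ∑ k ∈ range N, 1 / 2 * (f (op k y) + f y) := by
    have : (N : ℝ) * f y = ∑ k ∈ range N, f y := by
      rw [Finset.sum_const, card_range, nsmul_eq_mul]
    rw [this, ← Finset.sum_add_distrib]
    apply Finset.sum_congr rfl
    intro k _
    ring
  have h2 : 0 ≤ ∑ k ∈ range N, 1 / 2 * (f (op k y) + f y) := by
    apply Finset.sum_nonneg
    intro k _
    have a := hf (op k y)
    have b := hf y
    linarith
  have h3 : 0 ≤ κ * f y - κ * (if cf y j = 0 then 0 else f y) := by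
    split_ifs
    · have := mul_nonneg hκ (hf y)
      linarith
    · linarith
  linarith

lemma Lk_one (N : ℕ) (j : ℕ) : Lk N 0 j (fun _ => 1) = 0 := by
  funext y
  rw [Lk_apply]
  simp

lemma heatLk_mem (N : ℕ) {κ : ℝ} (hκ : 0 ≤ κ) (j c : ℕ) (hj : c ≤ j) {t : ℝ} (ht : 0 ≤ t)
    (x : Y N → ℝ) (hx : x ∈ CC N c) : heat (Lk N κ j) t x ∈ CC N c :=
  heat_mem (isCone_CC N c) _ _ (fun x hx => Lk_mem N hκ j c hj x hx) ht x hx

/-- upper part -/
def cut {N : ℕ} (m : ℕ) (y : Y N) : Y N := comb m 0 y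

/-- upper part with a one just below -/
def cut1 {N : ℕ} (m : ℕ) (y : Y N) : Y N := comb (m + 1) (un m) y

lemma cf_cut {N : ℕ} (m : ℕ) (y : Y N) (i : ℕ) : cf (cut m y) i = if i < m then 0 else cf y i := by
  unfold cut
  rw [cf_comb, cf_zero]

lemma cf_cut1 {N : ℕ} (m : ℕ) (y : Y N) (i : ℕ) :
    cf (cut1 m y) i = if i < m + 1 then (if i = m ∧ i < N then 1 else 0) else cf y i := by
  unfold cut1
  rw [cf_comb, cf_un]

lemma cut_op_low {N : ℕ} (m k : ℕ) (hk : k + 1 < m) (y : Y N) : cut m (op k y) = cut m y := by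
  apply Y_ext
  intro i hi
  rw [cf_cut, cf_cut]
  split_ifs with h
  · rfl
  · rw [cf_op, if_neg (by omega), add_zero]

lemma op_cut_low {N : ℕ} (m k : ℕ) (hk : k < m) (y : Y N) : op k (cut m y) = cut m y := by
  apply op_of_zero
  rw [cf_cut, if_pos hk]

lemma op_cut_high {N : ℕ} (m k : ℕ) (hk : m ≤ k) (y : Y N) : op k (cut m y) = cut m (op k y) := by
  apply Y_ext
  intro i hi
  rw [cf_op, cf_cut, cf_cut, cf_cut, cf_op, if_neg (show ¬ (k < m) by omega)]
  by_cases h : i < m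
  · rw [if_pos h, if_pos h, if_neg (by omega), add_zero]
  · rw [if_neg h, if_neg h]

lemma cut1_op_low {N : ℕ} (m k : ℕ) (hk : k < m) (y : Y N) : cut1 m (op k y) = cut1 m y := by
  apply Y_ext
  intro i hi
  rw [cf_cut1, cf_cut1]
  by_cases h : i < m + 1
  · rw [if_pos h, if_pos h]
  · rw [if_neg h, if_neg h, cf_op, if_neg (by omega), add_zero]

lemma op_cut1_low {N : ℕ} (m k : ℕ) (hk : k < m) (y : Y N) : op k (cut1 m y) = cut1 m y := by
  apply op_of_zero
  rw [cf_cut1, if_pos (by omega), if_neg (by omega)]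

lemma op_cut1_mid {N : ℕ} (m : ℕ) (hm : m < N) (y : Y N) :
    op m (cut1 m y) = cut1 m (y + un (m + 1)) := by
  rw [op_of_one m]
  · apply Y_ext
    intro i hi
    rw [cf_add, cf_cut1, cf_cut1, cf_add, cf_un]
    by_cases h : i < m + 1
    · rw [if_pos h, if_pos h, if_neg (show ¬ (i = m + 1 ∧ i < N) by omega), add_zero]
    · rw [if_neg h, if_neg h]
  · rw [cf_cut1, if_pos (by omega), if_pos ⟨rfl, hm⟩]

lemma op_cut1_high {N : ℕ} (m k : ℕ) (hk : m < k) (y : Y N) :
    op k (cut1 m y) = cut1 m (op k y) := by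
  apply Y_ext
  intro i hi
  rw [cf_op, cf_cut1, cf_cut1, cf_cut1, cf_op, if_neg (show ¬ (k < m + 1) by omega)]
  by_cases h : i < m + 1
  · rw [if_pos h, if_pos h, if_neg (show ¬ (i = k + 1 ∧ i < N) by omega), add_zero]
  · rw [if_neg h, if_neg h]

/-- switched off source -/
lemma off_intertwine (N : ℕ) (κ : ℝ) (j m : ℕ) (hm : m < N) (hj : m < j) (G : Y N → ℝ) :
    Lm N κ j m 1 (pull (cut (m + 1)) G) = pull (cut (m + 1)) (Lk N κ j G) := by
  funext y
  have h1 : Lm N κ j m 1 (pull (cut (m + 1)) G) y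
      = Lk N κ j (pull (cut (m + 1)) G) y - EE m (pull (cut (m + 1)) G) y
        + pull (cut (m + 1)) G y := rfl
  rw [h1, Lk_apply, EE_apply, pull_apply, pull_apply, pull_apply, Lk_apply]
  have h2 : cf (cut (m + 1) y) j = cf y j := by
    rw [cf_cut, if_neg (by omega)]
  rw [h2]
  have h3 : ∑ k ∈ range N, 1 / 2 * (pull (cut (m + 1)) G (op k y) - G (cut (m + 1) y))
      = ∑ k ∈ range N, 1 / 2 * (G (op k (cut (m + 1) y)) - G (cut (m + 1) y))
        + 1 / 2 * (G (cut (m + 1) (op m y)) - G (cut (m + 1) y)) := by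
    rw [← Finset.sum_erase_add _ _ (mem_range.mpr hm),
      ← Finset.sum_erase_add (range N) (fun k => 1 / 2 * (G (op k (cut (m + 1) y)) - G (cut (m + 1) y)))
        (mem_range.mpr hm)]
    rw [op_cut_low (m + 1) m (by omega)]
    have h4 : ∀ k ∈ (range N).erase m,
        1 / 2 * (pull (cut (m + 1)) G (op k y) - G (cut (m + 1) y))
          = 1 / 2 * (G (op k (cut (m + 1) y)) - G (cut (m + 1) y)) := by
      intro k hk
      rw [mem_erase] at hk
      rw [pull_apply]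
      rcases Nat.lt_or_ge k m with h | h
      · rw [cut_op_low (m + 1) k (by omega), op_cut_low (m + 1) k (by omega)]
      · rw [op_cut_high (m + 1) k (by omega)]
    rw [Finset.sum_congr rfl h4, pull_apply]
    ring
  rw [h3]
  ring

/-- frozen source -/
lemma on_intertwine (N : ℕ) (κ : ℝ) (j m : ℕ) (hm : m < N) (hj : m < j) (G : Y N → ℝ) :
    Lm N κ j m (On (m + 1)) (pull (cut1 m) G) = pull (cut1 m) (Lk N κ j G) := by
  funext y
  have h1 : Lm N κ j m (On (m + 1)) (pull (cut1 m) G) y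
      = Lk N κ j (pull (cut1 m) G) y - EE m (pull (cut1 m) G) y
        + On (m + 1) (pull (cut1 m) G) y := rfl
  rw [h1, Lk_apply, EE_apply, On_apply, pull_apply, pull_apply, pull_apply, pull_apply, Lk_apply]
  have h2 : cf (cut1 m y) j = cf y j := by
    rw [cf_cut1, if_neg (by omega)]
  rw [h2]
  have h3 : ∑ k ∈ range N, 1 / 2 * (pull (cut1 m) G (op k y) - G (cut1 m y))
      = ∑ k ∈ range N, 1 / 2 * (G (op k (cut1 m y)) - G (cut1 m y))
        + 1 / 2 * (G (cut1 m (op m y)) - G (cut1 m y))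
        - 1 / 2 * (G (cut1 m (y + un (m + 1))) - G (cut1 m y)) := by
    rw [← Finset.sum_erase_add _ _ (mem_range.mpr hm),
      ← Finset.sum_erase_add (range N) (fun k => 1 / 2 * (G (op k (cut1 m y)) - G (cut1 m y)))
        (mem_range.mpr hm)]
    rw [op_cut1_mid m hm]
    have h4 : ∀ k ∈ (range N).erase m,
        1 / 2 * (pull (cut1 m) G (op k y) - G (cut1 m y))
          = 1 / 2 * (G (op k (cut1 m y)) - G (cut1 m y)) := by
      intro k hk
      rw [mem_erase] at hk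
      rw [pull_apply]
      rcases Nat.lt_or_ge k m with h | h
      · rw [cut1_op_low m k h, op_cut1_low m k h]
      · rw [op_cut1_high m k (by omega)]
    rw [Finset.sum_congr rfl h4, pull_apply]
    ring
  rw [h3]
  ring

lemma comb_cut {N : ℕ} (m : ℕ) (y : Y N) (hy : comb m y 0 = y) : cut m y = 0 := by
  apply Y_ext
  intro i hi
  rw [cf_cut, cf_zero]
  split_ifs with h
  · rfl
  · rw [← hy, cf_comb, if_neg h, cf_zero]

lemma cut1_of_comb {N : ℕ} (m : ℕ) (y : Y N) (hy : comb (m + 1) y 0 = y) : cut1 m y = un m := by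
  apply Y_ext
  intro i hi
  rw [cf_cut1, cf_un]
  by_cases h : i < m + 1
  · rw [if_pos h]
  · rw [if_neg h, if_neg (by omega), ← hy, cf_comb, if_neg h, cf_zero]

lemma cut_cut1 {N : ℕ} (m : ℕ) (y : Y N) : cut (m + 1) (cut1 m y) = cut (m + 1) y := by
  apply Y_ext
  intro i hi
  rw [cf_cut, cf_cut, cf_cut1]
  by_cases h : i < m + 1
  · rw [if_pos h, if_pos h]
  · rw [if_neg h, if_neg h, if_neg h]

/-- (D1) the frozen source is the fastest -/
lemma D1 (N : ℕ) {κ : ℝ} (hκ : 0 ≤ κ) (j m : ℕ) (hm : m < N) (hj : m < j) {t : ℝ} (ht : 0 ≤ t)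
    (F : Y N → ℝ) (hF : F ∈ CC N (m + 1)) (hcut : ∀ y, F (cut (m + 1) y) = F y) (y : Y N)
    (hy : comb (m + 1) y 0 = y) :
    heat (Lk N κ j) t F (un m) ≤ heat (Lk N κ j) t F y := by
  have h1 : heat (Lk N κ j) t F - heat (Lm N κ j m (On (m + 1))) t F ∈ CC N (m + 1) := by
    apply heat_cmp (isCone_CC N (m + 1)) _ _ ((N : ℝ) + κ) _ _ _ ht F hF
    · intro x hx
      exact Lm_mem N hκ j m (m + 1) (by omega) hm _ (fun x hx => On_mem _ x hx) x hx
    · intro x hx
      exact Lk_mem N hκ j (m + 1) (by omega) x hx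
    · intro x hx
      have e : Lk N κ j x - Lm N κ j m (On (m + 1)) x = EE m x - On (m + 1) x := by
        have : Lm N κ j m (On (m + 1)) x = Lk N κ j x - EE m x + On (m + 1) x := rfl
        rw [this]
        abel
      rw [e]
      exact EE_sub_On m x hx
  have h2 := CC_zero h1 y hy
  rw [Pi.sub_apply] at h2
  have h3 : pull (cut1 m) F = F := by
    funext z
    rw [pull_apply, ← hcut (cut1 m z), cut_cut1, hcut]
  have h4 := heat_intertwine (Lk N κ j) (Lm N κ j m (On (m + 1))) (pull (cut1 m))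
    (fun G => on_intertwine N κ j m hm hj G) t F
  rw [h3] at h4
  rw [h4, pull_apply, cut1_of_comb m y hy] at h2
  linarith

/-- (D2) emptying the upper part slows down -/
lemma D2 (N : ℕ) {κ : ℝ} (hκ : 0 ≤ κ) (j m : ℕ) (hj : m ≤ j) {t : ℝ} (ht : 0 ≤ t)
    (F : Y N → ℝ) (hF : F ∈ CC N m) (y : Y N) :
    heat (Lk N κ j) t F y ≤ heat (Lk N κ j) t F (comb m y 0) :=
  CC_max (heatLk_mem N hκ j m hj ht F hF) y

/-- (D3) switching the source off after some time -/
lemma D3 (N : ℕ) {κ : ℝ} (hκ : 0 ≤ κ) (j m : ℕ) (hm : m < N) (hj : m < j) {s t : ℝ} (hs : 0 ≤ s)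
    (ht : 0 ≤ t) (F : Y N → ℝ) (hF : F ∈ CC N (m + 1)) (hcut : ∀ y, F (cut (m + 1) y) = F y)
    (y : Y N) (hy : comb (m + 1) y 0 = y) :
    heat (Lk N κ j) (s + t) F y
      ≤ heat (Lk N κ j) s (fun z => heat (Lk N κ j) t F (cut (m + 1) z)) y := by
  have h1 : heat (Lm N κ j m 1) t F - heat (Lk N κ j) t F ∈ CC N (m + 1) := by
    apply heat_cmp (isCone_CC N (m + 1)) _ _ ((N : ℝ) + κ) _ _ _ ht F hF
    · intro x hx
      exact Lk_mem N hκ j (m + 1) (by omega) x hx
    · intro x hx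
      exact Lm_mem N hκ j m (m + 1) (by omega) hm _ (fun x hx => hx) x hx
    · intro x hx
      have e : Lm N κ j m 1 x - Lk N κ j x = x - EE m x := by
        have : Lm N κ j m 1 x = Lk N κ j x - EE m x + x := rfl
        rw [this]
        abel
      rw [e]
      exact sub_EE m x hx
  have h3 : pull (cut (m + 1)) F = F := by
    funext z
    rw [pull_apply, hcut]
  have h4 := heat_intertwine (Lk N κ j) (Lm N κ j m 1) (pull (cut (m + 1)))
    (fun G => off_intertwine N κ j m hm hj G) t F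
  rw [h3] at h4
  rw [h4] at h1
  have h5 := CC_zero (heatLk_mem N hκ j (m + 1) (by omega) hs _ h1) y hy
  rw [map_sub, Pi.sub_apply] at h5
  rw [heat_add]
  have h6 : (fun z => heat (Lk N κ j) t F (cut (m + 1) z)) = pull (cut (m + 1)) (heat (Lk N κ j) t F) := rfl
  rw [h6]
  linarith

/-! ### shifts and prefixes -/

/-- shift up by `s` -/
def emb {N' : ℕ} (N s : ℕ) (z : Y N') : Y N := mk N fun i => if i < s then 0 else cf z (i - s)

lemma cf_emb {N' N s : ℕ} (hN : N = N' + s) (z : Y N') (i : ℕ) :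
    cf (emb N s z) i = if i < s then 0 else cf z (i - s) := by
  unfold emb
  rw [cf_mk]
  by_cases h : i < N
  · rw [if_pos h]
  · rw [if_neg h]
    split_ifs
    · rfl
    · rw [cf_ge z (by omega)]

lemma op_emb {N' N s : ℕ} (hN : N = N' + s) (z : Y N') (k : ℕ) :
    op (s + k) (emb N s z) = emb N s (op k z) := by
  apply Y_ext
  intro i hi
  rw [cf_op, cf_emb hN, cf_emb hN, cf_emb hN, cf_op]
  by_cases h : i < s
  · rw [if_pos h, if_pos h, if_neg (by omega), add_zero]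
  · rw [if_neg h, if_neg h, if_neg (show ¬ (s + k < s) by omega), show s + k - s = k by omega]
    congr 1
    by_cases h2 : i - s = k + 1
    · rw [if_pos (by omega), if_pos (by omega)]
    · rw [if_neg (by omega), if_neg (by omega)]

lemma op_emb_low {N' N s : ℕ} (hN : N = N' + s) (z : Y N') (k : ℕ) (hk : k < s) :
    op k (emb N s z) = emb N s z := by
  apply op_of_zero
  rw [cf_emb hN, if_pos hk]

lemma emb_intertwine {N' N s : ℕ} (hN : N = N' + s) (κ : ℝ) (j : ℕ) (G : Y N → ℝ) :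
    Lk N' κ j (pull (emb N s) G) = pull (emb N s) (Lk N κ (j + s) G) := by
  subst hN
  funext z
  rw [Lk_apply, pull_apply, pull_apply, Lk_apply]
  have h1 : cf (emb (N' + s) s z) (j + s) = cf z j := by
    rw [cf_emb rfl, if_neg (by omega), show j + s - s = j by omega]
  rw [h1, show range (N' + s) = range (s + N') by rw [add_comm], Finset.sum_range_add]
  have h2 : ∑ k ∈ range s, 1 / 2 * (G (op k (emb (N' + s) s z)) - G (emb (N' + s) s z)) = 0 := by
    apply Finset.sum_eq_zero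
    intro k hk
    rw [mem_range] at hk
    rw [op_emb_low rfl z k hk, sub_self, mul_zero]
  rw [h2, zero_add]
  congr 1
  apply Finset.sum_congr rfl
  intro k _
  rw [pull_apply, op_emb rfl]

lemma heat_emb {N' N s : ℕ} (hN : N = N' + s) (κ : ℝ) (j : ℕ) (t : ℝ) (G : Y N → ℝ) (z : Y N') :
    heat (Lk N κ (j + s)) t G (emb N s z) = heat (Lk N' κ j) t (fun z => G (emb N s z)) z := by
  have h := heat_intertwine (Lk N κ (j + s)) (Lk N' κ j) (pull (emb N s))
    (fun G => emb_intertwine hN κ j G) t G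
  have h2 : (fun z : Y N' => G (emb N s z)) = pull (emb N s) G := rfl
  rw [h2, h]
  rfl

/-- prefix -/
def pre {N : ℕ} (N' : ℕ) (y : Y N) : Y N' := mk N' (cf y)

lemma cf_pre {N : ℕ} (N' : ℕ) (y : Y N) (i : ℕ) : cf (pre N' y) i = if i < N' then cf y i else 0 := by
  unfold pre
  rw [cf_mk]

lemma op_pre {N N' : ℕ} (hN : N' ≤ N) (y : Y N) (k : ℕ) : op k (pre N' y) = pre N' (op k y) := by
  apply Y_ext
  intro i hi
  rw [cf_op, cf_pre, cf_pre, cf_pre, cf_op, if_pos hi, if_pos hi]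
  congr 1
  by_cases h : i = k + 1
  · rw [if_pos (show i = k + 1 ∧ i < N' from ⟨h, hi⟩), if_pos (show i = k + 1 ∧ i < N by omega),
      if_pos (by omega)]
  · rw [if_neg (fun h' => h h'.1), if_neg (fun h' => h h'.1)]

lemma pre_intertwine {N N' : ℕ} (hN : N' ≤ N) (κ : ℝ) (j : ℕ) (hj : j < N') (G : Y N' → ℝ) :
    Lk N κ j (pull (pre N') G) = pull (pre N') (Lk N' κ j G) := by
  funext y
  rw [Lk_apply, pull_apply, pull_apply, Lk_apply, cf_pre, if_pos hj]
  congr 1
  have h1 : ∑ k ∈ range N, 1 / 2 * (pull (pre N') G (op k y) - G (pre N' y))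
      = ∑ k ∈ range N, 1 / 2 * (G (op k (pre N' y)) - G (pre N' y)) := by
    apply Finset.sum_congr rfl
    intro k _
    rw [pull_apply, op_pre hN]
  rw [h1]
  symm
  apply Finset.sum_subset
  · intro k hk
    rw [mem_range] at hk ⊢
    omega
  · intro k _ hk
    rw [mem_range] at hk
    rw [op_ge k _ (by omega), sub_self, mul_zero]

lemma Lk_zero_j (N : ℕ) (j j' : ℕ) : Lk N 0 j = Lk N 0 j' := by
  unfold Lk
  rw [zero_smul, zero_smul]

lemma heat_pre {N N' : ℕ} (hN : N' ≤ N) (hN' : 0 < N') (t : ℝ) (G : Y N' → ℝ) (y : Y N) :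
    heat (Lk N 0 0) t (fun y => G (pre N' y)) y = heat (Lk N' 0 0) t G (pre N' y) := by
  have h := heat_intertwine (Lk N' 0 0) (Lk N 0 0) (pull (pre N'))
    (fun G => pre_intertwine hN 0 0 hN' G) t G
  have h2 : (fun y : Y N => G (pre N' y)) = pull (pre N') G := rfl
  rw [h2, h]
  rfl

end Pool.Agent.UTM.Es
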