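import Mathlib
import Pool.Agent.UTM.EastDom

/-!
The East process at density one half: the topmost nonzero site.
-/
set_option autoImplicit false
set_option linter.unusedSectionVars false

namespace Pool.Agent.UTM.Es

open Finset Filter Topology

/-- topmost nonzero site -/
def top {N : ℕ} (y : Y N) : ℕ := Nat.findGreatest (fun k => cf y k ≠ 0) N

lemma top_le {N : ℕ} (y : Y N) : top y ≤ N := Nat.findGreatest_le N

lemma cf_of_top_lt {N : ℕ} (y : Y N) {k : ℕ} (h : top y < k) : cf y k = 0 := by
  by_cases hk : k ≤ N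
  · have := Nat.findGreatest_is_greatest h hk
    simpa using this
  · exact cf_ge y (by omega)

lemma cf_top {N : ℕ} (y : Y N) (h : top y ≠ 0) : cf y (top y) ≠ 0 :=
  Nat.findGreatest_of_ne_zero (P := fun k => cf y k ≠ 0) rfl h

lemma le_top {N : ℕ} (y : Y N) {k : ℕ} (h : cf y k ≠ 0) : k ≤ top y := by
  by_contra h1
  exact h (cf_of_top_lt y (by omega))

lemma cf_top' {N : ℕ} (y : Y N) (h : y ≠ 0) : cf y (top y) ≠ 0 := by
  by_cases h1 : top y = 0
  · intro h2
    apply h
    apply Y_ext
    intro k hk
    rw [cf_zero]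
    by_cases h3 : k = 0
    · rw [h3, ← h1]; exact h2
    · exact cf_of_top_lt y (by omega)
  · exact cf_top y h1

lemma top_zero (N : ℕ) : top (0 : Y N) = 0 := by
  by_contra h
  exact cf_top _ h (cf_zero _)

lemma top_lt {N : ℕ} (hN : 0 < N) (y : Y N) : top y < N := by
  have h := top_le y
  rcases Nat.lt_or_ge (top y) N with h1 | h1
  · exact h1
  · have h2 : top y = N := by omega
    exact absurd (cf_ge y (by omega)) (cf_top y (by omega))

lemma top_eq {N : ℕ} (y : Y N) (m : ℕ) (h1 : cf y m ≠ 0) (h2 : ∀ k, m < k → cf y k = 0) :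
    top y = m := by
  apply le_antisymm
  · by_contra h
    exact cf_top y (by omega) (h2 _ (by omega))
  · exact le_top y h1

lemma top_lt_iff {N : ℕ} (y : Y N) {x : ℕ} (hx : 1 ≤ x) : top y < x ↔ ∀ k, x ≤ k → cf y k = 0 := by
  constructor
  · intro h k hk
    exact cf_of_top_lt y (by omega)
  · intro h
    by_contra h1
    exact cf_top y (by omega) (h _ (by omega))

lemma comb_top {N : ℕ} (y : Y N) : comb (top y + 1) y 0 = y := by
  apply Y_ext
  intro i hi
  rw [cf_comb, cf_zero]
  by_cases h : i < top y + 1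
  · rw [if_pos h]
  · rw [if_neg h, cf_of_top_lt y (by omega)]

lemma comb_of_top_le {N : ℕ} (y : Y N) {m : ℕ} (h : top y < m) : comb m y 0 = y := by
  apply Y_ext
  intro i hi
  rw [cf_comb, cf_zero]
  by_cases h : i < m
  · rw [if_pos h]
  · rw [if_neg h, cf_of_top_lt y (by omega)]

/-- indicator that the front is below `x` -/
noncomputable def slow {N : ℕ} (x : ℕ) (y : Y N) : ℝ := if top y < x then 1 else 0

lemma slow_nonneg {N : ℕ} (x : ℕ) (y : Y N) : 0 ≤ slow x y := by
  unfold slow
  split_ifs <;> norm_num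

lemma slow_le_one {N : ℕ} (x : ℕ) (y : Y N) : slow x y ≤ 1 := by
  unfold slow
  split_ifs <;> norm_num

lemma slow_mono {N : ℕ} {x x' : ℕ} (h : x ≤ x') (y : Y N) : slow x y ≤ slow x' y := by
  unfold slow
  split_ifs
  · exact le_rfl
  · omega
  · norm_num
  · exact le_rfl

lemma slow_succ {N : ℕ} (x : ℕ) (hx : 1 ≤ x) : (slow x : Y N → ℝ) = ZZ x (slow (x + 1)) := by
  funext y
  rw [ZZ_apply]
  unfold slow
  by_cases h : cf y x = 0
  · rw [if_pos h, one_mul]
    by_cases h1 : top y < x
    · rw [if_pos h1, if_pos (by omega)]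
    · rw [if_neg h1, if_neg]
      intro h2
      have h3 : top y = x := by omega
      apply cf_top y (by omega)
      rw [h3, h]
  · rw [if_neg h, zero_mul, if_neg]
    have := le_top y h
    omega

lemma slow_mem {N : ℕ} (m : ℕ) : ∀ d x : ℕ, m ≤ x → 1 ≤ x → N ≤ x + d → (slow x : Y N → ℝ) ∈ CC N m := by
  intro d
  induction d with
  | zero =>
      intro x _ hx h
      have : (slow x : Y N → ℝ) = fun _ => 1 := by
        funext y
        unfold slow
        rw [if_pos]
        rcases Nat.eq_zero_or_pos N with h1 | h1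
        · have := top_le y
          omega
        · have := top_lt h1 y
          omega
      rw [this]
      exact one_mem_CC N m
  | succ d ih =>
      intro x hm hx h
      rw [slow_succ x hx]
      exact ZZ_mem m x hm _ (ih (x + 1) (by omega) (by omega) (by omega))

lemma slow_mem' {N : ℕ} {m x : ℕ} (hm : m ≤ x) (hx : 1 ≤ x) : (slow x : Y N → ℝ) ∈ CC N m :=
  slow_mem m N x hm hx (by omega)

lemma slow_cut {N : ℕ} {m x : ℕ} (hm : m ≤ x) (hx : 1 ≤ x) (y : Y N) :
    slow x (cut m y) = slow x y := by
  have h : top (cut m y) < x ↔ top y < x := by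
    rw [top_lt_iff _ hx, top_lt_iff _ hx]
    constructor
    · intro h k hk
      have := h k hk
      rw [cf_cut, if_neg (by omega)] at this
      exact this
    · intro h k hk
      rw [cf_cut, if_neg (by omega)]
      exact h k hk
  unfold slow
  simp only [h]

/-- the generator without killing -/
noncomputable abbrev LL (N : ℕ) : Opr (Y N) := Lk N 0 0

lemma LL_pos (N : ℕ) : PosGen (LL N) ((N : ℝ) + 0) := Lk_pos N le_rfl 0

lemma LL_apply (N : ℕ) (f : Y N → ℝ) (y : Y N) :
    LL N f y = ∑ k ∈ range N, 1 / 2 * (f (op k y) - f y) := by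
  rw [Lk_apply]
  simp

lemma D1' (N m : ℕ) (hm : m < N) {t : ℝ} (ht : 0 ≤ t)
    (F : Y N → ℝ) (hF : F ∈ CC N (m + 1)) (hcut : ∀ y, F (cut (m + 1) y) = F y) (y : Y N)
    (hy : comb (m + 1) y 0 = y) :
    heat (LL N) t F (un m) ≤ heat (LL N) t F y := by
  have h := D1 N (le_refl (0 : ℝ)) (m + 1) m hm (by omega) ht F hF hcut y hy
  rwa [Lk_zero_j N (m + 1) 0] at h

lemma D2' (N m : ℕ) {t : ℝ} (ht : 0 ≤ t) (F : Y N → ℝ) (hF : F ∈ CC N m) (y : Y N) :
    heat (LL N) t F y ≤ heat (LL N) t F (comb m y 0) := by
  have h := D2 N (le_refl (0 : ℝ)) m m le_rfl ht F hF y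
  rwa [Lk_zero_j N m 0] at h

lemma D3' (N m : ℕ) (hm : m < N) {s t : ℝ} (hs : 0 ≤ s)
    (ht : 0 ≤ t) (F : Y N → ℝ) (hF : F ∈ CC N (m + 1)) (hcut : ∀ y, F (cut (m + 1) y) = F y)
    (y : Y N) (hy : comb (m + 1) y 0 = y) :
    heat (LL N) (s + t) F y ≤ heat (LL N) s (fun z => heat (LL N) t F (cut (m + 1) z)) y := by
  have h := D3 N (le_refl (0 : ℝ)) (m + 1) m hm (by omega) hs ht F hF hcut y hy
  rwa [Lk_zero_j N (m + 1) 0] at h

lemma heat_emb' {N' N s : ℕ} (hN : N = N' + s) (t : ℝ) (G : Y N → ℝ) (z : Y N') :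
    heat (LL N) t G (emb N s z) = heat (LL N') t (fun z => G (emb N s z)) z := by
  have h := heat_emb hN 0 0 t G z
  rwa [Lk_zero_j N (0 + s) 0] at h

lemma emb_un {N' N s : ℕ} (hN : N = N' + s) (j : ℕ) : emb N s (un j : Y N') = un (j + s) := by
  apply Y_ext
  intro i hi
  rw [cf_emb hN, cf_un, cf_un]
  by_cases h : i < s
  · rw [if_pos h, if_neg (by omega)]
  · rw [if_neg h]
    by_cases h2 : i = j + s
    · rw [if_pos (by omega), if_pos (by omega)]
    · rw [if_neg (by omega), if_neg (by omega)]

lemma top_emb {N' N s : ℕ} (hN : N = N' + s) (z : Y N') (hz : z ≠ 0) :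
    top (emb N s z) = s + top z := by
  apply top_eq
  · rw [cf_emb hN, if_neg (by omega), show s + top z - s = top z by omega]
    exact cf_top' z hz
  · intro k hk
    rw [cf_emb hN, if_neg (by omega)]
    exact cf_of_top_lt z (by omega)

lemma emb_zero {N' N s : ℕ} (hN : N = N' + s) : emb N s (0 : Y N') = 0 := by
  apply Y_ext
  intro i hi
  rw [cf_emb hN, cf_zero, cf_zero]
  simp

lemma max_top_emb {N' N s : ℕ} (hN : N = N' + s) (z : Y N') :
    max s (top (emb N s z)) = s + top z := by
  by_cases hz : z = 0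
  · subst hz
    rw [emb_zero hN, top_zero, top_zero]
    simp
  · rw [top_emb hN z hz]
    omega

lemma sum_Ico_tele (g : ℕ → ℝ) (a : ℕ) : ∀ N, a ≤ N → ∑ x ∈ Ico a N, (g (x + 1) - g x) = g N - g a := by
  intro N hN
  induction N, hN using Nat.le_induction with
  | base => simp
  | succ n hn ih =>
      rw [Finset.sum_Ico_succ_top hn, ih]
      ring

/-- layer-cake -/
lemma layer {N : ℕ} (g : ℕ → ℝ) (f : ℕ) (hf : f ≤ N) (y : Y N) :
    ∑ x ∈ Ico f N, (g (x + 1) - g x) * slow (x + 1) y = g N - g (max f (top y)) := by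
  have h1 : ∀ x ∈ Ico f N, (g (x + 1) - g x) * slow (x + 1) y
      = if max f (top y) ≤ x then g (x + 1) - g x else 0 := by
    intro x hx
    rw [mem_Ico] at hx
    unfold slow
    by_cases h : top y ≤ x
    · rw [if_pos (by omega), if_pos (by omega), mul_one]
    · rw [if_neg (by omega), if_neg (by omega), mul_zero]
  rw [Finset.sum_congr rfl h1, ← Finset.sum_filter]
  have h2 : (Ico f N).filter (fun x => max f (top y) ≤ x) = Ico (max f (top y)) N := by
    ext x
    rw [mem_filter, mem_Ico, mem_Ico]
    omega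
  rw [h2]
  apply sum_Ico_tele
  have := top_le y
  omega

/-- (F1) from any configuration with front `f` the front is stochastically below that of `e_f` -/
lemma front_le {N' N f : ℕ} (hN : N = N' + f) (hN' : 0 < N') {t : ℝ} (ht : 0 ≤ t) (g : ℕ → ℝ)
    (hg : Monotone g) (y : Y N) (hy : top y = f) :
    heat (LL N) t (fun y => g (top y)) y ≤ heat (LL N') t (fun z => g (f + top z)) (un 0) := by
  have h0 : heat (LL N) t (fun y => g (top y)) y ≤ heat (LL N) t (fun y => g (max f (top y))) y :=
    heat_mono (LL_pos N) ht (fun y => hg (le_max_right _ _)) y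
  set H : Y N → ℝ := fun y => ∑ x ∈ Ico f N, (g (x + 1) - g x) * slow (x + 1) y with hH
  have hHeq : H = (fun _ => g N) - fun y => g (max f (top y)) := by
    funext y
    rw [hH]
    exact layer g f (by omega) y
  have hHmem : H ∈ CC N (f + 1) := by
    have e : H = ∑ x ∈ Ico f N, (g (x + 1) - g x) • (slow (x + 1) : Y N → ℝ) := by
      funext y
      rw [Finset.sum_apply]
      rfl
    rw [e]
    apply (isCone_CC N (f + 1)).sum
    intro x hx
    rw [mem_Ico] at hx
    apply (isCone_CC N (f + 1)).smul
    · have := hg (show x ≤ x + 1 by omega)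
      linarith
    · exact slow_mem' (by omega) (by omega)
  have hcut : ∀ y, H (cut (f + 1) y) = H y := by
    intro y
    rw [hH]
    apply Finset.sum_congr rfl
    intro x hx
    rw [mem_Ico] at hx
    rw [slow_cut (by omega) (by omega)]
  have h1 := D1' N f (by omega) ht H hHmem hcut y (by rw [← hy]; exact comb_top y)
  rw [hHeq, map_sub, Pi.sub_apply, Pi.sub_apply, heat_const (Lk_one N 0)] at h1
  have h2 : heat (LL N) t (fun y => g (max f (top y))) (un f)
      = heat (LL N') t (fun z => g (f + top z)) (un 0) := by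
    have e : (un f : Y N) = emb N f (un 0 : Y N') := by
      rw [emb_un hN, zero_add]
    rw [e, heat_emb' hN]
    have e2 : (fun z : Y N' => g (max f (top (emb N f z)))) = fun z => g (f + top z) := by
      funext z
      rw [max_top_emb hN]
    rw [e2]
  rw [← h2]
  linarith

/-! ### one step bounds -/

lemma top_op_le {N : ℕ} (k : ℕ) (y : Y N) : top (op k y) ≤ top y + if k = top y then 1 else 0 := by
  have h : top (op k y) < top y + (if k = top y then 1 else 0) + 1 := by
    rw [top_lt_iff _ (by omega)]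
    intro i hi
    rw [cf_op]
    split_ifs at hi with h1
    · rw [cf_of_top_lt y (by omega), if_neg (by omega), add_zero]
    · rw [cf_of_top_lt y (by omega), zero_add]
      split_ifs with h2
      · exact cf_of_top_lt y (by omega)
      · rfl
  omega

lemma op_zero {N : ℕ} (k : ℕ) : op k (0 : Y N) = 0 := op_of_zero k 0 (cf_zero k)

lemma le_top_op {N : ℕ} (k : ℕ) (y : Y N) : top y ≤ top (op k y) + if k + 1 = top y then 1 else 0 := by
  by_cases hy : y = 0
  · subst hy
    rw [op_zero, top_zero]
    omega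
  have h1 := cf_top' y hy
  by_cases h : k + 1 = top y
  · rw [if_pos h]
    by_cases h2 : cf y k = 0
    · rw [op_of_zero k y h2]
      omega
    · have h3 : cf (op k y) k ≠ 0 := by
        rw [cf_op_ne k y (by omega)]
        exact h2
      have := le_top _ h3
      omega
  · rw [if_neg h, add_zero]
    apply le_top
    rw [cf_op_ne k y (by omega)]
    exact h1

lemma LL_top_le {N : ℕ} (g : ℕ → ℝ) (hg : Monotone g) (y : Y N) :
    LL N (fun y => g (top y)) y ≤ 1 / 2 * (g (top y + 1) - g (top y)) := by
  rw [LL_apply]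
  have h0 : 0 ≤ g (top y + 1) - g (top y) := by
    have := hg (show top y ≤ top y + 1 by omega)
    linarith
  calc ∑ k ∈ range N, 1 / 2 * (g (top (op k y)) - g (top y))
      ≤ ∑ k ∈ range N, (if k = top y then 1 / 2 * (g (top y + 1) - g (top y)) else 0) := by
        apply Finset.sum_le_sum
        intro k _
        have h1 := top_op_le k y
        split_ifs with h
        · rw [if_pos h] at h1
          have := hg h1
          linarith
        · rw [if_neg h, add_zero] at h1
          have := hg h1
          linarith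
    _ ≤ 1 / 2 * (g (top y + 1) - g (top y)) := by
        rw [Finset.sum_ite_eq']
        split_ifs
        · exact le_rfl
        · linarith

/-- for decreasing functions -/
lemma LL_top_ge {N : ℕ} (g : ℕ → ℝ) (hg : Antitone g) (y : Y N) :
    LL N (fun y => g (top y)) y ≤ 1 / 2 * (g (top y - 1) - g (top y)) := by
  rw [LL_apply]
  have h0 : 0 ≤ g (top y - 1) - g (top y) := by
    have := hg (show top y - 1 ≤ top y by omega)
    linarith
  calc ∑ k ∈ range N, 1 / 2 * (g (top (op k y)) - g (top y))
      ≤ ∑ k ∈ range N, (if k = top y - 1 then 1 / 2 * (g (top y - 1) - g (top y)) else 0) := by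
        apply Finset.sum_le_sum
        intro k _
        have h1 := le_top_op k y
        by_cases h : k + 1 = top y
        · rw [if_pos h] at h1
          rw [if_pos (by omega)]
          have := hg (show top y - 1 ≤ top (op k y) by omega)
          linarith
        · rw [if_neg h, add_zero] at h1
          have := hg h1
          split_ifs <;> linarith
    _ ≤ 1 / 2 * (g (top y - 1) - g (top y)) := by
        rw [Finset.sum_ite_eq']
        split_ifs
        · exact le_rfl
        · linarith

end Pool.Agent.UTM.Es
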