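import Mathlib
import Pool.Agent.UTM.EastTop

/-!
The East process at density one half: the speed of the front.
-/
set_option autoImplicit false
set_option linter.unusedSectionVars false

namespace Pool.Agent.UTM.Es

open Finset Filter Topology

/-- expected position of the front, from the frozen one -/
noncomputable def aN (N : ℕ) (t : ℝ) : ℝ := heat (LL N) t (fun y => (top y : ℝ)) (un 0)

lemma top_un {N : ℕ} (m : ℕ) (hm : m < N) : top (un m : Y N) = m := by
  apply top_eq
  · rw [cf_un, if_pos ⟨rfl, hm⟩]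
    decide
  · intro k hk
    rw [cf_un, if_neg (by omega)]

lemma aN_le (N : ℕ) (hN : 0 < N) {t : ℝ} (ht : 0 ≤ t) : aN N t ≤ 1 / 2 * t := by
  have h := heat_le_lin (LL_pos N) (Lk_one N 0) (g := fun y => (top y : ℝ)) (b := 1 / 2)
    (fun y => by
      have := LL_top_le (N := N) (fun x => (x : ℝ)) (fun a b h => Nat.cast_le.mpr h) y
      push_cast at this
      linarith) ht (un 0)
  rw [top_un 0 hN] at h
  unfold aN
  simpa using h

lemma aN_nonneg (N : ℕ) {t : ℝ} (ht : 0 ≤ t) : 0 ≤ aN N t :=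
  heat_nonneg (LL_pos N) ht (fun _ => by positivity) _

/-- supremum over the number of sites -/
noncomputable def aa (t : ℝ) : ℝ := ⨆ N : ℕ, aN (N + 1) t

lemma bdd_aN {t : ℝ} (ht : 0 ≤ t) : BddAbove (Set.range fun N : ℕ => aN (N + 1) t) := by
  refine ⟨1 / 2 * t, ?_⟩
  rintro _ ⟨N, rfl⟩
  exact aN_le (N + 1) (by omega) ht

lemma aN_le_aa (N : ℕ) (hN : 0 < N) {t : ℝ} (ht : 0 ≤ t) : aN N t ≤ aa t := by
  have h := le_ciSup (bdd_aN ht) (N - 1)
  rw [show N - 1 + 1 = N by omega] at h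
  exact h

lemma heat_top_le {N : ℕ} (hN : 0 < N) {t : ℝ} (ht : 0 ≤ t) (y : Y N) :
    heat (LL N) t (fun y => (top y : ℝ)) y ≤ top y + aa t := by
  have hf := top_lt hN y
  have h := front_le (N' := N - top y) (N := N) (f := top y) (by omega) (by omega) ht
    (fun x => (x : ℝ)) (fun a b h => Nat.cast_le.mpr h) y rfl
  have h2 : (fun z : Y (N - top y) => (((top y + top z : ℕ)) : ℝ))
      = (fun _ => (top y : ℝ)) + fun z => (top z : ℝ) := by
    funext z
    rw [Pi.add_apply]
    push_cast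
    ring
  rw [h2, map_add, Pi.add_apply, heat_const (Lk_one _ 0)] at h
  have h3 : heat (LL (N - top y)) t (fun z => (top z : ℝ)) (un 0) ≤ aa t :=
    aN_le_aa (N - top y) (by omega) ht
  linarith

lemma aa_sub {s t : ℝ} (hs : 0 ≤ s) (ht : 0 ≤ t) : aa (s + t) ≤ aa s + aa t := by
  apply ciSup_le
  intro N
  unfold aN
  rw [heat_add]
  have h1 := heat_mono (LL_pos (N + 1)) hs (fun y => heat_top_le (N := N + 1) (by omega) ht y) (un 0)
  have h2 : (fun y : Y (N + 1) => (top y : ℝ) + aa t) = (fun y => (top y : ℝ)) + fun _ => aa t := rfl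
  rw [h2, map_add, Pi.add_apply, heat_const (Lk_one _ 0)] at h1
  have h3 : heat (LL (N + 1)) s (fun z => (top z : ℝ)) (un 0) ≤ aa s := aN_le_aa (N + 1) (by omega) hs
  linarith

lemma aa_nonneg {t : ℝ} (ht : 0 ≤ t) : 0 ≤ aa t :=
  le_trans (aN_nonneg 1 ht) (aN_le_aa 1 (by norm_num) ht)

/-- the speed of the front -/
noncomputable def vv : ℝ := ⨅ m : ℕ, aa ((m : ℝ) + 1) / ((m : ℝ) + 1)

lemma vv_le (m : ℕ) (hm : 1 ≤ m) : vv * m ≤ aa m := by
  have hb : BddBelow (Set.range fun m : ℕ => aa ((m : ℝ) + 1) / ((m : ℝ) + 1)) := by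
    refine ⟨0, ?_⟩
    rintro _ ⟨N, rfl⟩
    have := aa_nonneg (show (0 : ℝ) ≤ (N : ℝ) + 1 by positivity)
    positivity
  have h := ciInf_le hb (m - 1)
  have h1 : ((m - 1 : ℕ) : ℝ) + 1 = m := by
    rw [Nat.cast_sub hm]
    simp
  rw [h1] at h
  have h2 : (0 : ℝ) < m := by
    have : (1 : ℝ) ≤ m := by exact_mod_cast hm
    linarith
  rw [le_div_iff₀ h2] at h
  exact h

lemma vv_near (ε : ℝ) (hε : 0 < ε) : ∃ m : ℕ, 1 ≤ m ∧ aa m ≤ (vv + ε) * m := by
  obtain ⟨m, hm⟩ := exists_lt_of_ciInf_lt (show vv < vv + ε by linarith)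
  refine ⟨m + 1, by omega, ?_⟩
  rw [div_lt_iff₀ (by positivity)] at hm
  push_cast
  exact hm.le

lemma vv_nonneg : 0 ≤ vv := by
  apply le_ciInf
  intro m
  have := aa_nonneg (show (0 : ℝ) ≤ (m : ℝ) + 1 by positivity)
  positivity

lemma exp_sq {θ x : ℝ} (hθ : 0 ≤ θ) (hθ1 : θ ≤ 1) (hx : 0 ≤ x) :
    Real.exp (θ * x) ≤ 1 + θ * x + 2 * θ ^ 2 * Real.exp (2 * x) := by
  have hu : 0 ≤ θ * x := by positivity
  have h1 : Real.exp (θ * x) - 1 ≤ θ * x * Real.exp (θ * x) := by
    have h2 := Real.add_one_le_exp (-(θ * x))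
    have h3 : Real.exp (-(θ * x)) * Real.exp (θ * x) = 1 := by
      rw [← Real.exp_add]; simp
    have h4 := Real.exp_pos (θ * x)
    nlinarith
  have h2 : Real.exp (θ * x) - 1 - θ * x ≤ (θ * x) ^ 2 * Real.exp (θ * x) := by
    nlinarith
  have h3 : x ^ 2 ≤ 2 * Real.exp x := by
    have := Real.quadratic_le_exp_of_nonneg hx
    nlinarith
  have h4 : Real.exp (θ * x) ≤ Real.exp x := by
    apply Real.exp_le_exp.mpr
    nlinarith
  have h5 : Real.exp (2 * x) = Real.exp x * Real.exp x := by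
    rw [← Real.exp_add]; ring_nf
  have h6 : (θ * x) ^ 2 * Real.exp (θ * x) ≤ 2 * θ ^ 2 * Real.exp (2 * x) := by
    rw [h5, mul_pow]
    have h7 : θ ^ 2 * x ^ 2 * Real.exp (θ * x) ≤ θ ^ 2 * (2 * Real.exp x) * Real.exp x := by
      gcongr
    linarith
  linarith

lemma heat_exp_top {N : ℕ} {θ : ℝ} (hθ : 0 ≤ θ) {t : ℝ} (ht : 0 ≤ t) (y : Y N) :
    heat (LL N) t (fun y => Real.exp (θ * top y)) y
      ≤ Real.exp (1 / 2 * (Real.exp θ - 1) * t) * Real.exp (θ * top y) := by
  apply heat_le_exp (LL_pos N) _ ht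
  intro y
  have h := LL_top_le (N := N) (fun x => Real.exp (θ * (x : ℝ))) (fun a b h => by
    apply Real.exp_le_exp.mpr
    have : (a : ℝ) ≤ b := by exact_mod_cast h
    exact mul_le_mul_of_nonneg_left this hθ) y
  refine le_trans h (le_of_eq ?_)
  push_cast
  rw [mul_add, mul_one, Real.exp_add]
  ring

/-- exponential moments of the front, with the right speed -/
lemma exp_moment (ε : ℝ) (hε : 0 < ε) : ∃ m₀ : ℕ, 1 ≤ m₀ ∧ ∃ θ : ℝ, 0 < θ ∧ θ ≤ 1 ∧
    ∀ (N : ℕ), 0 < N → ∀ (k : ℕ) (y : Y N),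
      heat (LL N) ((k * m₀ : ℕ) : ℝ) (fun y => Real.exp (θ * top y)) y
        ≤ Real.exp (θ * ((vv + ε) * (k * m₀ : ℕ))) * Real.exp (θ * top y) := by
  obtain ⟨m₀, hm₀, ha⟩ := vv_near (ε / 2) (by linarith)
  have hm₀R : (1 : ℝ) ≤ m₀ := by exact_mod_cast hm₀
  set B : ℝ := 2 * Real.exp (1 / 2 * (Real.exp 2 - 1) * m₀) with hB
  have hBpos : 0 < B := by positivity
  set θ : ℝ := min 1 (ε / 2 * m₀ / B) with hθ
  have hθpos : 0 < θ := by
    rw [hθ]
    apply lt_min one_pos
    positivity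
  have hθ1 : θ ≤ 1 := min_le_left _ _
  have hθB : θ * B ≤ ε / 2 * m₀ := by
    have : θ ≤ ε / 2 * m₀ / B := min_le_right _ _
    rwa [le_div_iff₀ hBpos] at this
  refine ⟨m₀, hm₀, θ, hθpos, hθ1, ?_⟩
  intro N hN
  have step : ∀ y : Y N, heat (LL N) (m₀ : ℝ) (fun y => Real.exp (θ * top y)) y
      ≤ Real.exp (θ * ((vv + ε) * m₀)) * Real.exp (θ * top y) := by
    intro y
    have hf := top_lt hN y
    have h := front_le (N' := N - top y) (N := N) (f := top y) (by omega) (by omega)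
      (show (0 : ℝ) ≤ m₀ by linarith)
      (fun x => Real.exp (θ * (x : ℝ))) (fun a b h => by
        apply Real.exp_le_exp.mpr
        have : (a : ℝ) ≤ b := by exact_mod_cast h
        exact mul_le_mul_of_nonneg_left this hθpos.le) y rfl
    refine le_trans h ?_
    have e1 : (fun z : Y (N - top y) => Real.exp (θ * ((top y + top z : ℕ) : ℝ)))
        = Real.exp (θ * top y) • fun z => Real.exp (θ * top z) := by
      funext z
      rw [Pi.smul_apply, smul_eq_mul, ← Real.exp_add]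
      push_cast
      ring_nf
    rw [e1, map_smul, Pi.smul_apply, smul_eq_mul, mul_comm]
    apply mul_le_mul_of_nonneg_right _ (Real.exp_pos _).le
    set M := N - top y with hM
    have hM0 : 0 < M := by omega
    have h2 := heat_mono (LL_pos M) (show (0 : ℝ) ≤ m₀ by linarith)
      (f := fun z : Y M => Real.exp (θ * top z))
      (g := (fun _ => 1) + (θ • fun z => (top z : ℝ)) + (2 * θ ^ 2) • fun z => Real.exp (2 * top z))
      (fun z => by
        rw [Pi.add_apply, Pi.add_apply, Pi.smul_apply, Pi.smul_apply, smul_eq_mul, smul_eq_mul]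
        exact exp_sq hθpos.le hθ1 (by positivity)) (un 0)
    rw [map_add, map_add, map_smul, map_smul, Pi.add_apply, Pi.add_apply, Pi.smul_apply,
      Pi.smul_apply, heat_const (Lk_one _ 0), smul_eq_mul, smul_eq_mul] at h2
    have h3 : heat (LL M) (m₀ : ℝ) (fun z => (top z : ℝ)) (un 0) ≤ (vv + ε / 2) * m₀ :=
      le_trans (aN_le_aa M hM0 (by linarith)) ha
    have h4 : heat (LL M) (m₀ : ℝ) (fun z => Real.exp (2 * top z)) (un 0) ≤ B / 2 := by
      have := heat_exp_top (N := M) (θ := 2) (by norm_num) (show (0 : ℝ) ≤ m₀ by linarith) (un 0)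
      rw [top_un 0 hM0] at this
      simp only [Nat.cast_zero, mul_zero, Real.exp_zero, mul_one] at this
      rw [hB]
      linarith
    have h5 : heat (LL M) (m₀ : ℝ) (fun z => Real.exp (θ * top z)) (un 0)
        ≤ 1 + θ * ((vv + ε) * m₀) := by
      have h6 : θ * heat (LL M) (m₀ : ℝ) (fun z => (top z : ℝ)) (un 0)
          ≤ θ * ((vv + ε / 2) * m₀) := mul_le_mul_of_nonneg_left h3 hθpos.le
      have h7 : 2 * θ ^ 2 * heat (LL M) (m₀ : ℝ) (fun z => Real.exp (2 * top z)) (un 0)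
          ≤ 2 * θ ^ 2 * (B / 2) := mul_le_mul_of_nonneg_left h4 (by positivity)
      have h8 : θ * (θ * B) ≤ θ * (ε / 2 * m₀) := mul_le_mul_of_nonneg_left hθB hθpos.le
      nlinarith
    refine le_trans h5 ?_
    have := Real.add_one_le_exp (θ * ((vv + ε) * m₀))
    linarith
  intro k
  induction k with
  | zero =>
      intro y
      simp [heat_zero]
  | succ k ih =>
      intro y
      have e1 : (((k + 1) * m₀ : ℕ) : ℝ) = (m₀ : ℝ) + ((k * m₀ : ℕ) : ℝ) := by
        push_cast; ring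
      rw [e1, heat_add]
      have h1 := heat_mono (LL_pos N) (show (0 : ℝ) ≤ m₀ by linarith)
        (g := Real.exp (θ * ((vv + ε) * (k * m₀ : ℕ))) • fun y => Real.exp (θ * top y)) ih y
      rw [map_smul, Pi.smul_apply, smul_eq_mul] at h1
      refine le_trans h1 ?_
      have h2 := mul_le_mul_of_nonneg_left (step y) (Real.exp_pos (θ * ((vv + ε) * (k * m₀ : ℕ)))).le
      refine le_trans h2 (le_of_eq ?_)
      rw [← mul_assoc, ← Real.exp_add]
      congr 2
      ring

/-- probability of being below `x`, from the frozen one -/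
lemma slow_anti_N {N N' : ℕ} (h : N' ≤ N) (hN' : 0 < N') {t : ℝ} (ht : 0 ≤ t) (x : ℕ) :
    heat (LL N) t (slow x) (un 0) ≤ heat (LL N') t (slow x) (un 0) := by
  have h1 := heat_mono (LL_pos N) ht (f := slow x) (g := fun y => slow x (pre N' y)) (fun y => by
    unfold slow
    have h2 : top (pre N' y) ≤ top y := by
      by_cases h3 : top (pre N' y) = 0
      · omega
      · apply le_top
        have h4 := cf_top _ h3
        rw [cf_pre] at h4
        split_ifs at h4 with h5
        · exact h4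
        · exact absurd rfl h4
    split_ifs
    · exact le_rfl
    · omega
    · norm_num
    · exact le_rfl) (un 0)
  rw [heat_pre h hN'] at h1
  have h2 : pre N' (un 0 : Y N) = un 0 := by
    apply Y_ext
    intro i hi
    rw [cf_pre, if_pos hi, cf_un, cf_un]
    by_cases h3 : i = 0
    · rw [if_pos (by omega), if_pos (by omega)]
    · rw [if_neg (by omega), if_neg (by omega)]
  rw [h2] at h1
  exact h1

/-- (L1) law of large numbers, lower side, along a sequence of times -/
lemma lln_low (u : ℝ) (hu : u < vv) (η : ℝ) (hη : 0 < η) (Smin : ℕ) :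
    ∃ S : ℕ, Smin ≤ S ∧ ∃ N₀ : ℕ, ∀ N, N₀ ≤ N → ∀ x : ℕ, (x : ℝ) ≤ u * S →
      heat (LL N) (S : ℝ) (slow x) (un 0) ≤ η := by
  set ε : ℝ := η * (vv - u) / 8 with hε
  have hd : 0 < vv - u := by linarith
  have hεpos : 0 < ε := by positivity
  obtain ⟨m₀, hm₀, θ, hθ, hθ1, hexp⟩ := exp_moment ε hεpos
  have hm₀R : (1 : ℝ) ≤ m₀ := by exact_mod_cast hm₀
  obtain ⟨k₀, hk₀⟩ := exists_nat_ge ((1 + 1 / θ) / ε)
  set k : ℕ := max (max k₀ Smin) 1 with hk
  set S : ℕ := k * m₀ with hS
  have hkS : k ≤ S := by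
    rw [hS]
    exact Nat.le_mul_of_pos_right k (by omega)
  have hSmin : Smin ≤ S := by omega
  have hS1 : 1 ≤ S := by omega
  have hSR : (1 : ℝ) ≤ S := by exact_mod_cast hS1
  have hSbig : 1 + 1 / θ ≤ ε * S := by
    have h1 : (k₀ : ℝ) ≤ S := by
      have : k₀ ≤ S := by omega
      exact_mod_cast this
    have h2 : (1 + 1 / θ) / ε ≤ S := by linarith
    rw [div_le_iff₀ hεpos] at h2
    linarith
  obtain ⟨N₁, hN₁⟩ := exists_lt_of_lt_ciSup (show aa (S : ℝ) - 1 < ⨆ N : ℕ, aN (N + 1) (S : ℝ) by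
    change aa (S : ℝ) - 1 < aa (S : ℝ)
    linarith)
  refine ⟨S, hSmin, N₁ + 1, ?_⟩
  intro N hN x hx
  refine le_trans (slow_anti_N hN (by omega) (by linarith) x) ?_
  set M := N₁ + 1 with hM
  set w : ℝ := vv + 2 * ε with hw
  set P : ℝ := heat (LL M) (S : ℝ) (slow x) (un 0) with hP
  have h1 := heat_mono (LL_pos M) (show (0 : ℝ) ≤ S by linarith)
    (f := fun y : Y M => (top y : ℝ))
    (g := (fun _ => w * S) - ((w * S - x) • (slow x : Y M → ℝ))
      + (1 / θ * Real.exp (-(θ * (w * S)))) • fun y => Real.exp (θ * top y))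
    (fun y => by
      rw [Pi.add_apply, Pi.sub_apply, Pi.smul_apply, Pi.smul_apply, smul_eq_mul, smul_eq_mul]
      have e1 : 1 / θ * Real.exp (-(θ * (w * S))) * Real.exp (θ * top y)
          = 1 / θ * Real.exp (θ * (top y - w * S)) := by
        rw [mul_assoc, ← Real.exp_add]
        congr 2
        ring
      rw [e1]
      have h2 := Real.add_one_le_exp (θ * ((top y : ℝ) - w * S))
      have h3 : (top y : ℝ) - w * S ≤ 1 / θ * Real.exp (θ * (top y - w * S)) := by
        rw [one_div, ← div_eq_inv_mul, le_div_iff₀ hθ]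
        linarith
      have h4 : 0 ≤ 1 / θ * Real.exp (θ * (top y - w * S)) := by positivity
      unfold slow
      split_ifs with h5
      · have : (top y : ℝ) ≤ x := by exact_mod_cast h5.le
        linarith
      · linarith) (un 0)
  rw [map_add, map_sub, map_smul, map_smul, Pi.add_apply, Pi.sub_apply, Pi.smul_apply,
    Pi.smul_apply, heat_const (Lk_one _ 0), smul_eq_mul, smul_eq_mul, ← hP] at h1
  have h2 := hexp M (by omega) k (un 0)
  rw [← hS, top_un 0 (by omega)] at h2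
  simp only [Nat.cast_zero, mul_zero, Real.exp_zero, mul_one] at h2
  have h3 : 1 / θ * Real.exp (-(θ * (w * S))) * heat (LL M) (S : ℝ) (fun y => Real.exp (θ * top y)) (un 0)
      ≤ 1 / θ := by
    have h4 := mul_le_mul_of_nonneg_left h2 (show 0 ≤ 1 / θ * Real.exp (-(θ * (w * S))) by positivity)
    refine le_trans h4 ?_
    rw [mul_assoc, ← Real.exp_add]
    have h5 : Real.exp (-(θ * (w * S)) + θ * ((vv + ε) * S)) ≤ 1 := by
      apply Real.exp_le_one_iff.mpr
      rw [hw]
      have : 0 ≤ θ * ε * S := by positivity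
      nlinarith
    have h6 : (0 : ℝ) ≤ 1 / θ := by positivity
    nlinarith
  have h4 : vv * S - 1 ≤ heat (LL M) (S : ℝ) (fun y => (top y : ℝ)) (un 0) := by
    have h5 := vv_le S hS1
    have h6 : aa (S : ℝ) - 1 < heat (LL M) (S : ℝ) (fun y => (top y : ℝ)) (un 0) := hN₁
    linarith
  have hP0 : 0 ≤ P := heat_nonneg (LL_pos M) (by linarith) (fun y => slow_nonneg x y) _
  have h7 : (w * S - x) * P ≤ 2 * ε * S + (1 + 1 / θ) := by
    have : w * S = vv * S + 2 * ε * S := by rw [hw]; ring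
    nlinarith
  have h8 : (vv - u) * S * P ≤ (w * S - x) * P := by
    apply mul_le_mul_of_nonneg_right _ hP0
    have : 0 ≤ ε * S := by positivity
    rw [hw]
    nlinarith
  have h9 : (vv - u) * S * P ≤ 3 * ε * S := by linarith
  have h10 : (vv - u) * P ≤ 3 * ε := by
    by_contra hc
    rw [not_le] at hc
    have := mul_lt_mul_of_pos_right hc (show (0 : ℝ) < S by linarith)
    nlinarith
  have h11 : (vv - u) * P ≤ (vv - u) * η := by
    have : 3 * ε ≤ (vv - u) * η := by
      rw [hε]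
      nlinarith [mul_pos hη hd]
    linarith
  exact le_of_mul_le_mul_left h11 hd

end Pool.Agent.UTM.Es
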