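import Mathlib
import Pool.Agent.UTM.Cont

/-!
The front of the last column (East process): a lower bound for its speed.
-/
set_option autoImplicit false
set_option linter.unusedSectionVars false

namespace Pool.Agent.UTM

open Finset

/-- the potential of the six sites behind the front -/
def Hb (b1 b2 b3 b4 b5 b6 : Bool) : ℤ :=
  (([0, 6052, 5121, 7879, 2891, 8530, 4323, 8231, 1460, 7682, 4953, 8422, 2280, 8072, 4312, 8200,
    623, 6863, 5196, 8307, 2643, 8350, 4252, 8230, 1143, 7293, 4993, 8309, 2298, 8040, 4308, 8172,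
    173, 6327, 5178, 8062, 2836, 8511, 4308, 8265, 1385, 7561, 4947, 8373, 2269, 8035, 4305, 8179,
    518, 6703, 5168, 8198, 2686, 8385, 4268, 8225, 1172, 7317, 4979, 8296, 2306, 8047, 4308, 8167] :
    List ℕ).getD (b1.toNat + 2 * b2.toNat + 4 * b3.toNat + 8 * b4.toNat + 16 * b5.toNat
      + 32 * b6.toNat) 0 : ℕ)

lemma Hb_bounds : ∀ b1 b2 b3 b4 b5 b6 : Bool,
    0 ≤ Hb b1 b2 b3 b4 b5 b6 ∧ Hb b1 b2 b3 b4 b5 b6 ≤ 8530 := by decide +kernel

lemma Hb_drift : ∀ b1 b2 b3 b4 b5 b6 b7 : Bool,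
    (3773 : ℤ) ≤ (10000 - Hb true b1 b2 b3 b4 b5 + Hb b1 b2 b3 b4 b5 b6)
      + (if b1 = true then -10000 - Hb b2 b3 b4 b5 b6 b7 + Hb b1 b2 b3 b4 b5 b6 else 0)
      + (if b2 = true then - Hb (!b1) b2 b3 b4 b5 b6 + Hb b1 b2 b3 b4 b5 b6 else 0)
      + (if b3 = true then - Hb b1 (!b2) b3 b4 b5 b6 + Hb b1 b2 b3 b4 b5 b6 else 0)
      + (if b4 = true then - Hb b1 b2 (!b3) b4 b5 b6 + Hb b1 b2 b3 b4 b5 b6 else 0)
      + (if b5 = true then - Hb b1 b2 b3 (!b4) b5 b6 + Hb b1 b2 b3 b4 b5 b6 else 0)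
      + (if b6 = true then - Hb b1 b2 b3 b4 (!b5) b6 + Hb b1 b2 b3 b4 b5 b6 else 0)
      + (if b7 = true then - Hb b1 b2 b3 b4 b5 (!b6) + Hb b1 b2 b3 b4 b5 b6 else 0) := by
  decide +kernel

/-- occupation of a site -/
def bb (u : ℕ → ZMod 2) (x : ℕ) : Bool := decide (u x = 1)

/-- the front -/
noncomputable def fr (u : ℕ → ZMod 2) : ℕ := sInf {i | u i ≠ 0}

/-- the potential at the front -/
noncomputable def Hu (u : ℕ → ZMod 2) : ℤ :=
  Hb (bb u (fr u + 1)) (bb u (fr u + 2)) (bb u (fr u + 3)) (bb u (fr u + 4)) (bb u (fr u + 5))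
    (bb u (fr u + 6))

lemma fr_spec {u : ℕ → ZMod 2} {m : ℕ} (h1 : u m ≠ 0) (h2 : ∀ i < m, u i = 0) : fr u = m := by
  unfold fr
  apply le_antisymm
  · exact Nat.sInf_le h1
  · by_contra h
    rw [not_le] at h
    have h3 : u (sInf {i | u i ≠ 0}) ≠ 0 := Nat.sInf_mem (s := {i | u i ≠ 0}) ⟨m, h1⟩
    exact h3 (h2 _ h)

lemma fr_ne {u : ℕ → ZMod 2} {m : ℕ} (h1 : u m ≠ 0) : u (fr u) ≠ 0 :=
  Nat.sInf_mem (s := {i | u i ≠ 0}) ⟨m, h1⟩

lemma fr_lt {u : ℕ → ZMod 2} {i : ℕ} (h : i < fr u) : u i = 0 := by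
  by_contra h1
  have : fr u ≤ i := Nat.sInf_le h1
  omega

lemma z2_eq_one {z : ZMod 2} (h : z ≠ 0) : z = 1 := by
  revert h
  revert z
  decide

lemma bb_flip (u : ℕ → ZMod 2) (i : ℕ) (h : u (i + 1) = 1) : bb (upd u i) i = !(bb u i) := by
  unfold bb
  rw [upd_self, h]
  generalize u i = z
  revert z
  decide

lemma upd_eq_self (u : ℕ → ZMod 2) (i : ℕ) (h : u (i + 1) = 0) : upd u i = u := by
  funext x
  by_cases hx : x = i
  · rw [hx, upd_self, h, add_zero]
  · rw [upd_ne u hx]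

lemma bb_ne (u : ℕ → ZMod 2) {i x : ℕ} (h : x ≠ i) : bb (upd u i) x = bb u x := by
  unfold bb
  rw [upd_ne u h]

/-- the position potential, in units of 1/10000 -/
noncomputable def Ps (n : ℕ) (u : ℕ → ZMod 2) : ℤ := 10000 * ((n : ℤ) - 1 - fr u) - Hu u

lemma fr_upd_right (u : ℕ → ZMod 2) (h0 : u (fr u) ≠ 0) (i : ℕ) (hi : fr u < i) :
    fr (upd u i) = fr u := by
  apply fr_spec
  · rw [upd_ne u (by omega)]
    exact h0
  · intro j hj
    rw [upd_ne u (by omega)]
    exact fr_lt hj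

lemma upd_left (u : ℕ → ZMod 2) (i : ℕ) (hi : i + 1 < fr u) : upd u i = u :=
  upd_eq_self u i (fr_lt hi)

lemma Ps_far (n : ℕ) (u : ℕ → ZMod 2) (h0 : u (fr u) ≠ 0) (i : ℕ) (hi : fr u + 6 < i) :
    Ps n (upd u i) = Ps n u := by
  unfold Ps Hu
  rw [fr_upd_right u h0 i (by omega)]
  rw [bb_ne u (show fr u + 1 ≠ i by omega), bb_ne u (show fr u + 2 ≠ i by omega),
    bb_ne u (show fr u + 3 ≠ i by omega), bb_ne u (show fr u + 4 ≠ i by omega),
    bb_ne u (show fr u + 5 ≠ i by omega), bb_ne u (show fr u + 6 ≠ i by omega)]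

/-- change of the potential by the clock `i` -/
noncomputable def dP (n : ℕ) (u : ℕ → ZMod 2) (i : ℕ) : ℤ := Ps n (upd u i) - Ps n u

lemma dP_zero_of (n : ℕ) (u : ℕ → ZMod 2) (i : ℕ) (h : u (i + 1) = 0) : dP n u i = 0 := by
  unfold dP
  rw [upd_eq_self u i h, sub_self]

lemma bb_false_iff (u : ℕ → ZMod 2) (x : ℕ) : ¬ (bb u x = true) → u x = 0 := by
  intro h
  unfold bb at h
  by_contra h1
  exact h (decide_eq_true (z2_eq_one h1))

lemma bb_true (u : ℕ → ZMod 2) (x : ℕ) : bb u x = true → u x = 1 := by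
  intro h
  exact of_decide_eq_true h

/-- the front itself -/
lemma dP_front (n : ℕ) (u : ℕ → ZMod 2) (h0 : u (fr u) ≠ 0) :
    dP n u (fr u) = if bb u (fr u + 1) = true then
      -10000 - Hb (bb u (fr u + 2)) (bb u (fr u + 3)) (bb u (fr u + 4)) (bb u (fr u + 5))
        (bb u (fr u + 6)) (bb u (fr u + 7)) + Hu u else 0 := by
  split_ifs with hb
  · have h1 := bb_true u _ hb
    have hf : fr (upd u (fr u)) = fr u + 1 := by
      apply fr_spec
      · rw [upd_ne u (by omega), h1]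
        decide
      · intro j hj
        by_cases hj2 : j = fr u
        · rw [hj2, upd_self, h1, z2_eq_one h0]
          decide
        · rw [upd_ne u hj2]
          exact fr_lt (by omega)
    unfold dP Ps
    have hH : Hu (upd u (fr u)) = Hb (bb u (fr u + 2)) (bb u (fr u + 3)) (bb u (fr u + 4)) (bb u (fr u + 5))
        (bb u (fr u + 6)) (bb u (fr u + 7)) := by
      unfold Hu
      rw [hf]
      rw [bb_ne u (show fr u + 1 + 1 ≠ fr u by omega), bb_ne u (show fr u + 1 + 2 ≠ fr u by omega),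
        bb_ne u (show fr u + 1 + 3 ≠ fr u by omega), bb_ne u (show fr u + 1 + 4 ≠ fr u by omega),
        bb_ne u (show fr u + 1 + 5 ≠ fr u by omega), bb_ne u (show fr u + 1 + 6 ≠ fr u by omega)]
    rw [hH, hf]
    push_cast
    ring
  · exact dP_zero_of n u _ (bb_false_iff u _ hb)

lemma dP_fwd (n : ℕ) (u : ℕ → ZMod 2) (h0 : u (fr u) ≠ 0) (y : ℕ) (hy : fr u = y + 1) :
    dP n u y = 10000 - Hb true (bb u (fr u + 1)) (bb u (fr u + 2)) (bb u (fr u + 3)) (bb u (fr u + 4))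
        (bb u (fr u + 5)) + Hu u := by
  have hy0 : u y = 0 := fr_lt (by omega)
  have h1 : u (y + 1) = 1 := by rw [← hy]; exact z2_eq_one h0
  have hf : fr (upd u y) = y := by
    apply fr_spec
    · rw [upd_self, hy0, h1]
      decide
    · intro j hj
      rw [upd_ne u (by omega)]
      exact fr_lt (by omega)
  have hH : Hu (upd u y) = Hb true (bb u (fr u + 1)) (bb u (fr u + 2)) (bb u (fr u + 3)) (bb u (fr u + 4))
        (bb u (fr u + 5)) := by
    unfold Hu
    rw [hf, hy]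
    rw [bb_ne u (show y + 1 ≠ y by omega), bb_ne u (show y + 2 ≠ y by omega),
      bb_ne u (show y + 3 ≠ y by omega), bb_ne u (show y + 4 ≠ y by omega),
      bb_ne u (show y + 5 ≠ y by omega), bb_ne u (show y + 6 ≠ y by omega)]
    have h2 : bb u (y + 1) = true := by
      unfold bb
      rw [h1]
      decide
    rw [h2]
  unfold dP Ps
  rw [hH, hf, hy]
  push_cast
  ring

lemma dP_near (n : ℕ) (u : ℕ → ZMod 2) (h0 : u (fr u) ≠ 0) (j : ℕ) (hj : 1 ≤ j) :
    dP n u (fr u + j) = if bb u (fr u + j + 1) = true then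
      - Hu (upd u (fr u + j)) + Hu u else 0 := by
  split_ifs with hb
  · unfold dP Ps
    rw [fr_upd_right u h0 _ (by omega)]
    ring
  · exact dP_zero_of n u _ (bb_false_iff u _ hb)

lemma Hu_near (u : ℕ → ZMod 2) (h0 : u (fr u) ≠ 0) (j : ℕ) (hj : 1 ≤ j)
    (hb : bb u (fr u + j + 1) = true) (f : ℕ → Bool) (hf : f = fun i => if i = j then !(bb u (fr u + j))
      else bb u (fr u + i)) :
    Hu (upd u (fr u + j)) = Hb (f 1) (f 2) (f 3) (f 4) (f 5) (f 6) := by
  have h1 := bb_true u _ hb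
  have key : ∀ i, bb (upd u (fr u + j)) (fr u + i) = f i := by
    intro i
    rw [hf]
    by_cases hij : i = j
    · subst hij
      simp only [if_true]
      exact bb_flip u _ h1
    · simp only [if_neg hij]
      exact bb_ne u (by omega)
  unfold Hu
  rw [fr_upd_right u h0 _ (by omega)]
  rw [key, key, key, key, key, key]

/-- total drift -/
lemma dP_total (n : ℕ) (u : ℕ → ZMod 2) (h0 : u (fr u) ≠ 0) (y : ℕ) (hy : fr u = y + 1) :
    (3773 : ℤ) ≤ ∑ i ∈ range 8, dP n u (y + i) := by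
  have e := Hb_drift (bb u (fr u + 1)) (bb u (fr u + 2)) (bb u (fr u + 3)) (bb u (fr u + 4))
    (bb u (fr u + 5)) (bb u (fr u + 6)) (bb u (fr u + 7))
  have hHu : Hu u = Hb (bb u (fr u + 1)) (bb u (fr u + 2)) (bb u (fr u + 3)) (bb u (fr u + 4))
    (bb u (fr u + 5)) (bb u (fr u + 6)) := rfl
  rw [← hHu] at e
  have a0 := dP_fwd n u h0 y hy
  have a1 := dP_front n u h0
  have near : ∀ j, 1 ≤ j → dP n u (fr u + j) = if bb u (fr u + j + 1) = true then
      - Hb (if 1 = j then !(bb u (fr u + j)) else bb u (fr u + 1))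
          (if 2 = j then !(bb u (fr u + j)) else bb u (fr u + 2))
          (if 3 = j then !(bb u (fr u + j)) else bb u (fr u + 3))
          (if 4 = j then !(bb u (fr u + j)) else bb u (fr u + 4))
          (if 5 = j then !(bb u (fr u + j)) else bb u (fr u + 5))
          (if 6 = j then !(bb u (fr u + j)) else bb u (fr u + 6)) + Hu u else 0 := by
    intro j hj
    rw [dP_near n u h0 j hj]
    by_cases hb : bb u (fr u + j + 1) = true
    · rw [if_pos hb, if_pos hb, Hu_near u h0 j hj hb _ rfl]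
    · rw [if_neg hb, if_neg hb]
  have a2 := near 1 (by norm_num)
  have a3 := near 2 (by norm_num)
  have a4 := near 3 (by norm_num)
  have a5 := near 4 (by norm_num)
  have a6 := near 5 (by norm_num)
  have a7 := near 6 (by norm_num)
  simp only [Finset.sum_range_succ, Finset.sum_range_zero, zero_add, add_zero]
  have s1 : y + 1 = fr u := hy.symm
  have s2 : y + 2 = fr u + 1 := by omega
  have s3 : y + 3 = fr u + 2 := by omega
  have s4 : y + 4 = fr u + 3 := by omega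
  have s5 : y + 5 = fr u + 4 := by omega
  have s6 : y + 6 = fr u + 5 := by omega
  have s7 : y + 7 = fr u + 6 := by omega
  rw [s1, s2, s3, s4, s5, s6, s7, a0, a1, a2, a3, a4, a5, a6, a7]
  norm_num at e ⊢
  exact e

end Pool.Agent.UTM
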