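import Mathlib
import Pool.Agent.UTM.Front

/-!
The front of the last column: exponential moment and speed.
-/
set_option autoImplicit false
set_option linter.unusedSectionVars false

namespace Pool.Agent.UTM

open Finset Filter Topology

variable {K : (n : ℕ) → Matrix (Mat n) (Mat n) ℝ}

/-- the last column -/
def lc {n : ℕ} (B : Mat n) (i : ℕ) : ZMod 2 :=
  if h : i < n then B ⟨i, h⟩ ⟨n - 1, by omega⟩ else 0

lemma lc_rop {n : ℕ} (B : Mat n) (i : ℕ) (hi : i + 1 < n) : lc (rop i B) = upd (lc B) i := by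
  funext x
  by_cases hx : x = i
  · subst hx
    rw [upd_self]
    simp only [lc, rop, dif_pos hi]
    rw [dif_pos (by omega : x < n), dif_pos (by omega : x < n)]
    simp [Matrix.updateRow_self]
  · rw [upd_ne _ hx]
    simp only [lc, rop, dif_pos hi]
    by_cases hxn : x < n
    · rw [dif_pos hxn, dif_pos hxn]
      rw [Matrix.updateRow_ne]
      intro h
      apply hx
      have := congrArg Fin.val h
      simpa using this
    · rw [dif_neg hxn, dif_neg hxn]

/-- the bottom entry of the last column is one -/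
def Bot {n : ℕ} (B : Mat n) : Prop := lc B (n - 1) = 1

lemma Bot_one {n : ℕ} (hn : 1 ≤ n) : Bot (1 : Mat n) := by
  unfold Bot lc
  rw [dif_pos (by omega)]
  exact Matrix.one_apply_eq _

lemma Bot_rop {n : ℕ} (B : Mat n) (h : Bot B) (i : ℕ) (hi : i ∈ range (n - 1)) : Bot (rop i B) := by
  rw [mem_range] at hi
  unfold Bot at h ⊢
  rw [lc_rop B i (by omega), upd_ne _ (by omega)]
  exact h

/-- comparison on an invariant set -/
lemma ex_mono_on (hK : IsKernel K) (n : ℕ) (hn : 1 ≤ n) (P : Mat n → Prop) (h1 : P 1)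
    (hP : ∀ B, P B → ∀ i ∈ range (n - 1), P (rop i B)) (T : ℕ) :
    ∀ (f g : Mat n → ℝ), (∀ B, P B → f B ≤ g B) → ex K n T f ≤ ex K n T g := by
  have hn0 : (0 : ℝ) ≤ (n : ℝ) - 1 := by
    have : (1 : ℝ) ≤ n := by exact_mod_cast hn
    linarith
  induction T with
  | zero =>
      intro f g h
      rw [ex_zero, ex_zero]
      exact h 1 h1
  | succ T ih =>
      intro f g h
      rw [ex_succ, ex_succ]
      apply ih
      intro B hB
      rw [kernel_mulVec hK, kernel_mulVec hK]
      have a1 := h B hB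
      have a2 : ∑ i ∈ range (n - 1), f (rop i B) ≤ ∑ i ∈ range (n - 1), g (rop i B) :=
        Finset.sum_le_sum fun i hi => h _ (hP B hB i hi)
      have a3 : (0 : ℝ) ≤ 1 / (2 * ((n : ℝ) - 1)) := by positivity
      have a4 := mul_le_mul_of_nonneg_left a2 a3
      linarith

noncomputable def ta : ℝ := 1 / 1000000000

lemma ta_pos : 0 < ta := by unfold ta; norm_num

/-- the exponential functional -/
noncomputable def Fe (n : ℕ) (u : ℕ → ZMod 2) : ℝ := Real.exp (-(ta * (Ps n u : ℝ)))

lemma exp_neg_le {z : ℝ} (h : |z| ≤ 1) : Real.exp (-z) ≤ 1 - z + z ^ 2 := by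
  have h0 : |-z| ≤ 1 := by rwa [abs_neg]
  have h1 := Real.abs_exp_sub_one_sub_id_le h0
  have h2 := (abs_le.mp h1).2
  have h3 : (-z) ^ 2 = z ^ 2 := by ring
  linarith

lemma Hu_bounds (u : ℕ → ZMod 2) : 0 ≤ Hu u ∧ Hu u ≤ 8530 := Hb_bounds _ _ _ _ _ _

lemma dP_abs (n : ℕ) (u : ℕ → ZMod 2) (h0 : u (fr u) ≠ 0) (i : ℕ) : |dP n u i| ≤ 20000 := by
  by_cases h : u (i + 1) = 0
  · rw [dP_zero_of n u i h]
    norm_num
  · have hH := Hu_bounds u
    have hH' := Hu_bounds (upd u i)
    rcases lt_trichotomy (i + 1) (fr u) with h1 | h1 | h1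
    · exact absurd (fr_lt h1) h
    · rw [dP_fwd n u h0 i h1.symm]
      have := Hb_bounds true (bb u (fr u + 1)) (bb u (fr u + 2)) (bb u (fr u + 3)) (bb u (fr u + 4))
        (bb u (fr u + 5))
      rw [abs_le]
      constructor <;> omega
    · rcases Nat.lt_or_ge (fr u) i with h2 | h2
      · unfold dP Ps
        rw [fr_upd_right u h0 i h2, abs_le]
        constructor <;> omega
      · have h3 : i = fr u := by omega
        subst h3
        rw [dP_front n u h0]
        have := Hb_bounds (bb u (fr u + 2)) (bb u (fr u + 3)) (bb u (fr u + 4)) (bb u (fr u + 5))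
          (bb u (fr u + 6)) (bb u (fr u + 7))
        split_ifs
        · rw [abs_le]
          constructor <;> omega
        · norm_num

lemma Fe_upd (n : ℕ) (u : ℕ → ZMod 2) (i : ℕ) :
    Fe n (upd u i) = Fe n u * Real.exp (-(ta * (dP n u i : ℝ))) := by
  unfold Fe dP
  rw [← Real.exp_add]
  congr 1
  push_cast
  ring

lemma g_le (n : ℕ) (u : ℕ → ZMod 2) (h0 : u (fr u) ≠ 0) (i : ℕ) :
    Real.exp (-(ta * (dP n u i : ℝ))) - 1 ≤ - (ta * (dP n u i : ℝ)) + 400000000 * ta ^ 2 := by
  have h1 : |(dP n u i : ℝ)| ≤ 20000 := by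
    have := dP_abs n u h0 i
    exact_mod_cast this
  have h2 : |ta * (dP n u i : ℝ)| ≤ 1 := by
    rw [abs_mul, abs_of_pos ta_pos]
    have h3 := mul_le_mul_of_nonneg_left h1 ta_pos.le
    have h4 : ta * 20000 ≤ 1 := by unfold ta; norm_num
    linarith
  have h3 := exp_neg_le h2
  have h4 : (ta * (dP n u i : ℝ)) ^ 2 ≤ 400000000 * ta ^ 2 := by
    rw [mul_pow]
    have h5 : (dP n u i : ℝ) ^ 2 ≤ 20000 ^ 2 := by
      rw [← sq_abs]
      exact pow_le_pow_left₀ (abs_nonneg _) h1 2
    have h6 : 0 ≤ ta ^ 2 := by positivity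
    nlinarith
  linarith

lemma g_zero (n : ℕ) (u : ℕ → ZMod 2) (i : ℕ) (h : dP n u i = 0) :
    Real.exp (-(ta * (dP n u i : ℝ))) - 1 = 0 := by
  rw [h]
  simp

lemma dP_left (n : ℕ) (u : ℕ → ZMod 2) (i : ℕ) (hi : i + 1 < fr u) : dP n u i = 0 := by
  unfold dP
  rw [upd_left u i hi, sub_self]

lemma dP_far (n : ℕ) (u : ℕ → ZMod 2) (h0 : u (fr u) ≠ 0) (i : ℕ) (hi : fr u + 6 < i) :
    dP n u i = 0 := by
  unfold dP
  rw [Ps_far n u h0 i hi, sub_self]

/-- the sum over the clocks in the bulk -/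
lemma sum_g_bulk (n : ℕ) (u : ℕ → ZMod 2) (h0 : u (fr u) ≠ 0) (hz : ∀ i, n ≤ i → u i = 0)
    (y : ℕ) (hy : fr u = y + 1) :
    ∑ i ∈ range (n - 1), (Real.exp (-(ta * (dP n u i : ℝ))) - 1) ≤ -(3769 * ta) := by
  set g : ℕ → ℝ := fun i => Real.exp (-(ta * (dP n u i : ℝ))) - 1 with hg
  have h1 : ∑ i ∈ range (n - 1), g i = ∑ i ∈ range (y + 8 + (n - 1)), g i := by
    apply Finset.sum_subset
    · intro i hi
      rw [mem_range] at hi ⊢
      omega
    · intro i _ hi
      rw [mem_range, not_lt] at hi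
      exact g_zero n u i (dP_zero_of n u i (hz _ (by omega)))
  have h2 : ∑ i ∈ range (y + 8 + (n - 1)), g i = ∑ i ∈ range 8, g (y + i) := by
    rw [Finset.sum_range_add, Finset.sum_range_add]
    have e1 : ∑ i ∈ range y, g i = 0 := by
      apply Finset.sum_eq_zero
      intro i hi
      rw [mem_range] at hi
      exact g_zero n u i (dP_left n u i (by omega))
    have e2 : ∑ i ∈ range (n - 1), g (y + 8 + i) = 0 := by
      apply Finset.sum_eq_zero
      intro i _
      exact g_zero n u _ (dP_far n u h0 _ (by omega))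
    rw [e1, e2]
    ring
  rw [h1, h2]
  have h3 : ∑ i ∈ range 8, g (y + i) ≤ ∑ i ∈ range 8, (- (ta * (dP n u (y + i) : ℝ)) + 400000000 * ta ^ 2) :=
    Finset.sum_le_sum fun i _ => g_le n u h0 (y + i)
  have h4 : ∑ i ∈ range 8, (- (ta * (dP n u (y + i) : ℝ)) + 400000000 * ta ^ 2)
      = -(ta * ∑ i ∈ range 8, (dP n u (y + i) : ℝ)) + 3200000000 * ta ^ 2 := by
    rw [Finset.sum_add_distrib, Finset.sum_neg_distrib, Finset.mul_sum, Finset.sum_const, card_range,
      nsmul_eq_mul]
    push_cast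
    ring
  have h5 : (3773 : ℝ) ≤ ∑ i ∈ range 8, (dP n u (y + i) : ℝ) := by
    have := dP_total n u h0 y hy
    exact_mod_cast this
  have h6 := mul_le_mul_of_nonneg_left h5 ta_pos.le
  have h7 : 3200000000 * ta ^ 2 ≤ 4 * ta := by
    unfold ta
    norm_num
  linarith

lemma sum_g_zero (n : ℕ) (u : ℕ → ZMod 2) (h0 : u (fr u) ≠ 0) (hf : fr u = 0) :
    ∑ i ∈ range (n - 1), (Real.exp (-(ta * (dP n u i : ℝ))) - 1) ≤ 8 := by
  set g : ℕ → ℝ := fun i => Real.exp (-(ta * (dP n u i : ℝ))) - 1 with hg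
  have h1 : ∀ i, g i ≤ if i < 8 then 1 else 0 := by
    intro i
    by_cases hi : i < 8
    · rw [if_pos hi]
      have h2 := g_le n u h0 i
      have h3 : |(dP n u i : ℝ)| ≤ 20000 := by
        have := dP_abs n u h0 i
        exact_mod_cast this
      have h4 := (abs_le.mp h3).1
      have h5 := mul_le_mul_of_nonneg_left h4 ta_pos.le
      have h6 : ta * 20000 + 400000000 * ta ^ 2 ≤ 1 := by unfold ta; norm_num
      have h7 : g i = Real.exp (-(ta * (dP n u i : ℝ))) - 1 := rfl
      rw [h7]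
      linarith
    · rw [if_neg hi]
      exact le_of_eq (g_zero n u i (dP_far n u h0 i (by omega)))
  calc ∑ i ∈ range (n - 1), g i ≤ ∑ i ∈ range (n - 1), (if i < 8 then (1 : ℝ) else 0) :=
        Finset.sum_le_sum fun i _ => h1 i
    _ ≤ ∑ i ∈ range (n - 1 + 8), (if i < 8 then (1 : ℝ) else 0) := by
        apply Finset.sum_le_sum_of_subset_of_nonneg
        · intro i hi
          rw [mem_range] at hi ⊢
          omega
        · intro i _ _
          split_ifs <;> norm_num
    _ = ∑ i ∈ range (8 + (n - 1)), (if i < 8 then (1 : ℝ) else 0) := by rw [add_comm]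
    _ = 8 := by
        rw [Finset.sum_range_add]
        have e1 : ∑ i ∈ range (n - 1), (if 8 + i < 8 then (1 : ℝ) else 0) = 0 := by
          apply Finset.sum_eq_zero
          intro i _
          rw [if_neg (by omega)]
        have e2 : ∑ i ∈ range 8, (if i < 8 then (1 : ℝ) else 0) = 8 := by
          rw [Finset.sum_congr rfl (fun i hi => if_pos (mem_range.mp hi))]
          simp
        rw [e1, e2, add_zero]

/-- one step -/
lemma step_front (hK : IsKernel K) (n : ℕ) (hn : 2 ≤ n) (B : Mat n) (hB : Bot B) :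
    (Matrix.mulVec (K n) (fun A => Fe n (lc A))) B ≤
      (1 + (-(3769 / 2 * ta)) / ((n : ℝ) - 1)) * Fe n (lc B)
        + 1 / ((n : ℝ) - 1) * (9 * Real.exp (-(10000 * ta * ((n : ℝ) - 1)))) := by
  have hn1 : (0 : ℝ) < (n : ℝ) - 1 := by
    have h2 : (2 : ℝ) ≤ n := by exact_mod_cast hn
    linarith
  rw [kernel_mulVec hK]
  set u := lc B with hu
  have hne : u (n - 1) ≠ 0 := by
    have : u (n - 1) = 1 := hB
    rw [this]
    decide
  have h0 : u (fr u) ≠ 0 := fr_ne hne
  have hz : ∀ i, n ≤ i → u i = 0 := by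
    intro i hi
    rw [hu]
    unfold lc
    rw [dif_neg (by omega)]
  have h1 : ∑ i ∈ range (n - 1), Fe n (lc (rop i B))
      = ((n : ℝ) - 1) * Fe n u + Fe n u * ∑ i ∈ range (n - 1), (Real.exp (-(ta * (dP n u i : ℝ))) - 1) := by
    have h2 : ∀ i ∈ range (n - 1), Fe n (lc (rop i B))
        = Fe n u + Fe n u * (Real.exp (-(ta * (dP n u i : ℝ))) - 1) := by
      intro i hi
      rw [mem_range] at hi
      rw [lc_rop B i (by omega), ← hu, Fe_upd]
      ring
    rw [Finset.sum_congr rfl h2, Finset.sum_add_distrib, Finset.sum_const, card_range, nsmul_eq_mul,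
      ← Finset.mul_sum]
    congr 2
    rw [Nat.cast_sub (by omega)]
    simp
  rw [h1]
  have hFe : 0 < Fe n u := Real.exp_pos _
  have hexp : 0 < Real.exp (-(10000 * ta * ((n : ℝ) - 1))) := Real.exp_pos _
  have key : Fe n u * ∑ i ∈ range (n - 1), (Real.exp (-(ta * (dP n u i : ℝ))) - 1)
      ≤ -(3769 * ta) * Fe n u + 18 * Real.exp (-(10000 * ta * ((n : ℝ) - 1))) := by
    rcases Nat.eq_zero_or_pos (fr u) with hf | hf
    · have a1 := sum_g_zero n u h0 hf
      have a2 := mul_le_mul_of_nonneg_left a1 hFe.le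
      have a3 : Fe n u ≤ 2 * Real.exp (-(10000 * ta * ((n : ℝ) - 1))) := by
        have b1 := (Hu_bounds u).2
        have b2 : (Ps n u : ℝ) ≥ 10000 * ((n : ℝ) - 1) - 8530 := by
          unfold Ps
          rw [hf]
          push_cast
          have : (Hu u : ℝ) ≤ 8530 := by exact_mod_cast b1
          linarith
        have b3 : Fe n u ≤ Real.exp (8530 * ta) * Real.exp (-(10000 * ta * ((n : ℝ) - 1))) := by
          unfold Fe
          rw [← Real.exp_add]
          apply Real.exp_le_exp.mpr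
          have := mul_le_mul_of_nonneg_left b2 ta_pos.le
          linarith
        have b4 : Real.exp (8530 * ta) ≤ 2 := by
          have h5 : |8530 * ta| ≤ 1 := by
            rw [abs_of_pos (by have := ta_pos; linarith)]
            unfold ta
            norm_num
          have h6 := Real.abs_exp_sub_one_sub_id_le h5
          have h7 := (abs_le.mp h6).2
          have h8 : 8530 * ta + (8530 * ta) ^ 2 ≤ 1 := by unfold ta; norm_num
          linarith
        nlinarith
      have a4 : ta * Fe n u ≤ 1 / 4000 * Fe n u := by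
        apply mul_le_mul_of_nonneg_right _ hFe.le
        unfold ta
        norm_num
      linarith
    · obtain ⟨y, hy⟩ : ∃ y, fr u = y + 1 := ⟨fr u - 1, by omega⟩
      have a1 := sum_g_bulk n u h0 hz y hy
      have a2 := mul_le_mul_of_nonneg_left a1 hFe.le
      linarith
  have hc : (0 : ℝ) ≤ 1 / (2 * ((n : ℝ) - 1)) := by positivity
  have h2 := mul_le_mul_of_nonneg_left key hc
  have e1 : 1 / 2 * Fe n u + 1 / (2 * ((n : ℝ) - 1)) * (((n : ℝ) - 1) * Fe n u
      + Fe n u * ∑ i ∈ range (n - 1), (Real.exp (-(ta * (dP n u i : ℝ))) - 1))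
      = Fe n u + 1 / (2 * ((n : ℝ) - 1)) * (Fe n u * ∑ i ∈ range (n - 1), (Real.exp (-(ta * (dP n u i : ℝ))) - 1)) := by
    field_simp
    ring
  rw [e1]
  refine le_trans (add_le_add_right h2 _) (le_of_eq ?_)
  field_simp
  ring

end Pool.Agent.UTM
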