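import Mathlib
import Pool.Agent.UTM.EastSpeed
import Pool.Agent.UTM.FrontSpeed

/-!
The East process at density one half: the Lyapunov function.
-/
set_option autoImplicit false
set_option linter.unusedSectionVars false

namespace Pool.Agent.UTM.Es

open Finset Filter Topology

/-- the configuration read from the top -/
def uo {N : ℕ} (y : Y N) (i : ℕ) : ZMod 2 := if i < N then cf y (N - 1 - i) else 0

lemma uo_op {N : ℕ} (y : Y N) (i : ℕ) (hi : i + 1 < N) :
    uo (op (N - 2 - i) y) = upd (uo y) i := by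
  funext x
  by_cases hx : x = i
  · subst hx
    rw [upd_self]
    unfold uo
    rw [if_pos (by omega), if_pos (by omega), if_pos hi,
      show N - 1 - x = (N - 2 - x) + 1 by omega, show N - 1 - (x + 1) = N - 2 - x by omega,
      cf_op_self _ _ (by omega)]
  · rw [upd_ne _ hx]
    unfold uo
    split_ifs with h
    · rw [cf_op_ne _ _ (by omega)]
    · rfl

lemma uo_top {N : ℕ} (y : Y N) (hy : y ≠ 0) : fr (uo y) = N - 1 - top y := by
  have hN : 0 < N := by
    rcases Nat.eq_zero_or_pos N with h | h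
    · subst h
      exfalso
      apply hy
      funext i
      exact i.elim0
    · exact h
  have h1 := top_lt hN y
  apply fr_spec
  · unfold uo
    rw [if_pos (by omega), show N - 1 - (N - 1 - top y) = top y by omega]
    exact cf_top' y hy
  · intro i hi
    unfold uo
    split_ifs
    · exact cf_of_top_lt y (by omega)
    · rfl

lemma uo_ne {N : ℕ} (y : Y N) (hy : y ≠ 0) : uo y (fr (uo y)) ≠ 0 := by
  have hN : 0 < N := by
    rcases Nat.eq_zero_or_pos N with h | h
    · subst h
      exfalso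
      apply hy
      funext i
      exact i.elim0
    · exact h
  have h1 := top_lt hN y
  rw [uo_top y hy]
  unfold uo
  rw [if_pos (by omega), show N - 1 - (N - 1 - top y) = top y by omega]
  exact cf_top' y hy

open Classical in
/-- the Lyapunov function -/
noncomputable def VV {N : ℕ} (y : Y N) : ℝ :=
  if y = 0 then 0 else Real.exp (10000 * ta * ((N : ℝ) - 1)) * Fe N (uo y)

lemma VV_zero (N : ℕ) : VV (0 : Y N) = 0 := if_pos rfl

lemma VV_ne {N : ℕ} (y : Y N) (hy : y ≠ 0) :
    VV y = Real.exp (10000 * ta * ((N : ℝ) - 1)) * Fe N (uo y) := if_neg hy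

lemma VV_nonneg {N : ℕ} (y : Y N) : 0 ≤ VV y := by
  unfold VV Fe
  split_ifs <;> positivity

lemma N_pos_of_ne {N : ℕ} (y : Y N) (hy : y ≠ 0) : 0 < N := by
  rcases Nat.eq_zero_or_pos N with h | h
  · subst h
    exfalso
    apply hy
    funext i
    exact i.elim0
  · exact h

lemma VV_eq {N : ℕ} (y : Y N) (hy : y ≠ 0) :
    VV y = Real.exp (ta * (10000 * ((N : ℝ) - 1 - top y) + (Hu (uo y) : ℝ))) := by
  have hN := N_pos_of_ne y hy
  have h1 := top_lt hN y
  rw [VV_ne y hy]
  unfold Fe Ps
  rw [← Real.exp_add, uo_top y hy]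
  congr 1
  have h2 : ((N - 1 - top y : ℕ) : ℤ) = (N : ℤ) - 1 - top y := by omega
  rw [h2]
  push_cast
  ring

lemma VV_ge {N : ℕ} (y : Y N) (hy : y ≠ 0) :
    Real.exp (10000 * ta * ((N : ℝ) - 1 - top y)) ≤ VV y := by
  rw [VV_eq y hy]
  apply Real.exp_le_exp.mpr
  have h1 : (0 : ℝ) ≤ (Hu (uo y) : ℝ) := by exact_mod_cast (Hu_bounds (uo y)).1
  have := mul_nonneg ta_pos.le h1
  nlinarith

lemma VV_le {N : ℕ} (y : Y N) (hy : y ≠ 0) :
    VV y ≤ 2 * Real.exp (10000 * ta * ((N : ℝ) - 1 - top y)) := by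
  rw [VV_eq y hy]
  have h1 : (Hu (uo y) : ℝ) ≤ 8530 := by exact_mod_cast (Hu_bounds (uo y)).2
  have h2 : Real.exp (8530 * ta) ≤ 2 := by
    have hta := ta_pos
    have h5 : |8530 * ta| ≤ 1 := by
      rw [abs_of_pos (by linarith)]
      unfold ta
      norm_num
    have h6 := Real.abs_exp_sub_one_sub_id_le h5
    have h7 := (abs_le.mp h6).2
    have h8 : 8530 * ta + (8530 * ta) ^ 2 ≤ 1 := by unfold ta; norm_num
    linarith
  calc Real.exp (ta * (10000 * ((N : ℝ) - 1 - top y) + (Hu (uo y) : ℝ)))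
      ≤ Real.exp (8530 * ta + 10000 * ta * ((N : ℝ) - 1 - top y)) := by
        apply Real.exp_le_exp.mpr
        have := mul_le_mul_of_nonneg_left h1 ta_pos.le
        linarith
    _ ≤ 2 * Real.exp (10000 * ta * ((N : ℝ) - 1 - top y)) := by
        rw [Real.exp_add]
        exact mul_le_mul_of_nonneg_right h2 (Real.exp_pos _).le

lemma op_ne_zero {N : ℕ} (k : ℕ) (y : Y N) (hy : y ≠ 0) : op k y ≠ 0 := by
  intro h
  apply hy
  rw [← op_op k y, h, op_zero]

lemma sum_g_zero' (n : ℕ) (u : ℕ → ZMod 2) (h0 : u (fr u) ≠ 0) (hf : fr u = 0) :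
    ∑ i ∈ range (n - 1), (Real.exp (-(ta * (dP n u i : ℝ))) - 1) ≤ 1 := by
  set g : ℕ → ℝ := fun i => Real.exp (-(ta * (dP n u i : ℝ))) - 1 with hg
  have h1 : ∀ i, g i ≤ if i < 8 then 1 / 8 else 0 := by
    intro i
    by_cases hi : i < 8
    · rw [if_pos hi]
      have h2 := g_le n u h0 i
      have h3 : |(dP n u i : ℝ)| ≤ 20000 := by
        have := dP_abs n u h0 i
        exact_mod_cast this
      have h4 := (abs_le.mp h3).1
      have h5 := mul_le_mul_of_nonneg_left h4 ta_pos.le
      have h6 : ta * 20000 + 400000000 * ta ^ 2 ≤ 1 / 8 := by unfold ta; norm_num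
      have h7 : g i = Real.exp (-(ta * (dP n u i : ℝ))) - 1 := rfl
      rw [h7]
      linarith
    · rw [if_neg hi]
      exact le_of_eq (g_zero n u i (dP_far n u h0 i (by omega)))
  calc ∑ i ∈ range (n - 1), g i ≤ ∑ i ∈ range (n - 1), (if i < 8 then (1 / 8 : ℝ) else 0) :=
        Finset.sum_le_sum fun i _ => h1 i
    _ ≤ ∑ i ∈ range (n - 1 + 8), (if i < 8 then (1 / 8 : ℝ) else 0) := by
        apply Finset.sum_le_sum_of_subset_of_nonneg
        · intro i hi
          rw [mem_range] at hi ⊢
          omega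
        · intro i _ _
          split_ifs <;> norm_num
    _ = ∑ i ∈ range (8 + (n - 1)), (if i < 8 then (1 / 8 : ℝ) else 0) := by rw [add_comm]
    _ = 1 := by
        rw [Finset.sum_range_add]
        have e1 : ∑ i ∈ range (n - 1), (if 8 + i < 8 then (1 / 8 : ℝ) else 0) = 0 := by
          apply Finset.sum_eq_zero
          intro i _
          rw [if_neg (by omega)]
        have e2 : ∑ i ∈ range 8, (if i < 8 then (1 / 8 : ℝ) else 0) = 1 := by
          rw [Finset.sum_congr rfl (fun i hi => if_pos (mem_range.mp hi))]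
          rw [Finset.sum_const, card_range, nsmul_eq_mul]
          norm_num
        rw [e1, e2, add_zero]

/-- the generator on the Lyapunov function -/
lemma LL_VV {N : ℕ} (y : Y N) (hy : y ≠ 0) :
    ∑ k ∈ range N, 1 / 2 * (VV (op k y) - VV y)
      = 1 / 2 * VV y * ∑ i ∈ range (N - 1), (Real.exp (-(ta * (dP N (uo y) i : ℝ))) - 1) := by
  have hN := N_pos_of_ne y hy
  obtain ⟨M, rfl⟩ : ∃ M, N = M + 1 := ⟨N - 1, by omega⟩
  rw [Finset.sum_range_succ, op_ge M y (by omega), sub_self, mul_zero, add_zero,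
    show M + 1 - 1 = M by omega, Finset.mul_sum, ← Finset.sum_range_reflect]
  apply Finset.sum_congr rfl
  intro i hi
  rw [mem_range] at hi
  have e : M - 1 - i = M + 1 - 2 - i := by omega
  rw [e, VV_ne _ (op_ne_zero _ y hy), VV_ne y hy, uo_op y i (by omega), Fe_upd]
  ring

/-- decay rate -/
noncomputable def kap : ℝ := 3769 / 2 * ta

lemma kap_pos : 0 < kap := by
  unfold kap
  have := ta_pos
  linarith

lemma kap_small : kap ≤ 1 / 4 := by
  unfold kap ta
  norm_num

lemma LL_VV_le {N : ℕ} (y : Y N) : LL N VV y ≤ -kap * VV y + 9 := by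
  by_cases hy : y = 0
  · subst hy
    rw [LL_apply]
    simp [op_zero, VV_zero]
  rw [LL_apply, LL_VV y hy]
  have hV := VV_nonneg y
  rcases Nat.eq_zero_or_pos (fr (uo y)) with hf | hf
  · have h1 := sum_g_zero' N (uo y) (uo_ne y hy) hf
    have h2 : VV y ≤ 2 := by
      have h3 := VV_le y hy
      have hN := N_pos_of_ne y hy
      have h4 := top_lt hN y
      rw [uo_top y hy] at hf
      have h5 : (N : ℝ) - 1 - top y = 0 := by
        have : (N : ℝ) = top y + 1 := by
          have h6 : N = top y + 1 := by omega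
          exact_mod_cast h6
        linarith
      rw [h5] at h3
      simpa using h3
    have h6 := kap_small
    have h7 := kap_pos
    nlinarith
  · obtain ⟨x, hx⟩ : ∃ x, fr (uo y) = x + 1 := ⟨fr (uo y) - 1, by omega⟩
    have h1 := sum_g_bulk N (uo y) (uo_ne y hy) (fun i hi => by
      unfold uo
      rw [if_neg (by omega)]) x hx
    have h2 := mul_le_mul_of_nonneg_left h1 (show 0 ≤ 1 / 2 * VV y by linarith)
    unfold kap
    nlinarith

lemma Lk_VV_le {N : ℕ} (y : Y N) : Lk N 1 (N - 1) VV y ≤ -kap * VV y := by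
  by_cases hy : y = 0
  · subst hy
    rw [Lk_apply]
    simp [op_zero, VV_zero]
  rw [Lk_apply, LL_VV y hy]
  have hV := VV_nonneg y
  have hN := N_pos_of_ne y hy
  rcases Nat.eq_zero_or_pos (fr (uo y)) with hf | hf
  · have h1 := sum_g_zero' N (uo y) (uo_ne y hy) hf
    rw [uo_top y hy] at hf
    have h4 := top_lt hN y
    have h5 : cf y (N - 1) ≠ 0 := by
      have := cf_top' y hy
      rwa [show top y = N - 1 by omega] at this
    rw [if_neg h5]
    have h6 := kap_small
    have h7 := kap_pos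
    nlinarith
  · obtain ⟨x, hx⟩ : ∃ x, fr (uo y) = x + 1 := ⟨fr (uo y) - 1, by omega⟩
    have h1 := sum_g_bulk N (uo y) (uo_ne y hy) (fun i hi => by
      unfold uo
      rw [if_neg (by omega)]) x hx
    have h2 := mul_le_mul_of_nonneg_left h1 (show 0 ≤ 1 / 2 * VV y by linarith)
    have h3 : 0 ≤ (1 : ℝ) * (if cf y (N - 1) = 0 then 0 else VV y) := by
      split_ifs <;> linarith
    unfold kap
    nlinarith

open Classical in
/-- indicator of the zero configuration -/
noncomputable def zz {N : ℕ} (y : Y N) : ℝ := if y = 0 then 1 else 0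

lemma heat_of_null {Ω : Type} [Fintype Ω] {L : Opr Ω} {f : Ω → ℝ} (h2 : L f = 0) (t : ℝ) :
    heat L t f = f := by
  have h3 := hasSum_heat L t f
  have h4 : ∀ n : ℕ, n ≠ 0 → (t ^ n / (n.factorial : ℝ)) • (L ^ n) f = 0 := by
    intro n hn
    obtain ⟨m, rfl⟩ := Nat.exists_eq_succ_of_ne_zero hn
    rw [Nat.succ_eq_add_one, pow_succ]
    change _ • (L ^ m) (L f) = 0
    rw [h2, map_zero, smul_zero]
  have h5 := hasSum_single (f := fun n : ℕ => (t ^ n / (n.factorial : ℝ)) • (L ^ n) f) 0 h4
  have h6 := h3.unique h5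
  rw [h6]
  simp

lemma heat_zz {N : ℕ} (κ : ℝ) (j : ℕ) (t : ℝ) (y : Y N) (hy : y ≠ 0) :
    heat (Lk N κ j) t zz y = 0 := by
  have h1 : Lk N κ j zz = 0 := by
    funext y
    rw [Lk_apply]
    have h2 : ∀ k, zz (op k y) = zz y := by
      intro k
      unfold zz
      by_cases h : y = 0
      · subst h
        rw [op_zero]
      · rw [if_neg h, if_neg (op_ne_zero k y h)]
    have h3 : ∑ k ∈ range N, 1 / 2 * (zz (op k y) - zz y) = 0 := by
      apply Finset.sum_eq_zero
      intro k _
      rw [h2, sub_self, mul_zero]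
    rw [h3]
    by_cases h : y = 0
    · subst h
      rw [if_pos (cf_zero _)]
      simp
    · have : zz y = 0 := if_neg h
      rw [this]
      simp
  rw [heat_of_null h1]
  exact if_neg hy

/-- probability of a low front -/
lemma slow_le {N : ℕ} (x : ℕ) {t : ℝ} (ht : 0 ≤ t) (y : Y N) (hy : y ≠ 0) :
    heat (LL N) t (slow x) y
      ≤ 2 * Real.exp (10000 * ta * ((x : ℝ) - 1 - top y) - kap * t)
        + 9 / kap * Real.exp (-(10000 * ta * ((N : ℝ) - x))) := by
  have hta := ta_pos
  have h1 := heat_mono (LL_pos N) ht (f := slow x)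
    (g := Real.exp (-(10000 * ta * ((N : ℝ) - x))) • VV + zz) (fun z => by
      rw [Pi.add_apply, Pi.smul_apply, smul_eq_mul]
      by_cases hz : z = 0
      · have e : zz z = 1 := if_pos hz
        rw [e]
        have h2 := slow_le_one x z
        have h3 : 0 ≤ Real.exp (-(10000 * ta * ((N : ℝ) - x))) * VV z :=
          mul_nonneg (Real.exp_pos _).le (VV_nonneg z)
        linarith
      · have e : zz z = 0 := if_neg hz
        rw [e, add_zero]
        unfold slow
        split_ifs with h
        · have h2 := VV_ge z hz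
          have h3 := mul_le_mul_of_nonneg_left h2 (Real.exp_pos (-(10000 * ta * ((N : ℝ) - x)))).le
          refine le_trans ?_ h3
          rw [← Real.exp_add]
          apply Real.one_le_exp
          have h4 : (top z : ℝ) + 1 ≤ x := by exact_mod_cast h
          have h5 : 0 ≤ (x : ℝ) - 1 - top z := by linarith
          have h6 := mul_nonneg hta.le h5
          nlinarith
        · exact mul_nonneg (Real.exp_pos _).le (VV_nonneg z)) y
  rw [map_add, map_smul, Pi.add_apply, Pi.smul_apply, smul_eq_mul, heat_zz 0 0 t y hy, add_zero] at h1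
  have h2 := heat_le_exp_add (LL_pos N) (Lk_one N 0) kap_pos (by norm_num : (0 : ℝ) ≤ 9)
    (fun y => LL_VV_le y) ht y
  have h3 := mul_le_mul_of_nonneg_left h2 (Real.exp_pos (-(10000 * ta * ((N : ℝ) - x)))).le
  refine le_trans h1 (le_trans h3 ?_)
  have h4 := mul_le_mul_of_nonneg_left (VV_le y hy)
    (show 0 ≤ Real.exp (-(10000 * ta * ((N : ℝ) - x))) * Real.exp (-kap * t) by positivity)
  have e1 : Real.exp (-(10000 * ta * ((N : ℝ) - x))) * Real.exp (-kap * t)
      * (2 * Real.exp (10000 * ta * ((N : ℝ) - 1 - top y)))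
      = 2 * Real.exp (10000 * ta * ((x : ℝ) - 1 - top y) - kap * t) := by
    rw [← Real.exp_add, mul_left_comm, ← Real.exp_add]
    congr 2
    ring
  rw [e1] at h4
  rw [mul_add, ← mul_assoc]
  linarith

end Pool.Agent.UTM.Es
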