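import Mathlib
import Pool.Agent.UTM.EastLyap

/-!
The East process at density one half: the front started in an arbitrary environment is not slower.
-/
set_option autoImplicit false
set_option linter.unusedSectionVars false

namespace Pool.Agent.UTM.Es

open Finset Filter Topology

lemma heat_zero_cfg {N : ℕ} (κ : ℝ) (j : ℕ) (t : ℝ) (F : Y N → ℝ) :
    heat (Lk N κ j) t F 0 = F 0 := by
  have h := heat_intertwine (Lk N κ j) (0 : Opr (Y N)) (pull fun _ => (0 : Y N)) (fun G => by
    funext y
    rw [pull_apply, Lk_apply, if_pos (cf_zero _)]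
    simp [op_zero]) t F
  have h1 := congrFun h 0
  rw [pull_apply, heat_of_null (L := (0 : Opr (Y N))) rfl, pull_apply] at h1
  exact h1.symm

lemma un_ne {N : ℕ} (m : ℕ) (hm : m < N) : (un m : Y N) ≠ 0 := by
  intro h
  have h1 : cf (un m : Y N) m = 1 := by
    rw [cf_un, if_pos ⟨rfl, hm⟩]
  rw [h, cf_zero] at h1
  exact absurd h1 (by decide)

/-- the speed is at least `3/16` -/
theorem vv_ge : 3 / 16 ≤ vv := by
  have hta := ta_pos
  apply le_ciInf
  intro m₀
  set m : ℕ := m₀ + 1 with hm
  have hcast : ((m₀ : ℝ) + 1) = (m : ℝ) := by rw [hm]; push_cast; ring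
  rw [hcast]
  have hm1 : (1 : ℝ) ≤ m := by
    rw [hm]; push_cast
    have : (0 : ℝ) ≤ (m₀ : ℝ) := Nat.cast_nonneg _
    linarith
  rw [le_div_iff₀ (by linarith)]
  by_contra hc
  rw [not_le] at hc
  -- subadditivity
  have hsub : ∀ k : ℕ, aa (((k + 1) * m : ℕ) : ℝ) ≤ ((k : ℝ) + 1) * aa m := by
    intro k
    induction k with
    | zero => simp
    | succ k ih =>
        have e : (((k + 1 + 1) * m : ℕ) : ℝ) = (((k + 1) * m : ℕ) : ℝ) + m := by push_cast; ring
        rw [e]
        have h1 := aa_sub (s := (((k + 1) * m : ℕ) : ℝ)) (t := (m : ℝ)) (by positivity) (by positivity)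
        push_cast at h1 ih ⊢
        linarith
  -- lower bound
  have hlow : ∀ S : ℕ, 1 ≤ S → 3 / 16 * (S : ℝ) - (2 + 1 / ta) ≤ aa (S : ℝ) := by
    intro S hS
    have hSR : (1 : ℝ) ≤ S := by exact_mod_cast hS
    set x : ℕ := ⌊3 / 16 * (S : ℝ)⌋₊ with hx
    have hx1 : (x : ℝ) ≤ 3 / 16 * (S : ℝ) := Nat.floor_le (by positivity)
    have hx2 : 3 / 16 * (S : ℝ) < x + 1 := Nat.lt_floor_add_one _
    -- choose N
    have hlim : Tendsto (fun N : ℕ => (S : ℝ) * (9 / kap * Real.exp (-(10000 * ta * ((N : ℝ) - x)))))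
        atTop (𝓝 0) := by
      have h1 : Tendsto (fun N : ℕ => 10000 * ta * ((N : ℝ) - x)) atTop atTop := by
        apply Tendsto.const_mul_atTop (by linarith)
        exact tendsto_atTop_add_const_right _ _ tendsto_natCast_atTop_atTop
      have h2 := (Real.tendsto_exp_neg_atTop_nhds_zero.comp h1).const_mul ((S : ℝ) * (9 / kap))
      simpa [mul_assoc] using h2
    obtain ⟨N, hN1, hN2⟩ := ((hlim.eventually (gt_mem_nhds (show (0 : ℝ) < 1 by norm_num))).and
      (eventually_ge_atTop (x + 1))).exists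
    have hb := slow_le (N := N) x (show (0 : ℝ) ≤ S by linarith) (un 0) (un_ne 0 (by omega))
    rw [top_un 0 (by omega)] at hb
    have h3 := heat_mono (LL_pos N) (show (0 : ℝ) ≤ S by linarith)
      (f := (fun _ => (x : ℝ)) - (x : ℝ) • slow x) (g := fun y => (top y : ℝ)) (fun y => by
        rw [Pi.sub_apply, Pi.smul_apply, smul_eq_mul]
        unfold slow
        split_ifs with h
        · have : (0 : ℝ) ≤ top y := Nat.cast_nonneg _
          linarith
        · have : (x : ℝ) ≤ top y := by
            have : x ≤ top y := by omega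
            exact_mod_cast this
          linarith) (un 0)
    rw [map_sub, map_smul, heat_const (Lk_one _ 0), Pi.sub_apply, Pi.smul_apply, smul_eq_mul] at h3
    have h4 : heat (LL N) (S : ℝ) (fun y => (top y : ℝ)) (un 0) ≤ aa (S : ℝ) :=
      aN_le_aa N (by omega) (by linarith)
    have hx0 : (0 : ℝ) ≤ x := Nat.cast_nonneg _
    have h5 : (x : ℝ) * heat (LL N) (S : ℝ) (slow x) (un 0) ≤ 1 + 1 / ta := by
      have h6 := mul_le_mul_of_nonneg_left hb hx0
      have h7 : (x : ℝ) * (9 / kap * Real.exp (-(10000 * ta * ((N : ℝ) - x)))) ≤ 1 := by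
        have h8 : (x : ℝ) * (9 / kap * Real.exp (-(10000 * ta * ((N : ℝ) - x))))
            ≤ (S : ℝ) * (9 / kap * Real.exp (-(10000 * ta * ((N : ℝ) - x)))) := by
          apply mul_le_mul_of_nonneg_right (by linarith)
          have := kap_pos
          positivity
        linarith
      have h8 : (x : ℝ) * (2 * Real.exp (10000 * ta * ((x : ℝ) - 1 - ((0 : ℕ) : ℝ)) - kap * S))
          ≤ 1 / ta := by
        have h9 : 10000 * ta * ((x : ℝ) - 1 - ((0 : ℕ) : ℝ)) - kap * S ≤ -(9 * ta * S) := by
          unfold kap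
          have := mul_le_mul_of_nonneg_left hx1 hta.le
          have h10 : 0 ≤ ta * S := by positivity
          push_cast
          nlinarith
        have h10 : Real.exp (10000 * ta * ((x : ℝ) - 1 - ((0 : ℕ) : ℝ)) - kap * S)
            ≤ Real.exp (-(9 * ta * S)) := Real.exp_le_exp.mpr h9
        have h11 : 9 * ta * S * Real.exp (-(9 * ta * S)) ≤ 1 := by
          have h12 := Real.add_one_le_exp (9 * ta * S)
          have h13 : Real.exp (-(9 * ta * S)) * Real.exp (9 * ta * S) = 1 := by
            rw [← Real.exp_add]; simp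
          have h14 := Real.exp_pos (-(9 * ta * S))
          nlinarith
        have h12 : S * Real.exp (-(9 * ta * S)) ≤ 1 / (9 * ta) := by
          rw [le_div_iff₀ (by positivity)]
          linarith
        have h13 : (x : ℝ) * (2 * Real.exp (10000 * ta * ((x : ℝ) - 1 - ((0 : ℕ) : ℝ)) - kap * S))
            ≤ S * (2 * Real.exp (-(9 * ta * S))) := by
          apply mul_le_mul (by linarith) (by linarith) (by positivity) (by positivity)
        have h14 : 1 / (9 * ta) = 1 / 9 * (1 / ta) := by field_simp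
        have h15 : 0 < 1 / ta := by positivity
        rw [h14] at h12
        calc (x : ℝ) * (2 * Real.exp (10000 * ta * ((x : ℝ) - 1 - ((0 : ℕ) : ℝ)) - kap * S))
            ≤ S * (2 * Real.exp (-(9 * ta * S))) := h13
          _ = 2 * (S * Real.exp (-(9 * ta * S))) := by ring
          _ ≤ 2 * (1 / 9 * (1 / ta)) := by linarith
          _ ≤ 1 / ta := by linarith
      rw [mul_add] at h6
      linarith
    linarith
  obtain ⟨k, hk⟩ := exists_nat_gt ((2 + 1 / ta) / (3 / 16 * m - aa m))
  have hgap : 0 < 3 / 16 * (m : ℝ) - aa m := by linarith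
  rw [div_lt_iff₀ hgap] at hk
  have h1 := hsub k
  have h2 := hlow ((k + 1) * m) (by
    have : 1 ≤ (k + 1) * 1 := by omega
    exact le_trans this (Nat.mul_le_mul_left _ (by omega)))
  push_cast at h1 h2
  nlinarith

lemma vv_pos : 0 < vv := lt_of_lt_of_le (by norm_num) vv_ge

lemma vv_le_half : vv ≤ 1 / 2 := by
  have h := vv_le 1 le_rfl
  have h2 : aa ((1 : ℕ) : ℝ) ≤ 1 / 2 * ((1 : ℕ) : ℝ) := by
    apply ciSup_le
    intro N
    exact aN_le (N + 1) (by omega) (by positivity)
  push_cast at h h2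
  linarith

/-- in a bounded time the front leaves its initial position -/
lemma front_start (η : ℝ) (hη : 0 < η) : ∃ T' : ℕ, ∃ M₀ : ℕ, ∀ (N : ℕ) (y : Y N), y ≠ 0 →
    top y + M₀ ≤ N → heat (LL N) (T' : ℝ) (slow (top y + 1)) y ≤ η := by
  have hta := ta_pos
  have hkap := kap_pos
  have lim1 : Tendsto (fun n : ℕ => 2 * Real.exp (-(kap * (n : ℝ)))) atTop (𝓝 0) := by
    have h1 : Tendsto (fun n : ℕ => kap * (n : ℝ)) atTop atTop :=
      (tendsto_natCast_atTop_atTop).const_mul_atTop hkap
    have h2 := (Real.tendsto_exp_neg_atTop_nhds_zero.comp h1).const_mul 2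
    simpa using h2
  have lim2 : Tendsto (fun n : ℕ => 9 / kap * Real.exp (-(10000 * ta * ((n : ℝ) - 1)))) atTop (𝓝 0) := by
    have h1 : Tendsto (fun n : ℕ => 10000 * ta * ((n : ℝ) - 1)) atTop atTop := by
      apply Tendsto.const_mul_atTop (by linarith)
      exact tendsto_atTop_add_const_right _ _ tendsto_natCast_atTop_atTop
    have h2 := (Real.tendsto_exp_neg_atTop_nhds_zero.comp h1).const_mul (9 / kap)
    simpa using h2
  obtain ⟨T', hT'⟩ := (lim1.eventually (gt_mem_nhds (show (0 : ℝ) < η / 2 by linarith))).exists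
  obtain ⟨M₀, hM₀⟩ := (lim2.eventually (gt_mem_nhds (show (0 : ℝ) < η / 2 by linarith))).exists
  refine ⟨T', M₀, ?_⟩
  intro N y hy hN
  have h := slow_le (top y + 1) (show (0 : ℝ) ≤ T' by positivity) y hy
  have e1 : 10000 * ta * (((top y + 1 : ℕ) : ℝ) - 1 - top y) - kap * T' = -(kap * T') := by
    push_cast
    ring
  rw [e1] at h
  have h2 : 9 / kap * Real.exp (-(10000 * ta * ((N : ℝ) - ((top y + 1 : ℕ) : ℝ))))
      ≤ 9 / kap * Real.exp (-(10000 * ta * ((M₀ : ℝ) - 1))) := by
    apply mul_le_mul_of_nonneg_left _ (by positivity)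
    apply Real.exp_le_exp.mpr
    have h3 : (top y : ℝ) + M₀ ≤ N := by exact_mod_cast hN
    push_cast
    have h4 := mul_le_mul_of_nonneg_left h3 hta.le
    nlinarith
  linarith

/-- after a first site is occupied the rest is fast -/
lemma slow_of_nonzero {N f x : ℕ} {S : ℝ} (hS : 0 ≤ S) (η : ℝ) (hη : 0 ≤ η) (N₀ : ℕ)
    (hN : f + x + N₀ ≤ N)
    (hQ : ∀ M, N₀ ≤ M → ∀ x' : ℕ, x' ≤ x → heat (LL M) S (slow x') (un 0) ≤ η)
    (z : Y N) (hz : cut (f + 1) z ≠ 0) : heat (LL N) S (slow (f + x)) (cut (f + 1) z) ≤ η := by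
  classical
  set w := cut (f + 1) z with hw
  have hex : ∃ j, cf w j ≠ 0 := by
    by_contra hcon
    apply hz
    apply Y_ext
    intro k hk
    rw [cf_zero]
    by_contra h
    exact hcon ⟨k, h⟩
  set j := Nat.find hex with hj
  have hj1 : cf w j ≠ 0 := Nat.find_spec hex
  have hj2 : ∀ i, i < j → cf w i = 0 := by
    intro i hi
    have := Nat.find_min hex hi
    simpa using this
  have hjN : j < N := by
    by_contra h
    exact hj1 (cf_ge w (by omega))
  have hjf : f < j := by
    by_contra h
    apply hj1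
    rw [hw, cf_cut, if_pos (by omega)]
  -- shift
  set M := N - j with hM
  have hNM : N = M + j := by omega
  set w' : Y M := mk M fun i => cf w (i + j) with hw'
  have hemb : emb N j w' = w := by
    apply Y_ext
    intro i hi
    rw [cf_emb hNM]
    by_cases h : i < j
    · rw [if_pos h, hj2 i h]
    · rw [if_neg h, hw', cf_mk, if_pos (by omega), show i - j + j = i by omega]
  have hw'0 : w' ≠ 0 := by
    intro h
    rw [h, emb_zero hNM] at hemb
    exact hz hemb.symm
  have hcf0 : cf w' 0 = 1 := by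
    rw [hw', cf_mk, if_pos (by omega), zero_add]
    rcases z2_cases (cf w j) with h | h
    · exact absurd h hj1
    · exact h
  rw [← hemb, heat_emb' hNM]
  have h1 := heat_mono (LL_pos M) hS (f := fun z : Y M => slow (f + x) (emb N j z))
    (g := slow (f + x - j) + zz) (fun z => by
      rw [Pi.add_apply]
      by_cases hz0 : z = 0
      · have e : zz z = 1 := if_pos hz0
        rw [e]
        have h2 := slow_le_one (f + x) (emb N j z)
        have h3 := slow_nonneg (f + x - j) z
        linarith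
      · have e : zz z = 0 := if_neg hz0
        rw [e, add_zero]
        unfold slow
        rw [top_emb hNM z hz0]
        split_ifs <;> first | exact le_rfl | (exfalso; omega)) w'
  rw [map_add, Pi.add_apply, heat_zz 0 0 S w' hw'0, add_zero] at h1
  refine le_trans h1 ?_
  rcases Nat.eq_zero_or_pos (f + x - j) with h2 | h2
  · rw [h2]
    have e : (slow 0 : Y M → ℝ) = fun _ => 0 := by
      funext y
      unfold slow
      rw [if_neg (by omega)]
    rw [e, heat_const (Lk_one M 0)]
    exact hη
  · have h3 := D2' M 1 hS (slow (f + x - j)) (slow_mem' (by omega) (by omega)) w'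
    have h4 : comb 1 w' 0 = un 0 := by
      apply Y_ext
      intro i hi
      rw [cf_comb, cf_zero, cf_un]
      by_cases h : i = 0
      · subst h
        rw [if_pos (by omega), if_pos ⟨rfl, hi⟩, hcf0]
      · rw [if_neg (by omega), if_neg (by omega)]
    rw [h4] at h3
    exact le_trans h3 (hQ M (by omega) _ (by omega))

/-- (2') lower bound for the front, uniform in the environment -/
theorem unif (u : ℝ) (hu : u < vv) (η : ℝ) (hη : 0 < η) (Tmin : ℕ) :
    ∃ T : ℕ, Tmin ≤ T ∧ ∃ M₁ : ℕ, ∀ (N : ℕ) (y : Y N), y ≠ 0 → top y + M₁ ≤ N →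
      ∀ x : ℕ, 1 ≤ x → (x : ℝ) ≤ u * T → heat (LL N) (T : ℝ) (slow (top y + x)) y ≤ η := by
  obtain ⟨T', M₀, hstart⟩ := front_start (η / 2) (by linarith)
  set u' : ℝ := (u + vv) / 2 with hu'
  have hu'1 : u < u' := by rw [hu']; linarith
  have hu'2 : u' < vv := by rw [hu']; linarith
  obtain ⟨k, hk⟩ := exists_nat_ge (u * T' / (u' - u))
  obtain ⟨S, hSmin, N₀, hQ⟩ := lln_low u' hu'2 (η / 2) (by linarith) (max k Tmin)
  have hS1 : u * ((S : ℝ) + T') ≤ u' * S := by
    have h1 : (k : ℝ) ≤ S := by
      have : k ≤ S := le_trans (le_max_left _ _) hSmin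
      exact_mod_cast this
    have h2 : u * T' / (u' - u) ≤ S := le_trans hk h1
    rw [div_le_iff₀ (by linarith)] at h2
    linarith
  refine ⟨S + T', by omega, M₀ + N₀ + ⌈u * ((S : ℝ) + T')⌉₊ + 1, ?_⟩
  intro N y hy hN x hx1 hx
  set f := top y with hf
  have hxc : x ≤ ⌈u * ((S : ℝ) + T')⌉₊ := by
    have h1 : (x : ℝ) ≤ ⌈u * ((S : ℝ) + T')⌉₊ := by
      refine le_trans hx (le_trans (le_of_eq ?_) (Nat.le_ceil _))
      push_cast
      ring
    exact_mod_cast h1
  have hNp := N_pos_of_ne y hy
  have hfN := top_lt hNp y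
  have hS0 : (0 : ℝ) ≤ S := Nat.cast_nonneg _
  have hT0 : (0 : ℝ) ≤ T' := Nat.cast_nonneg _
  have e1 : ((S + T' : ℕ) : ℝ) = (T' : ℝ) + S := by push_cast; ring
  rw [e1]
  have h1 := D3' N f (by omega) hT0 hS0 (slow (f + x))
    (slow_mem' (by omega) (by omega)) (fun z => slow_cut (by omega) (by omega) z) y (comb_top y)
  refine le_trans h1 ?_
  have h2 := heat_mono (LL_pos N) hT0
    (f := fun z : Y N => heat (LL N) (S : ℝ) (slow (f + x)) (cut (f + 1) z))
    (g := slow (f + 1) + fun _ => η / 2) (fun z => by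
      rw [Pi.add_apply]
      by_cases hz : cut (f + 1) z = 0
      · rw [hz, heat_zero_cfg]
        have h3 : (slow (f + 1) z : ℝ) = 1 := by
          unfold slow
          rw [if_pos]
          rw [top_lt_iff _ (by omega)]
          intro k hk
          have h4 : cf (cut (f + 1) z) k = 0 := by rw [hz, cf_zero]
          rwa [cf_cut, if_neg (by omega)] at h4
        rw [h3]
        have := slow_le_one (f + x) (0 : Y N)
        linarith
      · have h4 := slow_of_nonzero (x := x) hS0 (η / 2) (by linarith) N₀ (by omega)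
          (fun M hM x' hx' => hQ M hM x' (by
            have h5 : (x' : ℝ) ≤ x := by exact_mod_cast hx'
            rw [e1] at hx
            linarith)) z hz
        have := slow_nonneg (f + 1) z
        linarith) y
  rw [map_add, Pi.add_apply, heat_const (Lk_one _ 0)] at h2
  have h3 := hstart N y hy (by omega)
  rw [← hf] at h3
  linarith

end Pool.Agent.UTM.Es
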