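import Mathlib
import Pool.Agent.UTM.EastUnif

/-!
The East process at density one half: exponential bounds for the front, persistence.
-/
set_option autoImplicit false
set_option linter.unusedSectionVars false

namespace Pool.Agent.UTM.Es

open Finset Filter Topology

lemma heat_exp_neg_top {N : ℕ} {θ : ℝ} (hθ : 0 ≤ θ) {t : ℝ} (ht : 0 ≤ t) (y : Y N) :
    heat (LL N) t (fun y => Real.exp (-(θ * top y))) y
      ≤ Real.exp (1 / 2 * (Real.exp θ - 1) * t) * Real.exp (-(θ * top y)) := by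
  apply heat_le_exp (LL_pos N) _ ht
  intro y
  have h := LL_top_ge (N := N) (fun x => Real.exp (-(θ * (x : ℝ)))) (fun a b h => by
    apply Real.exp_le_exp.mpr
    have : (a : ℝ) ≤ b := by exact_mod_cast h
    have := mul_le_mul_of_nonneg_left this hθ
    linarith) y
  refine le_trans h ?_
  rcases Nat.eq_zero_or_pos (top y) with h1 | h1
  · rw [h1]
    have h2 : 1 ≤ Real.exp θ := Real.one_le_exp hθ
    simp only [Nat.zero_sub, sub_self, mul_zero, Nat.cast_zero, neg_zero, Real.exp_zero, mul_one]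
    linarith
  · have e : ((top y - 1 : ℕ) : ℝ) = top y - 1 := by
      rw [Nat.cast_sub h1]; simp
    have e2 : Real.exp (-(θ * ((top y : ℝ) - 1))) = Real.exp θ * Real.exp (-(θ * top y)) := by
      rw [← Real.exp_add]; ring_nf
    simp only [e, e2]
    apply le_of_eq
    ring

lemma exp_one_half : 1 / 2 * (Real.exp 1 - 1) ≤ 1 := by
  have := Real.exp_one_lt_d9
  linarith

lemma exp_neg_sq {a : ℝ} (ha : 0 ≤ a) : Real.exp (-a) ≤ 1 - a + a ^ 2 := by
  have h1 := Real.add_one_le_exp a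
  have h2 : Real.exp (-a) * Real.exp a = 1 := by rw [← Real.exp_add]; simp
  have h3 := Real.exp_pos (-a)
  by_cases h : a ≤ 1
  · -- exp (-a) ≤ 1 / (1 + a)
    have h4 : Real.exp (-a) * (1 + a) ≤ 1 := by nlinarith
    have h5 : (1 - a + a ^ 2) * (1 + a) = 1 + a ^ 3 := by ring
    have h6 : 0 ≤ a ^ 3 := by positivity
    by_contra hc
    rw [not_le] at hc
    have := mul_lt_mul_of_pos_right hc (show 0 < 1 + a by linarith)
    linarith
  · have h4 : Real.exp (-a) ≤ 1 := by
      apply Real.exp_le_one_iff.mpr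
      linarith
    nlinarith

/-- one block -/
lemma block (u : ℝ) (hu : u < vv) : ∃ T : ℕ, 1 ≤ T ∧ ∃ θ : ℝ, 0 < θ ∧ θ ≤ 1 ∧ ∃ M₁ : ℕ,
    ∀ (N : ℕ) (y : Y N), y ≠ 0 → top y + M₁ ≤ N →
      heat (LL N) (T : ℝ) (fun z => Real.exp (-(θ * top z))) y
        ≤ Real.exp (-(θ * (u * T))) * Real.exp (-(θ * top y)) := by
  have hvp := vv_pos
  have hvh := vv_le_half
  -- we may assume `u` positive
  wlog hu0 : 0 < u with H
  · obtain ⟨T, hT, θ, hθ, hθ1, M₁, h⟩ := H (vv / 2) (by linarith) hvp hvh (by linarith)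
    refine ⟨T, hT, θ, hθ, hθ1, M₁, fun N y hy hN => le_trans (h N y hy hN) ?_⟩
    apply mul_le_mul_of_nonneg_right _ (Real.exp_pos _).le
    apply Real.exp_le_exp.mpr
    rw [not_lt] at hu0
    have h1 : u * T ≤ vv / 2 * T := by
      apply mul_le_mul_of_nonneg_right (by linarith) (Nat.cast_nonneg _)
    have h2 := mul_le_mul_of_nonneg_left h1 hθ.le
    linarith
  set u' : ℝ := (u + vv) / 2 with hu'
  have hu'1 : u < u' := by rw [hu']; linarith
  have hu'2 : u' < vv := by rw [hu']; linarith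
  set d : ℝ := u' - u with hd
  have hdpos : 0 < d := by rw [hd]; linarith
  obtain ⟨k, hk⟩ := exists_nat_ge (24 / d + 1 / u')
  have hu'0 : 0 < u' := by linarith
  obtain ⟨T, hTmin, M₁, hU⟩ := unif u' hu'2 (d / 8) (by linarith) (max k 1)
  have hTk : (k : ℝ) ≤ T := by
    have : k ≤ T := le_trans (le_max_left _ _) hTmin
    exact_mod_cast this
  have hT1 : 1 ≤ T := le_trans (le_max_right _ _) hTmin
  have hT1R : (1 : ℝ) ≤ T := by exact_mod_cast hT1
  have hT24 : 24 ≤ d * T := by
    have h1 : 24 / d ≤ T := by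
      have : 0 < 1 / u' := by positivity
      linarith
    rw [div_le_iff₀ hdpos] at h1
    linarith
  have hTu' : 1 ≤ u' * T := by
    have h1 : 1 / u' ≤ T := by
      have : 0 < 24 / d := by positivity
      linarith
    rw [div_le_iff₀ hu'0] at h1
    linarith
  set x : ℕ := ⌊u' * (T : ℝ)⌋₊ with hx
  have hx1 : (x : ℝ) ≤ u' * T := Nat.floor_le (by positivity)
  have hx2 : u' * (T : ℝ) < x + 1 := Nat.lt_floor_add_one _
  have hx3 : 1 ≤ x := by
    rw [hx]
    exact (Nat.one_le_floor_iff _).mpr hTu'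
  set B : ℝ := (x : ℝ) ^ 2 + 2 * Real.exp (1 / 2 * (Real.exp 2 - 1) * T) with hB
  have hBpos : 0 < B := by positivity
  set θ : ℝ := min 1 (d / 2 * T / B) with hθ
  have hθpos : 0 < θ := by
    rw [hθ]
    apply lt_min one_pos
    positivity
  have hθ1 : θ ≤ 1 := min_le_left _ _
  have hθB : θ * B ≤ d / 2 * T := by
    have : θ ≤ d / 2 * T / B := min_le_right _ _
    rwa [le_div_iff₀ hBpos] at this
  refine ⟨T, hT1, θ, hθpos, hθ1, M₁, ?_⟩
  intro N y hy hN
  set f := top y with hf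
  set P : ℝ := heat (LL N) (T : ℝ) (slow (f + x)) y with hP
  have hP1 : P ≤ d / 8 := hU N y hy hN x hx3 hx1
  have hP0 : 0 ≤ P := heat_nonneg (LL_pos N) (by linarith) (fun y => slow_nonneg _ y) _
  -- pointwise bound
  obtain ⟨G, hG⟩ : ∃ G : Y N → ℝ, G = (Real.exp (-(θ * f))) •
      (((fun _ => 1 - θ * x + θ ^ 2 * (x : ℝ) ^ 2) + (θ * x + θ * T) • (slow (f + x) : Y N → ℝ))
      + (θ * Real.exp ((f : ℝ) - T)) • (fun z : Y N => Real.exp (-(1 * top z)))
      + (2 * θ ^ 2 * Real.exp (2 * f)) • (fun z : Y N => Real.exp (-(2 * top z)))) := ⟨_, rfl⟩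
  have key : ∀ z : Y N, Real.exp (-(θ * top z)) ≤ G z := by
    intro z
    rw [hG, Pi.smul_apply, Pi.add_apply, Pi.add_apply, Pi.add_apply, Pi.smul_apply, Pi.smul_apply,
      Pi.smul_apply, smul_eq_mul, smul_eq_mul, smul_eq_mul, smul_eq_mul]
    have e1 : Real.exp (-(θ * top z)) = Real.exp (-(θ * f)) * Real.exp (θ * ((f : ℝ) - top z)) := by
      rw [← Real.exp_add]; ring_nf
    have e2 : θ * Real.exp ((f : ℝ) - T) * Real.exp (-(1 * top z))
        = θ * Real.exp (((f : ℝ) - top z) - T) := by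
      rw [mul_assoc, ← Real.exp_add]; ring_nf
    have e3 : 2 * θ ^ 2 * Real.exp (2 * f) * Real.exp (-(2 * top z))
        = 2 * θ ^ 2 * Real.exp (2 * ((f : ℝ) - top z)) := by
      rw [mul_assoc, ← Real.exp_add]; ring_nf
    rw [e1, e2, e3]
    apply mul_le_mul_of_nonneg_left _ (Real.exp_pos _).le
    set a : ℝ := (f : ℝ) - top z with ha
    have p1 : 0 < θ * Real.exp (a - T) := by positivity
    have p2 : 0 < 2 * θ ^ 2 * Real.exp (2 * a) := by positivity
    have p3 : 0 ≤ θ ^ 2 * (x : ℝ) ^ 2 := by positivity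
    unfold slow
    split_ifs with h
    · by_cases h0 : 0 ≤ a
      · have h1 := exp_sq hθpos.le hθ1 h0
        have h2 : a ≤ T + Real.exp (a - T) := by
          have := Real.add_one_le_exp (a - T)
          linarith
        have h3 := mul_le_mul_of_nonneg_left h2 hθpos.le
        linarith
      · have h1 : Real.exp (θ * a) ≤ 1 := by
          apply Real.exp_le_one_iff.mpr
          rw [not_le] at h0
          exact (mul_neg_of_pos_of_neg hθpos h0).le
        have h2 : 0 ≤ θ * T := by positivity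
        linarith
    · have h1 : a ≤ -x := by
        have : (f : ℝ) + x ≤ top z := by
          have : f + x ≤ top z := by omega
          exact_mod_cast this
        rw [ha]; linarith
      have h2 : Real.exp (θ * a) ≤ Real.exp (-(θ * x)) := by
        apply Real.exp_le_exp.mpr
        have := mul_le_mul_of_nonneg_left h1 hθpos.le
        linarith
      have h3 := exp_neg_sq (show 0 ≤ θ * (x : ℝ) by positivity)
      have h4 : (θ * (x : ℝ)) ^ 2 = θ ^ 2 * (x : ℝ) ^ 2 := by ring
      rw [h4] at h3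
      linarith
  have h1 := heat_mono (LL_pos N) (show (0 : ℝ) ≤ T by linarith) key y
  refine le_trans h1 ?_
  rw [hG, map_smul, map_add, map_add, map_add, map_smul, map_smul, map_smul, Pi.smul_apply,
    Pi.add_apply, Pi.add_apply, Pi.add_apply, Pi.smul_apply, Pi.smul_apply, Pi.smul_apply,
    heat_const (Lk_one _ 0), smul_eq_mul, smul_eq_mul, smul_eq_mul, smul_eq_mul, ← hP, mul_comm]
  apply mul_le_mul_of_nonneg_right _ (Real.exp_pos _).le
  have h2 : θ * Real.exp ((f : ℝ) - T) * heat (LL N) (T : ℝ) (fun z : Y N => Real.exp (-(1 * top z))) y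
      ≤ θ := by
    have h3 := heat_exp_neg_top (N := N) (θ := 1) (by norm_num) (show (0 : ℝ) ≤ T by linarith) y
    have h4 := mul_le_mul_of_nonneg_left h3 (show 0 ≤ θ * Real.exp ((f : ℝ) - T) by positivity)
    refine le_trans h4 ?_
    have e : θ * Real.exp ((f : ℝ) - T) * (Real.exp (1 / 2 * (Real.exp 1 - 1) * T)
        * Real.exp (-(1 * (top y : ℝ)))) = θ * Real.exp (1 / 2 * (Real.exp 1 - 1) * T - T) := by
      rw [← Real.exp_add, mul_assoc, ← Real.exp_add]
      congr 2
      rw [← hf]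
      ring
    rw [e]
    have h5 : Real.exp (1 / 2 * (Real.exp 1 - 1) * T - T) ≤ 1 := by
      apply Real.exp_le_one_iff.mpr
      have := mul_le_mul_of_nonneg_right exp_one_half (show (0 : ℝ) ≤ T by linarith)
      linarith
    nlinarith
  have h3 : 2 * θ ^ 2 * Real.exp (2 * f) * heat (LL N) (T : ℝ) (fun z : Y N => Real.exp (-(2 * top z))) y
      ≤ θ ^ 2 * (2 * Real.exp (1 / 2 * (Real.exp 2 - 1) * T)) := by
    have h3 := heat_exp_neg_top (N := N) (θ := 2) (by norm_num) (show (0 : ℝ) ≤ T by linarith) y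
    have h4 := mul_le_mul_of_nonneg_left h3 (show 0 ≤ 2 * θ ^ 2 * Real.exp (2 * f) by positivity)
    refine le_trans h4 (le_of_eq ?_)
    have e : Real.exp (2 * (f : ℝ)) * Real.exp (-(2 * (top y : ℝ))) = 1 := by
      rw [← Real.exp_add, ← hf]
      simp
    calc 2 * θ ^ 2 * Real.exp (2 * f) * (Real.exp (1 / 2 * (Real.exp 2 - 1) * T)
        * Real.exp (-(2 * (top y : ℝ))))
        = θ ^ 2 * (2 * Real.exp (1 / 2 * (Real.exp 2 - 1) * T))
          * (Real.exp (2 * (f : ℝ)) * Real.exp (-(2 * (top y : ℝ)))) := by ring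
      _ = _ := by rw [e, mul_one]
  have h4 : 1 - θ * x + θ ^ 2 * (x : ℝ) ^ 2 + (θ * x + θ * T) * P + θ
      + θ ^ 2 * (2 * Real.exp (1 / 2 * (Real.exp 2 - 1) * T)) ≤ 1 - θ * (u * T) := by
    have h5 : θ * (θ * B) ≤ θ * (d / 2 * T) := mul_le_mul_of_nonneg_left hθB hθpos.le
    have h6 : θ * (θ * B) = θ ^ 2 * (x : ℝ) ^ 2 + θ ^ 2 * (2 * Real.exp (1 / 2 * (Real.exp 2 - 1) * T)) := by
      rw [hB]; ring
    have h7 : (θ * x + θ * T) * P ≤ θ * (2 * T * (d / 8)) := by
      have h8 : (x : ℝ) ≤ T := by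
        have := mul_le_mul_of_nonneg_right (show u' ≤ 1 by linarith) (show (0 : ℝ) ≤ T by linarith)
        linarith
      have h9 : ((x : ℝ) + T) * P ≤ 2 * T * (d / 8) :=
        mul_le_mul (by linarith) hP1 hP0 (by linarith)
      have h10 := mul_le_mul_of_nonneg_left h9 hθpos.le
      linarith
    have h8 : -(x : ℝ) + 2 * T * (d / 8) + 1 + d / 2 * T ≤ -(u * T) := by
      have : u' * T = u * T + d * T := by rw [hd]; ring
      linarith
    have h9 := mul_le_mul_of_nonneg_left h8 hθpos.le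
    linarith
  have h5 := Real.add_one_le_exp (-(θ * (u * T)))
  linarith

end Pool.Agent.UTM.Es
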