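import Mathlib
import Pool.Agent.UTM.EastBlock

/-!
The East process at density one half: the probability that a site far away has never been seen
occupied.
-/
set_option autoImplicit false
set_option linter.unusedSectionVars false

namespace Pool.Agent.UTM.Es

open Finset Filter Topology

open Classical in
/-- exponential of the distance from the front to the top, zero at the zero configuration -/
noncomputable def gg {N : ℕ} (θ : ℝ) (y : Y N) : ℝ :=
  if y = 0 then 0 else Real.exp (θ * ((N : ℝ) - top y))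

lemma gg_nonneg {N : ℕ} (θ : ℝ) (y : Y N) : 0 ≤ gg θ y := by
  unfold gg
  split_ifs <;> positivity

lemma gg_ne {N : ℕ} (θ : ℝ) (y : Y N) (hy : y ≠ 0) : gg θ y = Real.exp (θ * ((N : ℝ) - top y)) :=
  if_neg hy

lemma gg_zero {N : ℕ} (θ : ℝ) : gg θ (0 : Y N) = 0 := if_pos rfl

lemma gg_le {N : ℕ} (θ : ℝ) (y : Y N) : gg θ y ≤ Real.exp (θ * N) * Real.exp (-(θ * top y)) := by
  by_cases hy : y = 0
  · subst hy
    rw [gg_zero]
    positivity
  · rw [gg_ne θ y hy, ← Real.exp_add]
    apply le_of_eq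
    ring_nf

/-- iterated blocks -/
lemma blocks (u : ℝ) (hu0 : 0 < u) (hu : u < vv) : ∃ T : ℕ, 1 ≤ T ∧ ∃ θ : ℝ, 0 < θ ∧ θ ≤ 1 ∧
    ∃ C : ℝ, 0 ≤ C ∧ ∀ (N k : ℕ) (y : Y N),
      heat (LL N) ((k * T : ℕ) : ℝ) (gg θ) y ≤ Real.exp (-(θ * (u * (k * T : ℕ)))) * gg θ y + C := by
  obtain ⟨T, hT, θ, hθ, hθ1, M₁, hb⟩ := block u hu
  have hTR : (1 : ℝ) ≤ T := by exact_mod_cast hT
  set lam : ℝ := Real.exp (-(θ * (u * T))) with hlam
  have hlam1 : lam < 1 := by
    rw [hlam]
    rw [Real.exp_lt_one_iff]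
    have : 0 < θ * (u * T) := by positivity
    linarith
  have hlam0 : 0 < lam := Real.exp_pos _
  set C₁ : ℝ := Real.exp (1 / 2 * (Real.exp θ - 1) * T) * Real.exp (θ * M₁) with hC₁
  have hC₁0 : 0 ≤ C₁ := by positivity
  have step : ∀ (N : ℕ) (y : Y N), heat (LL N) (T : ℝ) (gg θ) y ≤ lam * gg θ y + C₁ := by
    intro N y
    by_cases hy : y = 0
    · subst hy
      rw [heat_zero_cfg, gg_zero]
      linarith
    have h1 := heat_mono (LL_pos N) (show (0 : ℝ) ≤ T by linarith) (f := gg θ)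
      (g := Real.exp (θ * N) • fun y : Y N => Real.exp (-(θ * top y))) (fun z => gg_le θ z) y
    rw [map_smul, Pi.smul_apply, smul_eq_mul] at h1
    refine le_trans h1 ?_
    have e1 : Real.exp (θ * N) * Real.exp (-(θ * top y)) = gg θ y := by
      rw [gg_ne θ y hy, ← Real.exp_add]
      ring_nf
    by_cases hM : top y + M₁ ≤ N
    · have h2 := mul_le_mul_of_nonneg_left (hb N y hy hM) (Real.exp_pos (θ * N)).le
      refine le_trans h2 ?_
      have e2 : Real.exp (θ * N) * (Real.exp (-(θ * (u * T))) * Real.exp (-(θ * top y)))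
          = lam * gg θ y := by
        rw [← e1, hlam]
        ring
      rw [e2]
      linarith
    · have h2 := mul_le_mul_of_nonneg_left
        (heat_exp_neg_top (N := N) hθ.le (show (0 : ℝ) ≤ T by linarith) y) (Real.exp_pos (θ * N)).le
      refine le_trans h2 ?_
      have e2 : Real.exp (θ * N) * (Real.exp (1 / 2 * (Real.exp θ - 1) * T) * Real.exp (-(θ * top y)))
          = Real.exp (1 / 2 * (Real.exp θ - 1) * T) * gg θ y := by
        rw [← e1]
        ring
      rw [e2]
      have h3 : gg θ y ≤ Real.exp (θ * M₁) := by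
        rw [gg_ne θ y hy]
        apply Real.exp_le_exp.mpr
        have h4 : (N : ℝ) ≤ top y + M₁ := by
          have : N ≤ top y + M₁ := by omega
          exact_mod_cast this
        have := mul_le_mul_of_nonneg_left h4 hθ.le
        linarith
      have h4 := mul_le_mul_of_nonneg_left h3 (Real.exp_pos (1 / 2 * (Real.exp θ - 1) * T)).le
      have h5 := mul_nonneg hlam0.le (gg_nonneg θ y)
      rw [hC₁]
      linarith
  refine ⟨T, hT, θ, hθ, hθ1, C₁ / (1 - lam), by
    apply div_nonneg hC₁0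
    linarith, ?_⟩
  intro N k
  induction k with
  | zero =>
      intro y
      simp only [Nat.zero_mul, Nat.cast_zero, mul_zero, neg_zero, Real.exp_zero, one_mul, heat_zero]
      have : 0 ≤ C₁ / (1 - lam) := by
        apply div_nonneg hC₁0
        linarith
      linarith
  | succ k ih =>
      intro y
      have e1 : (((k + 1) * T : ℕ) : ℝ) = ((k * T : ℕ) : ℝ) + (T : ℝ) := by
        push_cast; ring
      rw [e1, heat_add]
      have h1 := heat_mono (LL_pos N) (show (0 : ℝ) ≤ ((k * T : ℕ) : ℝ) by positivity)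
        (f := heat (LL N) (T : ℝ) (gg θ)) (g := lam • gg θ + fun _ => C₁) (step N) y
      rw [map_add, map_smul, Pi.add_apply, Pi.smul_apply, smul_eq_mul, heat_const (Lk_one _ 0)] at h1
      refine le_trans h1 ?_
      have h2 := mul_le_mul_of_nonneg_left (ih y) hlam0.le
      have e2 : Real.exp (-(θ * (u * (((k * T : ℕ) : ℝ) + (T : ℝ)))))
          = lam * Real.exp (-(θ * (u * (k * T : ℕ)))) := by
        rw [hlam, ← Real.exp_add]
        congr 1
        ring
      rw [e2]
      have h3 : lam * (C₁ / (1 - lam)) + C₁ = C₁ / (1 - lam) := by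
        have : (1 : ℝ) - lam ≠ 0 := by linarith
        field_simp
        ring
      linarith

/-- persistence -/
lemma persist (θ : ℝ) (hθ : 0 < θ) : ∃ κ₁ : ℝ, 0 < κ₁ ∧ ∀ (N : ℕ) (s : ℝ), 0 ≤ s → ∀ y : Y N,
    y ≠ 0 → heat (Lk N 1 (N - 1)) s (fun _ => 1) y ≤ 2 * Real.exp (-(κ₁ * s)) * gg θ y := by
  have hta := ta_pos
  have hkap := kap_pos
  set r : ℝ := min 1 (θ / (10000 * ta)) with hr
  have hr0 : 0 < r := by
    rw [hr]
    apply lt_min one_pos
    positivity
  have hr1 : r ≤ 1 := min_le_left _ _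
  have hrθ : r * (10000 * ta) ≤ θ := by
    have : r ≤ θ / (10000 * ta) := min_le_right _ _
    rwa [le_div_iff₀ (by positivity)] at this
  refine ⟨kap * r, by positivity, ?_⟩
  intro N s hs y hy
  set P : ℝ := heat (Lk N 1 (N - 1)) s (fun _ => 1) y with hP
  have hpos := Lk_pos N (show (0 : ℝ) ≤ 1 by norm_num) (N - 1)
  have hP0 : 0 ≤ P := heat_nonneg hpos hs (fun _ => by norm_num) y
  have hP1 : P ≤ 1 := by
    have h1 := heat_le_exp hpos (g := fun _ : Y N => (1 : ℝ)) (a := 0) (fun z => by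
      rw [Lk_apply]
      simp only [sub_self, mul_zero, Finset.sum_const_zero, zero_sub, zero_mul, one_mul]
      split_ifs <;> norm_num) hs y
    simpa using h1
  have hN := N_pos_of_ne y hy
  have htop := top_lt hN y
  have hD : (0 : ℝ) ≤ (N : ℝ) - 1 - top y := by
    have : (top y : ℝ) + 1 ≤ N := by exact_mod_cast htop
    linarith
  have hP2 : P ≤ Real.exp (-kap * s) * (2 * Real.exp (10000 * ta * ((N : ℝ) - 1 - top y))) := by
    have h1 := heat_mono hpos hs (f := fun _ : Y N => (1 : ℝ)) (g := VV + zz) (fun z => by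
      rw [Pi.add_apply]
      by_cases hz : z = 0
      · have e : zz z = 1 := if_pos hz
        rw [e]
        linarith [VV_nonneg z]
      · have e : zz z = 0 := if_neg hz
        rw [e, add_zero]
        refine le_trans ?_ (VV_ge z hz)
        apply Real.one_le_exp
        have h2 := top_lt hN z
        have h3 : (top z : ℝ) + 1 ≤ N := by exact_mod_cast h2
        have h4 : 0 ≤ (N : ℝ) - 1 - top z := by linarith
        positivity) y
    rw [map_add, Pi.add_apply, heat_zz 1 (N - 1) s y hy, add_zero] at h1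
    have h2 := heat_le_exp hpos (g := VV) (a := -kap) (fun z => Lk_VV_le z) hs y
    have h3 := mul_le_mul_of_nonneg_left (VV_le y hy) (Real.exp_pos (-kap * s)).le
    linarith
  have hPr : P ≤ P ^ r := by
    rcases hP0.eq_or_lt with h | h
    · rw [← h, Real.zero_rpow hr0.ne']
    · calc P = P ^ (1 : ℝ) := (Real.rpow_one P).symm
        _ ≤ P ^ r := Real.rpow_le_rpow_of_exponent_ge h hP1 hr1
  refine le_trans hPr ?_
  have h1 := Real.rpow_le_rpow hP0 hP2 hr0.le
  refine le_trans h1 ?_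
  have e1 : Real.exp (-kap * s) * (2 * Real.exp (10000 * ta * ((N : ℝ) - 1 - top y)))
      = Real.exp (Real.log 2 + (-kap * s + 10000 * ta * ((N : ℝ) - 1 - top y))) := by
    rw [Real.exp_add, Real.exp_add, Real.exp_log (by norm_num)]
    ring
  rw [e1, ← Real.exp_mul, gg_ne θ y hy]
  have e2 : 2 * Real.exp (-(kap * r * s)) * Real.exp (θ * ((N : ℝ) - top y))
      = Real.exp (Real.log 2 + (-(kap * r * s) + θ * ((N : ℝ) - top y))) := by
    rw [Real.exp_add, Real.exp_add, Real.exp_log (by norm_num)]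
    ring
  rw [e2]
  apply Real.exp_le_exp.mpr
  have hl : 0 ≤ Real.log 2 := Real.log_nonneg (by norm_num)
  have h2 : Real.log 2 * r ≤ Real.log 2 := by nlinarith
  have h3 : r * (10000 * ta) * ((N : ℝ) - 1 - top y) ≤ θ * ((N : ℝ) - 1 - top y) :=
    mul_le_mul_of_nonneg_right hrθ hD
  nlinarith

/-- (5c) the probability that the top site has been zero at all its rings -/
theorem alpha_bound (δ : ℝ) (hδ : 0 < δ) : ∃ C c : ℝ, 0 < C ∧ 0 < c ∧ ∀ n N : ℕ, 1 ≤ N → N ≤ n →
    ∀ t : ℝ, (1 + δ) * n / vv ≤ t →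
      heat (Lk N 1 (N - 1)) t (fun _ => 1) (un 0) ≤ C * Real.exp (-(c * n)) := by
  have hv := vv_pos
  set u : ℝ := vv / (1 + δ / 2) with hu
  have hu0 : 0 < u := by rw [hu]; positivity
  have hu1 : u < vv := by
    rw [hu, div_lt_iff₀ (by positivity)]
    nlinarith
  obtain ⟨T, hT, θ, hθ, hθ1, C, hC, hb⟩ := blocks u hu0 hu1
  obtain ⟨κ₁, hκ₁, hp⟩ := persist θ hθ
  have hTR : (1 : ℝ) ≤ T := by exact_mod_cast hT
  refine ⟨2 * Real.exp (κ₁ * T) * (1 + C), κ₁ * (δ / 2 / vv), by positivity, by positivity, ?_⟩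
  intro n N hN hNn t ht
  have hNR : (N : ℝ) ≤ n := by exact_mod_cast hNn
  have hn0 : (0 : ℝ) ≤ n := Nat.cast_nonneg _
  set k : ℕ := ⌈(n : ℝ) / (u * T)⌉₊ with hk
  have hk1 : (n : ℝ) / (u * T) ≤ k := Nat.le_ceil _
  have hk2 : (k : ℝ) < (n : ℝ) / (u * T) + 1 := Nat.ceil_lt_add_one (by positivity)
  set t₁ : ℝ := ((k * T : ℕ) : ℝ) with ht₁
  have ht₁' : t₁ = k * T := by rw [ht₁]; push_cast; ring
  have ht1a : (n : ℝ) ≤ u * t₁ := by
    rw [div_le_iff₀ (by positivity)] at hk1
    rw [ht₁']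
    linarith
  have ht1b : t₁ ≤ n / u + T := by
    rw [ht₁']
    have h1 : (k : ℝ) * T ≤ ((n : ℝ) / (u * T) + 1) * T :=
      mul_le_mul_of_nonneg_right hk2.le (by linarith)
    have h2 : ((n : ℝ) / (u * T) + 1) * T = n / u + T := by
      field_simp
    linarith
  have hnu : (n : ℝ) / u = (1 + δ / 2) * n / vv := by
    rw [hu]
    field_simp
  have hs : δ / 2 / vv * n - T ≤ t - t₁ := by
    have h1 : (1 + δ) * n / vv - (1 + δ / 2) * n / vv = δ / 2 / vv * n := by
      field_simp
      ring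
    linarith
  have hun := un_ne (N := N) 0 (by omega)
  have hpos := Lk_pos N (show (0 : ℝ) ≤ 1 by norm_num) (N - 1)
  have ht₁0 : 0 ≤ t₁ := by rw [ht₁]; positivity
  have hle1 : ∀ (s : ℝ), 0 ≤ s → ∀ y : Y N, heat (Lk N 1 (N - 1)) s (fun _ => 1) y ≤ 1 := by
    intro s hs y
    have h1 := heat_le_exp hpos (g := fun _ : Y N => (1 : ℝ)) (a := 0) (fun z => by
      rw [Lk_apply]
      simp only [sub_self, mul_zero, Finset.sum_const_zero, zero_sub, zero_mul, one_mul]
      split_ifs <;> norm_num) hs y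
    simpa using h1
  have hcn : 0 ≤ 2 * Real.exp (κ₁ * T) * (1 + C) * Real.exp (-(κ₁ * (δ / 2 / vv) * n)) := by positivity
  have hexp : Real.exp (-(κ₁ * (δ / 2 / vv) * n)) * Real.exp (κ₁ * T)
      = Real.exp (-(κ₁ * (δ / 2 / vv * n - T))) := by
    rw [← Real.exp_add]
    congr 1
    ring
  by_cases hst : 0 ≤ t - t₁
  · have e1 : t = t₁ + (t - t₁) := by ring
    rw [e1, heat_add]
    set G : Y N → ℝ := heat (Lk N 1 (N - 1)) (t - t₁) (fun _ => 1) with hG
    have hG0 : ∀ y, 0 ≤ G y := fun y => heat_nonneg hpos hst (fun _ => by norm_num) y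
    have h1 : heat (Lk N 1 (N - 1)) t₁ G (un 0) ≤ heat (LL N) t₁ G (un 0) := by
      have h2 := heat_cmp isCone_pos (Lk N 1 (N - 1)) (LL N) ((N : ℝ) + 1)
        (fun x hx => hpos x hx) (fun x hx y => by
          have h3 := LL_pos N x hx y
          have h4 := hx y
          change 0 ≤ LL N x y + ((N : ℝ) + 1) * x y
          linarith) (fun x hx y => by
          change 0 ≤ LL N x y - Lk N 1 (N - 1) x y
          rw [LL_apply, Lk_apply]
          have h4 := hx y
          have h5 : 0 ≤ (1 : ℝ) * (if cf y (N - 1) = 0 then 0 else x y) := by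
            split_ifs <;> linarith
          linarith) ht₁0 G hG0 (un 0)
      rw [Pi.sub_apply] at h2
      linarith
    refine le_trans h1 ?_
    have h2 := heat_mono (LL_pos N) ht₁0 (f := G)
      (g := (2 * Real.exp (-(κ₁ * (t - t₁)))) • gg θ + zz) (fun z => by
        rw [Pi.add_apply, Pi.smul_apply, smul_eq_mul]
        by_cases hz : z = 0
        · have e : zz z = 1 := if_pos hz
          rw [e]
          have h3 := hle1 (t - t₁) hst z
          have h4 := gg_nonneg θ z
          have h5 : 0 ≤ 2 * Real.exp (-(κ₁ * (t - t₁))) * gg θ z := by positivity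
          linarith
        · have e : zz z = 0 := if_neg hz
          rw [e, add_zero]
          exact hp N (t - t₁) hst z hz) (un 0)
    rw [map_add, map_smul, Pi.add_apply, Pi.smul_apply, smul_eq_mul, heat_zz 0 0 t₁ _ hun,
      add_zero] at h2
    refine le_trans h2 ?_
    have h3 := hb N k (un 0)
    rw [← ht₁] at h3
    have h4 : Real.exp (-(θ * (u * t₁))) * gg θ (un 0 : Y N) ≤ 1 := by
      rw [gg_ne θ _ hun, top_un 0 (by omega), ← Real.exp_add]
      apply Real.exp_le_one_iff.mpr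
      have h5 : (N : ℝ) ≤ u * t₁ := by linarith
      have := mul_le_mul_of_nonneg_left h5 hθ.le
      push_cast
      linarith
    have h5 : 2 * Real.exp (-(κ₁ * (t - t₁))) * heat (LL N) t₁ (gg θ) (un 0)
        ≤ 2 * Real.exp (-(κ₁ * (t - t₁))) * (1 + C) :=
      mul_le_mul_of_nonneg_left (by linarith) (by positivity)
    refine le_trans h5 ?_
    have h6 : Real.exp (-(κ₁ * (t - t₁))) ≤ Real.exp (-(κ₁ * (δ / 2 / vv * n - T))) := by
      apply Real.exp_le_exp.mpr
      have := mul_le_mul_of_nonneg_left hs hκ₁.le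
      linarith
    have h7 : 2 * Real.exp (-(κ₁ * (t - t₁))) * (1 + C)
        ≤ 2 * Real.exp (-(κ₁ * (δ / 2 / vv * n - T))) * (1 + C) := by
      have : 0 ≤ 1 + C := by linarith
      gcongr
    refine le_trans h7 (le_of_eq ?_)
    rw [← hexp]
    ring
  · rw [not_le] at hst
    have ht0 : 0 ≤ t := le_trans (by positivity) ht
    refine le_trans (hle1 t ht0 (un 0)) ?_
    have h1 : 1 ≤ Real.exp (-(κ₁ * (δ / 2 / vv * n - T))) := by
      apply Real.one_le_exp
      have h2 : δ / 2 / vv * n - T ≤ 0 := by linarith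
      have := mul_nonneg hκ₁.le (show 0 ≤ -(δ / 2 / vv * n - T) by linarith)
      linarith
    have h2 : 2 * Real.exp (κ₁ * T) * (1 + C) * Real.exp (-(κ₁ * (δ / 2 / vv) * n))
        = 2 * (1 + C) * Real.exp (-(κ₁ * (δ / 2 / vv * n - T))) := by
      rw [← hexp]
      ring
    rw [h2]
    nlinarith

end Pool.Agent.UTM.Es
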