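import Mathlib
import Pool.Agent.UTM.EastAlpha
import Pool.Agent.UTM.Cont

/-!
The walk on matrices in continuous time as a heat semigroup; a row functional is an East process.
-/
set_option autoImplicit false
set_option linter.unusedSectionVars false

namespace Pool.Agent.UTM.Es

open Finset Filter Topology

/-- averaging over the coin of the row `l` -/
noncomputable def EM {n : ℕ} (l : ℕ) : Opr (Mat n) := (1 / 2 : ℝ) • (1 + pull (rop l))

lemma EM_apply {n : ℕ} (l : ℕ) (f : Mat n → ℝ) (B : Mat n) :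
    EM l f B = 1 / 2 * (f B + f (rop l B)) := rfl

/-- the generator of the walk -/
noncomputable def LM (n : ℕ) : Opr (Mat n) := ∑ l ∈ range (n - 1), (EM l - 1)

lemma LM_apply (n : ℕ) (f : Mat n → ℝ) (B : Mat n) :
    LM n f B = ∑ l ∈ range (n - 1), 1 / 2 * (f (rop l B) - f B) := by
  unfold LM
  rw [opr_sum_apply]
  apply Finset.sum_congr rfl
  intro l _
  change EM l f B - f B = _
  rw [EM_apply]
  ring

lemma LM_pos (n : ℕ) : PosGen (LM n) (n : ℝ) := by
  intro f hf B
  rw [LM_apply]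
  have h1 : ∑ l ∈ range (n - 1), 1 / 2 * (f (rop l B) - f B) + ((n - 1 : ℕ) : ℝ) * f B
      = ∑ l ∈ range (n - 1), 1 / 2 * (f (rop l B) + f B) := by
    have : ((n - 1 : ℕ) : ℝ) * f B = ∑ l ∈ range (n - 1), f B := by
      rw [Finset.sum_const, card_range, nsmul_eq_mul]
    rw [this, ← Finset.sum_add_distrib]
    apply Finset.sum_congr rfl
    intro k _
    ring
  have h2 : 0 ≤ ∑ l ∈ range (n - 1), 1 / 2 * (f (rop l B) + f B) := by
    apply Finset.sum_nonneg
    intro k _
    have a := hf (rop k B)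
    have b := hf B
    linarith
  have h3 : ((n - 1 : ℕ) : ℝ) ≤ n := by
    have : n - 1 ≤ n := by omega
    exact_mod_cast this
  have h4 := mul_le_mul_of_nonneg_right h3 (hf B)
  linarith

lemma LM_one (n : ℕ) : LM n (fun _ => 1) = 0 := by
  funext B
  rw [LM_apply]
  simp

variable {K : (n : ℕ) → Matrix (Mat n) (Mat n) ℝ}

lemma LM_shift (hK : IsKernel K) (n : ℕ) (hn : 2 ≤ n) (f : Mat n → ℝ) :
    (LM n + ((n : ℝ) - 1) • (1 : Opr (Mat n))) f = ((n : ℝ) - 1) • Matrix.mulVec (K n) f := by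
  funext B
  change LM n f B + ((n : ℝ) - 1) * f B = ((n : ℝ) - 1) * Matrix.mulVec (K n) f B
  rw [LM_apply, kernel_mulVec hK]
  have hn1 : (0 : ℝ) < (n : ℝ) - 1 := by
    have h2 : (2 : ℝ) ≤ n := by exact_mod_cast hn
    linarith
  have h1 : ∑ l ∈ range (n - 1), 1 / 2 * (f (rop l B) - f B)
      = 1 / 2 * ∑ l ∈ range (n - 1), f (rop l B) - 1 / 2 * (((n : ℝ) - 1) * f B) := by
    have : ((n : ℝ) - 1) * f B = ∑ l ∈ range (n - 1), f B := by
      rw [Finset.sum_const, card_range, nsmul_eq_mul, Nat.cast_sub (by omega)]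
      simp
    rw [this, ← mul_sub, ← Finset.sum_sub_distrib, Finset.mul_sum]
  rw [h1]
  field_simp
  ring

lemma LM_shift_pow (hK : IsKernel K) (n : ℕ) (hn : 2 ≤ n) (k : ℕ) : ∀ f : Mat n → ℝ,
    ((LM n + ((n : ℝ) - 1) • (1 : Opr (Mat n))) ^ k) f
      = ((n : ℝ) - 1) ^ k • Matrix.mulVec ((K n) ^ k) f := by
  induction k with
  | zero =>
      intro f
      rw [pow_zero, pow_zero, pow_zero, Matrix.one_mulVec, one_smul]
      rfl
  | succ k ih =>
      intro f
      rw [pow_succ, pow_succ, pow_succ]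
      change ((LM n + ((n : ℝ) - 1) • (1 : Opr (Mat n))) ^ k)
        ((LM n + ((n : ℝ) - 1) • (1 : Opr (Mat n))) f) = _
      rw [LM_shift hK n hn, map_smul, ih, Matrix.mulVec_mulVec, smul_smul, mul_comm]

/-- law at time `t` started at `A` -/
noncomputable def law (K : (n : ℕ) → Matrix (Mat n) (Mat n) ℝ) (n : ℕ) (t : ℝ) (A B : Mat n) : ℝ :=
  ∑' k : ℕ, pw (((n : ℝ) - 1) * t) k * ((K n) ^ k) A B

lemma law_eq (hK : IsKernel K) (n : ℕ) (hn : 2 ≤ n) (t : ℝ) (A B : Mat n) :
    law K n t A B = heat (LM n) t (fun C => if C = B then 1 else 0) A := by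
  unfold law
  apply HasSum.tsum_eq
  have h := hasSum_heat_shift (LM n) _ ((n : ℝ) - 1) rfl t (fun C => if C = B then (1 : ℝ) else 0)
  have h2 := (ContinuousLinearMap.proj (R := ℝ) (φ := fun _ : Mat n => ℝ) A).hasSum h
  refine h2.congr_fun ?_ |> fun h' => h'
  intro k
  change pw (((n : ℝ) - 1) * t) k * ((K n) ^ k) A B
    = ((Real.exp (-(((n : ℝ) - 1) * t)) * t ^ k / (k.factorial : ℝ)) •
      ((LM n + ((n : ℝ) - 1) • (1 : Opr (Mat n))) ^ k) (fun C => if C = B then (1 : ℝ) else 0)) A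
  rw [LM_shift_pow hK n hn, smul_smul, Pi.smul_apply, smul_eq_mul]
  have h3 : Matrix.mulVec ((K n) ^ k) (fun C => if C = B then (1 : ℝ) else 0) A = ((K n) ^ k) A B := by
    unfold Matrix.mulVec dotProduct
    simp
  rw [h3]
  congr 1
  unfold pw
  rw [mul_pow]
  ring

lemma sum_law (hK : IsKernel K) (n : ℕ) (hn : 2 ≤ n) (t : ℝ) (A : Mat n) (f : Mat n → ℝ) :
    ∑ B, law K n t A B * f B = heat (LM n) t f A := by
  have h1 : f = ∑ B, f B • (fun C => if C = B then (1 : ℝ) else 0) := by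
    funext C
    rw [Finset.sum_apply]
    simp
  conv_rhs => rw [h1]
  rw [map_sum, Finset.sum_apply]
  apply Finset.sum_congr rfl
  intro B _
  rw [law_eq hK n hn, map_smul, Pi.smul_apply, smul_eq_mul, mul_comm]

/-- comparison on an invariant set -/
lemma heat_mono_on {Ω : Type} [Fintype Ω] {L : Opr Ω} {c : ℝ} (S : Ω → Prop)
    (hL : ∀ f : Ω → ℝ, (∀ y, S y → 0 ≤ f y) → ∀ y, S y → 0 ≤ L f y + c * f y) {t : ℝ} (ht : 0 ≤ t)
    {f g : Ω → ℝ} (hfg : ∀ y, S y → f y ≤ g y) (y : Ω) (hy : S y) :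
    heat L t f y ≤ heat L t g y := by
  have hC : IsCone {f : Ω → ℝ | ∀ y, S y → 0 ≤ f y} := {
    zero := fun _ _ => le_refl _
    add := fun x hx y hy z hz => add_nonneg (hx z hz) (hy z hz)
    smul := fun r hr x hx z hz => mul_nonneg hr (hx z hz)
    closed := by
      have : {f : Ω → ℝ | ∀ y, S y → 0 ≤ f y} = ⋂ y, ⋂ (_ : S y), {f : Ω → ℝ | 0 ≤ f y} := by
        ext f; simp
      rw [this]
      exact isClosed_iInter fun y => isClosed_iInter fun _ =>
        isClosed_le continuous_const (continuous_apply y) }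
  have h := heat_mem hC L c (fun x hx y hy => hL x hx y hy) ht (g - f) (fun y hy => by
    change 0 ≤ g y - f y
    linarith [hfg y hy]) y hy
  rw [map_sub, Pi.sub_apply] at h
  linarith

lemma IsUni_rop {n : ℕ} (l : ℕ) (B : Mat n) (hB : IsUni B) : IsUni (rop l B) := by
  unfold rop
  split_ifs with h
  · constructor
    · intro a
      by_cases ha : a = ⟨l, by omega⟩
      · subst ha
        rw [Matrix.updateRow_self, Pi.add_apply, hB.1, hB.2 ⟨l + 1, h⟩ ⟨l, by omega⟩ (by
          rw [Fin.lt_def]; simp), add_zero]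
      · rw [Matrix.updateRow_ne ha]
        exact hB.1 a
    · intro a b hab
      by_cases ha : a = ⟨l, by omega⟩
      · rw [ha] at hab ⊢
        rw [Matrix.updateRow_self, Pi.add_apply, hB.2 _ _ hab, hB.2 ⟨l + 1, h⟩ b (by
          rw [Fin.lt_def] at hab ⊢; simp at hab ⊢; omega), add_zero]
      · rw [Matrix.updateRow_ne ha]
        exact hB.2 a b hab
  · exact hB

lemma LM_pos_on (n : ℕ) (f : Mat n → ℝ) (hf : ∀ B, IsUni B → 0 ≤ f B) (B : Mat n) (hB : IsUni B) :
    0 ≤ LM n f B + (n : ℝ) * f B := by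
  rw [LM_apply]
  have h1 : ∑ l ∈ range (n - 1), 1 / 2 * (f (rop l B) - f B) + ((n - 1 : ℕ) : ℝ) * f B
      = ∑ l ∈ range (n - 1), 1 / 2 * (f (rop l B) + f B) := by
    have : ((n - 1 : ℕ) : ℝ) * f B = ∑ l ∈ range (n - 1), f B := by
      rw [Finset.sum_const, card_range, nsmul_eq_mul]
    rw [this, ← Finset.sum_add_distrib]
    apply Finset.sum_congr rfl
    intro k _
    ring
  have h2 : 0 ≤ ∑ l ∈ range (n - 1), 1 / 2 * (f (rop l B) + f B) := by
    apply Finset.sum_nonneg
    intro k _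
    have a := hf (rop k B) (IsUni_rop k B hB)
    have b := hf B hB
    linarith
  have h3 : ((n - 1 : ℕ) : ℝ) ≤ n := by
    have : n - 1 ≤ n := by omega
    exact_mod_cast this
  have h4 := mul_le_mul_of_nonneg_right h3 (hf B hB)
  linarith

lemma heatM_mono_on (n : ℕ) {t : ℝ} (ht : 0 ≤ t) {f g : Mat n → ℝ}
    (hfg : ∀ B, IsUni B → f B ≤ g B) (A : Mat n) (hA : IsUni A) :
    heat (LM n) t f A ≤ heat (LM n) t g A :=
  heat_mono_on (c := (n : ℝ)) IsUni (fun f hf B hB => LM_pos_on n f hf B hB) ht hfg A hA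

/-! ### row functionals -/

/-- the functional `φ` of the row `a` -/
def rd {n : ℕ} (φ : Fin n → ZMod 2) (B : Mat n) (a : ℕ) : ZMod 2 :=
  if h : a < n then ∑ j, φ j * B ⟨a, h⟩ j else 0

lemma rd_rop {n : ℕ} (φ : Fin n → ZMod 2) (B : Mat n) (l a : ℕ) (hl : l + 1 < n) :
    rd φ (rop l B) a = rd φ B a + if a = l then rd φ B (l + 1) else 0 := by
  by_cases ha : a = l
  · subst ha
    rw [if_pos rfl]
    unfold rd rop
    simp only [dif_pos hl, dif_pos (show a < n by omega)]
    rw [← Finset.sum_add_distrib]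
    apply Finset.sum_congr rfl
    intro j _
    rw [Matrix.updateRow_self, Pi.add_apply]
    ring
  · rw [if_neg ha, add_zero]
    unfold rd rop
    rw [dif_pos hl]
    split_ifs with h
    · apply Finset.sum_congr rfl
      intro j _
      rw [Matrix.updateRow_ne]
      intro h2
      apply ha
      have := congrArg Fin.val h2
      simpa using this
    · rfl

/-- the rows below `i` -/
def low {n : ℕ} (i : ℕ) (B : Mat n) : Mat n := fun a b => if a.val ≤ i then 0 else B a b

lemma rd_low {n : ℕ} (φ : Fin n → ZMod 2) (B : Mat n) (i a : ℕ) (ha : i < a) :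
    rd φ (low i B) a = rd φ B a := by
  unfold rd
  split_ifs with h
  · apply Finset.sum_congr rfl
    intro j _
    unfold low
    rw [if_neg (by simp; omega)]
  · rfl

lemma low_rop_le {n : ℕ} (i l : ℕ) (hl : l ≤ i) (B : Mat n) : low i (rop l B) = low i B := by
  funext a b
  unfold low
  split_ifs with h
  · rfl
  · unfold rop
    split_ifs
    · rw [Matrix.updateRow_ne]
      intro h2
      apply h
      rw [h2]
      exact hl
    · rfl

lemma low_rop_gt {n : ℕ} (i l : ℕ) (hl : i < l) (B : Mat n) : rop l (low i B) = low i (rop l B) := by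
  funext a b
  unfold rop
  by_cases h : l + 1 < n
  · rw [dif_pos h, dif_pos h]
    by_cases ha : a = ⟨l, by omega⟩
    · subst ha
      rw [Matrix.updateRow_self]
      unfold low
      rw [if_neg (by simp; omega), Matrix.updateRow_self]
      rw [Pi.add_apply, Pi.add_apply]
      rw [if_neg (by simp; omega), if_neg (by simp; omega)]
    · rw [Matrix.updateRow_ne ha]
      unfold low
      split_ifs with h2
      · rfl
      · rw [Matrix.updateRow_ne ha]
  · rw [dif_neg h, dif_neg h]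

/-- the twist: the character of the row `i` times a function of the rows below -/
noncomputable def tw {n : ℕ} (i : ℕ) (φ : Fin n → ZMod 2) : Opr (Mat n) :=
  ContinuousLinearMap.pi fun B => sg (rd φ B i) • ContinuousLinearMap.proj (low i B)

lemma tw_apply {n : ℕ} (i : ℕ) (φ : Fin n → ZMod 2) (g : Mat n → ℝ) (B : Mat n) :
    tw i φ g B = sg (rd φ B i) * g (low i B) := rfl

/-- killed generator for the rows below `i` -/
noncomputable def LQ (n i : ℕ) (φ : Fin n → ZMod 2) : Opr (Mat n) :=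
  ∑ l ∈ Ico (i + 1) (n - 1), (EM l - 1) + (mulOp (fun B => if rd φ B (i + 1) = 0 then 1 else 0) - 1)

lemma LQ_apply (n i : ℕ) (φ : Fin n → ZMod 2) (f : Mat n → ℝ) (B : Mat n) :
    LQ n i φ f B = ∑ l ∈ Ico (i + 1) (n - 1), 1 / 2 * (f (rop l B) - f B)
      - (if rd φ B (i + 1) = 0 then 0 else f B) := by
  unfold LQ
  change (∑ l ∈ Ico (i + 1) (n - 1), (EM l - 1)) f B
    + ((if rd φ B (i + 1) = 0 then (1 : ℝ) else 0) * f B - f B) = _
  rw [opr_sum_apply]
  have h1 : ∀ l ∈ Ico (i + 1) (n - 1), (EM l - 1 : Opr (Mat n)) f B = 1 / 2 * (f (rop l B) - f B) := by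
    intro l _
    change EM l f B - f B = _
    rw [EM_apply]
    ring
  rw [Finset.sum_congr rfl h1]
  split_ifs <;> ring

lemma LQ_pos (n i : ℕ) (φ : Fin n → ZMod 2) : PosGen (LQ n i φ) ((n : ℝ) + 1) := by
  intro f hf B
  rw [LQ_apply]
  have h1 : ∑ l ∈ Ico (i + 1) (n - 1), 1 / 2 * (f (rop l B) - f B)
      + ((n - 1 - (i + 1) : ℕ) : ℝ) * f B
      = ∑ l ∈ Ico (i + 1) (n - 1), 1 / 2 * (f (rop l B) + f B) := by
    have : ((n - 1 - (i + 1) : ℕ) : ℝ) * f B = ∑ l ∈ Ico (i + 1) (n - 1), f B := by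
      rw [Finset.sum_const, Nat.card_Ico, nsmul_eq_mul]
    rw [this, ← Finset.sum_add_distrib]
    apply Finset.sum_congr rfl
    intro k _
    ring
  have h2 : 0 ≤ ∑ l ∈ Ico (i + 1) (n - 1), 1 / 2 * (f (rop l B) + f B) := by
    apply Finset.sum_nonneg
    intro k _
    have a := hf (rop k B)
    have b := hf B
    linarith
  have h3 : ((n - 1 - (i + 1) : ℕ) : ℝ) ≤ n := by
    have : n - 1 - (i + 1) ≤ n := by omega
    exact_mod_cast this
  have h4 := mul_le_mul_of_nonneg_right h3 (hf B)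
  have h5 : 0 ≤ f B - (if rd φ B (i + 1) = 0 then 0 else f B) := by
    split_ifs
    · linarith [hf B]
    · linarith
  nlinarith

lemma tw_intertwine (n i : ℕ) (hi : i + 1 < n) (φ : Fin n → ZMod 2) (g : Mat n → ℝ) :
    LM n (tw i φ g) = tw i φ (LQ n i φ g) := by
  funext B
  rw [LM_apply, tw_apply, tw_apply, LQ_apply, rd_low φ B i (i + 1) (by omega)]
  have h1 : ∑ l ∈ range (n - 1), 1 / 2 * (tw i φ g (rop l B) - sg (rd φ B i) * g (low i B))
      = ∑ l ∈ range i, 1 / 2 * (tw i φ g (rop l B) - sg (rd φ B i) * g (low i B))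
        + 1 / 2 * (tw i φ g (rop i B) - sg (rd φ B i) * g (low i B))
        + ∑ l ∈ Ico (i + 1) (n - 1), 1 / 2 * (tw i φ g (rop l B) - sg (rd φ B i) * g (low i B)) := by
    rw [← Finset.sum_range_succ, Finset.range_eq_Ico, Finset.range_eq_Ico,
      Finset.sum_Ico_consecutive _ (by omega) (by omega)]
  rw [h1]
  have h2 : ∑ l ∈ range i, 1 / 2 * (tw i φ g (rop l B) - sg (rd φ B i) * g (low i B)) = 0 := by
    apply Finset.sum_eq_zero
    intro l hl
    rw [mem_range] at hl
    rw [tw_apply, low_rop_le i l (by omega), rd_rop φ B l i (by omega), if_neg (by omega), add_zero]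
    ring
  have h3 : 1 / 2 * (tw i φ g (rop i B) - sg (rd φ B i) * g (low i B))
      = - (sg (rd φ B i) * (if rd φ B (i + 1) = 0 then 0 else g (low i B))) := by
    rw [tw_apply, low_rop_le i i le_rfl, rd_rop φ B i i hi, if_pos rfl, sg_add]
    rcases z2_cases (rd φ B (i + 1)) with h | h
    · rw [h, sg_zero, if_pos rfl]
      ring
    · rw [h, sg_one, if_neg (by decide)]
      ring
  have h4 : ∑ l ∈ Ico (i + 1) (n - 1), 1 / 2 * (tw i φ g (rop l B) - sg (rd φ B i) * g (low i B))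
      = sg (rd φ B i) * ∑ l ∈ Ico (i + 1) (n - 1), 1 / 2 * (g (rop l (low i B)) - g (low i B)) := by
    rw [Finset.mul_sum]
    apply Finset.sum_congr rfl
    intro l hl
    rw [mem_Ico] at hl
    rw [tw_apply, rd_rop φ B l i (by omega), if_neg (by omega), add_zero,
      low_rop_gt i l (by omega)]
    ring
  rw [h2, h3, h4]
  ring

/-- the functional of the rows below `i`, read from the bottom -/
def yy {n : ℕ} (i : ℕ) (φ : Fin n → ZMod 2) (B : Mat n) : Y (n - 1 - i) :=
  mk (n - 1 - i) fun s => rd φ B (n - 1 - s)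

lemma yy_rop {n : ℕ} (i : ℕ) (φ : Fin n → ZMod 2) (B : Mat n) (l : ℕ) (hl1 : i < l) (hl2 : l + 1 < n) :
    yy i φ (rop l B) = op (n - 2 - l) (yy i φ B) := by
  have hc : ∀ (C : Mat n) (s : ℕ), s < n - 1 - i → cf (yy i φ C) s = rd φ C (n - 1 - s) := by
    intro C s hs
    unfold yy
    rw [cf_mk, if_pos hs]
  apply Y_ext
  intro s hs
  rw [cf_op, hc _ s hs, hc _ s hs, hc _ (n - 2 - l) (by omega), rd_rop φ B l _ hl2]
  congr 1
  by_cases h : n - 1 - s = l
  · rw [if_pos h, if_pos (show s = n - 2 - l + 1 ∧ s < n - 1 - i by omega),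
      show n - 1 - (n - 2 - l) = l + 1 by omega]
  · rw [if_neg h, if_neg (by omega)]

lemma yy_intertwine (n i : ℕ) (hi : i + 1 < n) (φ : Fin n → ZMod 2) (G : Y (n - 1 - i) → ℝ) :
    LQ n i φ (pull (yy i φ) G) = pull (yy i φ) (Lk (n - 1 - i) 1 (n - 1 - i - 1) G) := by
  funext B
  rw [LQ_apply, pull_apply, pull_apply, Lk_apply, one_mul]
  have h1 : cf (yy i φ B) (n - 1 - i - 1) = rd φ B (i + 1) := by
    unfold yy
    rw [cf_mk, if_pos (by omega), show n - 1 - (n - 1 - i - 1) = i + 1 by omega]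
  rw [h1]
  congr 1
  have h2 : ∑ k ∈ range (n - 1 - i), 1 / 2 * (G (op k (yy i φ B)) - G (yy i φ B))
      = ∑ k ∈ range (n - 1 - i - 1), 1 / 2 * (G (op k (yy i φ B)) - G (yy i φ B)) := by
    rw [show range (n - 1 - i) = range ((n - 1 - i - 1) + 1) by congr 1; omega,
      Finset.sum_range_succ, op_ge (n - 1 - i - 1) _ (by omega), sub_self, mul_zero, add_zero]
  rw [h2, Finset.sum_Ico_eq_sum_range, show n - 1 - (i + 1) = n - 1 - i - 1 by omega,
    ← Finset.sum_range_reflect]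
  apply Finset.sum_congr rfl
  intro k hk
  rw [mem_range] at hk
  rw [pull_apply, yy_rop i φ B _ (by omega) (by omega)]
  congr 4
  omega

lemma yy_low {n : ℕ} (i : ℕ) (φ : Fin n → ZMod 2) (B : Mat n) : yy i φ (low i B) = yy i φ B := by
  apply Y_ext
  intro s hs
  unfold yy
  rw [cf_mk, cf_mk, if_pos hs, if_pos hs, rd_low φ B i _ (by omega)]

/-- the key bound -/
lemma tw_bound (n i : ℕ) (hi : i + 1 < n) (φ : Fin n → ZMod 2) (g : Mat n → ℝ)
    (hg : ∀ B, |g B| ≤ 1) {t : ℝ} (ht : 0 ≤ t) (A : Mat n) :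
    |heat (LM n) t (tw i φ g) A|
      ≤ heat (Lk (n - 1 - i) 1 (n - 1 - i - 1)) t (fun _ => 1) (yy i φ A) := by
  have h1 := heat_intertwine (LQ n i φ) (LM n) (tw i φ) (fun f => tw_intertwine n i hi φ f) t g
  rw [h1, tw_apply, abs_mul]
  have h2 : |sg (rd φ A i)| = 1 := by
    unfold sg
    split_ifs <;> simp
  rw [h2, one_mul]
  have h3 : heat (LQ n i φ) t (fun _ => 1) (low i A)
      = heat (Lk (n - 1 - i) 1 (n - 1 - i - 1)) t (fun _ => 1) (yy i φ A) := by
    have h4 := heat_intertwine (Lk (n - 1 - i) 1 (n - 1 - i - 1)) (LQ n i φ) (pull (yy i φ))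
      (fun f => yy_intertwine n i hi φ f) t (fun _ => 1)
    have h5 : pull (yy i φ) (fun _ : Y (n - 1 - i) => (1 : ℝ)) = fun _ : Mat n => (1 : ℝ) := rfl
    rw [h5] at h4
    rw [h4, pull_apply, yy_low]
  rw [← h3, abs_le]
  constructor
  · have h4 := heat_mono (LQ_pos n i φ) ht (f := (-1 : ℝ) • fun _ : Mat n => (1 : ℝ)) (g := g) (fun B => by
      have := (abs_le.mp (hg B)).1
      rw [Pi.smul_apply, smul_eq_mul]
      linarith) (low i A)
    rw [map_smul, Pi.smul_apply, smul_eq_mul] at h4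
    linarith
  · exact heat_mono (LQ_pos n i φ) ht (fun B => (abs_le.mp (hg B)).2) (low i A)

end Pool.Agent.UTM.Es
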