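import Mathlib
import Pool.Agent.UTM.MatHeat

/-!
Mixing of the last columns.
-/
set_option autoImplicit false
set_option linter.unusedSectionVars false

namespace Pool.Agent.UTM.Es

open Finset Filter Topology

/-- a nonzero functional of the row `i` is killed with high probability -/
lemma yy_alpha (n i : ℕ) (hi : i + 1 < n) (φ : Fin n → ZMod 2) (hφ : ∀ j : Fin n, j.val ≤ i → φ j = 0)
    (hφ0 : φ ≠ 0) (A : Mat n) (hA : IsUni A) {t : ℝ} (ht : 0 ≤ t) (b : ℝ)
    (hb : ∀ N : ℕ, 1 ≤ N → N ≤ n → heat (Lk N 1 (N - 1)) t (fun _ => 1) (un 0) ≤ b) :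
    heat (Lk (n - 1 - i) 1 (n - 1 - i - 1)) t (fun _ => 1) (yy i φ A) ≤ b := by
  classical
  -- the last column in the support
  have hne : (univ.filter fun j : Fin n => φ j ≠ 0).Nonempty := by
    by_contra h
    rw [Finset.not_nonempty_iff_eq_empty] at h
    apply hφ0
    funext j
    by_contra h1
    have : j ∈ (univ.filter fun j : Fin n => φ j ≠ 0) := by
      rw [mem_filter]
      exact ⟨mem_univ _, h1⟩
    rw [h] at this
    exact absurd this (Finset.notMem_empty _)
  set j₀ := (univ.filter fun j : Fin n => φ j ≠ 0).max' hne with hj₀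
  have hj1 : φ j₀ ≠ 0 := (mem_filter.mp (Finset.max'_mem _ hne)).2
  have hj2 : ∀ j, j₀ < j → φ j = 0 := by
    intro j hj
    by_contra h
    have hmem : j ∈ (univ.filter fun j : Fin n => φ j ≠ 0) := mem_filter.mpr ⟨mem_univ _, h⟩
    have := Finset.le_max' _ j hmem
    exact absurd this (not_le.mpr hj)
  have hji : i < j₀.val := by
    by_contra h
    exact hj1 (hφ j₀ (by omega))
  have hjn := j₀.isLt
  set N' := n - 1 - i with hN'
  set s₀ := n - 1 - j₀.val with hs₀
  have hs : s₀ < N' := by omega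
  have hc : ∀ s : ℕ, s < N' → cf (yy i φ A) s = rd φ A (n - 1 - s) := by
    intro s hs
    unfold yy
    rw [cf_mk, if_pos hs]
  have h1 : cf (yy i φ A) s₀ = 1 := by
    rw [hc s₀ hs, show n - 1 - s₀ = j₀.val by omega]
    unfold rd
    rw [dif_pos hjn, Finset.sum_eq_single j₀]
    · rw [Fin.eta, hA.1, mul_one]
      rcases z2_cases (φ j₀) with h | h
      · exact absurd h hj1
      · exact h
    · intro j _ hj
      rcases lt_or_gt_of_ne hj with h | h
      · rw [Fin.eta, hA.2 _ _ h, mul_zero]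
      · rw [hj2 j h, zero_mul]
    · intro h
      exact absurd (mem_univ _) h
  have h2 : ∀ s, s < s₀ → cf (yy i φ A) s = 0 := by
    intro s hs
    rw [hc s (by omega)]
    unfold rd
    rw [dif_pos (by omega)]
    apply Finset.sum_eq_zero
    intro j _
    by_cases h : j₀ < j
    · rw [hj2 j h, zero_mul]
    · rw [hA.2, mul_zero]
      rw [Fin.lt_def]
      rw [not_lt, Fin.le_def] at h
      simp
      omega
  have h3 : comb (s₀ + 1) (yy i φ A) 0 = un s₀ := by
    apply Y_ext
    intro k hk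
    rw [cf_comb, cf_zero, cf_un]
    rcases lt_trichotomy k s₀ with h | h | h
    · rw [if_pos (by omega), h2 k h, if_neg (by omega)]
    · subst h
      rw [if_pos (by omega), h1, if_pos ⟨rfl, hk⟩]
    · rw [if_neg (by omega), if_neg (by omega)]
  have h4 : heat (Lk N' 1 (N' - 1)) t (fun _ => 1) (yy i φ A)
      ≤ heat (Lk N' 1 (N' - 1)) t (fun _ => 1) (un s₀) := by
    rw [← h3]
    by_cases h : s₀ + 1 ≤ N' - 1
    · exact D2 N' (show (0 : ℝ) ≤ 1 by norm_num) (N' - 1) (s₀ + 1) h ht _ (one_mem_CC N' (s₀ + 1)) _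
    · apply le_of_eq
      have e : comb (s₀ + 1) (yy i φ A) 0 = yy i φ A := by
        apply Y_ext
        intro k hk
        rw [cf_comb, if_pos (by omega)]
      rw [e]
  refine le_trans h4 ?_
  have hNs : N' = (N' - s₀) + s₀ := by omega
  have e : (un s₀ : Y N') = emb N' s₀ (un 0 : Y (N' - s₀)) := by
    rw [emb_un hNs, zero_add]
  have h5 := heat_emb hNs 1 (N' - s₀ - 1) t (fun _ => (1 : ℝ)) (un 0 : Y (N' - s₀))
  rw [show N' - s₀ - 1 + s₀ = N' - 1 by omega] at h5
  rw [e, h5]
  exact hb (N' - s₀) (by omega) (by omega)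

/-! ### Fourier analysis in one row -/

/-- vectors supported on the free entries of the row `i` in the last `k` columns -/
def WW (n k i : ℕ) : Finset (Fin n → ZMod 2) :=
  univ.filter fun w => ∀ j : Fin n, ¬ (i < j.val ∧ n ≤ j.val + k) → w j = 0

lemma mem_WW {n k i : ℕ} (w : Fin n → ZMod 2) :
    w ∈ WW n k i ↔ ∀ j : Fin n, ¬ (i < j.val ∧ n ≤ j.val + k) → w j = 0 := by
  unfold WW
  rw [mem_filter]
  exact ⟨fun h => h.2, fun h => ⟨mem_univ _, h⟩⟩

lemma zero_mem_WW (n k i : ℕ) : (0 : Fin n → ZMod 2) ∈ WW n k i := by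
  rw [mem_WW]
  intro j _
  rfl

lemma add_mem_WW {n k i : ℕ} {v w : Fin n → ZMod 2} (hv : v ∈ WW n k i) (hw : w ∈ WW n k i) :
    v + w ∈ WW n k i := by
  rw [mem_WW] at *
  intro j hj
  rw [Pi.add_apply, hv j hj, hw j hj, add_zero]

lemma card_WW_le (n k i : ℕ) (hk : k ≤ n) : (WW n k i).card ≤ 2 ^ k := by
  have h : (WW n k i).card ≤ (univ : Finset (Fin k → ZMod 2)).card := by
    apply Finset.card_le_card_of_injOn (fun w => fun c : Fin k => w ⟨n - k + c.val, by
      have := c.isLt; omega⟩)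
    · intro w _
      exact mem_univ _
    · intro w hw v hv hwv
      rw [Finset.mem_coe, mem_WW] at hw hv
      funext j
      by_cases h : i < j.val ∧ n ≤ j.val + k
      · have h1 := congrFun hwv ⟨j.val - (n - k), by have := j.isLt; omega⟩
        simp only at h1
        have h2 : (⟨n - k + (j.val - (n - k)), by have := j.isLt; omega⟩ : Fin n) = j := by
          apply Fin.ext
          simp only
          omega
        rw [h2] at h1
        exact h1
      · rw [hw j h, hv j h]
  refine le_trans h ?_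
  rw [Finset.card_univ, Fintype.card_fun, ZMod.card, Fintype.card_fin]

lemma sum_WW_shift {n k i : ℕ} (u : Fin n → ZMod 2) (hu : u ∈ WW n k i) (f : (Fin n → ZMod 2) → ℝ) :
    ∑ w ∈ WW n k i, f (w + u) = ∑ w ∈ WW n k i, f w := by
  have huu : u + u = 0 := by
    funext j
    exact z2_add_self _
  apply Finset.sum_nbij' (fun w => w + u) (fun w => w + u)
  · intro w hw
    exact add_mem_WW hw hu
  · intro w hw
    exact add_mem_WW hw hu
  · intro w _
    rw [add_assoc, huu, add_zero]
  · intro w _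
    rw [add_assoc, huu, add_zero]
  · intro w _
    rfl

/-- dot product -/
def dt {n : ℕ} (φ w : Fin n → ZMod 2) : ZMod 2 := ∑ j, φ j * w j

lemma dt_add_left {n : ℕ} (φ ψ w : Fin n → ZMod 2) : dt (φ + ψ) w = dt φ w + dt ψ w := by
  unfold dt
  rw [← Finset.sum_add_distrib]
  apply Finset.sum_congr rfl
  intro j _
  rw [Pi.add_apply]
  ring

lemma dt_add_right {n : ℕ} (φ v w : Fin n → ZMod 2) : dt φ (v + w) = dt φ v + dt φ w := by
  unfold dt
  rw [← Finset.sum_add_distrib]
  apply Finset.sum_congr rfl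
  intro j _
  rw [Pi.add_apply]
  ring

/-- orthogonality -/
lemma sum_sg_WW {n k i : ℕ} (x : Fin n → ZMod 2) (hx : x ∈ WW n k i) :
    ∑ φ ∈ WW n k i, sg (dt φ x) = if x = 0 then ((WW n k i).card : ℝ) else 0 := by
  split_ifs with h
  · subst h
    have : ∀ φ ∈ WW n k i, sg (dt φ (0 : Fin n → ZMod 2)) = 1 := by
      intro φ _
      unfold dt
      simp [sg_zero]
    rw [Finset.sum_congr rfl this, Finset.sum_const, nsmul_eq_mul, mul_one]
  · obtain ⟨j, hj⟩ : ∃ j, x j ≠ 0 := by
      by_contra hcon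
      apply h
      funext j
      by_contra h1
      exact hcon ⟨j, h1⟩
    have hj1 : x j = 1 := by
      rcases z2_cases (x j) with h1 | h1
      · exact absurd h1 hj
      · exact h1
    have hfree : i < j.val ∧ n ≤ j.val + k := by
      by_contra h1
      rw [mem_WW] at hx
      exact hj (hx j h1)
    have hu : (Pi.single j 1 : Fin n → ZMod 2) ∈ WW n k i := by
      rw [mem_WW]
      intro j' hj'
      rw [Pi.single_apply, if_neg]
      intro h1
      rw [h1] at hj'
      exact hj' hfree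
    have h1 := sum_WW_shift _ hu (fun φ => sg (dt φ x))
    have h2 : ∀ φ ∈ WW n k i, sg (dt (φ + Pi.single j 1) x) = - sg (dt φ x) := by
      intro φ _
      rw [dt_add_left, sg_add]
      have : dt (Pi.single j 1) x = 1 := by
        unfold dt
        rw [Finset.sum_eq_single j]
        · rw [Pi.single_eq_same, hj1, mul_one]
        · intro j' _ hj'
          rw [Pi.single_apply, if_neg hj', zero_mul]
        · intro h
          exact absurd (mem_univ _) h
      rw [this, sg_one]
      ring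
    rw [Finset.sum_congr rfl h2, Finset.sum_neg_distrib] at h1
    linarith

/-- dependence on the rows from `i` on in the last `k` columns only -/
def Dep {n : ℕ} (i k : ℕ) (F : Mat n → ℝ) : Prop :=
  ∀ B B' : Mat n, (∀ a b : Fin n, i ≤ a.val → n ≤ b.val + k → B a b = B' a b) → F B = F B'

/-- Fourier coefficients in the row `i` -/
noncomputable def gF {n : ℕ} (k : ℕ) (i : Fin n) (F : Mat n → ℝ) (φ : Fin n → ZMod 2) (B : Mat n) : ℝ :=
  ((WW n k i.val).card : ℝ)⁻¹ * ∑ w ∈ WW n k i.val, F (B.updateRow i (Pi.single i 1 + w)) * sg (dt φ w)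

lemma card_WW_pos (n k i : ℕ) : (0 : ℝ) < ((WW n k i).card : ℝ) := by
  have : 0 < (WW n k i).card := Finset.card_pos.mpr ⟨0, zero_mem_WW n k i⟩
  exact_mod_cast this

lemma gF_abs {n : ℕ} (k : ℕ) (i : Fin n) (F : Mat n → ℝ) (hF : ∀ B, |F B| ≤ 1) (φ : Fin n → ZMod 2)
    (B : Mat n) : |gF k i F φ B| ≤ 1 := by
  unfold gF
  have hc := card_WW_pos n k i.val
  rw [abs_mul, abs_of_pos (inv_pos.mpr hc)]
  have h1 : |∑ w ∈ WW n k i.val, F (B.updateRow i (Pi.single i 1 + w)) * sg (dt φ w)|
      ≤ ∑ w ∈ WW n k i.val, (1 : ℝ) := by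
    refine le_trans (Finset.abs_sum_le_sum_abs _ _) (Finset.sum_le_sum fun w _ => ?_)
    rw [abs_mul]
    have : |sg (dt φ w)| = 1 := by
      unfold sg
      split_ifs <;> simp
    rw [this, mul_one]
    exact hF _
  rw [Finset.sum_const, nsmul_eq_mul, mul_one] at h1
  calc ((WW n k i.val).card : ℝ)⁻¹ * _ ≤ ((WW n k i.val).card : ℝ)⁻¹ * ((WW n k i.val).card : ℝ) :=
        mul_le_mul_of_nonneg_left h1 (inv_pos.mpr hc).le
    _ = 1 := inv_mul_cancel₀ hc.ne'

lemma gF_dep {n : ℕ} (k : ℕ) (i : Fin n) (F : Mat n → ℝ) (hF : Dep i.val k F) (φ : Fin n → ZMod 2) :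
    Dep (i.val + 1) k (gF k i F φ) := by
  intro B B' h
  unfold gF
  congr 1
  apply Finset.sum_congr rfl
  intro w _
  congr 1
  apply hF
  intro a b ha hb
  by_cases hai : a = i
  · rw [hai, Matrix.updateRow_self, Matrix.updateRow_self]
  · rw [Matrix.updateRow_ne hai, Matrix.updateRow_ne hai]
    apply h a b _ hb
    have : a.val ≠ i.val := fun h' => hai (Fin.ext h')
    omega

/-- inversion in the row `i` -/
lemma row_inversion {n : ℕ} (k : ℕ) (i : Fin n) (F : Mat n → ℝ) (hF : Dep i.val k F) (B : Mat n)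
    (hB : IsUni B) : F B = ∑ φ ∈ WW n k i.val, sg (rd φ B i.val) * gF k i F φ B := by
  classical
  set b : Fin n → ZMod 2 := fun j => if i.val < j.val ∧ n ≤ j.val + k then B i j else 0 with hb
  have hbW : b ∈ WW n k i.val := by
    rw [mem_WW]
    intro j hj
    rw [hb]
    simp only
    rw [if_neg hj]
  have hrd : ∀ φ ∈ WW n k i.val, rd φ B i.val = dt φ b := by
    intro φ hφ
    rw [mem_WW] at hφ
    unfold rd dt
    rw [dif_pos i.isLt]
    apply Finset.sum_congr rfl
    intro j _
    rw [Fin.eta, hb]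
    simp only
    by_cases h : i.val < j.val ∧ n ≤ j.val + k
    · rw [if_pos h]
    · rw [if_neg h, hφ j h, zero_mul, zero_mul]
  have hFB : F (B.updateRow i (Pi.single i 1 + b)) = F B := by
    apply hF
    intro a c ha hc
    by_cases hai : a = i
    · rw [hai, Matrix.updateRow_self, Pi.add_apply, Pi.single_apply, hb]
      simp only
      rcases lt_trichotomy c i with h | h | h
      · rw [if_neg (ne_of_lt h), if_neg (by rw [Fin.lt_def] at h; omega), hB.2 _ _ h, add_zero]
      · rw [h, if_pos rfl, if_neg (by omega), hB.1, add_zero]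
      · rw [if_neg (ne_of_gt h), if_pos ⟨by rw [← Fin.lt_def]; exact h, hc⟩, zero_add]
    · rw [Matrix.updateRow_ne hai]
  have hc := card_WW_pos n k i.val
  have h1 : ∑ φ ∈ WW n k i.val, sg (rd φ B i.val) * gF k i F φ B
      = ((WW n k i.val).card : ℝ)⁻¹ * ∑ w ∈ WW n k i.val, F (B.updateRow i (Pi.single i 1 + w)) *
        ∑ φ ∈ WW n k i.val, sg (dt φ (b + w)) := by
    unfold gF
    rw [Finset.mul_sum]
    have h2 : ∀ φ ∈ WW n k i.val, sg (rd φ B i.val) * (((WW n k i.val).card : ℝ)⁻¹ *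
        ∑ w ∈ WW n k i.val, F (B.updateRow i (Pi.single i 1 + w)) * sg (dt φ w))
        = ∑ w ∈ WW n k i.val, ((WW n k i.val).card : ℝ)⁻¹ * (F (B.updateRow i (Pi.single i 1 + w))
          * sg (dt φ (b + w))) := by
      intro φ hφ
      rw [hrd φ hφ, Finset.mul_sum, Finset.mul_sum]
      apply Finset.sum_congr rfl
      intro w _
      rw [dt_add_right, sg_add]
      ring
    rw [Finset.sum_congr rfl h2, Finset.sum_comm]
    apply Finset.sum_congr rfl
    intro w _
    rw [Finset.mul_sum, Finset.mul_sum]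
  rw [h1]
  have h2 : ∀ w ∈ WW n k i.val, F (B.updateRow i (Pi.single i 1 + w)) *
        ∑ φ ∈ WW n k i.val, sg (dt φ (b + w))
      = if w = b then F B * ((WW n k i.val).card : ℝ) else 0 := by
    intro w hw
    rw [sum_sg_WW _ (add_mem_WW hbW hw)]
    by_cases h : w = b
    · have : b + w = 0 := by
        rw [h]
        funext j
        exact z2_add_self _
      rw [if_pos this, if_pos h, h, hFB]
    · rw [if_neg h, if_neg, mul_zero]
      intro h3
      apply h
      funext j
      have h4 := congrFun h3 j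
      rw [Pi.add_apply, Pi.zero_apply] at h4
      rcases z2_cases (b j) with h5 | h5 <;> rcases z2_cases (w j) with h6 | h6
      · rw [h5, h6]
      · rw [h5, h6] at h4
        exact absurd h4 (by decide)
      · rw [h5, h6] at h4
        exact absurd h4 (by decide)
      · rw [h5, h6]
  rw [Finset.sum_congr rfl h2, Finset.sum_ite_eq', if_pos hbW]
  field_simp

/-- one row -/
lemma row_step {n : ℕ} (k : ℕ) (hk : k ≤ n) (i : Fin n) (hi : i.val + 1 < n) (F : Mat n → ℝ)
    (hF : Dep i.val k F) (hF1 : ∀ B, |F B| ≤ 1) {t : ℝ} (ht : 0 ≤ t) (b : ℝ) (hb0 : 0 ≤ b)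
    (hb : ∀ N : ℕ, 1 ≤ N → N ≤ n → heat (Lk N 1 (N - 1)) t (fun _ => 1) (un 0) ≤ b)
    (A : Mat n) (hA : IsUni A) :
    |heat (LM n) t F A - heat (LM n) t (gF k i F 0) A| ≤ 2 ^ k * b := by
  classical
  have h1 : heat (LM n) t F A
      = heat (LM n) t (∑ φ ∈ WW n k i.val, tw i.val φ (gF k i F φ)) A := by
    apply le_antisymm
    · apply heatM_mono_on n ht _ A hA
      intro B hB
      rw [Finset.sum_apply, row_inversion k i F hF B hB]
      apply le_of_eq
      apply Finset.sum_congr rfl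
      intro φ _
      rw [tw_apply]
      congr 1
      apply gF_dep k i F hF φ
      intro a b ha _
      unfold low
      rw [if_neg (by omega)]
    · apply heatM_mono_on n ht _ A hA
      intro B hB
      rw [Finset.sum_apply, row_inversion k i F hF B hB]
      apply le_of_eq
      apply Finset.sum_congr rfl
      intro φ _
      rw [tw_apply]
      congr 1
      apply gF_dep k i F hF φ
      intro a b ha _
      unfold low
      rw [if_neg (by omega)]
  have h2 : heat (LM n) t (tw i.val 0 (gF k i F 0)) A = heat (LM n) t (gF k i F 0) A := by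
    have e : tw i.val 0 (gF k i F 0) = gF k i F 0 := by
      funext B
      rw [tw_apply]
      have : rd (0 : Fin n → ZMod 2) B i.val = 0 := by
        unfold rd
        split_ifs <;> simp
      rw [this, sg_zero, one_mul]
      apply gF_dep k i F hF 0
      intro a b ha _
      unfold low
      rw [if_neg (by omega)]
    rw [e]
  rw [h1, map_sum, Finset.sum_apply, ← Finset.add_sum_erase _ _ (zero_mem_WW n k i.val), h2,
    add_sub_cancel_left]
  refine le_trans (Finset.abs_sum_le_sum_abs _ _) ?_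
  have h3 : ∀ φ ∈ (WW n k i.val).erase 0, |heat (LM n) t (tw i.val φ (gF k i F φ)) A| ≤ b := by
    intro φ hφ
    rw [mem_erase, mem_WW] at hφ
    refine le_trans (tw_bound n i.val hi φ _ (gF_abs k i F hF1 φ) ht A) ?_
    exact yy_alpha n i.val hi φ (fun j hj => hφ.2 j (by omega)) hφ.1 A hA ht b hb
  refine le_trans (Finset.sum_le_sum h3) ?_
  rw [Finset.sum_const, nsmul_eq_mul]
  apply mul_le_mul_of_nonneg_right _ hb0
  have h4 : ((WW n k i.val).erase 0).card ≤ 2 ^ k :=
    le_trans (Finset.card_le_card (Finset.erase_subset _ _)) (card_WW_le n k i.val hk)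
  exact_mod_cast h4

lemma IsUni_one (n : ℕ) : IsUni (1 : Mat n) := by
  constructor
  · intro a
    exact Matrix.one_apply_eq a
  · intro a b h
    exact Matrix.one_apply_ne (ne_of_gt h)

/-- all rows -/
lemma rows_bound {n : ℕ} (k : ℕ) (hk : k ≤ n) {t : ℝ} (ht : 0 ≤ t) (b : ℝ) (hb0 : 0 ≤ b)
    (hb : ∀ N : ℕ, 1 ≤ N → N ≤ n → heat (Lk N 1 (N - 1)) t (fun _ => 1) (un 0) ≤ b) (d : ℕ) :
    ∀ (i : ℕ) (F : Mat n → ℝ), i + 1 + d = n → Dep i k F → (∀ B, |F B| ≤ 1) →
      ∃ m : ℝ, ∀ A, IsUni A → |heat (LM n) t F A - m| ≤ d * (2 ^ k * b) := by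
  induction d with
  | zero =>
      intro i F hi hF _
      refine ⟨F 1, fun A hA => ?_⟩
      have h1 : ∀ B, IsUni B → F B = F 1 := by
        intro B hB
        apply hF
        intro a c ha hc
        have ha1 := a.isLt
        have hc1 := c.isLt
        rcases lt_trichotomy c a with h | h | h
        · rw [hB.2 _ _ h, (IsUni_one n).2 _ _ h]
        · rw [h, hB.1, (IsUni_one n).1]
        · exfalso
          rw [Fin.lt_def] at h
          omega
      have h2 : heat (LM n) t F A ≤ F 1 := by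
        have := heatM_mono_on n ht (f := F) (g := fun _ => F 1) (fun B hB => (h1 B hB).le) A hA
        rwa [heat_const (LM_one n)] at this
      have h3 : F 1 ≤ heat (LM n) t F A := by
        have := heatM_mono_on n ht (g := F) (f := fun _ => F 1) (fun B hB => (h1 B hB).ge) A hA
        rwa [heat_const (LM_one n)] at this
      rw [le_antisymm h2 h3]
      simp
  | succ d ih =>
      intro i F hi hF hF1
      have hin : i < n := by omega
      obtain ⟨m, hm⟩ := ih (i + 1) (gF k ⟨i, hin⟩ F 0) (by omega)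
        (gF_dep k ⟨i, hin⟩ F hF 0) (gF_abs k ⟨i, hin⟩ F hF1 0)
      refine ⟨m, fun A hA => ?_⟩
      have h1 := row_step k hk ⟨i, hin⟩ (by simp; omega) F hF hF1 ht b hb0 hb A hA
      have h2 := hm A hA
      have h3 := abs_sub_le (heat (LM n) t F A) (heat (LM n) t (gF k ⟨i, hin⟩ F 0) A) m
      push_cast
      linarith

/-! ### stationarity -/

lemma rop_rop {n : ℕ} (l : ℕ) (B : Mat n) : rop l (rop l B) = B := by
  unfold rop
  split_ifs with h
  · funext a b
    by_cases ha : a = ⟨l, by omega⟩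
    · rw [ha, Matrix.updateRow_self, Pi.add_apply, Matrix.updateRow_self, Pi.add_apply,
        Matrix.updateRow_ne, add_assoc, z2_add_self, add_zero]
      intro h2
      have := congrArg Fin.val h2
      simp at this
    · rw [Matrix.updateRow_ne ha, Matrix.updateRow_ne ha]
  · rfl

lemma mem_Uni {n : ℕ} (B : Mat n) : B ∈ Uni n ↔ IsUni B := by
  unfold Uni
  rw [mem_filter]
  exact ⟨fun h => h.2, fun h => ⟨mem_univ _, h⟩⟩

lemma sum_Uni_rop {n : ℕ} (l : ℕ) (f : Mat n → ℝ) :
    ∑ B ∈ Uni n, f (rop l B) = ∑ B ∈ Uni n, f B := by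
  apply Finset.sum_nbij' (rop l) (rop l)
  · intro B hB
    rw [mem_Uni] at hB ⊢
    exact IsUni_rop l B hB
  · intro B hB
    rw [mem_Uni] at hB ⊢
    exact IsUni_rop l B hB
  · intro B _
    exact rop_rop l B
  · intro B _
    exact rop_rop l B
  · intro B _
    rfl

/-- the sum over the unitriangular matrices, as an operator -/
noncomputable def sU (n : ℕ) : (Mat n → ℝ) →L[ℝ] (Unit → ℝ) :=
  ContinuousLinearMap.pi fun _ => ∑ B ∈ Uni n, ContinuousLinearMap.proj B

lemma sU_apply (n : ℕ) (f : Mat n → ℝ) (u : Unit) : sU n f u = ∑ B ∈ Uni n, f B := by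
  change (∑ B ∈ Uni n, (ContinuousLinearMap.proj B : (Mat n → ℝ) →L[ℝ] ℝ)) f = _
  rw [_root_.sum_apply]
  rfl

lemma stationary (n : ℕ) (t : ℝ) (f : Mat n → ℝ) :
    ∑ B ∈ Uni n, heat (LM n) t f B = ∑ B ∈ Uni n, f B := by
  have h := heat_intertwine (LM n) (0 : Opr Unit) (sU n) (fun g => by
    funext u
    rw [sU_apply]
    have h1 : ∀ B ∈ Uni n, LM n g B = ∑ l ∈ range (n - 1), 1 / 2 * (g (rop l B) - g B) :=
      fun B _ => LM_apply n g B
    rw [Finset.sum_congr rfl h1, Finset.sum_comm]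
    have h2 : ∀ l ∈ range (n - 1), ∑ B ∈ Uni n, 1 / 2 * (g (rop l B) - g B) = 0 := by
      intro l _
      rw [← Finset.mul_sum, Finset.sum_sub_distrib, sum_Uni_rop, sub_self, mul_zero]
    rw [Finset.sum_congr rfl h2]
    simp) t f
  rw [heat_of_null (L := (0 : Opr Unit)) rfl] at h
  have h1 := congrFun h ()
  rw [sU_apply, sU_apply] at h1
  exact h1.symm

/-- average over the unitriangular matrices -/
noncomputable def avU {n : ℕ} (f : Mat n → ℝ) : ℝ := ((Uni n).card : ℝ)⁻¹ * ∑ B ∈ Uni n, f B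

lemma card_Uni_pos (n : ℕ) : (0 : ℝ) < ((Uni n).card : ℝ) := by
  have : 0 < (Uni n).card := Finset.card_pos.mpr ⟨1, (mem_Uni _).mpr (IsUni_one n)⟩
  exact_mod_cast this

/-- mixing of the last `k` columns -/
theorem cols_bound (δ : ℝ) (hδ : 0 < δ) : ∃ C c : ℝ, 0 < C ∧ 0 < c ∧ ∀ n k : ℕ, 1 ≤ n → k ≤ n →
    ∀ F : Mat n → ℝ, Dep 0 k F → (∀ B, |F B| ≤ 1) → ∀ t : ℝ, (1 + δ) * n / vv ≤ t →
    ∀ A, IsUni A → |heat (LM n) t F A - avU F| ≤ 2 * (n * (2 ^ k * (C * Real.exp (-(c * n))))) := by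
  obtain ⟨C, c, hC, hc, hb⟩ := alpha_bound δ hδ
  refine ⟨C, c, hC, hc, ?_⟩
  intro n k hn hk F hF hF1 t ht A hA
  have hv := vv_pos
  have ht0 : 0 ≤ t := le_trans (by positivity) ht
  set b : ℝ := C * Real.exp (-(c * n)) with hbdef
  have hb0 : 0 ≤ b := by positivity
  obtain ⟨m, hm⟩ := rows_bound k hk ht0 b hb0 (fun N h1 h2 => hb n N h1 h2 t ht) (n - 1) 0 F
    (by omega) hF hF1
  have hd : ((n - 1 : ℕ) : ℝ) ≤ n := by
    have : n - 1 ≤ n := by omega
    exact_mod_cast this
  have hm' : ∀ A, IsUni A → |heat (LM n) t F A - m| ≤ n * (2 ^ k * b) := by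
    intro A hA
    exact le_trans (hm A hA) (mul_le_mul_of_nonneg_right hd (by positivity))
  have hc := card_Uni_pos n
  have h1 : |avU F - m| ≤ n * (2 ^ k * b) := by
    have e : avU F - m = ((Uni n).card : ℝ)⁻¹ * ∑ B ∈ Uni n, (heat (LM n) t F B - m) := by
      unfold avU
      rw [Finset.sum_sub_distrib, stationary, Finset.sum_const, nsmul_eq_mul]
      field_simp
    rw [e, abs_mul, abs_of_pos (inv_pos.mpr hc)]
    have h2 : |∑ B ∈ Uni n, (heat (LM n) t F B - m)| ≤ ∑ B ∈ Uni n, (n : ℝ) * (2 ^ k * b) :=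
      le_trans (Finset.abs_sum_le_sum_abs _ _)
        (Finset.sum_le_sum fun B hB => hm' B ((mem_Uni B).mp hB))
    rw [Finset.sum_const, nsmul_eq_mul] at h2
    calc ((Uni n).card : ℝ)⁻¹ * |∑ B ∈ Uni n, (heat (LM n) t F B - m)|
        ≤ ((Uni n).card : ℝ)⁻¹ * (((Uni n).card : ℝ) * ((n : ℝ) * (2 ^ k * b))) :=
          mul_le_mul_of_nonneg_left h2 (inv_pos.mpr hc).le
      _ = (n : ℝ) * (2 ^ k * b) := by field_simp
  have h2 := hm' A hA
  have h3 := abs_sub_le (heat (LM n) t F A) m (avU F)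
  rw [abs_sub_comm m (avU F)] at h3
  linarith

end Pool.Agent.UTM.Es
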