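import Mathlib
import Pool.Agent.UTM.MatCols

/-!
The last column is not mixed before the front has arrived.
-/
set_option autoImplicit false
set_option linter.unusedSectionVars false

namespace Pool.Agent.UTM.Es

open Finset Filter Topology

/-- the probability of a low front decreases in time -/
lemma slow_anti_t {N x : ℕ} (hx : 1 ≤ x) {s t : ℝ} (hs : 0 ≤ s) (ht : 0 ≤ t) :
    heat (LL N) (s + t) (slow x) (un 0) ≤ heat (LL N) t (slow x) (un 0) := by
  rw [heat_add]
  set G := heat (LL N) t (slow x) with hG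
  have hGm : G ∈ CC N 1 := heatLk_mem N le_rfl 1 1 le_rfl ht _ (slow_mem' hx hx) |> fun h => by
    rw [Lk_zero_j N 1 0] at h
    exact h
  have h1 := heat_mono (LL_pos N) hs (f := G) (g := fun y => G (comb 1 y 0)) (fun y => CC_max hGm y)
    (un 0)
  have h2 : LL N (fun y => G (comb 1 y 0)) = 0 := by
    funext y
    rw [LL_apply]
    apply Finset.sum_eq_zero
    intro k _
    have : comb 1 (op k y) 0 = comb 1 y 0 := by
      apply Y_ext
      intro i hi
      rw [cf_comb, cf_comb, cf_zero]
      by_cases h : i < 1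
      · rw [if_pos h, if_pos h, cf_op_ne k y (by omega)]
      · rw [if_neg h, if_neg h]
    rw [this, sub_self, mul_zero]
  rw [heat_of_null h2] at h1
  have h3 : comb 1 (un 0 : Y N) 0 = un 0 := by
    apply Y_ext
    intro i hi
    rw [cf_comb, cf_zero, cf_un]
    by_cases h : i < 1
    · rw [if_pos h]
    · rw [if_neg h, if_neg (by omega)]
  simp only [h3] at h1
  exact h1

/-- upper tail of the front -/
lemma up_tail (ε : ℝ) (hε : 0 < ε) : ∃ C θ : ℝ, 0 < C ∧ 0 < θ ∧ ∀ N : ℕ, 0 < N → ∀ t : ℝ, 0 ≤ t →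
    ∀ x : ℕ, 1 ≤ x →
      1 - C * Real.exp (θ * ((vv + ε) * t - x)) ≤ heat (LL N) t (slow x) (un 0) := by
  obtain ⟨m₀, hm₀, θ, hθ, hθ1, hexp⟩ := exp_moment ε hε
  have hv := vv_pos
  have hm₀R : (1 : ℝ) ≤ m₀ := by exact_mod_cast hm₀
  refine ⟨Real.exp (θ * ((vv + ε) * m₀)), θ, Real.exp_pos _, hθ, ?_⟩
  intro N hN t ht x hx
  set k : ℕ := ⌈t / m₀⌉₊ with hk
  have hk1 : t / m₀ ≤ k := Nat.le_ceil _
  have hk2 : (k : ℝ) < t / m₀ + 1 := Nat.ceil_lt_add_one (by positivity)
  rw [div_le_iff₀ (by linarith)] at hk1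
  have hkt : (k : ℝ) * m₀ ≤ t + m₀ := by
    have h1 := mul_le_mul_of_nonneg_right hk2.le (show (0 : ℝ) ≤ m₀ by linarith)
    have h2 : (t / m₀ + 1) * m₀ = t + m₀ := by field_simp
    linarith
  set S : ℝ := ((k * m₀ : ℕ) : ℝ) with hS
  have hS' : S = k * m₀ := by rw [hS]; push_cast; ring
  have hS0 : 0 ≤ S := by rw [hS]; positivity
  have h1 := slow_anti_t (N := N) hx (s := S - t) (t := t) (by linarith) ht
  rw [sub_add_cancel] at h1
  refine le_trans ?_ h1
  have h2 := heat_mono (LL_pos N) hS0
    (f := (fun _ => 1) - Real.exp (-(θ * x)) • fun y : Y N => Real.exp (θ * top y)) (g := slow x)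
    (fun y => by
      rw [Pi.sub_apply, Pi.smul_apply, smul_eq_mul, ← Real.exp_add]
      unfold slow
      split_ifs with h
      · have := Real.exp_pos (-(θ * x) + θ * top y)
        linarith
      · have h3 : (x : ℝ) ≤ top y := by
          have : x ≤ top y := by omega
          exact_mod_cast this
        have h4 : 1 ≤ Real.exp (-(θ * x) + θ * top y) := by
          apply Real.one_le_exp
          have := mul_le_mul_of_nonneg_left h3 hθ.le
          linarith
        linarith) (un 0)
  rw [map_sub, map_smul, Pi.sub_apply, Pi.smul_apply, smul_eq_mul, heat_const (Lk_one _ 0)] at h2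
  refine le_trans ?_ h2
  have h3 := hexp N hN k (un 0)
  rw [← hS, top_un 0 hN] at h3
  simp only [Nat.cast_zero, mul_zero, Real.exp_zero, mul_one] at h3
  have h4 := mul_le_mul_of_nonneg_left h3 (Real.exp_pos (-(θ * x))).le
  have h5 : Real.exp (-(θ * x)) * Real.exp (θ * ((vv + ε) * S))
      ≤ Real.exp (θ * ((vv + ε) * m₀)) * Real.exp (θ * ((vv + ε) * t - x)) := by
    rw [← Real.exp_add, ← Real.exp_add]
    apply Real.exp_le_exp.mpr
    have h6 : S ≤ t + m₀ := by linarith
    have h7 := mul_le_mul_of_nonneg_left h6 (show 0 ≤ θ * (vv + ε) by positivity)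
    nlinarith
  linarith

/-! ### the last column -/

/-- the last column read from the bottom -/
def col {n : ℕ} (B : Mat n) : Y n := mk n fun s => lc B (n - 1 - s)

lemma col_rop {n : ℕ} (B : Mat n) (l : ℕ) (hl : l + 1 < n) : col (rop l B) = op (n - 2 - l) (col B) := by
  have hc : ∀ (C : Mat n) (s : ℕ), s < n → cf (col C) s = lc C (n - 1 - s) := by
    intro C s hs
    unfold col
    rw [cf_mk, if_pos hs]
  apply Y_ext
  intro s hs
  rw [cf_op, hc _ s hs, hc _ s hs, hc _ (n - 2 - l) (by omega), lc_rop B l hl]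
  by_cases h : n - 1 - s = l
  · rw [h, upd_self, if_pos (show s = n - 2 - l + 1 ∧ s < n by omega),
      show n - 1 - (n - 2 - l) = l + 1 by omega]
  · rw [upd_ne _ h, if_neg (by omega), add_zero]

lemma col_intertwine (n : ℕ) (G : Y n → ℝ) : LM n (pull col G) = pull col (LL n G) := by
  funext B
  rw [LM_apply, pull_apply, pull_apply, LL_apply]
  rcases Nat.eq_zero_or_pos n with h0 | h0
  · subst h0
    rfl
  have h2 : ∑ k ∈ range n, 1 / 2 * (G (op k (col B)) - G (col B))
      = ∑ k ∈ range (n - 1), 1 / 2 * (G (op k (col B)) - G (col B)) := by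
    rw [show range n = range ((n - 1) + 1) by congr 1; omega,
      Finset.sum_range_succ, op_ge (n - 1) _ (by omega), sub_self, mul_zero, add_zero]
  rw [h2, ← Finset.sum_range_reflect]
  apply Finset.sum_congr rfl
  intro k hk
  rw [mem_range] at hk
  rw [pull_apply, col_rop B _ (by omega)]
  congr 4
  omega

lemma col_one {n : ℕ} (hn : 0 < n) : col (1 : Mat n) = un 0 := by
  apply Y_ext
  intro s hs
  unfold col
  rw [cf_mk, if_pos hs, cf_un]
  unfold lc
  rw [dif_pos (by omega)]
  by_cases h : s = 0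
  · subst h
    rw [if_pos ⟨rfl, hs⟩]
    exact Matrix.one_apply_eq _
  · rw [if_neg (by omega)]
    apply Matrix.one_apply_ne
    intro h2
    have := congrArg Fin.val h2
    simp at this
    omega

lemma heat_col {n : ℕ} (hn : 0 < n) (t : ℝ) (G : Y n → ℝ) :
    heat (LM n) t (fun B => G (col B)) 1 = heat (LL n) t G (un 0) := by
  have h := heat_intertwine (LL n) (LM n) (pull col) (fun g => col_intertwine n g) t G
  have h2 : (fun B : Mat n => G (col B)) = pull col G := rfl
  rw [h2, h, pull_apply, col_one hn]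

/-- adding a vector to the top of the last column -/
def addTop {n : ℕ} (κ : ℕ) (w : Fin κ → ZMod 2) (B : Mat n) : Mat n :=
  fun a b => B a b + if b.val = n - 1 then (if h : a.val < κ then w ⟨a.val, h⟩ else 0) else 0

lemma avU_slow {n κ : ℕ} (hκ : κ + 1 ≤ n) :
    avU (fun B : Mat n => slow (n - κ) (col B)) ≤ (1 / 2 : ℝ) ^ κ := by
  classical
  set Z : Finset (Mat n) := (Uni n).filter fun B => top (col B) < n - κ with hZ
  have hz : ∀ B : Mat n, top (col B) < n - κ → ∀ a b : Fin n, b.val = n - 1 → a.val < κ → B a b = 0 := by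
    intro B hB a b hb ha
    have h1 : cf (col B) (n - 1 - a.val) = 0 := cf_of_top_lt _ (by omega)
    unfold col at h1
    rw [cf_mk, if_pos (by omega), show n - 1 - (n - 1 - a.val) = a.val by omega] at h1
    unfold lc at h1
    rw [dif_pos a.isLt] at h1
    have h2 : b = ⟨n - 1, by omega⟩ := Fin.ext hb
    rw [h2]
    exact h1
  have hcard : (Z ×ˢ (univ : Finset (Fin κ → ZMod 2))).card ≤ (Uni n).card := by
    apply Finset.card_le_card_of_injOn (fun p => addTop κ p.2 p.1)
    · rintro ⟨B, w⟩ hB
      rw [Finset.mem_coe, mem_product] at hB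
      have hB1 := hB.1
      rw [hZ, mem_filter, mem_Uni] at hB1
      simp only [Finset.mem_coe]
      rw [mem_Uni]
      have hB2 : IsUni B := hB1.1
      constructor
      · intro a
        change B a a + _ = 1
        rw [hB2.1 a]
        split_ifs with h1 h2
        · omega
        · rw [add_zero]
        · rw [add_zero]
      · intro a b hab
        change B a b + _ = 0
        rw [hB2.2 a b hab]
        rw [Fin.lt_def] at hab
        have := a.isLt
        rw [if_neg (by omega), add_zero]
    · rintro ⟨B, w⟩ hB ⟨B', w'⟩ hB' h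
      rw [Finset.mem_coe, mem_product] at hB hB'
      have hB1 := hB.1
      have hB2 := hB'.1
      rw [hZ, mem_filter] at hB1 hB2
      simp only at h
      have hw : w = w' := by
        funext a
        have ha := a.isLt
        have h1 := congrFun (congrFun h ⟨a.val, by omega⟩) ⟨n - 1, by omega⟩
        unfold addTop at h1
        simp only [if_true, dif_pos ha] at h1
        rw [hz B hB1.2 _ _ rfl ha, hz B' hB2.2 _ _ rfl ha, zero_add, zero_add] at h1
        exact h1
      rw [Prod.mk.injEq]
      refine ⟨?_, hw⟩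
      funext a b
      have h1 := congrFun (congrFun h a) b
      unfold addTop at h1
      rw [hw] at h1
      exact add_right_cancel h1
  rw [Finset.card_product, Finset.card_univ, Fintype.card_fun, ZMod.card, Fintype.card_fin] at hcard
  unfold avU
  have h1 : ∑ B ∈ Uni n, slow (n - κ) (col B) = (Z.card : ℝ) := by
    unfold slow
    rw [← Finset.sum_filter, Finset.sum_const, nsmul_eq_mul, mul_one]
  rw [h1]
  have hc := card_Uni_pos n
  have h2 : (Z.card : ℝ) * 2 ^ κ ≤ ((Uni n).card : ℝ) := by exact_mod_cast hcard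
  rw [inv_mul_le_iff₀ hc, one_div, inv_pow]
  rw [← div_eq_mul_inv, le_div_iff₀ (by positivity)]
  exact h2

/-- the last column is not mixed before time `n / v` -/
theorem cols_lower (δ : ℝ) (hδ : 0 < δ) (ε : ℝ) (hε : 0 < ε) : ∃ κ : ℕ, ∀ᶠ n : ℕ in atTop,
    ∀ t : ℝ, 0 ≤ t → t ≤ (1 - δ) * n / vv →
      1 - ε < heat (LM n) t (fun B => slow (n - κ) (col B)) 1
        - avU (fun B : Mat n => slow (n - κ) (col B)) := by
  have hv := vv_pos
  obtain ⟨κ, hκ⟩ := exists_pow_lt_of_lt_one (show 0 < ε / 2 by linarith) (show (1 / 2 : ℝ) < 1 by norm_num)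
  refine ⟨κ, ?_⟩
  set ε' : ℝ := vv * δ / 2 with hε'
  have hε'0 : 0 < ε' := by rw [hε']; positivity
  obtain ⟨C, θ, hC, hθ, hup⟩ := up_tail ε' hε'0
  have lim1 : Tendsto (fun n : ℕ => C * Real.exp (θ * κ) * Real.exp (-(θ * (δ / 2) * (n : ℝ)))) atTop (𝓝 0) := by
    have h1 : Tendsto (fun n : ℕ => θ * (δ / 2) * (n : ℝ)) atTop atTop :=
      (tendsto_natCast_atTop_atTop).const_mul_atTop (by positivity)
    have h2 := (Real.tendsto_exp_neg_atTop_nhds_zero.comp h1).const_mul (C * Real.exp (θ * κ))
    simpa using h2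
  filter_upwards [lim1.eventually (gt_mem_nhds (show (0 : ℝ) < ε / 2 by linarith)),
    eventually_ge_atTop (κ + 2)] with n hn1 hn2 t ht0 ht
  have h1 := avU_slow (n := n) (κ := κ) (by omega)
  rw [heat_col (by omega) t (slow (n - κ))]
  have h2 := hup n (by omega) t ht0 (n - κ) (by omega)
  have h3 : C * Real.exp (θ * ((vv + ε') * t - ((n - κ : ℕ) : ℝ)))
      ≤ C * Real.exp (θ * κ) * Real.exp (-(θ * (δ / 2) * (n : ℝ))) := by
    rw [mul_assoc, ← Real.exp_add]
    apply mul_le_mul_of_nonneg_left _ hC.le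
    apply Real.exp_le_exp.mpr
    have h4 : ((n - κ : ℕ) : ℝ) = n - κ := by
      rw [Nat.cast_sub (by omega)]
    rw [h4]
    have h5 : vv * t ≤ (1 - δ) * n := by
      rw [le_div_iff₀ hv] at ht
      linarith
    have h6 : (vv + ε') * t ≤ (1 - δ / 2) * n := by
      have h7 : (vv + ε') * t = (1 + δ / 2) * (vv * t) := by rw [hε']; ring
      rw [h7]
      by_cases h8 : 1 - δ ≤ 0
      · have : 0 ≤ vv * t := by positivity
        have h9 : vv * t ≤ 0 := by
          have : (1 - δ) * (n : ℝ) ≤ 0 := mul_nonpos_of_nonpos_of_nonneg h8 (Nat.cast_nonneg _)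
          linarith
        have h10 : vv * t = 0 := le_antisymm h9 this
        have ht00 : t = 0 := by
          rcases mul_eq_zero.mp h10 with h | h
          · linarith
          · exact h
        -- here `t = 0`
        rw [h10, mul_zero]
        by_cases h11 : δ ≤ 2
        · have : 0 ≤ (1 - δ / 2) * (n : ℝ) := mul_nonneg (by linarith) (Nat.cast_nonneg _)
          exact this
        · exfalso
          rw [not_le] at h11
          rw [ht00, mul_zero] at h5
          have : (0 : ℝ) < n := by
            have : 0 < n := by omega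
            exact_mod_cast this
          nlinarith
      · rw [not_le] at h8
        have h9 : (1 + δ / 2) * (vv * t) ≤ (1 + δ / 2) * ((1 - δ) * n) :=
          mul_le_mul_of_nonneg_left h5 (by positivity)
        have : (0 : ℝ) ≤ n := Nat.cast_nonneg _
        nlinarith [mul_nonneg (sq_nonneg δ) this]
    have h7 := mul_le_mul_of_nonneg_left h6 hθ.le
    nlinarith
  linarith

end Pool.Agent.UTM.Es
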