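import Mathlib
import Pool.Agent.UTM.ColsLower

/-!
Total variation distance of the last columns and its mixing time.
-/
set_option autoImplicit false
set_option linter.unusedSectionVars false

namespace Pool.Agent.UTM.Es

open Finset Filter Topology

variable {K : (n : ℕ) → Matrix (Mat n) (Mat n) ℝ}

/-- the weight of the uniform law -/
noncomputable def piw {n : ℕ} (B : Mat n) : ℝ := if IsUni B then (1 / 2 : ℝ) ^ (n * (n - 1) / 2) else 0

lemma sum_piw {n : ℕ} (f : Mat n → ℝ) : ∑ B, piw B * f B = avU f := by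
  unfold avU Uni
  rw [Finset.sum_filter, Finset.mul_sum]
  apply Finset.sum_congr rfl
  intro B _
  have h := card_Uni n
  unfold Uni at h
  rw [h]
  unfold piw
  split_ifs
  · push_cast
    rw [one_div, inv_pow]
  · simp

/-- the last `k` columns -/
def cols {n : ℕ} (k : ℕ) (B : Mat n) : Fin n → Fin k → ZMod 2 :=
  fun i c => if h : n - k + c.val < n then B i ⟨n - k + c.val, h⟩ else 0

/-- agreement of `B` with `C` on the last `k` columns -/
def Agr {n k : ℕ} (B : Mat n) (C : Fin n → Fin k → ZMod 2) : Prop :=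
  ∀ (i j : Fin n) (c : Fin k), j.val + k = n + c.val → B i j = C i c

lemma agr_iff {n k : ℕ} (hk : k ≤ n) (B : Mat n) (C : Fin n → Fin k → ZMod 2) :
    Agr B C ↔ C = cols k B := by
  constructor
  · intro h
    funext i c
    have hc := c.isLt
    unfold cols
    rw [dif_pos (by omega), h i ⟨n - k + c.val, by omega⟩ c (by simp only; omega)]
  · intro h i j c hjc
    have hc := c.isLt
    rw [h]
    unfold cols
    rw [dif_pos (by omega)]
    congr 1
    apply Fin.ext
    simp only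
    omega

open Classical in
/-- signed mass of a configuration of the last `k` columns -/
noncomputable def xx (K : (n : ℕ) → Matrix (Mat n) (Mat n) ℝ) {n : ℕ} (k : ℕ) (t : ℝ) (A : Mat n)
    (C : Fin n → Fin k → ZMod 2) : ℝ :=
  ∑ B : Mat n, if Agr B C then law K n t A B - piw B else 0

/-- total variation distance of the last `k` columns to equilibrium -/
noncomputable def dC (K : (n : ℕ) → Matrix (Mat n) (Mat n) ℝ) (n k : ℕ) (t : ℝ) (A : Mat n) : ℝ :=
  (1 / 2 : ℝ) * ∑ C : Fin n → Fin k → ZMod 2, |xx K k t A C|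

lemma sum_xx (hK : IsKernel K) {n k : ℕ} (hn : 2 ≤ n) (hk : k ≤ n) (t : ℝ) (A : Mat n)
    (f : (Fin n → Fin k → ZMod 2) → ℝ) :
    ∑ C, f C * xx K k t A C = heat (LM n) t (fun B => f (cols k B)) A - avU (fun B : Mat n => f (cols k B)) := by
  classical
  rw [← sum_law hK n hn, ← sum_piw, ← Finset.sum_sub_distrib]
  unfold xx
  simp only [Finset.mul_sum]
  rw [Finset.sum_comm]
  apply Finset.sum_congr rfl
  intro B _
  have h1 : ∀ C ∈ (univ : Finset (Fin n → Fin k → ZMod 2)),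
      f C * (if Agr B C then law K n t A B - piw B else 0)
        = if C = cols k B then f C * (law K n t A B - piw B) else 0 := by
    intro C _
    by_cases h : C = cols k B
    · rw [if_pos h, if_pos ((agr_iff hk B C).mpr h)]
    · rw [if_neg h, if_neg (fun h' => h ((agr_iff hk B C).mp h')), mul_zero]
  rw [Finset.sum_congr rfl h1, Finset.sum_ite_eq', if_pos (mem_univ _)]
  ring

lemma dC_le (hK : IsKernel K) {n k : ℕ} (hn : 2 ≤ n) (hk : k ≤ n) (t : ℝ) (A : Mat n) (b : ℝ)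
    (h : ∀ F : Mat n → ℝ, Dep 0 k F → (∀ B, |F B| ≤ 1) → |heat (LM n) t F A - avU F| ≤ 2 * b) :
    dC K n k t A ≤ b := by
  classical
  set s : (Fin n → Fin k → ZMod 2) → ℝ := fun C => if 0 ≤ xx K k t A C then 1 else -1 with hs
  have h1 : ∑ C : Fin n → Fin k → ZMod 2, |xx K k t A C| = ∑ C, s C * xx K k t A C := by
    apply Finset.sum_congr rfl
    intro C _
    rw [hs]
    simp only
    split_ifs with h2
    · rw [abs_of_nonneg h2, one_mul]
    · rw [abs_of_neg (not_le.mp h2)]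
      ring
  have h2 := h (fun B => s (cols k B)) (by
    intro B B' hB
    have : cols k B = cols k B' := by
      funext i c
      unfold cols
      split_ifs with h3
      · exact hB i _ (by omega) (by simp only; omega)
      · rfl
    simp only
    rw [this]) (by
    intro B
    rw [hs]
    simp only
    split_ifs <;> simp)
  unfold dC
  rw [h1, sum_xx hK hn hk]
  have := (abs_le.mp h2).2
  linarith

lemma dC_ge (hK : IsKernel K) {n k : ℕ} (hn : 2 ≤ n) (hk : k ≤ n) (t : ℝ) (A : Mat n)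
    (f : (Fin n → Fin k → ZMod 2) → ℝ) (hf0 : ∀ C, 0 ≤ f C) (hf1 : ∀ C, f C ≤ 1) :
    heat (LM n) t (fun B => f (cols k B)) A - avU (fun B : Mat n => f (cols k B)) ≤ dC K n k t A := by
  rw [← sum_xx hK hn hk]
  have h0 : ∑ C : Fin n → Fin k → ZMod 2, (1 : ℝ) * xx K k t A C = 0 := by
    rw [sum_xx hK hn hk t A (fun _ => 1), heat_const (LM_one n)]
    have hc := card_Uni_pos n
    unfold avU
    rw [Finset.sum_const, nsmul_eq_mul, mul_one, inv_mul_cancel₀ hc.ne', sub_self]
  have h1 : ∑ C, f C * xx K k t A C = ∑ C, (f C - 1 / 2) * xx K k t A C := by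
    have h2 : ∑ C : Fin n → Fin k → ZMod 2, (f C - 1 / 2) * xx K k t A C
        = ∑ C, f C * xx K k t A C - 1 / 2 * ∑ C : Fin n → Fin k → ZMod 2, (1 : ℝ) * xx K k t A C := by
      rw [Finset.mul_sum, ← Finset.sum_sub_distrib]
      apply Finset.sum_congr rfl
      intro C _
      ring
    rw [h2, h0]
    ring
  rw [h1]
  unfold dC
  rw [Finset.mul_sum]
  apply Finset.sum_le_sum
  intro C _
  have h2 : |f C - 1 / 2| ≤ 1 / 2 := by
    rw [abs_le]
    constructor <;> linarith [hf0 C, hf1 C]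
  calc (f C - 1 / 2) * xx K k t A C ≤ |(f C - 1 / 2) * xx K k t A C| := le_abs_self _
    _ = |f C - 1 / 2| * |xx K k t A C| := abs_mul _ _
    _ ≤ 1 / 2 * |xx K k t A C| := mul_le_mul_of_nonneg_right h2 (abs_nonneg _)

/-- upper bound -/
theorem final_upper (hK : IsKernel K) (δ : ℝ) (hδ : 0 < δ) : ∃ c : ℝ, 0 < c ∧ ∀ ε : ℝ, 0 < ε →
    ∀ᶠ n : ℕ in atTop, ∀ k : ℕ, (k : ℝ) ≤ c * n → ∀ t : ℝ, (1 + δ) * n / vv ≤ t →
      ∀ A : Mat n, IsUni A → dC K n k t A ≤ ε := by
  obtain ⟨C, c₀, hC, hc₀, hb⟩ := cols_bound δ hδ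
  refine ⟨min 1 (c₀ / 2), lt_min one_pos (by positivity), ?_⟩
  intro ε hε
  have lim1 : Tendsto (fun n : ℕ => C * ((n : ℝ) * Real.exp (-(c₀ / 2 * (n : ℝ))))) atTop (𝓝 0) := by
    have h1 : Tendsto (fun x : ℝ => x ^ (1 : ℝ) * Real.exp (-(c₀ / 2) * x)) atTop (𝓝 0) :=
      tendsto_rpow_mul_exp_neg_mul_atTop_nhds_zero 1 (c₀ / 2) (by positivity)
    have h2 := (h1.comp tendsto_natCast_atTop_atTop).const_mul C
    simp only [mul_zero, Function.comp_def, Real.rpow_one] at h2
    convert h2 using 5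
    ring
  filter_upwards [lim1.eventually (gt_mem_nhds hε), eventually_ge_atTop 2] with n hn1 hn2 k hk t ht A hA
  have hn0 : (0 : ℝ) < n := by
    have : 0 < n := by omega
    exact_mod_cast this
  have hkn : k ≤ n := by
    have h1 : (k : ℝ) ≤ 1 * n := le_trans hk (mul_le_mul_of_nonneg_right (min_le_left _ _) hn0.le)
    rw [one_mul] at h1
    exact_mod_cast h1
  have hk2 : (k : ℝ) ≤ c₀ / 2 * n := le_trans hk (mul_le_mul_of_nonneg_right (min_le_right _ _) hn0.le)
  have h1 : dC K n k t A ≤ n * (2 ^ k * (C * Real.exp (-(c₀ * n)))) :=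
    dC_le hK hn2 hkn t A _ (fun F hF hF1 => hb n k (by omega) hkn F hF hF1 t ht A hA)
  refine le_trans h1 (le_trans ?_ hn1.le)
  have h2 : (2 : ℝ) ^ k ≤ Real.exp (c₀ / 2 * n) := by
    have h3 : (2 : ℝ) ≤ Real.exp 1 := by
      have := Real.add_one_le_exp (1 : ℝ)
      linarith
    calc (2 : ℝ) ^ k ≤ (Real.exp 1) ^ k := pow_le_pow_left₀ (by norm_num) h3 k
      _ = Real.exp k := by rw [← Real.exp_nat_mul, mul_one]
      _ ≤ Real.exp (c₀ / 2 * n) := Real.exp_le_exp.mpr hk2
  have h3 : Real.exp (c₀ / 2 * n) * Real.exp (-(c₀ * n)) = Real.exp (-(c₀ / 2 * (n : ℝ))) := by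
    rw [← Real.exp_add]
    congr 1
    ring
  calc (n : ℝ) * (2 ^ k * (C * Real.exp (-(c₀ * n))))
      ≤ (n : ℝ) * (Real.exp (c₀ / 2 * n) * (C * Real.exp (-(c₀ * n)))) := by
        apply mul_le_mul_of_nonneg_left _ hn0.le
        exact mul_le_mul_of_nonneg_right h2 (by positivity)
    _ = C * ((n : ℝ) * (Real.exp (c₀ / 2 * n) * Real.exp (-(c₀ * n)))) := by ring
    _ = C * ((n : ℝ) * Real.exp (-(c₀ / 2 * (n : ℝ)))) := by rw [h3]

/-- lower bound -/
theorem final_lower (hK : IsKernel K) (δ : ℝ) (hδ : 0 < δ) (ε : ℝ) (hε : 0 < ε) :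
    ∀ᶠ n : ℕ in atTop, ∀ k : ℕ, 1 ≤ k → k ≤ n → ∀ t : ℝ, 0 ≤ t → t ≤ (1 - δ) * n / vv →
      1 - ε < dC K n k t 1 := by
  obtain ⟨κ, h⟩ := cols_lower δ hδ ε hε
  filter_upwards [h, eventually_ge_atTop 2] with n hn hn2 k hk1 hkn t ht0 ht
  have h1 := hn t ht0 ht
  refine lt_of_lt_of_le h1 ?_
  set f : (Fin n → Fin k → ZMod 2) → ℝ := fun C =>
    slow (n - κ) (mk n fun s => if h : n - 1 - s < n then C ⟨n - 1 - s, h⟩ ⟨k - 1, by omega⟩ else 0)
    with hf
  have h2 : (fun B : Mat n => slow (n - κ) (col B)) = fun B => f (cols k B) := by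
    funext B
    rw [hf]
    simp only
    congr 1
    apply Y_ext
    intro s hs
    unfold col
    rw [cf_mk, cf_mk, if_pos hs, if_pos hs]
    unfold lc cols
    rw [dif_pos (by omega), dif_pos (by omega), dif_pos (by simp only; omega)]
    congr 1
    apply Fin.ext
    simp only
    omega
  rw [h2]
  exact dC_ge hK hn2 hkn t 1 f (fun C => slow_nonneg _ _) (fun C => slow_le_one _ _)

end Pool.Agent.UTM.Es
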