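import Mathlib
import Pool.Agent.UTM.Recur
import Pool.Agent.UTM.MatHeat

/-!
The exponential moments of the dimensions from a general starting matrix.
-/
set_option autoImplicit false
set_option linter.unusedSectionVars false

namespace Pool.Agent.UTM.Es

open Finset

/-- expectation after `T` steps started at `A₀` -/
noncomputable def exA (K : (n : ℕ) → Matrix (Mat n) (Mat n) ℝ) (n T : ℕ) (f : Mat n → ℝ) (A₀ : Mat n) : ℝ :=
  (Matrix.mulVec ((K n) ^ T) f) A₀

lemma exA_zero {K : (n : ℕ) → Matrix (Mat n) (Mat n) ℝ} (n : ℕ) (f : Mat n → ℝ) (A₀ : Mat n) :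
    exA K n 0 f A₀ = f A₀ := by
  simp [exA]

lemma exA_succ {K : (n : ℕ) → Matrix (Mat n) (Mat n) ℝ} (n T : ℕ) (f : Mat n → ℝ) (A₀ : Mat n) :
    exA K n (T + 1) f A₀ = exA K n T (Matrix.mulVec (K n) f) A₀ := by
  unfold exA
  rw [pow_succ, Matrix.mulVec_mulVec]

lemma exA_mono {K : (n : ℕ) → Matrix (Mat n) (Mat n) ℝ} (hK : IsKernel K) (n : ℕ) (hn : 1 ≤ n) (T : ℕ)
    (A₀ : Mat n) {f g : Mat n → ℝ} (h : ∀ A, f A ≤ g A) : exA K n T f A₀ ≤ exA K n T g A₀ := by
  unfold exA Matrix.mulVec dotProduct
  apply Finset.sum_le_sum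
  intro B _
  exact mul_le_mul_of_nonneg_left (h B) (pow_nonneg' hK n hn T A₀ B)

lemma exA_add {K : (n : ℕ) → Matrix (Mat n) (Mat n) ℝ} (n T : ℕ) (A₀ : Mat n) (f g : Mat n → ℝ) :
    exA K n T (fun A => f A + g A) A₀ = exA K n T f A₀ + exA K n T g A₀ := by
  unfold exA Matrix.mulVec dotProduct
  rw [← Finset.sum_add_distrib]
  apply Finset.sum_congr rfl
  intro B _
  ring

lemma exA_smul {K : (n : ℕ) → Matrix (Mat n) (Mat n) ℝ} (n T : ℕ) (A₀ : Mat n) (a : ℝ) (f : Mat n → ℝ) :
    exA K n T (fun A => a * f A) A₀ = a * exA K n T f A₀ := by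
  unfold exA Matrix.mulVec dotProduct
  rw [Finset.mul_sum]
  apply Finset.sum_congr rfl
  intro B _
  ring

lemma exA_sum {K : (n : ℕ) → Matrix (Mat n) (Mat n) ℝ} (n T : ℕ) (A₀ : Mat n) {ι : Type*}
    (s : Finset ι) (f : ι → Mat n → ℝ) :
    exA K n T (fun A => ∑ i ∈ s, f i A) A₀ = ∑ i ∈ s, exA K n T (f i) A₀ := by
  unfold exA Matrix.mulVec dotProduct
  rw [Finset.sum_comm]
  apply Finset.sum_congr rfl
  intro B _
  rw [Finset.mul_sum]

lemma exA_one {K : (n : ℕ) → Matrix (Mat n) (Mat n) ℝ} (hK : IsKernel K) (n : ℕ) (hn : 2 ≤ n) (T : ℕ)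
    (A₀ : Mat n) : exA K n T (fun _ => 1) A₀ = 1 := by
  induction T with
  | zero => rw [exA_zero]
  | succ T ih => rw [exA_succ, mulVec_one hK n hn, ih]

lemma exA_const {K : (n : ℕ) → Matrix (Mat n) (Mat n) ℝ} (hK : IsKernel K) (n : ℕ) (hn : 2 ≤ n) (T : ℕ)
    (A₀ : Mat n) (c : ℝ) : exA K n T (fun _ => c) A₀ = c := by
  have h := exA_smul (K := K) n T A₀ c (fun _ => 1)
  rw [exA_one hK n hn, mul_one] at h
  simpa using h

/-- growth in discrete time gives growth in continuous time -/
lemma heat_growth {K : (n : ℕ) → Matrix (Mat n) (Mat n) ℝ} (hK : IsKernel K) (n : ℕ) (hn : 2 ≤ n)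
    {t : ℝ} (ht : 0 ≤ t) (f : Mat n → ℝ) (A₀ : Mat n) (D c : ℝ)
    (h : ∀ T, exA K n T f A₀ ≤ D * (1 + c / ((n : ℝ) - 1)) ^ T) :
    heat (LM n) t f A₀ ≤ D * Real.exp (c * t) := by
  have hn1 : (0 : ℝ) < (n : ℝ) - 1 := by
    have h2 : (2 : ℝ) ≤ n := by exact_mod_cast hn
    linarith
  have h0 := hasSum_heat_shift (LM n) _ ((n : ℝ) - 1) rfl t f
  have h1 := (ContinuousLinearMap.proj (R := ℝ) (φ := fun _ : Mat n => ℝ) A₀).hasSum h0
  have h2 := (hasSum_pw_pow (((n : ℝ) - 1) * t) (1 + c / ((n : ℝ) - 1))).mul_left D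
  have h3 : -(((n : ℝ) - 1) * t) + ((n : ℝ) - 1) * t * (1 + c / ((n : ℝ) - 1)) = c * t := by
    field_simp
    ring
  rw [h3] at h2
  refine hasSum_le (fun k => ?_) h1 h2
  change ((Real.exp (-(((n : ℝ) - 1) * t)) * t ^ k / (k.factorial : ℝ)) •
      ((LM n + ((n : ℝ) - 1) • (1 : Opr (Mat n))) ^ k) f) A₀ ≤ _
  rw [LM_shift_pow hK n hn, smul_smul, Pi.smul_apply, smul_eq_mul]
  have h4 := pw_nonneg (nt_nonneg n hn ht) k
  have h5 := mul_le_mul_of_nonneg_left (h k) h4
  have e : Real.exp (-(((n : ℝ) - 1) * t)) * t ^ k / (k.factorial : ℝ) * ((n : ℝ) - 1) ^ k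
      = pw (((n : ℝ) - 1) * t) k := by
    unfold pw
    rw [mul_pow]
    ring
  rw [e]
  unfold exA at h5
  linarith

/-- The exponential moment bound. -/
theorem moment2 {K : (n : ℕ) → Matrix (Mat n) (Mat n) ℝ} (hK : IsKernel K) (n p q : ℕ) (hn : 2 ≤ n)
    (hp : p ≤ n) (hq' : q ≤ p) (A₀ : Mat n) (hA₀ : ∀ i < q, rowf p A₀ i = 0) (T : ℕ) :
    ∀ (x k : ℕ), k < 1001 →
      exA K n T (Fm n p x k) A₀
        ≤ Real.exp (th * 8) * (1 + Pool.Agent.UTM.kap / ((n : ℝ) - 1)) ^ T * Ph q x k := by
  have hth := th_pos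
  have hn1 : (0 : ℝ) < (n : ℝ) - 1 := by
    have h2 : (2 : ℝ) ≤ n := by exact_mod_cast hn
    linarith
  have hq : 1 ≤ 1 + Pool.Agent.UTM.kap / ((n : ℝ) - 1) := by
    have := div_pos Pool.Agent.UTM.kap_pos hn1
    linarith
  have hPh : ∀ x k, 0 < Ph q x k := by
    intro x k
    unfold Ph
    positivity
  induction T with
  | zero =>
      intro x k hk
      rw [exA_zero, pow_zero, mul_one]
      unfold Fm Ph
      have h1 := rk_le_crude (rowf p A₀) x q (gens k) hA₀
      have h2 := gens_length k
      rw [mul_add, ← Real.exp_add, ← Real.exp_add]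
      by_cases hx : q ≤ x
      · have h3 : (rk (rowf p A₀) x (gens k) : ℝ) ≤ (x : ℝ) - (q : ℝ) + 7 := by
          have : rk (rowf p A₀) x (gens k) + q ≤ x + 7 := by omega
          have h4 : ((rk (rowf p A₀) x (gens k) + q : ℕ) : ℝ) ≤ ((x + 7 : ℕ) : ℝ) := by
            exact_mod_cast this
          push_cast at h4
          linarith
        have h5 : Real.exp (th * (rk (rowf p A₀) x (gens k) : ℝ))
            ≤ Real.exp (th * 8 + th * (v1 k + (x : ℝ) - (q : ℝ))) := by
          apply Real.exp_le_exp.mpr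
          have h6 := v1_nonneg k
          rw [← mul_add]
          apply mul_le_mul_of_nonneg_left _ hth.le
          linarith
        have h7 := Real.exp_pos (th * 8 + th * v0 k)
        linarith
      · have h3 : (rk (rowf p A₀) x (gens k) : ℝ) ≤ 7 := by
          have : rk (rowf p A₀) x (gens k) ≤ 7 := by omega
          exact_mod_cast this
        have h5 : Real.exp (th * (rk (rowf p A₀) x (gens k) : ℝ))
            ≤ Real.exp (th * 8 + th * v0 k) := by
          apply Real.exp_le_exp.mpr
          have h6 := v0_nonneg k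
          rw [← mul_add]
          apply mul_le_mul_of_nonneg_left _ hth.le
          linarith
        have h7 := Real.exp_pos (th * 8 + th * (v1 k + (x : ℝ) - (q : ℝ)))
        linarith
  | succ T ih =>
      intro x k hk
      by_cases hx0 : x = 0
      · -- deterministic bound at the left boundary
        subst hx0
        have h0 : exA K n (T + 1) (Fm n p 0 k) A₀ ≤ exA K n (T + 1) (fun _ => Real.exp (th * 8)) A₀ := by
          apply exA_mono hK n (by omega) (T + 1) A₀
          intro A
          unfold Fm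
          apply Real.exp_le_exp.mpr
          apply mul_le_mul_of_nonneg_left _ hth.le
          have h1 := rk_le_crude (rowf p A) 0 0 (gens k) (fun i hi => absurd hi (by omega))
          have h2 := gens_length k
          have h3 : rk (rowf p A) 0 (gens k) ≤ 8 := by omega
          exact_mod_cast h3
        rw [exA_const hK n hn] at h0
        refine le_trans h0 ?_
        have h1 : 1 ≤ Ph q 0 k := by
          unfold Ph
          have h2 : 1 ≤ Real.exp (th * v0 k) :=
            Real.one_le_exp (mul_nonneg hth.le (v0_nonneg k))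
          have h3 := Real.exp_pos (th * (v1 k + ((0 : ℕ) : ℝ) - (q : ℝ)))
          linarith
        have h2 : 1 ≤ (1 + Pool.Agent.UTM.kap / ((n : ℝ) - 1)) ^ (T + 1) := one_le_pow₀ hq
        have h3 : 1 ≤ (1 + Pool.Agent.UTM.kap / ((n : ℝ) - 1)) ^ (T + 1) * Ph q 0 k := by nlinarith
        rw [mul_assoc]
        have h4 := Real.exp_pos (th * 8)
        nlinarith
      · by_cases hxn : n ≤ x + 8
        · -- deterministic bound at the right boundary
          have h0 : exA K n (T + 1) (Fm n p x k) A₀
              ≤ exA K n (T + 1) (fun _ => Real.exp (th * 8 + th * (v1 k + (x : ℝ) - (q : ℝ)))) A₀ := by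
            apply exA_mono hK n (by omega) (T + 1) A₀
            intro A
            unfold Fm
            apply Real.exp_le_exp.mpr
            rw [← mul_add]
            apply mul_le_mul_of_nonneg_left _ hth.le
            have h1 := rk_le_cols p A x (gens k)
            have h3 : rk (rowf p A) x (gens k) + q ≤ x + 8 := by omega
            have h4 : ((rk (rowf p A) x (gens k) + q : ℕ) : ℝ) ≤ ((x + 8 : ℕ) : ℝ) := by
              exact_mod_cast h3
            push_cast at h4
            have h5 := v1_nonneg k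
            linarith
          rw [exA_const hK n hn, Real.exp_add] at h0
          refine le_trans h0 ?_
          have h1 : Real.exp (th * (v1 k + (x : ℝ) - (q : ℝ))) ≤ Ph q x k := by
            unfold Ph
            have h3 := Real.exp_pos (th * v0 k)
            linarith
          have h2 : 1 ≤ (1 + Pool.Agent.UTM.kap / ((n : ℝ) - 1)) ^ (T + 1) := one_le_pow₀ hq
          have h3 : Ph q x k ≤ (1 + Pool.Agent.UTM.kap / ((n : ℝ) - 1)) ^ (T + 1) * Ph q x k := by
            have := hPh x k
            nlinarith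
          rw [mul_assoc]
          apply mul_le_mul_of_nonneg_left _ (Real.exp_pos _).le
          linarith
        · -- the bulk
          obtain ⟨y, hy⟩ : ∃ y, x = y + 1 := ⟨x - 1, by omega⟩
          obtain ⟨r, hr⟩ : ∃ r, n - 1 = y + 9 + r := ⟨n - 1 - (y + 9), by omega⟩
          subst hy
          rw [exA_succ]
          have h0 := exA_mono hK n (by omega) T A₀ (step_bulk hK n p y r k hr hk)
          refine le_trans h0 ?_
          rw [exA_add, exA_smul, exA_smul, exA_add, exA_smul, exA_sum]
          have e1 : ∀ cl ∈ range 9, exA K n T (fun A => ∑ j ∈ range 2,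
              (1 / 2 * Real.exp (th * (trA k cl j : ℝ))) * Fm n p (y + trS k cl j) (trK k cl j) A) A₀
              ≤ ∑ j ∈ range 2, (1 / 2 * Real.exp (th * (trA k cl j : ℝ)))
                * (Real.exp (th * 8) * (1 + Pool.Agent.UTM.kap / ((n : ℝ) - 1)) ^ T
                    * Ph q (y + trS k cl j) (trK k cl j)) := by
            intro cl hcl
            rw [mem_range] at hcl
            rw [exA_sum]
            apply Finset.sum_le_sum
            intro j hj
            rw [mem_range] at hj
            rw [exA_smul]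
            apply mul_le_mul_of_nonneg_left
            · exact ih _ _ (trK_lt hk hcl hj)
            · have := Real.exp_pos (th * (trA k cl j : ℝ))
              positivity
          have e2 := Finset.sum_le_sum e1
          have e3 := ih (y + 1) k hk
          have e4 := stepPh hk y q
          set D : ℝ := Real.exp (th * 8) * (1 + Pool.Agent.UTM.kap / ((n : ℝ) - 1)) ^ T with hD
          have hDpos : 0 < D := by
            rw [hD]
            have := Real.exp_pos (th * 8)
            positivity
          have e5 : ∑ cl ∈ range 9, ∑ j ∈ range 2, (1 / 2 * Real.exp (th * (trA k cl j : ℝ)))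
                * (D * Ph q (y + trS k cl j) (trK k cl j))
              = D / 2 * ∑ cl ∈ range 9, ∑ j ∈ range 2, Real.exp (th * (trA k cl j : ℝ))
                * Ph q (y + trS k cl j) (trK k cl j) := by
            rw [Finset.mul_sum]
            apply Finset.sum_congr rfl
            intro cl _
            rw [Finset.mul_sum]
            apply Finset.sum_congr rfl
            intro j _
            ring
          rw [e5] at e2
          have e6 : D / 2 * ∑ cl ∈ range 9, ∑ j ∈ range 2, Real.exp (th * (trA k cl j : ℝ))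
                * Ph q (y + trS k cl j) (trK k cl j) ≤ D / 2 * ((18 + 4 * Pool.Agent.UTM.kap) * Ph q (y + 1) k) :=
            mul_le_mul_of_nonneg_left e4 (by positivity)
          have hyr : ((y + r : ℕ) : ℝ) = (n : ℝ) - 1 - 9 := by
            have h1 : n = y + r + 10 := by omega
            have h2 : (n : ℝ) = ((y + r : ℕ) : ℝ) + 10 := by
              rw [h1]
              push_cast
              ring
            linarith
          have hyr0 : (0 : ℝ) ≤ ((y + r : ℕ) : ℝ) := Nat.cast_nonneg _
          have e7 : ((y + r : ℕ) : ℝ) * exA K n T (Fm n p (y + 1) k) A₀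
              ≤ ((y + r : ℕ) : ℝ) * (D * Ph q (y + 1) k) := mul_le_mul_of_nonneg_left e3 hyr0
          have hc : (0 : ℝ) ≤ 1 / (2 * ((n : ℝ) - 1)) := by positivity
          have e8 := mul_le_mul_of_nonneg_left (add_le_add e7 (le_trans e2 e6)) hc
          have e9 : 1 / 2 * exA K n T (Fm n p (y + 1) k) A₀ ≤ 1 / 2 * (D * Ph q (y + 1) k) := by linarith
          refine le_trans (add_le_add e9 e8) (le_of_eq ?_)
          rw [hyr, pow_succ, hD]
          field_simp
          ring

end Pool.Agent.UTM.Es
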