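import Mathlib
import Pool.Agent.UTM.Uniform
import Pool.Agent.UTM.MatCols

/-!
The uniform measure: upper right blocks of general shape have almost full rank.
-/
set_option autoImplicit false
set_option linter.unusedSectionVars false

namespace Pool.Agent.UTM.Es

open Finset

/-- linear combinations of the first `q` rows, columns from `p` on -/
def cmb {n : ℕ} (p q : ℕ) (B : Mat n) (a : Fin q → ZMod 2) : Fin (n - p) → ZMod 2 :=
  ∑ i : Fin q, a i • rowf p B i.val

lemma cmb_shiftM {n : ℕ} (p q : ℕ) (hp : p ≤ n) (hq : q ≤ p) (i : Fin q) (w : Fin (n - p) → ZMod 2)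
    (B : Mat n) (a : Fin q → ZMod 2) (ha : a i = 1) :
    cmb p q (shiftM p i.val w B) a = cmb p q B a + w := by
  unfold cmb
  have hi := i.isLt
  have h1 : ∀ j : Fin q, a j • rowf p (shiftM p i.val w B) j.val
      = a j • rowf p B j.val + if j = i then w else 0 := by
    intro j
    rw [rowf_shiftM p i.val (by omega) w B j.val, smul_add]
    congr 1
    by_cases hj : j = i
    · rw [if_pos hj, hj, if_pos rfl, ha, one_smul]
    · rw [if_neg hj, if_neg (fun h => hj (Fin.ext h)), smul_zero]
  rw [Finset.sum_congr rfl (fun j _ => h1 j), Finset.sum_add_distrib]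
  congr 1
  simp

lemma card_cmb_zero {n : ℕ} (p q : ℕ) (hp : p ≤ n) (hq : q ≤ p) (a : Fin q → ZMod 2) (ha : a ≠ 0) :
    ((Uni n).filter (fun B => cmb p q B a = 0)).card * 2 ^ (n - p) ≤ (Uni n).card := by
  obtain ⟨i, hi⟩ : ∃ i, a i ≠ 0 := by
    by_contra h
    rw [not_exists] at h
    exact ha (funext fun i => not_not.mp (h i))
  have hi1 : a i = 1 := by
    generalize a i = z at hi
    revert hi
    revert z
    decide
  have hiq := i.isLt
  have h1 : ((Uni n).filter (fun B => cmb p q B a = 0)).card * 2 ^ (n - p)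
      = (((Uni n).filter (fun B => cmb p q B a = 0)) ×ˢ (univ : Finset (Fin (n - p) → ZMod 2))).card := by
    rw [card_product, card_univ, Fintype.card_fun, ZMod.card, Fintype.card_fin]
  rw [h1]
  apply Finset.card_le_card_of_injOn (fun r => shiftM p i.val r.2 r.1)
  · intro r hr
    rw [Finset.mem_coe, mem_product, mem_filter] at hr
    rw [Finset.mem_coe]
    unfold Uni at hr ⊢
    rw [mem_filter] at hr ⊢
    exact ⟨mem_univ _, isUni_shiftM p (⟨i.val, by omega⟩ : Fin p) r.2 r.1 hr.1.1.2⟩
  · intro r hr r' hr' h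
    rw [Finset.mem_coe, mem_product, mem_filter] at hr hr'
    have e1 : cmb p q (shiftM p i.val r.2 r.1) a = r.2 := by
      rw [cmb_shiftM p q hp hq i r.2 r.1 a hi1, hr.1.2, zero_add]
    have e2 : cmb p q (shiftM p i.val r'.2 r'.1) a = r'.2 := by
      rw [cmb_shiftM p q hp hq i r'.2 r'.1 a hi1, hr'.1.2, zero_add]
    have h3 : shiftM p i.val r.2 r.1 = shiftM p i.val r'.2 r'.1 := h
    have e3 : r.2 = r'.2 := by rw [← e1, ← e2, h3]
    have e4 : r.1 = r'.1 := by
      funext b c
      have h5 := congrFun (congrFun h3 b) c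
      simp only [shiftM] at h5
      rw [e3] at h5
      exact add_right_cancel h5
    exact Prod.ext e4 e3

lemma sum_card_cmb {n : ℕ} (p q : ℕ) (hp : p ≤ n) (hq : q ≤ p) (hqn : q ≤ n - p) :
    ∑ B ∈ Uni n, (univ.filter (fun a : Fin q → ZMod 2 => cmb p q B a = 0)).card ≤ 2 * (Uni n).card := by
  have h1 : ∑ B ∈ Uni n, (univ.filter (fun a : Fin q → ZMod 2 => cmb p q B a = 0)).card
      = ∑ a : Fin q → ZMod 2, ((Uni n).filter (fun B => cmb p q B a = 0)).card := by
    simp only [Finset.card_filter]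
    rw [Finset.sum_comm]
  rw [h1, ← Finset.add_sum_erase univ _ (mem_univ (0 : Fin q → ZMod 2))]
  have h2 : ((Uni n).filter (fun B => cmb p q B (0 : Fin q → ZMod 2) = 0)).card ≤ (Uni n).card :=
    Finset.card_filter_le _ _
  have h3 : (∑ a ∈ univ.erase (0 : Fin q → ZMod 2), ((Uni n).filter (fun B => cmb p q B a = 0)).card)
      * 2 ^ (n - p) ≤ 2 ^ (n - p) * (Uni n).card := by
    rw [Finset.sum_mul]
    calc ∑ a ∈ univ.erase (0 : Fin q → ZMod 2),
          ((Uni n).filter (fun B => cmb p q B a = 0)).card * 2 ^ (n - p)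
        ≤ ∑ a ∈ univ.erase (0 : Fin q → ZMod 2), (Uni n).card := by
          apply Finset.sum_le_sum
          intro a ha
          exact card_cmb_zero p q hp hq a (Finset.ne_of_mem_erase ha)
      _ = (univ.erase (0 : Fin q → ZMod 2)).card * (Uni n).card := by
          rw [Finset.sum_const, smul_eq_mul]
      _ ≤ 2 ^ (n - p) * (Uni n).card := by
          apply Nat.mul_le_mul_right
          calc (univ.erase (0 : Fin q → ZMod 2)).card ≤ (univ : Finset (Fin q → ZMod 2)).card :=
                Finset.card_erase_le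
            _ = 2 ^ q := by rw [card_univ, Fintype.card_fun, ZMod.card, Fintype.card_fin]
            _ ≤ 2 ^ (n - p) := Nat.pow_le_pow_right (by norm_num) hqn
  have h4 : (∑ a ∈ univ.erase (0 : Fin q → ZMod 2), ((Uni n).filter (fun B => cmb p q B a = 0)).card)
      ≤ (Uni n).card := by
    rw [mul_comm] at h3
    exact Nat.le_of_mul_le_mul_left h3 (by positivity)
  omega

lemma card_ker_ge2 {n : ℕ} (p q : ℕ) (B : Mat n) (k : ℕ) (h : rk (rowf p B) q [] + k ≤ q) :
    2 ^ k ≤ (univ.filter (fun a : Fin q → ZMod 2 => cmb p q B a = 0)).card := by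
  classical
  let φ : (Fin q → ZMod 2) →ₗ[ZMod 2] (Fin (n - p) → ZMod 2) :=
    Fintype.linearCombination (ZMod 2) (fun i : Fin q => rowf p B i.val)
  have hφ : ∀ a, φ a = cmb p q B a := by
    intro a
    rw [Fintype.linearCombination_apply]
    rfl
  have h1 : LinearMap.range φ ≤ sp (rowf p B) q [] := by
    rintro _ ⟨a, rfl⟩
    rw [hφ]
    unfold cmb
    apply Submodule.sum_mem
    intro i _
    apply Submodule.smul_mem
    exact row_mem _ _ i.isLt
  have h2 : Module.finrank (ZMod 2) (LinearMap.range φ) ≤ rk (rowf p B) q [] := finrank_mono' h1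
  have h3 := LinearMap.finrank_range_add_finrank_ker φ
  rw [Module.finrank_fin_fun] at h3
  have h4 : k ≤ Module.finrank (ZMod 2) (LinearMap.ker φ) := by omega
  have h5 : Fintype.card (LinearMap.ker φ) = 2 ^ Module.finrank (ZMod 2) (LinearMap.ker φ) := by
    have := Module.card_eq_pow_finrank (K := ZMod 2) (V := LinearMap.ker φ)
    rw [ZMod.card] at this
    exact this
  have h6 : (univ.filter (fun a : Fin q → ZMod 2 => cmb p q B a = 0)).card
      = Fintype.card (LinearMap.ker φ) := by
    rw [← Fintype.card_coe]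
    apply Fintype.card_congr
    refine Equiv.subtypeEquivRight ?_
    intro a
    rw [mem_filter, LinearMap.mem_ker, hφ]
    simp
  rw [h6, h5]
  exact Nat.pow_le_pow_right (by norm_num) h4

/-- few unitriangular matrices have an upper right block of small rank -/
lemma card_bad2 {n : ℕ} (p q : ℕ) (hp : p ≤ n) (hq : q ≤ p) (hqn : q ≤ n - p) (k : ℕ) :
    ((Uni n).filter (fun B => rk (rowf p B) q [] + k ≤ q)).card * 2 ^ k ≤ 2 * (Uni n).card := by
  refine le_trans ?_ (sum_card_cmb p q hp hq hqn)
  calc ((Uni n).filter (fun B => rk (rowf p B) q [] + k ≤ q)).card * 2 ^ k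
      = ∑ B ∈ (Uni n).filter (fun B => rk (rowf p B) q [] + k ≤ q), 2 ^ k := by
        rw [Finset.sum_const, smul_eq_mul]
    _ ≤ ∑ B ∈ (Uni n).filter (fun B => rk (rowf p B) q [] + k ≤ q),
          (univ.filter (fun a : Fin q → ZMod 2 => cmb p q B a = 0)).card := by
        apply Finset.sum_le_sum
        intro B hB
        rw [mem_filter] at hB
        exact card_ker_ge2 p q B k hB.2
    _ ≤ _ := by
        apply Finset.sum_le_sum_of_subset
        exact Finset.filter_subset _ _

open Classical in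
/-- indicator of a block of rank larger than `q - k` -/
noncomputable def bigR {n : ℕ} (p q k : ℕ) (B : Mat n) : ℝ := if q < rk (rowf p B) q [] + k then 1 else 0

lemma avU_bigR {n : ℕ} (p q : ℕ) (hp : p ≤ n) (hq : q ≤ p) (hqn : q ≤ n - p) (k : ℕ) :
    1 - 2 * (1 / 2 : ℝ) ^ k ≤ avU (bigR (n := n) p q k) := by
  classical
  have hc := card_Uni_pos n
  have h1 := card_bad2 (n := n) p q hp hq hqn k
  have h2 : avU (bigR (n := n) p q k)
      = 1 - ((Uni n).card : ℝ)⁻¹ * ((((Uni n).filter (fun B => rk (rowf p B) q [] + k ≤ q)).card : ℕ) : ℝ) := by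
    unfold avU
    have h3 : ∑ B ∈ Uni n, bigR p q k B
        = ((Uni n).card : ℝ) - ((((Uni n).filter (fun B => rk (rowf p B) q [] + k ≤ q)).card : ℕ) : ℝ) := by
      have h4 : ∀ B ∈ Uni n, bigR p q k B = 1 - (if rk (rowf p B) q [] + k ≤ q then (1 : ℝ) else 0) := by
        intro B _
        unfold bigR
        by_cases h : rk (rowf p B) q [] + k ≤ q
        · rw [if_neg (by omega), if_pos h]
          norm_num
        · rw [if_pos (by omega), if_neg h]
          norm_num
      rw [Finset.sum_congr rfl h4, Finset.sum_sub_distrib, Finset.sum_const, nsmul_eq_mul, mul_one,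
        ← Finset.sum_filter, Finset.sum_const, nsmul_eq_mul, mul_one]
    rw [h3, mul_sub, inv_mul_cancel₀ hc.ne']
  rw [h2]
  have h3 : ((((Uni n).filter (fun B => rk (rowf p B) q [] + k ≤ q)).card : ℕ) : ℝ) * 2 ^ k
      ≤ 2 * ((Uni n).card : ℝ) := by exact_mod_cast h1
  have h4 : ((Uni n).card : ℝ)⁻¹ * ((((Uni n).filter (fun B => rk (rowf p B) q [] + k ≤ q)).card : ℕ) : ℝ)
      ≤ 2 * (1 / 2 : ℝ) ^ k := by
    rw [inv_mul_le_iff₀ hc, one_div, inv_pow]
    have h5 : ((((Uni n).filter (fun B => rk (rowf p B) q [] + k ≤ q)).card : ℕ) : ℝ)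
        ≤ 2 * ((Uni n).card : ℝ) / 2 ^ k := by
      rw [le_div_iff₀ (by positivity)]
      exact h3
    refine le_trans h5 (le_of_eq ?_)
    field_simp
  linarith

end Pool.Agent.UTM.Es
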