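import Mathlib
import Pool.Agent.UTM.ColsFinal
import Pool.Agent.UTM.Recur2
import Pool.Agent.UTM.Uniform2
import Pool.Agent.UTM.Lower

/-!
A positive fraction of the columns is not mixed at time `n / v`.
-/
set_option autoImplicit false
set_option linter.unusedSectionVars false

namespace Pool.Agent.UTM.Es

open Finset Filter Topology

variable {K : (n : ℕ) → Matrix (Mat n) (Mat n) ℝ}

/-- entry, zero outside -/
def ent {n : ℕ} (B : Mat n) (a b : ℕ) : ZMod 2 :=
  if h : a < n ∧ b < n then B ⟨a, h.1⟩ ⟨b, h.2⟩ else 0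

lemma ent_rop {n : ℕ} (B : Mat n) (l a b : ℕ) (hl : l + 1 < n) :
    ent (rop l B) a b = ent B a b + if a = l then ent B (l + 1) b else 0 := by
  unfold ent
  by_cases hb : b < n
  · by_cases ha : a = l
    · subst ha
      rw [dif_pos ⟨by omega, hb⟩, dif_pos ⟨by omega, hb⟩, if_pos rfl, dif_pos ⟨hl, hb⟩]
      unfold rop
      rw [dif_pos hl, Matrix.updateRow_self, Pi.add_apply]
    · rw [if_neg ha, add_zero]
      split_ifs with h
      · unfold rop
        rw [dif_pos hl, Matrix.updateRow_ne]
        intro h2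
        apply ha
        have := congrArg Fin.val h2
        simpa using this
      · rfl
  · rw [dif_neg (fun h => hb h.2), dif_neg (fun h => hb h.2), dif_neg (fun h => hb h.2)]
    simp

/-- the column `j` read from the bottom -/
def colj {n : ℕ} (j : ℕ) (B : Mat n) : Y n := mk n fun s => ent B (n - 1 - s) j

lemma colj_rop {n : ℕ} (j : ℕ) (B : Mat n) (l : ℕ) (hl : l + 1 < n) :
    colj j (rop l B) = op (n - 2 - l) (colj j B) := by
  have hc : ∀ (C : Mat n) (s : ℕ), s < n → cf (colj j C) s = ent C (n - 1 - s) j := by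
    intro C s hs
    unfold colj
    rw [cf_mk, if_pos hs]
  apply Y_ext
  intro s hs
  rw [cf_op, hc _ s hs, hc _ s hs, hc _ (n - 2 - l) (by omega), ent_rop B l _ _ hl]
  congr 1
  by_cases h : n - 1 - s = l
  · rw [if_pos h, if_pos (show s = n - 2 - l + 1 ∧ s < n by omega),
      show n - 1 - (n - 2 - l) = l + 1 by omega]
  · rw [if_neg h, if_neg (by omega)]

lemma colj_intertwine (n j : ℕ) (G : Y n → ℝ) : LM n (pull (colj j) G) = pull (colj j) (LL n G) := by
  funext B
  rw [LM_apply, pull_apply, pull_apply, LL_apply]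
  rcases Nat.eq_zero_or_pos n with h0 | h0
  · subst h0
    rfl
  have h2 : ∑ k ∈ range n, 1 / 2 * (G (op k (colj j B)) - G (colj j B))
      = ∑ k ∈ range (n - 1), 1 / 2 * (G (op k (colj j B)) - G (colj j B)) := by
    rw [show range n = range ((n - 1) + 1) by congr 1; omega,
      Finset.sum_range_succ, op_ge (n - 1) _ (by omega), sub_self, mul_zero, add_zero]
  rw [h2, ← Finset.sum_range_reflect]
  apply Finset.sum_congr rfl
  intro k hk
  rw [mem_range] at hk
  rw [pull_apply, colj_rop j B _ (by omega)]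
  congr 4
  omega

lemma colj_one {n : ℕ} (j : ℕ) (hj : j < n) : colj j (1 : Mat n) = un (n - 1 - j) := by
  apply Y_ext
  intro s hs
  unfold colj
  rw [cf_mk, if_pos hs, cf_un]
  unfold ent
  rw [dif_pos ⟨by omega, hj⟩]
  by_cases h : s = n - 1 - j
  · rw [if_pos ⟨h, hs⟩]
    have e : (⟨n - 1 - s, by omega⟩ : Fin n) = ⟨j, hj⟩ := by
      apply Fin.ext
      simp only
      omega
    rw [e]
    exact Matrix.one_apply_eq _
  · rw [if_neg (fun h' => h h'.1)]
    apply Matrix.one_apply_ne
    intro h2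
    have := congrArg Fin.val h2
    simp at this
    omega

lemma colj_slow {n : ℕ} (j : ℕ) (hj : j < n) {t : ℝ} (ht : 0 ≤ t) (x : ℕ) (hx : n - 1 - j < x) :
    heat (LL (j + 1)) t (slow (x - (n - 1 - j))) (un 0)
      ≤ heat (LM n) t (fun B => slow x (colj j B)) 1 := by
  have h := heat_intertwine (LL n) (LM n) (pull (colj j)) (fun g => colj_intertwine n j g) t (slow x)
  have h2 : (fun B : Mat n => slow x (colj j B)) = pull (colj j) (slow x) := rfl
  rw [h2, h, pull_apply, colj_one j hj]
  have hN : n = (j + 1) + (n - 1 - j) := by omega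
  have e : (un (n - 1 - j) : Y n) = emb n (n - 1 - j) (un 0 : Y (j + 1)) := by
    rw [emb_un hN, zero_add]
  rw [e, heat_emb' hN]
  apply heat_mono (LL_pos (j + 1)) ht
  intro z
  by_cases hz : z = 0
  · subst hz
    unfold slow
    rw [emb_zero hN, top_zero, top_zero, if_pos (by omega), if_pos (by omega)]
  · unfold slow
    rw [top_emb hN z hz]
    split_ifs <;> first | exact le_rfl | (exfalso; omega)

/-- the rows above `q` vanish in the columns from `p` on -/
def Zr {n : ℕ} (p q : ℕ) (B : Mat n) : Prop := ∀ i < q, rowf p B i = 0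

open Classical in
lemma not_Zr_le {n : ℕ} (p q : ℕ) (hq : q < n) (B : Mat n) :
    (if Zr p q B then (0 : ℝ) else 1) ≤ ∑ j ∈ Ico p n, (1 - slow (n - q) (colj j B)) := by
  have hnn : ∀ j ∈ Ico p n, 0 ≤ 1 - slow (n - q) (colj j B) := by
    intro j _
    linarith [slow_le_one (n - q) (colj j B)]
  split_ifs with h
  · exact Finset.sum_nonneg hnn
  · unfold Zr at h
    push Not at h
    obtain ⟨i, hi, h1⟩ := h
    have h2 : ∃ c : Fin (n - p), rowf p B i c ≠ 0 := by
      by_contra hcon
      push Not at hcon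
      exact h1 (funext hcon)
    obtain ⟨c, hc⟩ := h2
    have hclt := c.isLt
    have hj : p + c.val ∈ Ico p n := by
      rw [mem_Ico]
      omega
    refine le_trans ?_ (Finset.single_le_sum hnn hj)
    have h3 : slow (n - q) (colj (p + c.val) B) = 0 := by
      unfold slow
      rw [if_neg]
      rw [not_lt]
      have h4 : n - 1 - i ≤ top (colj (p + c.val) B) := by
        apply le_top
        unfold colj
        rw [cf_mk, if_pos (by omega), show n - 1 - (n - 1 - i) = i by omega]
        unfold ent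
        rw [dif_pos ⟨by omega, by omega⟩]
        unfold rowf at hc
        rw [dif_pos (show i < n by omega)] at hc
        exact hc
      omega
    rw [h3, sub_zero]

/-- the block is of small rank -/
lemma sharp_heat (hK : IsKernel K) (ε : ℝ) (hε : 0 < ε) : ∃ C θ : ℝ, 0 < C ∧ 0 < θ ∧
    ∀ n p q κ : ℕ, 2 ≤ n → p + q = n → q ≤ p → 1 ≤ q → ∀ t s : ℝ, 0 ≤ t → 0 ≤ s →
      heat (LM n) (t + s) (bigR p q κ) 1
        ≤ n * (C * Real.exp (θ * ((vv + ε) * t - (p - q))))
          + 2 * Real.exp (th * (19 + κ)) * Real.exp (Pool.Agent.UTM.kap * s - th * q) := by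
  classical
  obtain ⟨C, θ, hC, hθ, hup⟩ := up_tail ε hε
  refine ⟨C, θ, hC, hθ, ?_⟩
  intro n p q κ hn hpq hqp hq1 t s ht hs
  have hth := th_pos
  have hv := vv_pos
  rw [heat_add]
  set b : ℝ := 2 * Real.exp (th * (19 + κ)) * Real.exp (Pool.Agent.UTM.kap * s - th * q) with hb
  have hb0 : 0 ≤ b := by positivity
  -- the inner function
  have h1 : ∀ B : Mat n, heat (LM n) s (bigR p q κ) B ≤ (if Zr p q B then (0 : ℝ) else 1) + b := by
    intro B
    have hbig1 : ∀ B : Mat n, bigR p q κ B ≤ 1 := by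
      intro B
      unfold bigR
      split_ifs <;> norm_num
    split_ifs with hZ
    · rw [zero_add]
      have h2 := heat_mono (LM_pos n) hs (f := bigR p q κ)
        (g := Real.exp (-(th * ((q : ℝ) - κ))) • Fm n p q 0) (fun B' => by
          rw [Pi.smul_apply, smul_eq_mul]
          unfold bigR Fm
          rw [gens_zero]
          split_ifs with h3
          · rw [← Real.exp_add]
            apply Real.one_le_exp
            have h4 : (q : ℝ) - κ ≤ (rk (rowf p B') q [] : ℝ) := by
              have : (q : ℝ) ≤ ((rk (rowf p B') q [] + κ : ℕ) : ℝ) := by exact_mod_cast h3.le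
              push_cast at this
              linarith
            have := mul_le_mul_of_nonneg_left h4 hth.le
            linarith
          · positivity) B
      rw [map_smul, Pi.smul_apply, smul_eq_mul] at h2
      refine le_trans h2 ?_
      have h3 := heat_growth hK n hn hs (Fm n p q 0) B (Real.exp (th * 8) * Ph q q 0)
        Pool.Agent.UTM.kap (fun T => by
          have := moment2 hK n p q hn (by omega) hqp B hZ T q 0 (by norm_num)
          linarith)
      have h4 := mul_le_mul_of_nonneg_left h3 (Real.exp_pos (-(th * ((q : ℝ) - κ)))).le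
      refine le_trans h4 ?_
      have b1 : Ph q q 0 ≤ 2 * Real.exp (th * 11) := by
        unfold Ph
        have a1 : Real.exp (th * v0 0) ≤ Real.exp (th * 11) :=
          Real.exp_le_exp.mpr (mul_le_mul_of_nonneg_left (v0_le 0) hth.le)
        have a2 : Real.exp (th * (v1 0 + (q : ℝ) - (q : ℝ))) ≤ Real.exp (th * 11) := by
          apply Real.exp_le_exp.mpr
          apply mul_le_mul_of_nonneg_left _ hth.le
          have := v1_le 0
          linarith
        linarith
      have e1 : Real.exp (-(th * ((q : ℝ) - κ))) * (Real.exp (th * 8) * (2 * Real.exp (th * 11))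
          * Real.exp (Pool.Agent.UTM.kap * s)) = b := by
        rw [hb]
        have : Real.exp (th * (19 + κ)) * Real.exp (Pool.Agent.UTM.kap * s - th * q)
            = Real.exp (-(th * ((q : ℝ) - κ))) * Real.exp (th * 8) * Real.exp (th * 11)
              * Real.exp (Pool.Agent.UTM.kap * s) := by
          rw [← Real.exp_add, ← Real.exp_add, ← Real.exp_add, ← Real.exp_add]
          congr 1
          ring
        rw [mul_assoc 2, this]
        ring
      rw [← e1]
      gcongr
    · have h2 := heat_mono (LM_pos n) hs (f := bigR p q κ) (g := fun _ => 1) hbig1 B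
      rw [heat_const (LM_one n)] at h2
      linarith
  have h2 := heat_mono (LM_pos n) ht (f := heat (LM n) s (bigR p q κ))
    (g := (∑ j ∈ Ico p n, ((fun _ : Mat n => (1 : ℝ)) - fun B => slow (n - q) (colj j B)))
      + fun _ => b) (fun B => by
      refine le_trans (h1 B) ?_
      rw [Pi.add_apply, Finset.sum_apply]
      have := not_Zr_le p q (by omega) B
      simp only [Pi.sub_apply]
      linarith) (1 : Mat n)
  rw [map_add, map_sum, Pi.add_apply, Finset.sum_apply, heat_const (LM_one n)] at h2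
  refine le_trans h2 (add_le_add ?_ le_rfl)
  have h3 : ∀ j ∈ Ico p n, heat (LM n) t ((fun _ : Mat n => (1 : ℝ)) - fun B => slow (n - q) (colj j B)) 1
      ≤ C * Real.exp (θ * ((vv + ε) * t - (p - q))) := by
    intro j hj
    rw [mem_Ico] at hj
    rw [map_sub, Pi.sub_apply, heat_const (LM_one n)]
    have h4 := colj_slow j hj.2 ht (n - q) (by omega)
    have h5 := hup (j + 1) (by omega) t ht (n - q - (n - 1 - j)) (by omega)
    have h6 : C * Real.exp (θ * ((vv + ε) * t - ((n - q - (n - 1 - j) : ℕ) : ℝ)))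
        ≤ C * Real.exp (θ * ((vv + ε) * t - (p - q))) := by
      apply mul_le_mul_of_nonneg_left _ hC.le
      apply Real.exp_le_exp.mpr
      apply mul_le_mul_of_nonneg_left _ hθ.le
      have h7 : (p : ℝ) - q ≤ ((n - q - (n - 1 - j) : ℕ) : ℝ) := by
        have : p ≤ (n - q - (n - 1 - j)) + q := by omega
        have h8 : (p : ℝ) ≤ (((n - q - (n - 1 - j)) + q : ℕ) : ℝ) := by exact_mod_cast this
        push_cast at h8
        linarith
      linarith
    linarith
  refine le_trans (Finset.sum_le_sum h3) ?_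
  rw [Finset.sum_const, nsmul_eq_mul, Nat.card_Ico]
  apply mul_le_mul_of_nonneg_right _ (by positivity)
  have : n - p ≤ n := by omega
  exact_mod_cast this

/-- matrix with given last columns -/
def ext {n k : ℕ} (C : Fin n → Fin k → ZMod 2) : Mat n :=
  fun a b => if h : n ≤ b.val + k then C a ⟨b.val + k - n, by have := b.isLt; omega⟩ else 0

lemma bigR_ext {n k : ℕ} (p q κ : ℕ) (hk : k ≤ n) (hp : n - k ≤ p) (B : Mat n) :
    bigR p q κ (ext (cols k B)) = bigR p q κ B := by
  have h : rowf p (ext (cols k B)) = rowf p B := by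
    funext x c
    unfold rowf
    split_ifs with hx
    · have hc := c.isLt
      unfold ext
      rw [dif_pos (by simp only; omega)]
      unfold cols
      rw [dif_pos (by simp only; omega)]
      congr 1
      apply Fin.ext
      simp only
      omega
    · rfl
  unfold bigR
  rw [h]

/-- a positive fraction of the columns is not mixed slightly after time `n / v` -/
theorem final_sharp (hK : IsKernel K) (c : ℝ) (hc : 0 < c) (hc1 : c ≤ 1) (ε : ℝ) (hε : 0 < ε) :
    ∀ᶠ n : ℕ in atTop, ∀ k : ℕ, c * n ≤ k → k ≤ n → ∀ t : ℝ, 0 ≤ t → t ≤ (1 / vv + c / 2) * n →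
      1 - ε < dC K n k t 1 := by
  have hv := vv_pos
  have hv3 := vv_ge
  have hth := th_pos
  have hkap := kap_lt
  have hkap0 := Pool.Agent.UTM.kap_pos
  obtain ⟨κ, hκ⟩ := exists_pow_lt_of_lt_one (show 0 < ε / 6 by linarith) (show (1 / 2 : ℝ) < 1 by norm_num)
  set δ : ℝ := c / 40 with hδ
  have hδ0 : 0 < δ := by rw [hδ]; positivity
  have hδ1 : δ ≤ 1 / 40 := by rw [hδ]; linarith
  set ε' : ℝ := vv * δ / 2 with hε'
  have hε'0 : 0 < ε' := by rw [hε']; positivity
  obtain ⟨C, θ, hC, hθ, hsh⟩ := sharp_heat hK ε' hε'0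
  set a : ℝ := θ * δ / 4 with ha
  have ha0 : 0 < a := by rw [ha]; positivity
  have lim1 : Tendsto (fun n : ℕ => C * ((n : ℝ) * Real.exp (-(a * (n : ℝ))))) atTop (𝓝 0) := by
    have h1 : Tendsto (fun x : ℝ => x ^ (1 : ℝ) * Real.exp (-a * x)) atTop (𝓝 0) :=
      tendsto_rpow_mul_exp_neg_mul_atTop_nhds_zero 1 a ha0
    have h2 := (h1.comp tendsto_natCast_atTop_atTop).const_mul C
    simp only [mul_zero, Function.comp_def, Real.rpow_one] at h2
    convert h2 using 5
    ring
  set D : ℝ := 2 * Real.exp (th * (19 + κ)) * Real.exp (th * δ) with hD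
  have lim2 : Tendsto (fun n : ℕ => D * Real.exp (-(th * δ * (c / 4) * (n : ℝ)))) atTop (𝓝 0) := by
    have h1 : Tendsto (fun n : ℕ => th * δ * (c / 4) * (n : ℝ)) atTop atTop :=
      (tendsto_natCast_atTop_atTop).const_mul_atTop (by positivity)
    have h2 := (Real.tendsto_exp_neg_atTop_nhds_zero.comp h1).const_mul D
    simpa using h2
  obtain ⟨n₀, hn₀⟩ := exists_nat_ge (40 / c)
  filter_upwards [lim1.eventually (gt_mem_nhds (show (0 : ℝ) < ε / 3 by linarith)),
    lim2.eventually (gt_mem_nhds (show (0 : ℝ) < ε / 3 by linarith)),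
    eventually_ge_atTop (n₀ + 8)] with n hn1 hn2 hn3 k hk1 hk2 t ht0 ht
  have hnR : (0 : ℝ) < n := by
    have : 0 < n := by omega
    exact_mod_cast this
  have hcn : 40 ≤ c * n := by
    have h1 : (n₀ : ℝ) ≤ n := by
      have : n₀ ≤ n := by omega
      exact_mod_cast this
    have h2 : 40 / c ≤ n := by linarith
    rw [div_le_iff₀ hc] at h2
    linarith
  set q : ℕ := min k (n / 4) with hq
  set p : ℕ := n - q with hp
  have hqn : 4 * q ≤ n := by omega
  have hq4 : (n : ℝ) / 4 - 1 ≤ ((n / 4 : ℕ) : ℝ) := by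
    have : n ≤ 4 * (n / 4) + 4 := by omega
    have h1 : (n : ℝ) ≤ ((4 * (n / 4) + 4 : ℕ) : ℝ) := by exact_mod_cast this
    push_cast at h1
    linarith
  have hqlow : c / 4 * n - 1 ≤ (q : ℝ) := by
    rw [hq, Nat.cast_min]
    apply le_min
    · linarith
    · have : c / 4 * n ≤ 1 / 4 * n := mul_le_mul_of_nonneg_right (by linarith) hnR.le
      linarith
  have hq1 : 1 ≤ q := by
    have h1 : (1 : ℝ) ≤ q := by linarith
    exact_mod_cast h1
  have hqR : (4 : ℝ) * q ≤ n := by exact_mod_cast hqn
  have hpR : (p : ℝ) - q = n - 2 * q := by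
    have : p + q = n := by omega
    have h1 : (p : ℝ) + q = n := by exact_mod_cast this
    linarith
  -- times
  set t₀ : ℝ := (1 - δ) * (n - 2 * q) / vv with ht₀
  have ht₀0 : 0 ≤ t₀ := by
    rw [ht₀]
    apply div_nonneg _ hv.le
    apply mul_nonneg <;> linarith
  set t₁ : ℝ := min t t₀ with ht₁
  have ht₁0 : 0 ≤ t₁ := le_min ht0 ht₀0
  have ht₁t : t₁ ≤ t := min_le_left _ _
  have ht₁t₀ : t₁ ≤ t₀ := min_le_right _ _
  set s₁ : ℝ := t - t₁ with hs₁
  have hs₁0 : 0 ≤ s₁ := by rw [hs₁]; linarith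
  have hs₁le : s₁ ≤ 14 * ((1 - δ) * q) := by
    rcases le_total t t₀ with h | h
    · have : s₁ = 0 := by rw [hs₁, ht₁, min_eq_left h, sub_self]
      rw [this]
      have : 0 ≤ (1 - δ) * (q : ℝ) := mul_nonneg (by linarith) (Nat.cast_nonneg _)
      linarith
    · have e : s₁ = t - t₀ := by rw [hs₁, ht₁, min_eq_right h]
      rw [e, ht₀]
      have hinv : 1 / vv ≤ 16 / 3 := by
        rw [div_le_iff₀ hv]
        linarith
      have hinv0 : 0 < 1 / vv := by positivity
      set w : ℝ := 1 / vv with hw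
      have e2 : (1 - δ) * (n - 2 * q) / vv = (1 - δ) * (n - 2 * q) * w := by
        rw [hw]; ring
      rw [e2]
      -- t ≤ (w + c/2) n
      have h1 : t - (1 - δ) * (n - 2 * q) * w ≤ c / 2 * n + w * (δ * n + (1 - δ) * (2 * q)) := by
        have e3 : (w + c / 2) * n - (1 - δ) * (n - 2 * q) * w
            = c / 2 * n + w * (δ * n + (1 - δ) * (2 * q)) := by ring
        linarith
      have h2 : w * (δ * n + (1 - δ) * (2 * q)) ≤ 16 / 3 * (δ * n + (1 - δ) * (2 * q)) := by
        apply mul_le_mul_of_nonneg_right hinv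
        have : 0 ≤ (1 - δ) * (2 * (q : ℝ)) := mul_nonneg (by linarith) (by positivity)
        positivity
      have h3 : (39 / 40 : ℝ) * (c / 4 * n - 1) ≤ (1 - δ) * q := by
        apply mul_le_mul (by linarith) hqlow (by linarith) (by linarith)
      have h4 : δ * n = c * n / 40 := by rw [hδ]; ring
      linarith
  -- the heat bound
  have hb := hsh n p q κ (by omega) (by omega) (by omega) hq1 t₁ s₁ ht₁0 hs₁0
  have ett : t₁ + s₁ = t := by rw [hs₁]; ring
  rw [ett] at hb
  have hb1 : (n : ℝ) * (C * Real.exp (θ * ((vv + ε') * t₁ - (p - q)))) ≤ C * ((n : ℝ) * Real.exp (-(a * (n : ℝ)))) := by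
    have h1 : Real.exp (θ * ((vv + ε') * t₁ - (p - q))) ≤ Real.exp (-(a * (n : ℝ))) := by
      apply Real.exp_le_exp.mpr
      rw [hpR]
      have h2 : (vv + ε') * t₁ ≤ (1 - δ / 2) * (n - 2 * q) := by
        have h3 : (vv + ε') * t₁ ≤ (vv + ε') * t₀ := mul_le_mul_of_nonneg_left ht₁t₀ (by positivity)
        have h4 : (vv + ε') * t₀ = (1 + δ / 2) * ((1 - δ) * (n - 2 * q)) := by
          rw [ht₀, hε']
          field_simp
        have h5 : (1 + δ / 2) * ((1 - δ) * ((n : ℝ) - 2 * q)) ≤ (1 - δ / 2) * (n - 2 * q) := by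
          rw [← mul_assoc]
          apply mul_le_mul_of_nonneg_right _ (by linarith)
          have e3 : (1 + δ / 2) * (1 - δ) = 1 - δ / 2 - δ ^ 2 / 2 := by ring
          have := sq_nonneg δ
          linarith
        linarith
      have h3 : (n : ℝ) / 2 ≤ n - 2 * q := by linarith
      have h4 : (vv + ε') * t₁ - (n - 2 * q) ≤ -(δ / 2 * (n / 2)) := by
        have := mul_le_mul_of_nonneg_left h3 (show 0 ≤ δ / 2 by linarith)
        linarith
      have h5 := mul_le_mul_of_nonneg_left h4 hθ.le
      rw [ha]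
      linarith
    calc (n : ℝ) * (C * Real.exp (θ * ((vv + ε') * t₁ - (p - q))))
        ≤ (n : ℝ) * (C * Real.exp (-(a * (n : ℝ)))) := by gcongr
      _ = _ := by ring
  have hb2 : 2 * Real.exp (th * (19 + κ)) * Real.exp (Pool.Agent.UTM.kap * s₁ - th * q)
      ≤ D * Real.exp (-(th * δ * (c / 4) * (n : ℝ))) := by
    rw [hD, mul_assoc (2 * Real.exp (th * (19 + κ)))]
    apply mul_le_mul_of_nonneg_left _ (by positivity)
    rw [← Real.exp_add]
    apply Real.exp_le_exp.mpr
    have h1 : Pool.Agent.UTM.kap * s₁ ≤ Pool.Agent.UTM.kap * (14 * ((1 - δ) * q)) :=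
      mul_le_mul_of_nonneg_left hs₁le hkap0.le
    have h2 : 0 ≤ (1 - δ) * (q : ℝ) := mul_nonneg (by linarith) (Nat.cast_nonneg _)
    have h3 : 14 * Pool.Agent.UTM.kap * ((1 - δ) * q) ≤ th * ((1 - δ) * q) :=
      mul_le_mul_of_nonneg_right hkap.le h2
    have h4 : th * δ * (c / 4 * n - 1) ≤ th * δ * q :=
      mul_le_mul_of_nonneg_left hqlow (by positivity)
    linarith
  -- conclusion
  have hav := avU_bigR (n := n) p q (by omega) (by omega) (by omega) κ
  have hge := dC_ge hK (n := n) (k := k) (by omega) hk2 t 1 (fun Cc => 1 - bigR p q κ (ext Cc))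
    (fun Cc => by
      simp only [bigR]
      split_ifs <;> norm_num) (fun Cc => by
      simp only [bigR]
      split_ifs <;> norm_num)
  have e1 : (fun B : Mat n => 1 - bigR p q κ (ext (cols k B))) = (fun _ => (1 : ℝ)) - bigR p q κ := by
    funext B
    rw [bigR_ext p q κ hk2 (by omega)]
    rfl
  rw [e1, map_sub, Pi.sub_apply, heat_const (LM_one n)] at hge
  have e2 : avU ((fun _ : Mat n => (1 : ℝ)) - bigR p q κ) = 1 - avU (bigR (n := n) p q κ) := by
    unfold avU
    have hcU := card_Uni_pos n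
    have : ∑ B ∈ Uni n, ((fun _ : Mat n => (1 : ℝ)) - bigR p q κ : Mat n → ℝ) B
        = ((Uni n).card : ℝ) - ∑ B ∈ Uni n, bigR p q κ B := by
      simp only [Pi.sub_apply]
      rw [Finset.sum_sub_distrib, Finset.sum_const, nsmul_eq_mul, mul_one]
    rw [this, mul_sub, inv_mul_cancel₀ hcU.ne']
  rw [e2] at hge
  linarith

end Pool.Agent.UTM.Es
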