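import Mathlib
import Pool.Agent.UTM.ColsSharp

/-!
Mixing times of the last columns.
-/
set_option autoImplicit false
set_option linter.unusedSectionVars false

namespace Pool.Agent.UTM.Es

open Finset Filter Topology

variable {K : (n : ℕ) → Matrix (Mat n) (Mat n) ℝ}

/-- the set of times at which the last `k` columns are mixed -/
def Sx (K : (n : ℕ) → Matrix (Mat n) (Mat n) ℝ) (n k : ℕ) (ε : ℝ) : Set ℝ :=
  {t : ℝ | 0 ≤ t ∧ ∀ A : Mat n, IsUni A → dC K n k t A ≤ ε}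

/-- mixing time of the last `k` columns -/
noncomputable def Tx (K : (n : ℕ) → Matrix (Mat n) (Mat n) ℝ) (n k : ℕ) (ε : ℝ) : ℝ := sInf (Sx K n k ε)

/-- every size mixes eventually -/
lemma Sx_nonempty (hK : IsKernel K) {n k : ℕ} (hn : 2 ≤ n) (hk : k ≤ n) (ε : ℝ) (hε : 0 < ε) :
    (Sx K n k ε).Nonempty := by
  obtain ⟨κ₁, hκ₁, hp⟩ := persist 1 one_pos
  have hn0 : (0 : ℝ) ≤ n := Nat.cast_nonneg _
  set D : ℝ := n * (2 ^ k * (2 * Real.exp n)) with hD
  have hD0 : 0 ≤ D := by positivity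
  have lim1 : Tendsto (fun t : ℝ => D * Real.exp (-(κ₁ * t))) atTop (𝓝 0) := by
    have h1 : Tendsto (fun t : ℝ => κ₁ * t) atTop atTop := tendsto_id.const_mul_atTop hκ₁
    have h2 := (Real.tendsto_exp_neg_atTop_nhds_zero.comp h1).const_mul D
    simpa using h2
  obtain ⟨t, ht1, ht0⟩ := ((lim1.eventually (gt_mem_nhds hε)).and (eventually_ge_atTop (0 : ℝ))).exists
  refine ⟨t, ht0, fun A hA => ?_⟩
  refine le_trans (dC_le hK hn hk t A (n * (2 ^ k * (2 * Real.exp n * Real.exp (-(κ₁ * t))))) ?_) ?_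
  · intro F hF hF1
    set b : ℝ := 2 * Real.exp n * Real.exp (-(κ₁ * t)) with hb
    have hb0 : 0 ≤ b := by positivity
    have hα : ∀ N : ℕ, 1 ≤ N → N ≤ n → heat (Lk N 1 (N - 1)) t (fun _ => 1) (un 0) ≤ b := by
      intro N h1 h2
      have hun := un_ne (N := N) 0 (by omega)
      refine le_trans (hp N t ht0 (un 0) hun) ?_
      rw [gg_ne 1 _ hun, top_un 0 (by omega), hb]
      have h3 : Real.exp (1 * ((N : ℝ) - ((0 : ℕ) : ℝ))) ≤ Real.exp n := by
        apply Real.exp_le_exp.mpr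
        have : (N : ℝ) ≤ n := by exact_mod_cast h2
        push_cast
        linarith
      calc 2 * Real.exp (-(κ₁ * t)) * Real.exp (1 * ((N : ℝ) - ((0 : ℕ) : ℝ)))
          ≤ 2 * Real.exp (-(κ₁ * t)) * Real.exp n := by gcongr
        _ = 2 * Real.exp n * Real.exp (-(κ₁ * t)) := by ring
    obtain ⟨m, hm⟩ := rows_bound k hk ht0 b hb0 hα (n - 1) 0 F (by omega) hF hF1
    have hd : ((n - 1 : ℕ) : ℝ) ≤ n := by
      have : n - 1 ≤ n := by omega
      exact_mod_cast this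
    have hm' : ∀ A, IsUni A → |heat (LM n) t F A - m| ≤ n * (2 ^ k * b) := by
      intro A hA
      exact le_trans (hm A hA) (mul_le_mul_of_nonneg_right hd (by positivity))
    have hc := card_Uni_pos n
    have h1 : |avU F - m| ≤ n * (2 ^ k * b) := by
      have e : avU F - m = ((Uni n).card : ℝ)⁻¹ * ∑ B ∈ Uni n, (heat (LM n) t F B - m) := by
        unfold avU
        rw [Finset.sum_sub_distrib, stationary, Finset.sum_const, nsmul_eq_mul]
        field_simp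
      rw [e, abs_mul, abs_of_pos (inv_pos.mpr hc)]
      have h2 : |∑ B ∈ Uni n, (heat (LM n) t F B - m)| ≤ ∑ B ∈ Uni n, (n : ℝ) * (2 ^ k * b) :=
        le_trans (Finset.abs_sum_le_sum_abs _ _)
          (Finset.sum_le_sum fun B hB => hm' B ((mem_Uni B).mp hB))
      rw [Finset.sum_const, nsmul_eq_mul] at h2
      calc ((Uni n).card : ℝ)⁻¹ * |∑ B ∈ Uni n, (heat (LM n) t F B - m)|
          ≤ ((Uni n).card : ℝ)⁻¹ * (((Uni n).card : ℝ) * ((n : ℝ) * (2 ^ k * b))) :=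
            mul_le_mul_of_nonneg_left h2 (inv_pos.mpr hc).le
        _ = (n : ℝ) * (2 ^ k * b) := by field_simp
    have h2 := hm' A hA
    have h3 := abs_sub_le (heat (LM n) t F A) m (avU F)
    rw [abs_sub_comm m (avU F)] at h3
    linarith
  · refine le_trans (le_of_eq ?_) ht1.le
    rw [hD]
    ring

lemma Sx_bdd (n k : ℕ) (ε : ℝ) : BddBelow (Sx K n k ε) := ⟨0, fun _ ht => ht.1⟩

/-- (A) -/
theorem Tx_small (hK : IsKernel K) (δ : ℝ) (hδ : 0 < δ) : ∃ c : ℝ, 0 < c ∧ ∀ ε : ℝ, 0 < ε → ε < 1 →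
    ∀ᶠ n : ℕ in atTop, ∀ k : ℕ, 1 ≤ k → (k : ℝ) ≤ c * n → |Tx K n k ε - 1 / vv * n| ≤ δ * n := by
  have hv := vv_pos
  have hδv : 0 < δ * vv := by positivity
  obtain ⟨c, hc, hup⟩ := final_upper hK (δ * vv) hδv
  refine ⟨min 1 c, lt_min one_pos hc, ?_⟩
  intro ε hε hε1
  filter_upwards [hup ε hε, final_lower hK (δ * vv) hδv (1 - ε) (by linarith),
    eventually_ge_atTop 2] with n h1 h2 hn k hk1 hk
  have hn0 : (0 : ℝ) ≤ n := Nat.cast_nonneg _
  have hkc : (k : ℝ) ≤ c * n := le_trans hk (mul_le_mul_of_nonneg_right (min_le_right _ _) hn0)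
  have hkn : k ≤ n := by
    have h3 : (k : ℝ) ≤ 1 * n := le_trans hk (mul_le_mul_of_nonneg_right (min_le_left _ _) hn0)
    rw [one_mul] at h3
    exact_mod_cast h3
  have e1 : (1 + δ * vv) * n / vv = 1 / vv * n + δ * n := by field_simp
  have e2 : (1 - δ * vv) * n / vv = 1 / vv * n - δ * n := by field_simp
  have hmem : 1 / vv * n + δ * n ∈ Sx K n k ε := by
    refine ⟨by positivity, fun A hA => ?_⟩
    exact h1 k hkc _ e1.le A hA
  have hT1 : Tx K n k ε ≤ 1 / vv * n + δ * n := csInf_le (Sx_bdd n k ε) hmem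
  have hT2 : 1 / vv * n - δ * n ≤ Tx K n k ε := by
    apply le_csInf ⟨_, hmem⟩
    rintro t ⟨ht0, ht⟩
    by_contra hlt
    rw [not_le] at hlt
    have h3 := h2 k hk1 hkn t ht0 (by rw [e2]; exact hlt.le)
    have h4 := ht 1 (IsUni_one n)
    linarith
  rw [abs_le]
  constructor <;> linarith

/-- (B) -/
theorem Tx_large (hK : IsKernel K) (c : ℝ) (hc : 0 < c) (hc1 : c ≤ 1) (ε : ℝ) (hε : 0 < ε) (hε1 : ε < 1) :
    ∀ᶠ n : ℕ in atTop, ∀ k : ℕ, c * n ≤ k → k ≤ n → (1 / vv + c / 2) * n ≤ Tx K n k ε := by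
  filter_upwards [final_sharp hK c hc hc1 (1 - ε) (by linarith), eventually_ge_atTop 2]
    with n h1 hn k hk1 hk2
  apply le_csInf (Sx_nonempty hK hn hk2 ε hε)
  rintro t ⟨ht0, ht⟩
  by_contra hlt
  rw [not_le] at hlt
  have h3 := h1 k hk1 hk2 t ht0 hlt.le
  have h4 := ht 1 (IsUni_one n)
  linarith

/-- (C), first part -/
theorem Tx_tendsto (hK : IsKernel K) (k : ℕ → ℕ) (hk1 : ∀ n, 1 ≤ n → 1 ≤ k n)
    (hlim : Tendsto (fun n : ℕ => (k n : ℝ) / n) atTop (𝓝 0)) (ε : ℝ) (hε : 0 < ε) (hε1 : ε < 1) :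
    Tendsto (fun n : ℕ => Tx K n (k n) ε / n) atTop (𝓝 (1 / vv)) := by
  rw [Metric.tendsto_atTop]
  intro δ hδ
  obtain ⟨c, hc, h⟩ := Tx_small hK (δ / 2) (by linarith)
  have h1 := (h ε hε hε1).and ((hlim.eventually (gt_mem_nhds hc)).and (eventually_ge_atTop 1))
  obtain ⟨n₀, hn₀⟩ := eventually_atTop.mp h1
  refine ⟨n₀, fun n hn => ?_⟩
  obtain ⟨h2, h3, h4⟩ := hn₀ n hn
  have hn0 : (0 : ℝ) < n := by
    have : 0 < n := by omega
    exact_mod_cast this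
  rw [div_lt_iff₀ hn0] at h3
  have h5 := h2 (k n) (hk1 n h4) h3.le
  rw [Real.dist_eq]
  have e : Tx K n (k n) ε / n - 1 / vv = (Tx K n (k n) ε - 1 / vv * n) / n := by
    field_simp
  rw [e, abs_div, abs_of_pos hn0, div_lt_iff₀ hn0]
  refine lt_of_le_of_lt h5 ?_
  nlinarith

/-- (C), second part -/
theorem tendsto_of_Tx (hK : IsKernel K) (k : ℕ → ℕ) (hk2 : ∀ n, 1 ≤ n → k n ≤ n) (ε : ℝ) (hε : 0 < ε) (hε1 : ε < 1)
    (hT : Tendsto (fun n : ℕ => Tx K n (k n) ε / n) atTop (𝓝 (1 / vv))) :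
    Tendsto (fun n : ℕ => (k n : ℝ) / n) atTop (𝓝 0) := by
  rw [Metric.tendsto_atTop]
  intro δ hδ
  set c : ℝ := min 1 δ with hc
  have hc0 : 0 < c := lt_min one_pos hδ
  have hc1 : c ≤ 1 := min_le_left _ _
  have h1 := (Tx_large hK c hc0 hc1 ε hε hε1).and
    ((hT.eventually (gt_mem_nhds (show 1 / vv < 1 / vv + c / 2 by linarith))).and (eventually_ge_atTop 1))
  obtain ⟨n₀, hn₀⟩ := eventually_atTop.mp h1
  refine ⟨n₀, fun n hn => ?_⟩
  obtain ⟨h2, h3, h4⟩ := hn₀ n hn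
  have hn0 : (0 : ℝ) < n := by
    have : 0 < n := by omega
    exact_mod_cast this
  rw [Real.dist_eq, sub_zero, abs_of_nonneg (by positivity), div_lt_iff₀ hn0]
  by_contra hge
  rw [not_lt] at hge
  have h5 : c * n ≤ k n := le_trans (mul_le_mul_of_nonneg_right (min_le_right _ _) hn0.le) hge
  have h6 := h2 (k n) h5 (hk2 n h4)
  rw [div_lt_iff₀ hn0] at h3
  linarith

/-- cutoff -/
theorem Tx_ratio (hK : IsKernel K) (k : ℕ → ℕ) (hk1 : ∀ n, 1 ≤ n → 1 ≤ k n)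
    (hlim : Tendsto (fun n : ℕ => (k n : ℝ) / n) atTop (𝓝 0)) (ε : ℝ) (hε : 0 < ε) (hε1 : ε < 1) :
    Tendsto (fun n : ℕ => Tx K n (k n) ε / Tx K n (k n) (1 - ε)) atTop (𝓝 1) := by
  have hv := vv_pos
  have h1 := Tx_tendsto hK k hk1 hlim ε hε hε1
  have h2 := Tx_tendsto hK k hk1 hlim (1 - ε) (by linarith) (by linarith)
  have h3 := h1.div h2 (by positivity)
  rw [div_self (by positivity)] at h3
  refine h3.congr' ?_
  filter_upwards [eventually_ge_atTop 1] with n hn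
  have hn0 : (n : ℝ) ≠ 0 := by
    have : 0 < n := by omega
    positivity
  rw [Pi.div_apply, div_div_div_cancel_right₀ hn0]

end Pool.Agent.UTM.Es
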