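import Mathlib
import Pool.Agent.UTM.FrontSpeed

/-!
The front of the last column moves at speed at least `3/16`.
-/
set_option autoImplicit false
set_option linter.unusedSectionVars false

namespace Pool.Agent.UTM

open Finset Filter Topology

variable {K : (n : ℕ) → Matrix (Mat n) (Mat n) ℝ}

lemma front_moment (hK : IsKernel K) (n : ℕ) (hn : 2 ≤ n) (T : ℕ) :
    ex K n T (fun A => Fe n (lc A)) ≤ 2 * (1 + (-(3769 / 2 * ta)) / ((n : ℝ) - 1)) ^ T
      + 9 / (3769 / 2 * ta) * Real.exp (-(10000 * ta * ((n : ℝ) - 1))) := by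
  have hta := ta_pos
  have hn1 : (1 : ℝ) ≤ (n : ℝ) - 1 := by
    have h2 : (2 : ℝ) ≤ n := by exact_mod_cast hn
    linarith
  have hn0 : (0 : ℝ) < (n : ℝ) - 1 := by linarith
  have hq : 0 ≤ 1 + (-(3769 / 2 * ta)) / ((n : ℝ) - 1) := by
    have h1 : (3769 / 2 * ta) / ((n : ℝ) - 1) ≤ 1 := by
      rw [div_le_one hn0]
      have : 3769 / 2 * ta ≤ 1 := by unfold ta; norm_num
      linarith
    have h2 : (-(3769 / 2 * ta)) / ((n : ℝ) - 1) = -((3769 / 2 * ta) / ((n : ℝ) - 1)) := by ring
    rw [h2]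
    linarith
  have hexp : 0 < Real.exp (-(10000 * ta * ((n : ℝ) - 1))) := Real.exp_pos _
  induction T with
  | zero =>
      rw [ex_zero, pow_zero, mul_one]
      have h1 : Fe n (lc (1 : Mat n)) ≤ 2 := by
        unfold Fe
        have hb : Bot (1 : Mat n) := Bot_one (by omega)
        have hne : lc (1 : Mat n) (n - 1) ≠ 0 := by
          have : lc (1 : Mat n) (n - 1) = 1 := hb
          rw [this]
          decide
        have hf : fr (lc (1 : Mat n)) ≤ n - 1 := Nat.sInf_le hne
        have hP : (-8530 : ℝ) ≤ (Ps n (lc (1 : Mat n)) : ℝ) := by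
          have hH := (Hu_bounds (lc (1 : Mat n))).2
          have : (-8530 : ℤ) ≤ Ps n (lc (1 : Mat n)) := by
            unfold Ps
            omega
          exact_mod_cast this
        have h2 : Real.exp (-(ta * (Ps n (lc (1 : Mat n)) : ℝ))) ≤ Real.exp (8530 * ta) := by
          apply Real.exp_le_exp.mpr
          have := mul_le_mul_of_nonneg_left hP hta.le
          linarith
        have b4 : Real.exp (8530 * ta) ≤ 2 := by
          have h5 : |8530 * ta| ≤ 1 := by
            rw [abs_of_pos (by linarith)]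
            unfold ta
            norm_num
          have h6 := Real.abs_exp_sub_one_sub_id_le h5
          have h7 := (abs_le.mp h6).2
          have h8 : 8530 * ta + (8530 * ta) ^ 2 ≤ 1 := by unfold ta; norm_num
          linarith
        linarith
      have h2 : 0 ≤ 9 / (3769 / 2 * ta) * Real.exp (-(10000 * ta * ((n : ℝ) - 1))) := by positivity
      linarith
  | succ T ih =>
      rw [ex_succ]
      have h1 : ex K n T (Matrix.mulVec (K n) (fun A => Fe n (lc A)))
          ≤ ex K n T (fun A => (1 + (-(3769 / 2 * ta)) / ((n : ℝ) - 1)) * Fe n (lc A)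
            + 1 / ((n : ℝ) - 1) * (9 * Real.exp (-(10000 * ta * ((n : ℝ) - 1))))) := by
        apply ex_mono_on hK n (by omega) Bot (Bot_one (by omega)) (fun B hB i hi => Bot_rop B hB i hi)
        intro B hB
        exact step_front hK n hn B hB
      rw [ex_add, ex_smul, ex_const hK n hn] at h1
      have h2 := mul_le_mul_of_nonneg_left ih hq
      refine le_trans h1 (le_trans (add_le_add_left h2 _) (le_of_eq ?_))
      rw [pow_succ]
      field_simp
      ring

lemma mu_le_two (hK : IsKernel K) (n : ℕ) (hn : 2 ≤ n) {t : ℝ} (ht : 0 ≤ t) (f : Mat n → ℝ)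
    (D c E : ℝ) (h : ∀ T, ex K n T f ≤ D * (1 + c / ((n : ℝ) - 1)) ^ T + E) :
    ∑ B, mu K n t B * f B ≤ D * Real.exp (c * t) + E := by
  have h1 := mu_growth hK n hn ht (fun B => f B - E) D c ?_
  · have h2 : ∑ B, mu K n t B * (f B - E) = ∑ B, mu K n t B * f B - E := by
      simp only [mul_sub, Finset.sum_sub_distrib]
      rw [← Finset.sum_mul, sum_mu hK n hn ht, one_mul]
    rw [h2] at h1
    linarith
  · intro T
    have h3 : ex K n T (fun B => f B - E) = ex K n T f - E := by
      have h4 := ex_add (K := K) n T f (fun _ => -E)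
      rw [ex_const hK n hn] at h4
      simpa [sub_eq_add_neg] using h4
    rw [h3]
    linarith [h T]

/-- the last column has a nonzero entry at height at least `m` -/
def High {n : ℕ} (m : ℝ) (B : Mat n) : Prop :=
  ∃ i j : Fin n, j.val + 1 = n ∧ B i j ≠ 0 ∧ m ≤ (n : ℝ) - 1 - (i.val : ℝ)

noncomputable instance {n : ℕ} (m : ℝ) : DecidablePred (@High n m) := Classical.decPred _

lemma lc_of_lt {n : ℕ} (B : Mat n) {i : ℕ} (h : i < n) : lc B i = B ⟨i, h⟩ ⟨n - 1, by omega⟩ :=
  dif_pos h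

lemma not_high {n : ℕ} (hn : 2 ≤ n) (m : ℝ) (B : Mat n) (hB : Bot B) (h : ¬ High m B) :
    1 ≤ Real.exp (10000 * ta * m) * Fe n (lc B) := by
  have hta := ta_pos
  have hne : lc B (n - 1) ≠ 0 := by
    have : lc B (n - 1) = 1 := hB
    rw [this]
    decide
  have h0 : lc B (fr (lc B)) ≠ 0 := fr_ne hne
  have hf : fr (lc B) ≤ n - 1 := Nat.sInf_le hne
  have hlt : fr (lc B) < n := by omega
  have hx : (n : ℝ) - 1 - (fr (lc B) : ℝ) < m := by
    by_contra hc
    rw [not_lt] at hc
    apply h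
    refine ⟨⟨fr (lc B), hlt⟩, ⟨n - 1, by omega⟩, ?_, ?_, hc⟩
    · simp only
      omega
    · rw [lc_of_lt B hlt] at h0
      exact h0
  unfold Fe
  rw [← Real.exp_add]
  apply Real.one_le_exp
  have hP : (Ps n (lc B) : ℝ) ≤ 10000 * ((n : ℝ) - 1 - (fr (lc B) : ℝ)) := by
    have hH := (Hu_bounds (lc B)).1
    have h3 : (0 : ℝ) ≤ (Hu (lc B) : ℝ) := by exact_mod_cast hH
    unfold Ps
    push_cast
    linarith
  have h4 := mul_le_mul_of_nonneg_left hP hta.le
  have h5 := mul_le_mul_of_nonneg_left hx.le (show (0 : ℝ) ≤ 10000 * ta by linarith)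
  linarith

lemma mu_not_high (hK : IsKernel K) (n : ℕ) (hn : 2 ≤ n) {t : ℝ} (ht : 0 ≤ t) (m : ℝ) :
    ∑ B ∈ univ.filter (fun B : Mat n => ¬ High m B), mu K n t B
      ≤ Real.exp (10000 * ta * m) * (2 * Real.exp (-(3769 / 2 * ta) * t)
        + 9 / (3769 / 2 * ta) * Real.exp (-(10000 * ta * ((n : ℝ) - 1)))) := by
  have h1 : ∑ B ∈ univ.filter (fun B : Mat n => ¬ High m B), mu K n t B
      = ∑ B, mu K n t B * (if ¬ High m B then 1 else 0) := by
    rw [Finset.sum_filter]
    apply Finset.sum_congr rfl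
    intro B _
    split_ifs <;> simp
  rw [h1, mul_add, ← mul_assoc, ← mul_assoc]
  apply mu_le_two hK n hn ht
  intro T
  have h2 : ex K n T (fun B => if ¬ High m B then 1 else 0)
      ≤ ex K n T (fun B => Real.exp (10000 * ta * m) * Fe n (lc B)) := by
    apply ex_mono_on hK n (by omega) Bot (Bot_one (by omega)) (fun B hB i hi => Bot_rop B hB i hi)
    intro B hB
    by_cases h3 : High m B
    · rw [if_neg (not_not.mpr h3)]
      unfold Fe
      positivity
    · rw [if_pos h3]
      exact not_high hn m B hB h3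
  rw [ex_smul] at h2
  have h3 := mul_le_mul_of_nonneg_left (front_moment hK n hn T) (Real.exp_pos (10000 * ta * m)).le
  linarith

/-- the front of the last column is far up -/
theorem front_bound (hK : IsKernel K) (δ ε : ℝ) (hδ : 0 < δ) (hε : 0 < ε) :
    ∀ᶠ n : ℕ in atTop, ∀ t : ℝ, δ * (n : ℝ) ≤ t →
      ∑ B ∈ univ.filter (fun B : Mat n => ¬ High (min (3 / 16 * t) ((1 - δ) * (n : ℝ))) B), mu K n t B < ε := by
  have hta := ta_pos
  set c1 : ℝ := 9 * ta * δ with hc1
  set c2 : ℝ := 10000 * ta * δ with hc2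
  set D2 : ℝ := 9 / (3769 / 2 * ta) * Real.exp (10000 * ta) with hD2
  have hc1pos : 0 < c1 := by positivity
  have hc2pos : 0 < c2 := by positivity
  have lim1 : Tendsto (fun n : ℕ => 2 * Real.exp (-(c1 * (n : ℝ)))) atTop (𝓝 0) := by
    have h1 : Tendsto (fun n : ℕ => c1 * (n : ℝ)) atTop atTop :=
      (tendsto_natCast_atTop_atTop).const_mul_atTop hc1pos
    have h2 := (Real.tendsto_exp_neg_atTop_nhds_zero.comp h1).const_mul 2
    simpa using h2
  have lim2 : Tendsto (fun n : ℕ => D2 * Real.exp (-(c2 * (n : ℝ)))) atTop (𝓝 0) := by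
    have h1 : Tendsto (fun n : ℕ => c2 * (n : ℝ)) atTop atTop :=
      (tendsto_natCast_atTop_atTop).const_mul_atTop hc2pos
    have h2 := (Real.tendsto_exp_neg_atTop_nhds_zero.comp h1).const_mul D2
    simpa using h2
  have ev1 := lim1.eventually (gt_mem_nhds (show (0 : ℝ) < ε / 2 by linarith))
  have ev2 := lim2.eventually (gt_mem_nhds (show (0 : ℝ) < ε / 2 by linarith))
  filter_upwards [ev1, ev2, eventually_ge_atTop 2] with n hn1 hn2 hn t ht
  have ht0 : 0 ≤ t := le_trans (by positivity) ht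
  set m : ℝ := min (3 / 16 * t) ((1 - δ) * (n : ℝ)) with hm
  have h1 := mu_not_high hK n hn ht0 m
  have hm1 : m ≤ 3 / 16 * t := min_le_left _ _
  have hm2 : m ≤ (1 - δ) * (n : ℝ) := min_le_right _ _
  have a1 : Real.exp (10000 * ta * m) * (2 * Real.exp (-(3769 / 2 * ta) * t)) ≤ 2 * Real.exp (-(c1 * (n : ℝ))) := by
    have : Real.exp (10000 * ta * m) * (2 * Real.exp (-(3769 / 2 * ta) * t))
        = 2 * Real.exp (10000 * ta * m + -(3769 / 2 * ta) * t) := by
      rw [Real.exp_add]; ring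
    rw [this]
    apply mul_le_mul_of_nonneg_left _ (by norm_num)
    apply Real.exp_le_exp.mpr
    have b1 := mul_le_mul_of_nonneg_left hm1 (show (0 : ℝ) ≤ 10000 * ta by linarith)
    have b2 := mul_le_mul_of_nonneg_left ht (show (0 : ℝ) ≤ 9 * ta by linarith)
    have b3 : 0 ≤ ta * t := by positivity
    rw [hc1]
    nlinarith
  have a2 : Real.exp (10000 * ta * m) * (9 / (3769 / 2 * ta) * Real.exp (-(10000 * ta * ((n : ℝ) - 1))))
      ≤ D2 * Real.exp (-(c2 * (n : ℝ))) := by
    have e1 : Real.exp (10000 * ta * m) * (9 / (3769 / 2 * ta) * Real.exp (-(10000 * ta * ((n : ℝ) - 1))))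
        = 9 / (3769 / 2 * ta) * Real.exp (10000 * ta * m + -(10000 * ta * ((n : ℝ) - 1))) := by
      rw [Real.exp_add]; ring
    have e2 : D2 * Real.exp (-(c2 * (n : ℝ))) = 9 / (3769 / 2 * ta) * Real.exp (10000 * ta + -(c2 * (n : ℝ))) := by
      rw [hD2, Real.exp_add]; ring
    rw [e1, e2]
    apply mul_le_mul_of_nonneg_left _ (by positivity)
    apply Real.exp_le_exp.mpr
    have b1 := mul_le_mul_of_nonneg_left hm2 (show (0 : ℝ) ≤ 10000 * ta by linarith)
    rw [hc2]
    linarith
  rw [mul_add] at h1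
  linarith

end Pool.Agent.UTM
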